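import Pool.Agent.MP_c98b3a_gt.cf.Defs2

/-! Manifolds that are conformally covered by a domain of the sphere. -/

open scoped Manifold ContDiff

namespace Pool.Agent.MP_c98b3a_gt

variable {E H F : Type} [NormedAddCommGroup E] [NormedSpace ℝ E] [TopologicalSpace H]
  {I : ModelWithCorners ℝ E H} [NormedAddCommGroup F] [InnerProductSpace ℝ F]
  {N M : Type} [TopologicalSpace N] [ChartedSpace H N] [TopologicalSpace M] [ChartedSpace H M]

/-- The differential `df_x(v)` of a map `f` between manifolds. -/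
noncomputable def dmap (f : N → M) (x : N) (v : TangentSpace I x) : TangentSpace I (f x) :=
  mfderiv I I f x v

/-- `w` is Lipschitz, the open set `Ω = {w > 0}` is not empty, `w` and `f` are smooth on `Ω`, and
`f^* g = w^{-2} X^* g_euclid` on `Ω`. -/
structure Kleinian [IsManifold I ∞ M] (g : Metrics I M) (X : N → F) (w : N → ℝ) (f : N → M) :
    Prop where
  lipschitz : ∃ K : ℝ, ∀ x x', |w x - w x'| ≤ K * ‖X x - X x'‖
  nonempty : ∃ x, 0 < w x
  smooth_w : ContMDiffOn I 𝓘(ℝ, ℝ) ∞ w {x | 0 < w x}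
  smooth_f : ContMDiffOn I I ∞ f {x | 0 < w x}
  pullback : ∀ x, 0 < w x → ∀ v v' : TangentSpace I x,
    gin g (f x) (dmap f x v) (dmap f x v') = inner ℝ (dvec X x v) (dvec X x v') / w x ^ 2

end Pool.Agent.MP_c98b3a_gt
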