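import Mathlib.Analysis.Calculus.InverseFunctionTheorem.ContDiff
import Mathlib.MeasureTheory.Measure.HasOuterApproxClosed
import Pool.Agent.MP_c98b3a_gt.cf.All
import Pool.Agent.MP_c98b3a_gt.kl.Defs

-- ======== part 0: formerly Pool.Agent.MP_c98b3a_gt.kl.Spec
section MrgPart0

/-! The entropy of Kleinian manifolds: row statements. -/

open scoped Manifold ContDiff Matrix Topology
open MeasureTheory Real

noncomputable section

namespace Pool.Agent.MP_c98b3a_gt.KL

open CF

/-! Metrics on the sphere. -/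

/-- every conformal factor defines a metric -/
def S_CONF : Prop := ∀ (m : ℕ) (s : Sph m → ℝ), Smo (Fin m) s →
  ∃ g : Metrics 𝓘(ℝ, Euc (Fin m)) (Sph m), Conf g s

/-- conformal change of the volume -/
def S_CCV : Prop := AllM fun ι M _ _ _ _ _ _ g => ∀ (g' : Metrics 𝓘(ℝ, Euc ι) M) (u : M → ℝ),
  Continuous u → (∀ x v w, gin g x v w = exp (2 * u x) * gin g' x v w) →
    ∀ F : M → ℝ, ∫ p, F p ∂vol g = ∫ p, exp (Fintype.card ι * u p) * F p ∂vol g'

/-! Local isometries. -/

/-- `f` is a local isometry on the open set `U` -/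
structure LocIso {ι N M : Type} [Fintype ι] [TopologicalSpace N] [ChartedSpace (Euc ι) N]
    [IsManifold 𝓘(ℝ, Euc ι) ∞ N] [TopologicalSpace M] [ChartedSpace (Euc ι) M]
    [IsManifold 𝓘(ℝ, Euc ι) ∞ M] (g' : Metrics 𝓘(ℝ, Euc ι) N) (g : Metrics 𝓘(ℝ, Euc ι) M)
    (f : N → M) (U : Set N) : Prop where
  op : IsOpen U
  sm : ContMDiffOn 𝓘(ℝ, Euc ι) 𝓘(ℝ, Euc ι) ∞ f U
  iso : ∀ x ∈ U, ∀ v w, gin g (f x) (dmap f x v) (dmap f x w) = gin g' x v w

/-- quantification over local isometries between closed manifolds -/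
def AllP (P : ∀ (ι N M : Type) [Fintype ι] [DecidableEq ι] [TopologicalSpace N]
    [ChartedSpace (Euc ι) N] [IsManifold 𝓘(ℝ, Euc ι) ∞ N] [MeasurableSpace N] [TopologicalSpace M]
    [ChartedSpace (Euc ι) M] [IsManifold 𝓘(ℝ, Euc ι) ∞ M] [MeasurableSpace M],
    Metrics 𝓘(ℝ, Euc ι) N → Metrics 𝓘(ℝ, Euc ι) M → (N → M) → Set N → Prop) : Prop :=
  ∀ (ι N M : Type) [Fintype ι] [DecidableEq ι] [Nonempty ι] [TopologicalSpace N] [T2Space N]
    [CompactSpace N] [ChartedSpace (Euc ι) N] [IsManifold 𝓘(ℝ, Euc ι) ∞ N] [MeasurableSpace N]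
    [BorelSpace N] [TopologicalSpace M] [T2Space M] [CompactSpace M] [ChartedSpace (Euc ι) M]
    [IsManifold 𝓘(ℝ, Euc ι) ∞ M] [MeasurableSpace M] [BorelSpace M] (g' : Metrics 𝓘(ℝ, Euc ι) N)
    (g : Metrics 𝓘(ℝ, Euc ι) M) (f : N → M) (U : Set N), LocIso g' g f U → P ι N M g' g f U

/-- adapted charts -/
def S_LC : Prop := AllP fun ι N M _ _ _ _ _ _ _ _ _ _ g' g f U => ∀ x0 ∈ U,
  ∃ (e : OpenPartialHomeomorph N (Euc ι)) (e' : OpenPartialHomeomorph M (Euc ι)),
    IsChart e ∧ IsChart e' ∧ x0 ∈ e.source ∧ e.source ⊆ U ∧ e'.target = e.target ∧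
      (∀ y ∈ e.target, e'.symm y = f (e.symm y)) ∧ ∀ y ∈ e.target, gmat g e' y = gmat g' e y

/-- one sheet -/
def S_SH : Prop := AllP fun ι N M _ _ _ _ _ _ _ _ _ _ g' g f U => ∀ x0 ∈ U, ∃ V : Set N,
  IsOpen V ∧ x0 ∈ V ∧ V ⊆ U ∧ Set.InjOn f V ∧ IsOpen (f '' V) ∧
    (∀ x ∈ V, scalM g' x = scalM g (f x)) ∧
    (∀ A B A' B', Smo ι A → Smo ι B → Smo ι A' → Smo ι B' → ∀ x ∈ V, A' =ᶠ[𝓝 x] A ∘ f →
      B' =ᶠ[𝓝 x] B ∘ f → gam g' A' B' x = gam g A B (f x)) ∧
    (∀ (Φ : M → ℝ) (Φ' : N → ℝ), Continuous Φ → Continuous Φ' → (∀ y ∉ f '' V, Φ y = 0) →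
      (∀ x ∉ V, Φ' x = 0) → (∀ x ∈ V, Φ' x = Φ (f x)) → ∫ y, Φ y ∂vol g = ∫ x, Φ' x ∂vol g') ∧
    ∀ F : N → ℝ, Smo ι F → tsupport F ⊆ V → ∃ F' : M → ℝ, Smo ι F' ∧ tsupport F' ⊆ f '' V ∧
      ∀ x ∈ V, F' (f x) = F x

/-- the push-forward of the square of a test function -/
def S_PU : Prop := AllP fun ι N M _ _ _ _ _ _ _ _ _ _ g' g f U => ∀ φ : N → ℝ, Smo ι φ →
  tsupport φ ⊆ U → ∃ P : M → ℝ, Smo ι P ∧ (∀ y, 0 ≤ P y) ∧ (∀ x ∈ U, φ x ^ 2 ≤ P (f x)) ∧
    (∀ x ∈ U, ∀ x' ∈ U, x ≠ x' → f x = f x' → φ x ^ 2 + φ x' ^ 2 ≤ P (f x)) ∧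
    (∀ ψ : M → ℝ, Continuous ψ → Continuous (fun x => ψ (f x) * φ x ^ 2) ∧
      ∫ y, ψ y * P y ∂vol g = ∫ x, ψ (f x) * φ x ^ 2 ∂vol g') ∧
    ∀ G, Smo ι G → ∫ y, gam g P G y ∂vol g ≤
      2 * ∫ x, gam g' φ φ x ∂vol g' + 1 / 2 * ∫ y, gam g G G y * P y ∂vol g

/-- the entropy of the target tested on the source -/
def S_ENT : Prop := AllP fun ι N _ _ _ _ _ _ _ _ _ _ _ g' g f U =>
  (∀ x ∈ U, scalM g' x = scalM g (f x)) ∧ IsOpen (f '' U) ∧
  ∀ (a τ : ℝ) (φ : N → ℝ) (Z E : ℝ), (a : EReal) ≤ entNu g → 0 < τ → Smo ι φ → tsupport φ ⊆ U →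
    Z = ∫ x, φ x ^ 2 ∂vol g' → E = ∫ x, (scalM g' x * φ x ^ 2 + 4 * gam g' φ φ x) ∂vol g' →
    0 < Z → (a ≤ (τ * E - ∫ x, φ x ^ 2 * log (φ x ^ 2) ∂vol g') / Z + log Z -
        Fintype.card ι / 2 * log (4 * π * τ) - Fintype.card ι) ∧
      (a ≤ τ * E / Z + log ((vol g).real Set.univ) -
        Fintype.card ι / 2 * log (4 * π * τ) - Fintype.card ι) ∧
      (U = Set.univ → (∀ x, φ x = 1) →
        τ * E / Z + log Z - Fintype.card ι / 2 * log (4 * π * τ) - Fintype.card ι ≤ a →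
          Function.Injective f)

/-! Truncated conformal factors on a round sphere. -/

section

variable {m : ℕ} {N : Type} [TopologicalSpace N] [MeasurableSpace N] {μ : Measure N}

/-- the energy of the test function with profile `q` -/
def En (c : SC m N μ) (q : ℝ → ℝ) (S : N → ℝ) : ℝ :=
  ∫ p, (m * (m - 1) * q (S p) ^ 2 +
    ((q (S p) - 2 * deriv q (S p)) ^ 2 - (m - 1) * q (S p) ^ 2) * c.Γ S S p) * exp (-2 * S p) ∂μ

/-- `S'` is a smooth truncation of `S` at level `T` -/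
structure Lev (c : SC m N μ) (Ω : Set N) (S S' : N → ℝ) (T a c0 R : ℝ) : Prop where
  sm : c.Sm S'
  eq : ∀ p ∈ Ω, S p ≤ T → S' p = S p
  ge : ∀ p, (p ∈ Ω → T ≤ S p) → T ≤ S' p
  curv : ∀ G : ℝ → ℝ, ContDiff ℝ ∞ G → (∀ t, 0 ≤ G t) → (∀ t, T - 1 ≤ t → G t = 0) →
    ∫ p, (m - 1) * ((m + 2) * G (S' p) - 2 * deriv G (S' p)) * (c.Γ S' S' p * exp (-2 * S' p)) ∂μ ≤
      ∫ p, (m * (m - 1) * exp (-2 * S' p) + R) * G (S' p) ∂μ
  gap : ∀ q : ℝ → ℝ, ContDiff ℝ ∞ q → (∀ t, T - 1 ≤ t → q t = 0) →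
    c0 * ∫ p, q (S' p) ^ 2 ∂μ ≤ En c q S'
  ent : ∀ q : ℝ → ℝ, ContDiff ℝ ∞ q → (∀ t, T - 1 ≤ t → q t = 0) → ∀ k Z : ℝ,
    Z = ∫ p, q (S' p) ^ 2 ∂μ → a * Z ≤ exp (-2 * k) / (2 * (m - 1)) * En c q S' +
      ∫ p, q (S' p) ^ 2 * (m * (S' p + k) - log (q (S' p) ^ 2)) ∂μ + Z * log Z - m / 2 * Z

variable (μ) in
/-- truncations at all levels -/
structure Tower (x : Fin (m + 1) → N → ℝ) (Ω : Set N) (S : N → ℝ) (a c0 R : ℝ) : Prop where
  ms : MeasurableSet Ω
  mS : Measurable S
  bd : ∃ b, ∀ p ∈ Ω, b ≤ S p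
  lev : ∀ T, ∃ (c : SC m N μ) (S' : N → ℝ), c.x = x ∧ Lev c Ω S S' T a c0 R

end

/-- quantification over compact probability spaces -/
def AllN (P : ∀ (N : Type) [TopologicalSpace N] [MeasurableSpace N], Measure N → Prop) : Prop :=
  ∀ (N : Type) [TopologicalSpace N] [CompactSpace N] [T2Space N] [MeasurableSpace N]
    [BorelSpace N] (μ : Measure N) [IsProbabilityMeasure μ], P N μ

/-- the gradient bound -/
def S_GB : Prop := AllS fun m _ _ _ μ c => 2 ≤ m → ∀ Ω S S' T a c0 R b, Lev c Ω S S' T a c0 R →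
  (∀ p ∈ Ω, b ≤ S p) → b ≤ T → (∀ p, b ≤ S' p) ∧ ∀ η : ℝ → ℝ, Continuous η → (∀ t, η t ≤ 1) →
    (∀ t, T - 2 ≤ t → η t = 0) →
      ∫ p, η (S' p) * (c.Γ S' S' p * exp (-2 * S' p)) ∂μ ≤ exp (-2 * b) + |R|

/-- the Poincare inequality -/
def S_POI : Prop := AllS fun m _ _ _ μ c => ∀ F, c.Sm F →
  m * ∫ p, (F p - ∫ p, F p ∂μ) ^ 2 ∂μ ≤ ∫ p, c.Γ F F p ∂μ

/-- the complement of the domain is null, and the conformal factor has uniform tails -/
def S_TAIL : Prop := AllN fun N _ _ μ => ∀ (m : ℕ) (x : Fin (m + 1) → N → ℝ) Ω S a c0 R, 20 ≤ m →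
  Tower μ x Ω S a c0 R → 0 < c0 → 0 < μ Ω →
    μ Ωᶜ = 0 ∧ ∀ S0, c0 * exp (2 * S0) * μ.real {p | S0 ≤ S p} ≤ 4 * m ^ 2

/-- the almost balanced inequality on one sphere -/
def Abs2 {m : ℕ} {N : Type} [TopologicalSpace N] [MeasurableSpace N] {μ : Measure N}
    (c : SC m N μ) (B Y : ℝ → ℝ) (K : ℝ) : Prop :=
  ∀ s, c.Sm s → ∀ ε, ε ≤ 1 → |∫ p, Y (m * s p) ∂μ| ≤ ε →
    (∀ i, |∫ p, Y (m * s p) * c.x i p ∂μ| ≤ ε) → Psi c B s ≤ K * ε - (∫ p, Y (m * s p) ^ 2 ∂μ) / K

def S_ABS2 : Prop := ∀ C > (0 : ℝ), ∃ δ > (0 : ℝ), ∃ (m0 : ℕ) (K : ℕ → ℝ), (∀ m, 0 < K m) ∧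
  AllS fun m _ _ _ _ c => m0 ≤ m → ∀ B Y, OD m C δ B Y → Abs2 c B Y (K m)

/-- passing to the limit in the truncation -/
def S_CMP : Prop := AllN fun N _ _ μ => ∀ (m : ℕ) (x : Fin (m + 1) → N → ℝ) Ω S a c0 R C δ B Y K k ε,
  2 ≤ m → Tower μ x Ω S a c0 R → μ Ωᶜ = 0 → OD m C δ B Y → 0 < K → (∀ c : SC m N μ, Abs2 c B Y K) →
    ε ≤ 1 → |∫ p, Y (m * (S p + k)) ∂μ| < ε → (∀ i, |∫ p, Y (m * (S p + k)) * x i p ∂μ| < ε) →
      a * ∫ p, exp (B (m * (S p + k)) / m) ∂μ ≤ K * ε - (∫ p, Y (m * (S p + k)) ^ 2 ∂μ) / K ∧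
        m - ε - 3 / 10 * ∫ p, Y (m * (S p + k)) ^ 2 ∂μ ≤ m * ∫ p, exp (B (m * (S p + k)) / m) ∂μ

/-! The gauge. -/

/-- the data of the gauge problem -/
structure Gau {ι M : Type} [Fintype ι] [TopologicalSpace M] [MeasurableSpace M] (μ : Measure M)
    (w : M → ℝ) (z : M → Euc ι) (m κ : ℝ) (Y : ℝ → ℝ) : Prop where
  cw : Continuous w
  cz : Continuous z
  nz : ∀ p, ‖z p‖ = 1
  hm : 1 ≤ m
  hκ : 0 < κ
  cY : Continuous Y
  mono : StrictMono Y
  zero : Y 0 = 0
  bdd : ∃ A, ∀ S, Y S ≤ A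
  pos : ∀ᵐ p ∂μ, 0 < w p
  mass : ∀ v : ℝ × Euc ι, ‖v.2‖ < v.1 →
    ∫ p, exp (-m * log (aff v (z p))) ∂μ = κ * exp (-(m / 2) * log (lor v v))

/-- quantification over gauge problems -/
def AllG (P : ∀ (ι M : Type) [Fintype ι] [DecidableEq ι] [TopologicalSpace M] [MeasurableSpace M],
    Measure M → (M → ℝ) → (M → Euc ι) → ℝ → (ℝ → ℝ) → Prop) : Prop :=
  ∀ (ι M : Type) [Fintype ι] [DecidableEq ι] [TopologicalSpace M] [CompactSpace M] [T2Space M]
    [MeasurableSpace M] [BorelSpace M] (μ : Measure M) [IsFiniteMeasure μ] (w : M → ℝ)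
    (z : M → Euc ι) (m κ : ℝ) (Y : ℝ → ℝ), Gau μ w z m κ Y → P ι M μ w z m Y

/-- almost balanced gauges -/
def S_BAL2 : Prop := AllG fun ι _ _ _ _ _ μ w z m Y =>
  (∀ θ > (0 : ℝ), ∃ S0, ∀ v : ℝ × Euc ι, 0 < v.1 → lor v v = 1 →
    ∫ p in {p | S0 ≤ log (aff v (z p)) - log (w p)}, exp (-m * log (aff v (z p))) ∂μ ≤ θ) →
  ∃ k0, ∀ ε > (0 : ℝ), ∃ v : ℝ × Euc ι, 0 < v.1 ∧ lor v v = 1 ∧ ∃ k : ℝ, |k| ≤ k0 ∧
    |∫ p, exp (-m * log (aff v (z p))) * Y (m * (log (aff v (z p)) - log (w p) + k)) ∂μ| ≤ ε ∧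
    ∀ i, |∫ p, exp (-m * log (aff v (z p))) * (Y (m * (log (aff v (z p)) - log (w p) + k)) *
      (aff (fr v i) (z p) / aff v (z p))) ∂μ| ≤ ε

/-- good gauges of a Lipschitz factor are bounded -/
def S_RB : Prop := AllG fun ι _ _ _ _ _ μ w z m Y =>
  (∃ K, ∀ p p', |w p - w p'| ≤ K * ‖z p - z p'‖) → ∀ k0 : ℝ, ∃ ε > (0 : ℝ), ∃ R : ℝ,
    ∀ v : ℝ × Euc ι, 0 < v.1 → lor v v = 1 → ∀ k : ℝ, |k| ≤ k0 →
      ∫ p, exp (-m * log (aff v (z p))) * Y (m * (log (aff v (z p)) - log (w p) + k)) ^ 2 ∂μ ≤ ε →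
        v.1 ≤ R

/-- rigidity -/
def S_RIG : Prop := AllG fun ι M _ _ _ _ μ w z m Y =>
  (∃ K, ∀ p p', |w p - w p'| ≤ K * ‖z p - z p'‖) →
  (∀ F : M → ℝ, Continuous F → (∀ p, 0 ≤ F p) → ∫ p, F p ∂μ = 0 → ∀ p, F p = 0) → ∀ k0 : ℝ,
  (∀ ε > (0 : ℝ), ∃ v : ℝ × Euc ι, 0 < v.1 ∧ lor v v = 1 ∧ ∃ k : ℝ, |k| ≤ k0 ∧
    ∫ p, exp (-m * log (aff v (z p))) * Y (m * (log (aff v (z p)) - log (w p) + k)) ^ 2 ∂μ ≤ ε) →
  ∃ v : ℝ × Euc ι, 0 < v.1 ∧ lor v v = 1 ∧ ∃ k : ℝ, ∀ p, w p = exp k * aff v (z p)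

/-! The geometric package. -/

/-- quantification over Kleinian manifolds -/
def AllK (P : ∀ (m : ℕ) (M : Type) [TopologicalSpace M] [ChartedSpace (Euc (Fin m)) M]
    [IsManifold 𝓘(ℝ, Euc (Fin m)) ∞ M] [MeasurableSpace M], Metrics 𝓘(ℝ, Euc (Fin m)) M →
    (Sph m → ℝ) → (Sph m → M) → Metrics 𝓘(ℝ, Euc (Fin m)) (Sph m) → Prop) : Prop :=
  ∀ (m : ℕ) (M : Type) [TopologicalSpace M] [T2Space M] [CompactSpace M]
    [ChartedSpace (Euc (Fin m)) M] [IsManifold 𝓘(ℝ, Euc (Fin m)) ∞ M] [MeasurableSpace M]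
    [BorelSpace M] (g : Metrics 𝓘(ℝ, Euc (Fin m)) M) (w : Sph m → ℝ) (f : Sph m → M)
    (g0 : Metrics 𝓘(ℝ, Euc (Fin m)) (Sph m)), 2 ≤ m → Kleinian g incl w f → Conf g0 (fun _ => 0) →
    P m M g w f g0

/-- a truncated metric -/
def S_LV : Prop := AllK fun m _ _ _ _ _ g w f g0 => ∀ v : ℝ × Euc (Fin (m + 1)), 0 < v.1 →
  lor v v = 1 → ∀ (μ : Measure (Sph m)) [IsProbabilityMeasure μ],
    (∀ F, Continuous F → volS m * ∫ p, F p ∂μ = ∫ p, exp (-m * log (aff v p)) * F p ∂vol g0) →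
    ∀ T : ℝ, ∃ (g' : Metrics 𝓘(ℝ, Euc (Fin m)) (Sph m)) (S' : Sph m → ℝ) (c : SC m (Sph m) μ),
      Smo (Fin m) S' ∧ (∀ F, Smo (Fin m) F → c.Sm F) ∧
      (∀ F G p, c.Γ F G p = exp (2 * S' p) * gam g' F G p) ∧
      (c.x = fun i (p : Sph m) => aff (fr v i) p / aff v p) ∧
      (∀ F, Continuous F → volS m * ∫ p, F p ∂μ = ∫ p, exp (-m * S' p) * F p ∂vol g') ∧
      (∀ F, Smo (Fin m) F → ∫ p, scalM g' p * F p ∂vol g' =
        ∫ p, (m * (m - 1) * exp (-2 * S' p) * F p + 2 * (m - 1) * gam g' S' F p +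
          (m - 1) * (m - 2) * gam g' S' S' p * F p) ∂vol g') ∧
      (∀ p, 0 < w p → log (aff v p) - log (w p) ≤ T → S' p = log (aff v p) - log (w p)) ∧
      (∀ p, (0 < w p → T ≤ log (aff v p) - log (w p)) → T ≤ S' p) ∧
      LocIso g' g f {p | S' p < T}

/-- the tower of a gauge -/
def S_TOW : Prop := AllK fun m _ _ _ _ _ g w _ g0 => ∀ a : ℝ, (a : EReal) ≤ entNu g →
  ∃ c0 > (0 : ℝ), ∃ R : ℝ, ∀ v : ℝ × Euc (Fin (m + 1)), 0 < v.1 → lor v v = 1 →
    ∃ (μ : Measure (Sph m)) (_ : IsProbabilityMeasure μ),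
      (∀ F : Sph m → ℝ, volS m * ∫ p, F p ∂μ = ∫ p, exp (-m * log (aff v p)) * F p ∂vol g0) ∧
      vol g0 ≪ μ ∧ 0 < μ {p | 0 < w p} ∧
      Tower μ (fun i (p : Sph m) => aff (fr v i) p / aff v p) {p | 0 < w p}
        (fun p => log (aff v p) - log (w p)) (a - log (theta m)) c0 R

/-- a round domain covers with multiplicity one -/
def S_INJ : Prop := AllK fun m M _ _ _ _ g w f _ => ∀ v : ℝ × Euc (Fin (m + 1)), 0 < v.1 →
  lor v v = 1 → ∀ k : ℝ, (∀ p : Sph m, w p = exp k * aff v p) →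
    ((log (theta m) : ℝ) : EReal) ≤ entNu g → ConnectedSpace M → Function.Bijective f

end Pool.Agent.MP_c98b3a_gt.KL

end

end MrgPart0

-- ======== part 1: formerly Pool.Agent.MP_c98b3a_gt.kl.ENT
section MrgPart1

/-! The entropy of Kleinian manifolds: testing the entropy of the target on the source. -/

open scoped Manifold ContDiff Matrix Topology
open MeasureTheory Real Filter

noncomputable section

namespace Pool.Agent.MP_c98b3a_gt.KL

open CF

namespace ENT

variable {ι M : Type} [Fintype ι] [DecidableEq ι] [TopologicalSpace M] [T2Space M]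
  [CompactSpace M] [ChartedSpace (Euc ι) M] [IsManifold 𝓘(ℝ, Euc ι) ∞ M] [MeasurableSpace M]
  [BorelSpace M] [Nonempty M] (g : Metrics 𝓘(ℝ, Euc ι) M)

/-- the entropy tested on a nonnegative density -/
theorem core {P : M → ℝ} (hP : Smo ι P) (h0 : ∀ y, 0 ≤ P y) {a τ Z R A : ℝ}
    (ha : (a : EReal) ≤ entNu g) (hτ : 0 < τ) (hZ : 0 < Z) (eZ : ∫ y, P y ∂vol g = Z)
    (eR : ∫ y, scalM g y * P y ∂vol g = R)
    (hA : ∀ G, Smo ι G → ∫ y, gam g P G y ∂vol g ≤ 2 * A + 1 / 2 * ∫ y, gam g G G y * P y ∂vol g)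
    {l : ℝ → ℝ} (hl : Continuous l)
    (hL : ∀ d, 0 < d → l d ≤ ∫ y, (P y + d) * log (P y + d) ∂vol g) :
    a ≤ (τ * (R + 4 * A) - l 0) / Z + log Z -
      Fintype.card ι / 2 * log (4 * π * τ) - Fintype.card ι := by
  have := finite_vol g
  have gf := gamF g
  have cP := hP.continuous
  have cR := continuous_scalM g
  set V := (vol g).real Set.univ with hV
  have V0 : 0 ≤ V := measureReal_nonneg
  set Q := ∫ y, scalM g y ∂vol g with hQ
  have hc : ContinuousAt (fun d : ℝ => (τ * (R + d * Q + 4 * A) - l d) / (Z + d * V) +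
      log (Z + d * V) - Fintype.card ι / 2 * log (4 * π * τ) - Fintype.card ι) 0 := by
    have z : Z + (0 : ℝ) * V ≠ 0 := by simpa using hZ.ne'
    fun_prop (disch := exact z)
  have lim := hc.tendsto.mono_left (nhdsWithin_le_nhds (s := Set.Ioi 0))
  simp only [zero_mul, add_zero] at lim
  refine ge_of_tendsto lim (mem_of_superset self_mem_nhdsWithin fun d (hd : 0 < d) => ?_)
  have p : ∀ y, 0 < P y + d := fun y => by linarith [h0 y]
  have sG : Smo ι fun y => log (P y + d) := fun y =>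
    ((contDiffAt_log.2 (p y).ne').contMDiffAt.comp y
      (f := fun y => P y + d) (hP.add contMDiff_const y))
  have sρ : Smo ι fun y => -log (P y + d) := sG.neg
  have cG := sG.continuous
  have cg := gf.cont sG sG
  have t := Yam.ray_test g sρ (c := 1) ha hτ
  have e1 : ∀ y, gradSqM g (fun y => -log (P y + d)) y =
      gam g (fun y => log (P y + d)) (fun y => log (P y + d)) y := fun y => by
    rw [Yam.gradSqM_comp g sG (h := fun t => -t) (hasDerivAt_neg' _)]
    simp only [even_two, Even.neg_pow, one_pow, one_mul]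
    rfl
  simp only [Yam.lap, one_mul, one_pow, neg_neg, exp_log (p _), e1] at t
  have z1 : ∫ y, (P y + d) ∂vol g = Z + d * V := by
    rw [integral_add (integrable_vol g cP) (integrable_const _), eZ, integral_const, smul_eq_mul,
      mul_comm]
  have z2 : ∫ y, scalM g y * (P y + d) ∂vol g = R + d * Q := by
    simp only [mul_add]
    rw [integral_add (integrable_vol g (by fun_prop)) (integrable_vol g (by fun_prop)), eR,
      integral_mul_const, mul_comm]
  have z3 : ∫ y, -log (P y + d) * (P y + d) ∂vol g = -∫ y, (P y + d) * log (P y + d) ∂vol g := by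
    rw [← integral_neg]
    exact integral_congr_ae (.of_forall fun y => by ring)
  have z4 : ∫ y, gam g (fun y => log (P y + d)) (fun y => log (P y + d)) y * (P y + d) ∂vol g ≤
      4 * A := by
    have b1 := hA _ sG
    have b2 : ∀ y, gam g (fun y => log (P y + d)) (fun y => log (P y + d)) y * (P y + d) =
        gam g P (fun y => log (P y + d)) y := fun y => by
      rw [gf.comp (φ := fun t => log (t + d)) hP _ y
        (((hasDerivAt_id' (P y)).add_const d).log (p y).ne')]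
      field_simp [(p y).ne']
    have b3 : ∫ y, gam g (fun y => log (P y + d)) (fun y => log (P y + d)) y * P y ∂vol g ≤
        ∫ y, gam g (fun y => log (P y + d)) (fun y => log (P y + d)) y * (P y + d) ∂vol g :=
      integral_mono (integrable_vol g (by fun_prop)) (integrable_vol g (by fun_prop)) fun y =>
        mul_le_mul_of_nonneg_left (by linarith) (gf.nonneg _ y)
    simp only [b2] at b3 ⊢
    linarith
  have zp : 0 < Z + d * V := by positivity
  rw [z1, z2, z3, ← add_div] at t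
  refine t.trans ?_
  have := hL d hd
  show _ ≤ (τ * (R + d * Q + 4 * A) - l d) / (Z + d * V) + log (Z + d * V) -
    Fintype.card ι / 2 * log (4 * π * τ) - Fintype.card ι
  gcongr ?_ / _ + _ - _ - _
  nlinarith [mul_le_mul_of_nonneg_left z4 hτ.le]

omit [Nonempty M] in
theorem low {P : M → ℝ} (cP : Continuous P) (h0 : ∀ y, 0 ≤ P y) {d L : ℝ} (hd : 0 < d)
    (h : L ≤ ∫ y, log (P y + d) * P y ∂vol g) :
    L + d * log d * (vol g).real Set.univ ≤ ∫ y, (P y + d) * log (P y + d) ∂vol g := by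
  have := finite_vol g
  have cG : Continuous fun y => log (P y + d) :=
    (cP.add continuous_const).log fun y => (add_pos_of_nonneg_of_pos (h0 y) hd).ne'
  have e : d * log d * (vol g).real Set.univ = ∫ _, d * log d ∂vol g := by
    rw [integral_const, smul_eq_mul, mul_comm]
  refine (add_le_add h le_rfl).trans ?_
  rw [e, ← integral_add (integrable_vol g (by fun_prop)) (integrable_const _)]
  refine integral_mono (integrable_vol g (by fun_prop)) (integrable_vol g (by fun_prop)) fun y => ?_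
  have := mul_le_mul_of_nonneg_left (log_le_log hd (by linarith [h0 y] : d ≤ P y + d)) hd.le
  simp only
  linarith

theorem jen {x c : ℝ} (hx : 0 < x) (hc : 0 < c) : x * (log c + 1) - c ≤ x * log x := by
  have h := mul_le_mul_of_nonneg_left (log_le_sub_one_of_pos (div_pos hc hx)) hx.le
  rw [log_div hc.ne' hx.ne', mul_sub x (c / x), mul_div_cancel₀ _ hx.ne'] at h
  linarith

end ENT

theorem ent (h1 : S_SH) (h2 : S_PU) : S_ENT := by
  intro ι N M _ _ _ _ _ _ _ _ _ _ _ _ _ _ _ _ _ g' g f U hL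
  have sc : ∀ x ∈ U, scalM g' x = scalM g (f x) := fun x hx => by
    obtain ⟨V, -, hV, -, -, -, h, -⟩ := h1 ι N M g' g f U hL x hx
    exact h x hV
  refine ⟨sc, isOpen_iff_forall_mem_open.2 ?_, fun a τ φ Z E ha hτ hφ hU hZ hE Z0 => ?_⟩
  · rintro _ ⟨x, hx, rfl⟩
    obtain ⟨V, -, hV, hVU, -, h, -⟩ := h1 ι N M g' g f U hL x hx
    exact ⟨_, Set.image_mono hVU, h, x, hV, rfl⟩
  obtain ⟨P, sP, P0, P1, P2, PI, PG⟩ := h2 ι N M g' g f U hL φ hφ hU
  have hN : Nonempty N := by
    by_contra h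
    rw [not_nonempty_iff] at h
    rw [hZ, integral_of_isEmpty] at Z0
    exact lt_irrefl _ Z0
  have hM : Nonempty M := hN.map f
  have := finite_vol g
  have := finite_vol g'
  have cP := sP.continuous
  have cφ := hφ.continuous
  have cR := continuous_scalM g'
  have cg := (gamF g').cont hφ hφ
  have out : ∀ x, x ∉ U → φ x = 0 := fun x hx => image_eq_zero_of_notMem_tsupport fun h => hx (hU h)
  have eZ : ∫ y, P y ∂vol g = Z := by simpa [hZ] using (PI (fun _ => 1) continuous_const).2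
  have eE : ∫ y, scalM g y * P y ∂vol g + 4 * ∫ x, gam g' φ φ x ∂vol g' = E := by
    rw [(PI _ (continuous_scalM g)).2, hE, integral_add (integrable_vol g' (by fun_prop))
      (integrable_vol g' (by fun_prop)), integral_const_mul]
    congr 1
    refine integral_congr_ae (.of_forall fun x => ?_)
    by_cases hx : x ∈ U
    · simp only [sc x hx]
    · simp [out x hx]
  have co := fun l hl hL => ENT.core g sP P0 ha hτ Z0 eZ rfl PG (l := l) hl hL
  rw [eE] at co
  have lo : ∀ l : N → ℝ, Continuous l →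
      (∀ d, 0 < d → ∀ x, l x ≤ log (P (f x) + d) * φ x ^ 2) →
      a ≤ (τ * E - ∫ x, l x ∂vol g') / Z + log Z -
        Fintype.card ι / 2 * log (4 * π * τ) - Fintype.card ι := fun l cl hl => by
    have c0 : Continuous fun d : ℝ => ∫ x, l x ∂vol g' + d * log d * (vol g).real Set.univ :=
      continuous_const.add (continuous_mul_log.mul continuous_const)
    have := co _ c0 fun d hd => ENT.low g cP P0 hd (by
      obtain ⟨q1, q2⟩ := PI (fun y => log (P y + d))
        ((cP.add continuous_const).log fun y => (add_pos_of_nonneg_of_pos (P0 y) hd).ne')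
      rw [q2]
      exact integral_mono (integrable_vol g' cl) (integrable_vol g' q1) (hl d hd))
    simpa using this
  refine ⟨lo _ (continuous_mul_log.comp (cφ.pow 2)) fun d hd x => ?_, ?_, fun hU' h1' hle => ?_⟩
  · by_cases h : φ x = 0
    · simp [h]
    · have hx : x ∈ U := by_contra fun hx => h (out x hx)
      rw [mul_comm]
      exact mul_le_mul_of_nonneg_right (log_le_log (by positivity) (by linarith [P1 x hx]))
        (sq_nonneg _)
  · set V := (vol g).real Set.univ with hV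
    have V0 : 0 < V := by
      have : NeZero (vol g) := ⟨Yam.vol_ne_zero g⟩
      exact measureReal_univ_pos
    have := co (fun d => (Z + d * V) * (log (Z / V) + 1) - Z) (by fun_prop) fun d hd => by
      have e : (Z + d * V) * (log (Z / V) + 1) - Z =
          ∫ y, ((P y + d) * (log (Z / V) + 1) - Z / V) ∂vol g := by
        rw [integral_sub (integrable_vol g (by fun_prop)) (integrable_const _), integral_mul_const,
          integral_add (integrable_vol g cP) (integrable_const _), eZ, integral_const,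
          integral_const, smul_eq_mul, smul_eq_mul, ← hV, mul_div_cancel₀ _ V0.ne', mul_comm V]
      rw [e]
      exact integral_mono (integrable_vol g (by fun_prop))
        (integrable_vol g (continuous_mul_log.comp (cP.add continuous_const))) fun y =>
          ENT.jen (by linarith [P0 y]) (div_pos Z0 V0)
    refine this.trans_eq ?_
    rw [log_div Z0.ne' V0.ne']
    field_simp
    ring
  · have q1 : ∀ x, 1 ≤ P (f x) := fun x => by simpa [h1'] using P1 x (hU' ▸ Set.mem_univ x)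
    have cf : Continuous fun x => P (f x) := by simpa [h1'] using (PI P cP).1
    have cl : Continuous fun x => log (P (f x)) := cf.log fun x => by linarith [q1 x]
    have l0 : ∀ x, 0 ≤ log (P (f x)) := fun x => log_nonneg (q1 x)
    have b := lo _ cl fun d hd x => by
      rw [h1', one_pow, mul_one]
      exact log_le_log (by linarith [q1 x]) (by linarith)
    rw [sub_div] at b
    have b1 : (∫ x, log (P (f x)) ∂vol g') / Z ≤ 0 := by linarith
    have b2 : ∫ x, log (P (f x)) ∂vol g' = 0 :=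
      le_antisymm (by simpa [div_le_iff₀ Z0] using b1) (integral_nonneg l0)
    intro x x' hx
    by_contra hne
    have b3 := P2 x (hU' ▸ Set.mem_univ x) x' (hU' ▸ Set.mem_univ x') hne hx
    have b4 := (gam_ ι N g').2 _ cl l0 b2 x
    have b5 := eq_one_of_pos_of_log_eq_zero (by linarith [q1 x]) b4
    rw [h1', h1', b5] at b3
    norm_num at b3

end Pool.Agent.MP_c98b3a_gt.KL

end

end MrgPart1

-- ======== part 2: formerly Pool.Agent.MP_c98b3a_gt.kl.CCV
section MrgPart2

/-! Conformal change of the Riemannian volume. -/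

open scoped Manifold ContDiff Matrix Topology
open MeasureTheory Real

noncomputable section

namespace Pool.Agent.MP_c98b3a_gt.KL

open CF

namespace CCV

variable {ι M : Type} [Fintype ι] [DecidableEq ι] [TopologicalSpace M]
  [ChartedSpace (Euc ι) M] [IsManifold 𝓘(ℝ, Euc ι) ∞ M] {g g' : Metrics 𝓘(ℝ, Euc ι) M} {u : M → ℝ}

theorem dens (h : ∀ x v w, gin g x v w = exp (2 * u x) * gin g' x v w)
    (e : OpenPartialHomeomorph M (Euc ι)) (y : Euc ι) :
    √(gmat g e y).det = exp (Fintype.card ι * u (e.symm y)) * √(gmat g' e y).det := by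
  have h1 : gmat g e y = exp (2 * u (e.symm y)) • gmat g' e y :=
    Matrix.ext fun i j => h _ _ _
  have h2 : exp (2 * u (e.symm y)) ^ Fintype.card ι =
      exp (Fintype.card ι * u (e.symm y)) ^ 2 := by
    rw [← exp_nat_mul, ← exp_nat_mul]
    congr 1
    push_cast
    ring
  rw [h1, Matrix.det_smul, h2, sqrt_mul (sq_nonneg _), sqrt_sq (exp_pos _).le]

variable [MeasurableSpace M] [BorelSpace M] [T2Space M] [CompactSpace M]

theorem piece (hu : Continuous u) (h : ∀ x v w, gin g x v w = exp (2 * u x) * gin g' x v w)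
    (x : M) {t : Set M} (ht : MeasurableSet t) (hs : t ⊆ (chartAt (Euc ι) x).source) :
    vol g t = ∫⁻ p in t, ENNReal.ofReal (exp (Fintype.card ι * u p)) ∂vol g' := by
  have hc : Continuous fun p => exp (Fintype.card ι * u p) := by fun_prop
  have hfin := finite_vol g
  have h1 := setIntegral_chart g (isChart_at x) (f := t.indicator fun _ => (1 : ℝ))
    (measurable_const.indicator ht)
  have h2 := setIntegral_chart g' (isChart_at x)
    (f := t.indicator fun p => exp (Fintype.card ι * u p)) (hc.measurable.indicator ht)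
  rw [setIntegral_indicator ht, Set.inter_eq_right.2 hs] at h1 h2
  have h3 : (vol g).real t = ∫ p in t, exp (Fintype.card ι * u p) ∂vol g' := by
    rw [h2, ← mul_one ((vol g).real t), ← smul_eq_mul, ← setIntegral_const, h1]
    refine integral_congr_ae (Filter.Eventually.of_forall fun y => ?_)
    by_cases hy : (chartAt (Euc ι) x).symm y ∈ t
    · simp only [Set.indicator_of_mem hy, dens h, one_mul]
    · simp only [Set.indicator_of_notMem hy, zero_mul]
  rw [← ofReal_integral_eq_lintegral_ofReal (integrable_vol g' hc).integrableOn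
    (Filter.Eventually.of_forall fun p => (exp_pos _).le), ← h3, ofReal_measureReal]

theorem vol_eq (hu : Continuous u) (h : ∀ x v w, gin g x v w = exp (2 * u x) * gin g' x v w) :
    vol g = (vol g').withDensity fun p => ENNReal.ofReal (exp (Fintype.card ι * u p)) := by
  rcases isEmpty_or_nonempty M with hM | hM
  · exact Subsingleton.elim _ _
  obtain ⟨f, V, hVm, hVs, hd, hVu⟩ := exists_cover (ι := ι) (M := M)
  ext s hs
  rw [measure_split hVm hd hVu _ hs, measure_split hVm hd hVu (Measure.withDensity _ _) hs]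
  refine tsum_congr fun n => ?_
  rw [withDensity_apply _ (hs.inter (hVm n))]
  exact piece hu h (f n) (hs.inter (hVm n)) (Set.inter_subset_right.trans (hVs n))

end CCV

theorem ccv : S_CCV := by
  intro ι M _ _ _ _ _ _ _ _ _ _ g g' u hu h F
  have hc : Continuous fun p => exp (Fintype.card ι * u p) := by fun_prop
  rw [CCV.vol_eq hu h]
  refine (integral_withDensity_eq_integral_smul hc.measurable.real_toNNReal F).trans ?_
  refine integral_congr_ae (Filter.Eventually.of_forall fun p => ?_)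
  simp only [NNReal.smul_def, smul_eq_mul, coe_toNNReal _ (exp_pos _).le]

end Pool.Agent.MP_c98b3a_gt.KL

end

end MrgPart2

-- ======== part 3: formerly Pool.Agent.MP_c98b3a_gt.kl.GB
section MrgPart3

/-! The gradient bound below the truncation level. -/

open scoped Manifold ContDiff Matrix Topology
open MeasureTheory Real

noncomputable section

namespace Pool.Agent.MP_c98b3a_gt.KL

open CF

theorem gb : S_GB := by
  intro m N _ _ _ _ _ μ _ c hm Ω S S' T a c0 R b h hb hT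
  have a2 : (2 : ℝ) ≤ m := by exact_mod_cast hm
  have lb : ∀ p, b ≤ S' p := fun p => by
    by_cases k : p ∈ Ω → T ≤ S p
    · exact hT.trans (h.ge p k)
    · obtain ⟨k1, k2⟩ := Classical.not_imp.1 k
      rw [h.eq p k1 (not_le.1 k2).le]
      exact hb p k1
  refine ⟨lb, fun η cη h1 h2 => ?_⟩
  have sG : ContDiff ℝ ∞ fun t : ℝ => smoothTransition (T - 1 - t) :=
    smoothTransition.contDiff.comp (contDiff_const.sub contDiff_id)
  have dG : ∀ t, deriv (fun t : ℝ => smoothTransition (T - 1 - t)) t ≤ 0 := fun t =>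
    Antitone.deriv_nonpos fun x y hxy => smoothTransition.monotone (by linarith)
  have k := h.curv _ sG (fun t => smoothTransition.nonneg _)
    fun t ht => smoothTransition.zero_of_nonpos (by linarith)
  have cS := c.cont h.sm
  have cΓ := c.Γcont h.sm h.sm
  have cG := sG.continuous
  have cG' := sG.continuous_deriv (by simp)
  have k1 : ∫ p, (m - 1) * (m + 2) * (η (S' p) * (c.Γ S' S' p * exp (-2 * S' p))) ∂μ ≤ _ :=
    (integral_mono (ABS.intg (by fun_prop)) (ABS.intg (by fun_prop)) fun p => ?_).trans k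
  · have k2 := k1.trans (integral_mono (ABS.intg (by fun_prop))
      (integrable_const ((m - 1) * (m + 2) * (exp (-2 * b) + |R|))) fun p => ?_)
    · rw [integral_const_mul, integral_const, probReal_univ, one_smul] at k2
      exact le_of_mul_le_mul_left k2 (mul_pos (by linarith) (by linarith))
    · have e1 : exp (-2 * S' p) ≤ exp (-2 * b) := exp_le_exp.2 (by linarith [lb p])
      have e2 := smoothTransition.nonneg (T - 1 - S' p)
      have e3 := smoothTransition.le_one (T - 1 - S' p)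
      have e4 : (m : ℝ) * (m - 1) * exp (-2 * S' p) + R ≤
          (m - 1) * (m + 2) * (exp (-2 * b) + |R|) := by
        have := mul_le_mul_of_nonneg_left e1 (show (0 : ℝ) ≤ m * (m - 1) by nlinarith)
        have := mul_nonneg (show (0 : ℝ) ≤ m - 1 by linarith) (exp_pos (-2 * b)).le
        have := mul_nonneg (show (0 : ℝ) ≤ (m - 1) * (m + 2) - 1 by nlinarith) (abs_nonneg R)
        nlinarith [le_abs_self R]
      exact (mul_le_mul_of_nonneg_right e4 e2).trans (mul_le_of_le_one_right (mul_nonneg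
        (mul_nonneg (by linarith) (by linarith)) (by positivity)) e3)
  · have e1 : η (S' p) ≤ smoothTransition (T - 1 - S' p) := by
      rcases le_total (T - 2) (S' p) with e | e
      · rw [h2 _ e]; exact smoothTransition.nonneg _
      · rw [smoothTransition.one_of_one_le (by linarith)]; exact h1 _
    have e2 := mul_nonneg (c.Γnonneg h.sm p) (exp_pos (-2 * S' p)).le
    simp only [← mul_assoc _ (η _)]
    refine mul_le_mul_of_nonneg_right ?_ e2
    rw [mul_assoc]
    refine mul_le_mul_of_nonneg_left ?_ (by linarith)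
    nlinarith [dG (S' p)]

end Pool.Agent.MP_c98b3a_gt.KL

end

end MrgPart3

-- ======== part 4: formerly Pool.Agent.MP_c98b3a_gt.kl.INJ
section MrgPart4

/-! The entropy of Kleinian manifolds: a round domain covers with multiplicity one. -/

open scoped Manifold ContDiff Matrix Topology
open MeasureTheory Real

noncomputable section

namespace Pool.Agent.MP_c98b3a_gt.KL

open CF

theorem inj (h1 : S_LV) (h2 : S_ENT) : S_INJ := by
  intro m M _ _ _ _ _ _ _ g w f g0 hm hK h0 v v1 v2 k hw ha hC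
  have a4 : (0 : ℝ) < m - 1 := by
    have : (2 : ℝ) ≤ m := by exact_mod_cast hm
    linarith
  have : Nonempty (Fin m) := ⟨⟨0, by omega⟩⟩
  have hv := volS_pos m
  obtain ⟨-, pos, ⟨μ, hμ, -, -, -, -, c4⟩, -⟩ := (geo_all m g0 _ hm h0).2 v v1 v2 _ rfl
  simp only [zero_add] at c4
  obtain ⟨g', S', c, -, -, -, -, d4, cur, eq, -, li⟩ :=
    h1 m M g w f g0 hm hK h0 v v1 v2 μ c4 (1 - k)
  have e : ∀ p : Sph m, log (aff v p) - log (w p) = -k := fun p => by
    rw [hw p, log_mul (exp_pos _).ne' (pos p).ne', log_exp]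
    ring
  have eS : S' = fun _ => -k := funext fun p => by
    rw [eq p (by rw [hw p]; exact mul_pos (exp_pos _) (pos p)) (by rw [e]; linarith), e]
  subst eS
  rw [show {p : Sph m | -k < 1 - k} = Set.univ by ext; simp] at li
  obtain ⟨-, op, ent⟩ := h2 (Fin m) (Sph m) M g' g f _ li
  have gf := (gam_ (Fin m) (Sph m) g').1
  obtain ⟨Z, hZ⟩ : ∃ Z, Z = (vol g').real Set.univ := ⟨_, rfl⟩
  have z1 : Z = exp (-(m * k)) * volS m := by
    have := d4 (fun _ => 1) continuous_const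
    simp only [integral_const, smul_eq_mul, mul_one, probReal_univ, ← hZ] at this
    rw [this, mul_comm Z, ← mul_assoc, ← exp_add]
    simp
  have Z0 : 0 < Z := by rw [z1]; positivity
  have e1 : m * (m - 1) * exp (2 * k) * Z =
      ∫ x, (scalM g' x * (1 : ℝ) ^ 2 + 4 * gam g' (fun _ => 1) (fun _ => 1) x) ∂vol g' := by
    have := cur (fun _ => 1) contMDiff_const
    simp only [gf.const, mul_zero, add_zero, mul_one, one_pow, integral_const, smul_eq_mul,
      ← hZ] at this ⊢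
    rw [this, show -2 * -k = 2 * k by ring, mul_comm]
  have hi : Function.Injective f :=
    (ent _ (exp (-2 * k) / (2 * (m - 1))) (fun _ => 1) Z _ ha (by positivity) contMDiff_const
      (Set.subset_univ _) (by simp [hZ]) e1 Z0).2.2 rfl (fun _ => rfl) (le_of_eq (by
      have e2 : exp (-2 * k) / (2 * (m - 1)) * (m * (m - 1) * exp (2 * k) * Z) / Z = m / 2 := by
        rw [show -2 * k = -(2 * k) by ring, exp_neg]
        field_simp
      rw [e2, Fintype.card_fin, log_theta hm, z1, log_mul (exp_pos _).ne' hv.ne', log_exp,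
        show 4 * π * (exp (-2 * k) / (2 * (m - 1))) = 2 * π / (m - 1) * exp (-2 * k) by
          field_simp; ring, log_mul (by positivity) (exp_pos _).ne', log_exp]
      ring))
  have cf : Continuous f := continuousOn_univ.1 li.sm.continuousOn
  obtain ⟨x, -⟩ := hK.nonempty
  refine ⟨hi, Set.range_eq_univ.1 ?_⟩
  rw [← Set.image_univ]
  exact IsClopen.eq_univ ⟨(isCompact_univ.image cf).isClosed, op⟩ ⟨f x, x, trivial, rfl⟩

end Pool.Agent.MP_c98b3a_gt.KL

end

end MrgPart4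

-- ======== part 5: formerly Pool.Agent.MP_c98b3a_gt.kl.LC
section MrgPart5

/-! Adapted charts for a local isometry. -/

open scoped Manifold ContDiff Matrix Topology
open Set Filter

noncomputable section

namespace Pool.Agent.MP_c98b3a_gt.KL

open CF

namespace LC

/-- the inverse function theorem on an open set -/
theorem ift {ι : Type} [Fintype ι] {h : Euc ι → Euc ι} {W : Set (Euc ι)} (hW : IsOpen W)
    (hs : ContDiffOn ℝ ∞ h W) (hi : ∀ y ∈ W, Function.Injective (fderiv ℝ h y)) {y0 : Euc ι}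
    (h0 : y0 ∈ W) : ∃ H : OpenPartialHomeomorph (Euc ι) (Euc ι), (H : Euc ι → Euc ι) = h ∧
      y0 ∈ H.source ∧ H.source ⊆ W ∧ ContDiffOn ℝ ∞ H.symm H.target := by
  have key : ∀ y ∈ W, ∃ L : Euc ι ≃L[ℝ] Euc ι,
      HasFDerivAt h (L : Euc ι →L[ℝ] Euc ι) y := fun y hy => by
    have hd := ((hs.contDiffAt (hW.mem_nhds hy)).differentiableAt (by simp)).hasFDerivAt
    refine ⟨(LinearEquiv.ofInjectiveEndo (fderiv ℝ h y : Euc ι →ₗ[ℝ] Euc ι)
      (hi y hy)).toContinuousLinearEquiv, ?_⟩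
    exact hd.congr_fderiv (ContinuousLinearMap.ext fun v => rfl)
  obtain ⟨L, hL⟩ := key y0 h0
  have hc := hs.contDiffAt (hW.mem_nhds h0)
  let H0 := hc.toOpenPartialHomeomorph h hL (by simp)
  refine ⟨H0.restrOpen W hW, rfl, ⟨hc.mem_toOpenPartialHomeomorph_source hL _, h0⟩,
    inter_subset_right, fun z hz => ?_⟩
  have hz' : (H0.restrOpen W hW).symm z ∈ W := ((H0.restrOpen W hW).map_target hz).2
  obtain ⟨L', hL'⟩ := key _ hz'
  exact ((H0.restrOpen W hW).contDiffAt_symm hz hL'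
    (hs.contDiffAt (hW.mem_nhds hz'))).contDiffWithinAt

variable {ι N M : Type} [Fintype ι] [DecidableEq ι] [TopologicalSpace N] [ChartedSpace (Euc ι) N]
  [IsManifold 𝓘(ℝ, Euc ι) ∞ N] [TopologicalSpace M] [ChartedSpace (Euc ι) M]
  [IsManifold 𝓘(ℝ, Euc ι) ∞ M] {g' : Metrics 𝓘(ℝ, Euc ι) N} {g : Metrics 𝓘(ℝ, Euc ι) M}
  {f : N → M} {U : Set N}

omit [DecidableEq ι] in
theorem mdiff (hf : LocIso g' g f U) {x : N} (hx : x ∈ U) :
    MDifferentiableAt 𝓘(ℝ, Euc ι) 𝓘(ℝ, Euc ι) f x :=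
  (hf.sm.contMDiffAt (hf.op.mem_nhds hx)).mdifferentiableAt (by simp)

omit [DecidableEq ι] in
theorem inj (hf : LocIso g' g f U) {x : N} (hx : x ∈ U) :
    Function.Injective (mfderiv 𝓘(ℝ, Euc ι) 𝓘(ℝ, Euc ι) f x) := by
  refine (injective_iff_map_eq_zero _).2 fun v hv => ?_
  by_contra h0
  have h1 : 0 < gin g' x v v := g'.pos x v h0
  have h2 : dmap f x v = 0 := hv
  rw [← hf.iso x hx v v, h2] at h1
  simp [gin] at h1

theorem gm (hf : LocIso g' g f U) {e : OpenPartialHomeomorph N (Euc ι)}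
    {e' : OpenPartialHomeomorph M (Euc ι)} (he : IsChart e) (hU : e.source ⊆ U)
    (h : ∀ y ∈ e.target, e'.symm y = f (e.symm y)) {y : Euc ι} (hy : y ∈ e.target) :
    gmat g e' y = gmat g' e y := by
  have h1 : (e'.symm : Euc ι → M) =ᶠ[𝓝 y] f ∘ e.symm :=
    mem_of_superset (e.open_target.mem_nhds hy) fun z hz => h z hz
  have hx := hU (e.map_target hy)
  have h2 := mfderiv_comp (I := 𝓘(ℝ, Euc ι)) (I' := 𝓘(ℝ, Euc ι)) (I'' := 𝓘(ℝ, Euc ι)) y
    (f := e.symm) (g := f) (mdiff hf hx) (he.mdiff.mdifferentiableAt_symm hy)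
  have h3 : ∀ v, dpar e' y v = (dmap (I := 𝓘(ℝ, Euc ι)) f (e.symm y) (dpar e y v) : Euc ι) :=
    fun v => congrArg (fun L : Euc ι →L[ℝ] Euc ι => L v)
      ((h1.mfderiv_eq (I := 𝓘(ℝ, Euc ι)) (I' := 𝓘(ℝ, Euc ι))).trans h2)
  ext i j
  rw [gmat_apply, gmat_apply, h3, h3, h y hy]
  exact hf.iso _ hx _ _

end LC

theorem lc : S_LC := by
  intro ι N M _ _ _ _ _ _ _ _ _ _ _ _ _ _ _ _ _ g' g f U hf x0 hx0
  obtain ⟨c, hc, hc0⟩ : ∃ c : OpenPartialHomeomorph N (Euc ι), IsChart c ∧ x0 ∈ c.source :=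
    ⟨_, isChart_at x0, mem_chart_source _ _⟩
  obtain ⟨c', hc', hc0'⟩ : ∃ c' : OpenPartialHomeomorph M (Euc ι), IsChart c' ∧ f x0 ∈ c'.source :=
    ⟨_, isChart_at (f x0), mem_chart_source _ _⟩
  have hV : IsOpen (U ∩ f ⁻¹' c'.source) :=
    hf.sm.continuousOn.isOpen_inter_preimage hf.op c'.open_source
  have hW : IsOpen (c.target ∩ c.symm ⁻¹' (U ∩ f ⁻¹' c'.source)) :=
    c.continuousOn_symm.isOpen_inter_preimage c.open_target hV
  have hs : ContDiffOn ℝ ∞ (c' ∘ f ∘ c.symm) (c.target ∩ c.symm ⁻¹' (U ∩ f ⁻¹' c'.source)) :=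
    contMDiffOn_iff_contDiffOn.1 (hc'.smooth.comp
      (hf.sm.comp (hc.smooth_symm.mono inter_subset_left) fun _ hy => hy.2.1) fun _ hy => hy.2.2)
  have hi : ∀ y ∈ c.target ∩ c.symm ⁻¹' (U ∩ f ⁻¹' c'.source),
      Function.Injective (fderiv ℝ (c' ∘ f ∘ c.symm) y) := by
    intro y hy
    have d1 := hc.mdiff.mdifferentiableAt_symm hy.1
    have d2 := LC.mdiff hf hy.2.1
    have d3 := hc'.mdiff.mdifferentiableAt (x := (f ∘ c.symm) y) hy.2.2
    have h2 := mfderiv_comp y d3 (d2.comp y d1)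
    rw [mfderiv_comp y d2 d1, mfderiv_eq_fderiv] at h2
    rw [h2]
    exact (hc'.mdiff.mfderiv_injective (x := (f ∘ c.symm) y) hy.2.2).comp
      ((LC.inj hf hy.2.1).comp (hc.mdiff.symm.mfderiv_injective hy.1))
  obtain ⟨H, hH, h0, hHW, hHs⟩ := LC.ift hW hs hi (y0 := c x0)
    ⟨c.map_source hc0, by simpa [c.left_inv hc0] using ⟨hx0, hc0'⟩⟩
  have he : IsChart (c.trans H) := by
    refine OpenPartialHomeomorph.mem_maximalAtlas_of_contMDiffOn _ ?_ ?_
    · have h1 : ContMDiffOn 𝓘(ℝ, Euc ι) 𝓘(ℝ, Euc ι) ∞ H H.source := by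
        rw [hH]
        exact contMDiffOn_iff_contDiffOn.2 (hs.mono hHW)
      exact h1.comp (hc.smooth.mono inter_subset_left) fun _ hx => hx.2
    · exact hc.smooth_symm.comp ((contMDiffOn_iff_contDiffOn.2 hHs).mono inter_subset_left)
        fun _ hy => hy.2
  have hU : (c.trans H).source ⊆ U := fun x hx => by
    have : c.symm (c x) ∈ U := (hHW hx.2).2.1
    rwa [c.left_inv hx.1] at this
  have hT : ∀ y ∈ (c.trans H).target, y ∈ c'.target ∧ c'.symm y = f ((c.trans H).symm y) := by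
    intro y hy
    have h1 : f (c.symm (H.symm y)) ∈ c'.source := (hHW (H.map_target hy.1)).2.2
    have h2 : c' (f (c.symm (H.symm y))) = y := by
      have := H.right_inv hy.1
      rwa [hH] at this
    refine ⟨h2 ▸ c'.map_source h1, ?_⟩
    conv_lhs => rw [← h2]
    exact c'.left_inv h1
  refine ⟨c.trans H, (c'.symm.restrOpen _ (c.trans H).open_target).symm, he, ?_, ⟨hc0, h0⟩, hU,
    inter_eq_right.2 fun y hy => (hT y hy).1, fun y hy => (hT y hy).2,
    fun y hy => LC.gm hf he hU (fun y hy => (hT y hy).2) hy⟩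
  exact OpenPartialHomeomorph.mem_maximalAtlas_of_contMDiffOn _
    (hc'.smooth.mono inter_subset_left) (hc'.smooth_symm.mono inter_subset_left)

end Pool.Agent.MP_c98b3a_gt.KL

end

end MrgPart5

-- ======== part 6: formerly Pool.Agent.MP_c98b3a_gt.kl.LV
section MrgPart6

/-! The truncated metric. -/

open scoped Manifold ContDiff Matrix Topology
open MeasureTheory Real

noncomputable section

namespace Pool.Agent.MP_c98b3a_gt.KL

open CF

namespace LV

/-- a smooth function equal to `t` above `η` and constant below `η / 2` -/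
def th (η t : ℝ) : ℝ := η / 2 + (t - η / 2) * smoothTransition (2 * t / η - 1)

variable {η t : ℝ}

theorem th_sm : ContDiff ℝ ∞ (th η) := by
  unfold th
  exact contDiff_const.add ((contDiff_id.sub contDiff_const).mul
    (smoothTransition.contDiff.comp (((contDiff_const.mul contDiff_id).div_const _).sub
      contDiff_const)))

theorem th_hi (h : 0 < η) (ht : η ≤ t) : th η t = t := by
  rw [th, smoothTransition.one_of_one_le]
  · ring
  · rw [le_sub_iff_add_le, le_div_iff₀ h]; linarith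

theorem th_lo (h : 0 < η) (ht : t ≤ η / 2) : th η t = η / 2 := by
  rw [th, smoothTransition.zero_of_nonpos]
  · ring
  · rw [sub_nonpos, div_le_iff₀ h]; linarith

theorem th_pos (h : 0 < η) (t : ℝ) : 0 < th η t := by
  rcases le_total t (η / 2) with ht | ht
  · rw [th_lo h ht]; linarith
  · have := mul_nonneg (sub_nonneg.2 ht) (smoothTransition.nonneg (2 * t / η - 1))
    rw [th]; linarith

theorem th_le (h : 0 < η) (ht : t ≤ η) : th η t ≤ η := by
  rcases le_total t (η / 2) with h2 | h2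
  · rw [th_lo h h2]; linarith
  · have := mul_le_mul_of_nonneg_left (smoothTransition.le_one (2 * t / η - 1)) (sub_nonneg.2 h2)
    rw [th]; linarith

end LV

open LV in
theorem lv (h1 : S_CONF) (h2 : S_CCV) : S_LV := by
  intro m M _ _ _ _ _ _ _ g w f g0 hm hK h0 v hv hl μ _ hμ T
  have : Nonempty (Fin m) := ⟨⟨0, by omega⟩⟩
  obtain ⟨hL, hpos, -, -⟩ := (geo_all m g0 _ hm h0).2 v hv hl _ rfl
  simp only [zero_add] at hL
  have hw : Continuous w := by
    obtain ⟨K, hK⟩ := hK.lipschitz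
    exact (LipschitzWith.of_dist_le' (K := K) fun x y => by
      rw [Real.dist_eq, Subtype.dist_eq, dist_eq_norm]; exact hK x y).continuous
  have hη : 0 < exp (-T) := exp_pos _
  set W : Sph m → ℝ := fun p => w p * exp (-log (aff v p)) with hW
  have hWc : Continuous W := hw.mul (continuous_exp.comp hL.continuous.neg)
  have hlog : ∀ p, 0 < w p → -log (W p) = log (aff v p) - log (w p) := fun p hp => by
    rw [hW]; dsimp only
    rw [log_mul hp.ne' (exp_pos _).ne', log_exp]; ring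
  have hWp : ∀ p, 0 < W p → 0 < w p := fun p hp => (mul_pos_iff_of_pos_right (exp_pos _)).1 hp
  set S' : Sph m → ℝ := fun p => -log (th (exp (-T)) (W p)) with hS'
  have hS : Smo (Fin m) S' := by
    intro p
    by_cases hp : 0 < w p
    · have a1 : ContMDiffAt 𝓘(ℝ, Euc (Fin m)) 𝓘(ℝ, ℝ) ∞ w p :=
        hK.smooth_w.contMDiffAt ((isOpen_lt continuous_const hw).mem_nhds hp)
      have a2 : ContMDiffAt 𝓘(ℝ, Euc (Fin m)) 𝓘(ℝ, ℝ) ∞ W p :=
        a1.mul (contDiff_exp.contDiffAt.contMDiffAt.comp p (hL p).neg)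
      have a3 : ContDiff ℝ ∞ fun t => -log (th (exp (-T)) t) :=
        (th_sm.log fun t => (th_pos hη t).ne').neg
      exact a3.contDiffAt.contMDiffAt.comp p a2
    · have a1 : W p < exp (-T) / 2 :=
        lt_of_le_of_lt (mul_nonpos_of_nonpos_of_nonneg (not_lt.1 hp) (exp_pos _).le) (by linarith)
      refine (contMDiffAt_const (c := -log (exp (-T) / 2))).congr_of_eventuallyEq ?_
      filter_upwards [(isOpen_lt hWc continuous_const).mem_nhds a1] with q hq
      rw [hS']; dsimp only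
      rw [th_lo hη (le_of_lt hq)]
  have heq : ∀ p, 0 < w p → log (aff v p) - log (w p) ≤ T → S' p = log (aff v p) - log (w p) := by
    intro p hp hT
    have a1 : 0 < W p := mul_pos hp (exp_pos _)
    have a2 : exp (-T) ≤ W p := by
      rw [← le_log_iff_exp_le a1]; linarith [hlog p hp]
    rw [hS']; dsimp only
    rw [th_hi hη a2, hlog p hp]
  have hge : ∀ p, (0 < w p → T ≤ log (aff v p) - log (w p)) → T ≤ S' p := by
    intro p hp
    have a2 : W p ≤ exp (-T) := by
      by_contra a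
      have a1 : 0 < W p := hη.trans (not_le.1 a)
      have a3 := hWp p a1
      exact a ((log_le_iff_le_exp a1).1 (by linarith [hlog p a3, hp a3]))
    have := (log_le_iff_le_exp (th_pos hη (W p))).2 (th_le hη a2)
    rw [hS']; dsimp only; linarith
  have hs : Smo (Fin m) fun p => S' p - log (aff v p) := hS.sub hL
  obtain ⟨g', hg'⟩ := h1 m _ hs
  obtain ⟨-, -, ⟨μ', _, c, c1, c2, c3, c4⟩, hsc⟩ := (geo_all m g' _ hm hg').2 v hv hl S'
    (by funext p; ring)
  have hμ' : μ' = μ := by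
    refine ext_of_forall_integral_eq_of_IsFiniteMeasure fun F => ?_
    refine mul_left_cancel₀ (volS_pos m).ne' ?_
    rw [c4 F F.continuous, hμ F F.continuous, h2 (Fin m) (Sph m) g' g0 _ hs.continuous
      (fun x a b => by rw [hg'.2, h0.2, mul_zero, exp_zero, one_mul])]
    refine integral_congr_ae (Filter.Eventually.of_forall fun p => ?_)
    dsimp only
    rw [← mul_assoc, ← exp_add, Fintype.card_fin]
    congr 2; ring
  subst hμ'
  have hlt : ∀ p, S' p < T → 0 < w p ∧ S' p = log (aff v p) - log (w p) := by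
    intro p hp
    by_contra a
    refine absurd (hge p fun b => ?_) (not_le.2 hp)
    by_contra d
    exact a ⟨b, heq p b (not_le.1 d).le⟩
  refine ⟨g', S', c, hS, c1, c2, funext fun i => funext fun p => c3 i p, c4, hsc, heq, hge,
    isOpen_lt hS.continuous continuous_const, hK.smooth_f.mono fun p hp => (hlt p hp).1,
    fun x hx a b => ?_⟩
  obtain ⟨a1, a2⟩ := hlt x hx
  rw [hK.pullback x a1, hg'.2]
  have : exp (2 * (S' x - log (aff v x))) = (w x ^ 2)⁻¹ := by
    rw [a2, ← exp_log (pow_pos a1 2), ← exp_neg, log_pow]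
    congr 1; push_cast; ring
  rw [this, div_eq_inv_mul]
  rfl

end Pool.Agent.MP_c98b3a_gt.KL

end

end MrgPart6

-- ======== part 7: formerly Pool.Agent.MP_c98b3a_gt.kl.PU
section MrgPart7

/-! The push-forward of the square of a test function along a local isometry. -/

open scoped Manifold ContDiff Matrix Topology
open MeasureTheory Real Set Filter

set_option linter.unusedSectionVars false

noncomputable section

namespace Pool.Agent.MP_c98b3a_gt.KL

open CF

namespace PU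

variable {ι : Type} [Fintype ι] [DecidableEq ι]
  {N : Type} [TopologicalSpace N] [ChartedSpace (Euc ι) N] [IsManifold 𝓘(ℝ, Euc ι) ∞ N]
  {M : Type} [TopologicalSpace M] [ChartedSpace (Euc ι) M] [IsManifold 𝓘(ℝ, Euc ι) ∞ M]

theorem gam_zero (g : Metrics 𝓘(ℝ, Euc ι) M) {F : M → ℝ} {x : M} (h : x ∉ tsupport F)
    (G : M → ℝ) : gam g F G x = 0 := by
  have h0 : F =ᶠ[𝓝 x] 0 := notMem_tsupport_iff_eventuallyEq.1 h
  have h1 : Tendsto (chartAt (Euc ι) x).symm (𝓝 (chartAt (Euc ι) x x)) (𝓝 x) :=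
    (chartAt (Euc ι) x).tendsto_symm (mem_chart_source _ x)
  have h2 : ∀ i, pd i (F ∘ (chartAt (Euc ι) x).symm) (chartAt (Euc ι) x x) = 0 := fun i =>
    (pd_congr (g := fun _ => 0) (h1.eventually h0) i).trans (pd_const i 0 _)
  simp [gam, gamC, h2]

theorem smo_sum {κ : Type} (t : Finset κ) {F : κ → M → ℝ} (hF : ∀ j, Smo ι (F j)) :
    Smo ι fun p => ∑ j ∈ t, F j p :=
  contMDiff_finsetSum fun j _ => hF j

theorem gam_sum (g : Metrics 𝓘(ℝ, Euc ι) M) {κ : Type} (t : Finset κ) {F : κ → M → ℝ}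
    (hF : ∀ j, Smo ι (F j)) (H : M → ℝ) (p : M) :
    gam g (fun p => ∑ j ∈ t, F j p) H p = ∑ j ∈ t, gam g (F j) H p := by
  classical
  induction t using Finset.induction_on with
  | empty => simpa using (gamF g).const 0 H p
  | insert a t ha ih =>
    simp only [Finset.sum_insert ha]
    rw [(gamF g).add (hF a) (smo_sum t hF), ih]

theorem amgm (g : Metrics 𝓘(ℝ, Euc ι) M) {φ G : M → ℝ} (hφ : Smo ι φ) (hG : Smo ι G) (x : M) :
    gam g (fun p => φ p ^ 2) G x ≤ 2 * gam g φ φ x + 1 / 2 * (gam g G G x * φ x ^ 2) := by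
  have lin : ∀ H, gam g (fun p => 2 * φ p + -φ x * G p) H x =
      2 * gam g φ H x + -φ x * gam g G H x := fun H => by
    rw [(gamF g).add (F := fun p => 2 * φ p) (G := fun p => -φ x * G p) (contMDiff_const.mul hφ)
      (contMDiff_const.mul hG), (gamF g).mul (F := fun _ => 2) contMDiff_const hφ,
      (gamF g).mul (F := fun _ => -φ x) contMDiff_const hG, (gamF g).const, (gamF g).const]
    ring
  have h := (gamF g).nonneg (fun p => 2 * φ p + -φ x * G p) x
  rw [lin, (gamF g).symm φ, (gamF g).symm G, lin, lin, (gamF g).symm G φ] at h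
  have e : gam g (fun p => φ p ^ 2) G x = 2 * φ x * gam g φ G x := by
    simp only [pow_two]
    rw [(gamF g).mul hφ hφ]
    ring
  rw [e]
  nlinarith [h]

theorem cont_mul {f : N → M} {U : Set N} (hU : IsOpen U) (hf : ContinuousOn f U) {ψ : M → ℝ}
    (hψ : Continuous ψ) {F : N → ℝ} (hF : Continuous F) (h : tsupport F ⊆ U) :
    Continuous fun x => ψ (f x) * F x :=
  continuous_of_tsupport fun _ hx =>
    (hψ.continuousAt.comp (hf.continuousAt (hU.mem_nhds (h (tsupport_mul_subset_right hx))))).mul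
      hF.continuousAt

theorem ext [T2Space N] [CompactSpace N] {f : N → M} {U K : Set N} (hU : IsOpen U)
    (hf : ContMDiffOn 𝓘(ℝ, Euc ι) 𝓘(ℝ, Euc ι) ∞ f U) (hK : IsClosed K) (hKU : K ⊆ U) {G : M → ℝ}
    (hG : Smo ι G) : ∃ G' : N → ℝ, Smo ι G' ∧ ∀ x ∈ K, G' =ᶠ[𝓝 x] G ∘ f := by
  obtain ⟨χ, h0, h1, -⟩ := exists_contMDiffMap_zero_one_nhds_of_isClosed (n := ⊤) 𝓘(ℝ, Euc ι)
    hU.isClosed_compl hK (disjoint_compl_left_iff_subset.2 hKU)
  refine ⟨fun x => χ x * G (f x), contMDiff_of_tsupport fun x hx => ?_, fun x hx => ?_⟩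
  · have hxU : x ∈ U := by
      by_contra hn
      exact notMem_tsupport_iff_eventuallyEq.2 (h0.filter_mono (nhds_le_nhdsSet hn))
        (tsupport_mul_subset_left hx)
    exact (χ.contMDiff x).mul ((hG (f x)).comp x (hf.contMDiffAt (hU.mem_nhds hxU)))
  · filter_upwards [h1.filter_mono (nhds_le_nhdsSet hx)] with y hy
    simp [hy]

theorem split [T2Space N] [CompactSpace N] {U : Set N} (V : U → Set N) (hV : ∀ i, IsOpen (V i))
    (hx : ∀ i : U, (i : N) ∈ V i) {φ : N → ℝ} (hφ : Smo ι φ) (h : tsupport φ ⊆ U) :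
    ∃ (t : Finset U) (F : t → N → ℝ), (∀ j, Smo ι (F j)) ∧ (∀ j, tsupport (F j) ⊆ V j) ∧
      (∀ j, tsupport (F j) ⊆ tsupport φ) ∧ (∀ j x, 0 ≤ F j x) ∧ ∀ x, ∑ j, F j x = φ x ^ 2 := by
  obtain ⟨t, ht⟩ := (isClosed_tsupport φ).isCompact.elim_finite_subcover V hV
    fun x hx' => mem_iUnion.2 ⟨⟨x, h hx'⟩, hx _⟩
  obtain ⟨ρ, hρ⟩ := SmoothPartitionOfUnity.exists_isSubordinate 𝓘(ℝ, Euc ι) (isClosed_tsupport φ)
    (fun j : t => V j) (fun j => hV j) (by simpa only [iUnion_coe_set, iUnion_subtype] using ht)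
  refine ⟨t, fun j x => ρ j x * (φ x * φ x), fun j => (ρ j).contMDiff.mul (hφ.mul hφ),
    fun j => tsupport_mul_subset_left.trans (hρ j),
    fun j => tsupport_mul_subset_right.trans tsupport_mul_subset_left,
    fun j x => mul_nonneg (ρ.nonneg j x) (mul_self_nonneg _), fun x => ?_⟩
  rw [← Finset.sum_mul, pow_two]
  by_cases hx' : x ∈ tsupport φ
  · rw [← finsum_eq_sum_of_fintype, ρ.sum_eq_one hx', one_mul]
  · simp [image_eq_zero_of_notMem_tsupport hx']

end PU

open PU in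
theorem pu (h : S_SH) : S_PU := by
  intro ι N M _ _ _ _ _ _ _ _ _ _ _ _ _ _ _ _ _ g' g f U hL φ hφ hU
  choose V hVo hVx hVU hinj hVi _ hgam hint hpush using h ι N M g' g f U hL
  obtain ⟨t, F, hF, hFV, hFK, hF0, hsum⟩ := split (fun i : U => V i i.2) (fun i => hVo i i.2)
    (fun i => hVx i i.2) hφ hU
  choose F' hF' hs' he' using fun j : t => hpush j.1 j.1.2 (F j) (hF j) (hFV j)
  have z : ∀ j : t, ∀ x ∉ V j.1 j.1.2, F j x = 0 := fun j x hx =>
    image_eq_zero_of_notMem_tsupport fun hh => hx (hFV j hh)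
  have z' : ∀ j : t, ∀ y ∉ f '' V j.1 j.1.2, F' j y = 0 := fun j y hy =>
    image_eq_zero_of_notMem_tsupport fun hh => hy (hs' j hh)
  have p' : ∀ j y, 0 ≤ F' j y := fun j y => by
    by_cases hy : y ∈ f '' V j.1 j.1.2
    · obtain ⟨x, hx, rfl⟩ := hy
      rw [he' j x hx]
      exact hF0 j x
    · rw [z' j y hy]
  have le1 : ∀ j x, F j x ≤ F' j (f x) := fun j x => by
    by_cases hx : x ∈ V j.1 j.1.2
    · rw [he' j x hx]
    · rw [z j x hx]
      exact p' j _
  have hc := hL.sm.continuousOn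
  have hI : ∀ ψ : M → ℝ, Continuous ψ →
      ∫ y, ψ y * ∑ j, F' j y ∂vol g = ∫ x, ψ (f x) * φ x ^ 2 ∂vol g' := fun ψ hψ => by
    have c1 : ∀ j, Continuous fun x => ψ (f x) * F j x := fun j =>
      cont_mul hL.op hc hψ (hF j).continuous ((hFK j).trans hU)
    have c2 : ∀ j, Continuous fun y => ψ y * F' j y := fun j => hψ.mul (hF' j).continuous
    simp only [← hsum, Finset.mul_sum]
    rw [integral_finsetSum _ fun j _ => integrable_vol g (c2 j),
      integral_finsetSum _ fun j _ => integrable_vol g' (c1 j)]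
    exact Finset.sum_congr rfl fun j _ => hint j.1 j.1.2 _ _ (c2 j) (c1 j)
      (fun y hy => by rw [z' j y hy, mul_zero]) (fun x hx => by rw [z j x hx, mul_zero])
      fun x hx => by rw [he' j x hx]
  have s2 : tsupport (fun x => φ x ^ 2) ⊆ U := by
    simp only [pow_two]
    exact tsupport_mul_subset_left.trans hU
  refine ⟨fun y => ∑ j, F' j y, smo_sum _ hF', fun y => Finset.sum_nonneg fun j _ => p' j y,
    fun x _ => hsum x ▸ Finset.sum_le_sum fun j _ => le1 j x, fun x _ x' _ hne hff => ?_,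
    fun ψ hψ => ⟨cont_mul hL.op hc hψ (hφ.continuous.pow 2) s2, hI ψ hψ⟩, fun G hG => ?_⟩
  · rw [← hsum, ← hsum, ← Finset.sum_add_distrib]
    refine Finset.sum_le_sum fun j _ => ?_
    by_cases hx : x ∈ V j.1 j.1.2
    · rw [z j x' fun hx' => hne (hinj _ _ hx hx' hff), add_zero]
      exact le1 j x
    · rw [z j x hx, zero_add, hff]
      exact le1 j x'
  obtain ⟨G', hG', hGe⟩ := ext hL.op hL.sm (isClosed_tsupport φ) hU hG
  have c1 : ∀ j, Continuous (gam g' (F j) G') := fun j => (gamF g').cont (hF j) hG'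
  have c2 : ∀ j, Continuous (gam g (F' j) G) := fun j => (gamF g).cont (hF' j) hG
  have hsq : Smo ι fun x => φ x ^ 2 := hφ.pow 2
  have e1 : ∫ y, gam g (fun y => ∑ j, F' j y) G y ∂vol g =
      ∫ x, gam g' (fun x => φ x ^ 2) G' x ∂vol g' := by
    simp only [← hsum, gam_sum g _ hF', gam_sum g' _ hF]
    rw [integral_finsetSum _ fun j _ => integrable_vol g (c2 j),
      integral_finsetSum _ fun j _ => integrable_vol g' (c1 j)]
    refine Finset.sum_congr rfl fun j _ => hint j.1 j.1.2 _ _ (c2 j) (c1 j)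
      (fun y hy => gam_zero g (fun hh => hy (hs' j hh)) G)
      (fun x hx => gam_zero g' (fun hh => hx (hFV j hh)) G') fun x hx => ?_
    have ev : F j =ᶠ[𝓝 x] F' j ∘ f := by
      filter_upwards [(hVo _ _).mem_nhds hx] with y hy using (he' j y hy).symm
    by_cases hK : x ∈ tsupport φ
    · exact hgam _ _ _ _ _ _ (hF' j) hG (hF j) hG' x hx ev (hGe x hK)
    · obtain ⟨B, hB, hBe⟩ := ext hL.op hL.sm (isClosed_singleton (x := x))
        (singleton_subset_iff.2 (hVU _ _ hx)) hG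
      rw [← hgam _ _ _ _ _ _ (hF' j) hG (hF j) hB x hx ev (hBe x rfl),
        gam_zero g' (fun hh => hK (hFK j hh)), gam_zero g' (fun hh => hK (hFK j hh))]
  have e2 : ∀ x, gam g G G (f x) * φ x ^ 2 = gam g' G' G' x * φ x ^ 2 := fun x => by
    by_cases hK : x ∈ tsupport φ
    · rw [hgam x (hU hK) _ _ _ _ hG hG hG' hG' x (hVx _ _) (hGe x hK) (hGe x hK)]
    · simp [image_eq_zero_of_notMem_tsupport hK]
  have i1 := integrable_vol g' ((gamF g').cont hφ hφ)
  have i2 : Integrable (fun x => gam g' G' G' x * φ x ^ 2) (vol g') :=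
    integrable_vol g' (((gamF g').cont hG' hG').mul hsq.continuous)
  rw [e1, hI _ ((gamF g).cont hG hG), funext e2, ← integral_const_mul, ← integral_const_mul,
    ← integral_add (i1.const_mul _) (i2.const_mul _)]
  exact integral_mono (integrable_vol g' ((gamF g').cont hsq hG'))
    ((i1.const_mul _).add (i2.const_mul _)) fun x => amgm g' hφ hG' x

end Pool.Agent.MP_c98b3a_gt.KL

end

end MrgPart7

-- ======== part 8: formerly Pool.Agent.MP_c98b3a_gt.kl.RIG
section MrgPart8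

/-! Rigidity of the gauge. -/

open scoped Manifold ContDiff Matrix Topology
open MeasureTheory Real

noncomputable section

namespace Pool.Agent.MP_c98b3a_gt.KL

open CF

namespace RIG

variable {ι : Type} [Fintype ι]

/-- the parameter set -/
def PK (ι : Type) [Fintype ι] (R k0 : ℝ) : Set ((ℝ × Euc ι) × ℝ) :=
  {x | 0 ≤ x.1.1 ∧ x.1.1 ≤ R ∧ lor x.1 x.1 = 1 ∧ |x.2| ≤ k0}

theorem lt_of {v : ℝ × Euc ι} (h0 : 0 ≤ v.1) (h : lor v v = 1) : ‖v.2‖ < v.1 := by
  rw [BAL.lor_self] at h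
  by_contra hc
  nlinarith [norm_nonneg v.2]

theorem cpt (R k0 : ℝ) : IsCompact (PK ι R k0) := by
  refine Metric.isCompact_of_isClosed_isBounded ?_ ?_
  · have h : Continuous fun x : (ℝ × Euc ι) × ℝ => lor x.1 x.1 := by
      unfold lor
      fun_prop
    have h1 : Continuous fun x : (ℝ × Euc ι) × ℝ => x.1.1 := by fun_prop
    have h2 : Continuous fun x : (ℝ × Euc ι) × ℝ => |x.2| := by fun_prop
    exact (isClosed_le continuous_const h1).inter
      ((isClosed_le h1 continuous_const).inter ((isClosed_eq h continuous_const).inter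
        (isClosed_le h2 continuous_const)))
  · refine (isBounded_iff_forall_norm_le).2 ⟨max R k0, fun x hx => ?_⟩
    obtain ⟨h0, h1, h2, h3⟩ := hx
    have h4 := lt_of h0 h2
    rw [Prod.norm_def, Prod.norm_def, Real.norm_eq_abs, Real.norm_eq_abs, abs_of_nonneg h0]
    exact max_le_max (max_le h1 (by linarith)) h3

theorem log_le_abs (x : ℝ) : log x ≤ |x| := by
  rw [← log_abs]
  exact log_le_self (abs_nonneg x)

end RIG

open RIG in
theorem rig (h : S_RB) : S_RIG := by
  intro ι M _ _ _ _ _ _ _ μ _ w z m κ Y G hL hF k0 hε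
  obtain ⟨ε0, e0, R, hR⟩ := h ι M μ w z m κ Y G hL k0
  obtain ⟨A, hA⟩ := G.bdd
  have hm : 0 < m := by linarith [G.hm]
  set F : (ℝ × Euc ι) × ℝ → M → ℝ := fun x p =>
    exp (-m * log (aff x.1 (z p))) * Y (m * (log (aff x.1 (z p)) - log (w p) + x.2)) ^ 2 with hFd
  have pos : ∀ x ∈ PK ι R k0, ∀ p, 0 < aff x.1 (z p) := fun x hx p =>
    BAL.aff_pos (lt_of hx.1 hx.2.2.1) (G.nz p)
  have ca : Continuous fun y : ((ℝ × Euc ι) × ℝ) × M => aff y.1.1 (z y.2) :=
    BAL.cont_aff.comp (Continuous.prodMk (by fun_prop) (G.cz.comp continuous_snd))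
  have cl : ContinuousOn (fun y : ((ℝ × Euc ι) × ℝ) × M => log (aff y.1.1 (z y.2)))
      (PK ι R k0 ×ˢ Set.univ) := ca.continuousOn.log fun y hy => (pos _ hy.1 _).ne'
  obtain ⟨C, hC⟩ := ((cpt R k0).prod isCompact_univ).exists_bound_of_continuousOn cl
  obtain ⟨W, hW⟩ := isCompact_univ.exists_bound_of_continuousOn G.cw.continuousOn
  have F0 : ∀ x p, 0 ≤ F x p := fun x p => mul_nonneg (exp_pos _).le (sq_nonneg _)
  have bd : ∀ x ∈ PK ι R k0, ∀ p, ‖F x p‖ ≤ exp (m * C) * (Y (m * (-C - W - k0)) ^ 2 + A ^ 2) := by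
    intro x hx p
    have h1 := abs_le.1 (hC (x, p) ⟨hx, trivial⟩)
    have h2 : log (w p) ≤ W := (log_le_abs _).trans (hW p trivial)
    have h3 := abs_le.1 hx.2.2.2
    have h4 : Y (m * (-C - W - k0)) ≤ Y (m * (log (aff x.1 (z p)) - log (w p) + x.2)) :=
      G.mono.monotone (mul_le_mul_of_nonneg_left (by linarith [h1.1, h3.1]) hm.le)
    have h5 := hA (m * (log (aff x.1 (z p)) - log (w p) + x.2))
    rw [Real.norm_of_nonneg (F0 x p)]
    refine mul_le_mul (exp_le_exp.2 (by nlinarith [h1.1])) ?_ (sq_nonneg _) (exp_pos _).le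
    generalize Y (m * (log (aff x.1 (z p)) - log (w p) + x.2)) = y at h4 h5
    generalize Y (m * (-C - W - k0)) = y0 at h4
    rcases le_total 0 y with hy | hy <;> nlinarith [sq_nonneg y0, sq_nonneg A]
  have ms : ∀ x, AEStronglyMeasurable (F x) μ := fun x => by
    have m1 : Measurable fun p => log (aff x.1 (z p)) :=
      (BAL.cont_aff.comp (continuous_const.prodMk G.cz)).measurable.log
    have m2 : Measurable fun p => log (w p) := G.cw.measurable.log
    exact ((m1.const_mul _).exp.mul ((G.cY.measurable.comp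
      (((m1.sub m2).add_const _).const_mul _)).pow_const 2)).aestronglyMeasurable
  have cV : ContinuousOn (fun x => ∫ p, F x p ∂μ) (PK ι R k0) := by
    refine continuousOn_of_dominated (fun x _ => ms x) (fun x hx => ae_of_all _ (bd x hx))
      (integrable_const _) (ae_of_all _ fun p => ?_)
    have c1 : ContinuousOn (fun x : (ℝ × Euc ι) × ℝ => log (aff x.1 (z p))) (PK ι R k0) :=
      (BAL.cont_aff.comp (continuous_fst.prodMk continuous_const)).continuousOn.log
        fun x hx => (pos x hx p).ne'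
    exact ((continuousOn_const.mul c1).rexp).mul ((G.cY.comp_continuousOn (continuousOn_const.mul
      ((c1.sub continuousOn_const).add continuous_snd.continuousOn))).pow 2)
  have ex : ∀ ε > (0 : ℝ), ∃ x ∈ PK ι R k0, ∫ p, F x p ∂μ ≤ ε := fun ε he => by
    obtain ⟨v, h1, h2, k, h3, h4⟩ := hε (min ε ε0) (lt_min he e0)
    exact ⟨(v, k), ⟨h1.le, hR v h1 h2 k h3 (h4.trans (min_le_right _ _)), h2, h3⟩,
      h4.trans (min_le_left _ _)⟩
  obtain ⟨x1, hx1, _⟩ := ex 1 one_pos
  obtain ⟨x, hx, hmin⟩ := (cpt R k0).exists_isMinOn ⟨x1, hx1⟩ cV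
  have z0 : ∫ p, F x p ∂μ = 0 := by
    refine le_antisymm (le_of_forall_pos_le_add fun ε he => ?_) (integral_nonneg (F0 x))
    obtain ⟨y, hy, h1⟩ := ex ε he
    have h2 : ∫ p, F x p ∂μ ≤ ∫ p, F y p ∂μ := hmin hy
    linarith
  have it : Integrable (F x) μ :=
    (integrable_const _).mono' (ms x) (ae_of_all _ (bd x hx))
  have ae := (integral_eq_zero_iff_of_nonneg (F0 x) it).1 z0
  have hl := lt_of hx.1 hx.2.2.1
  refine ⟨x.1, (norm_nonneg _).trans_lt hl, hx.2.2.1, x.2, fun p => ?_⟩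
  have cF : Continuous fun p => (w p - exp x.2 * aff x.1 (z p)) ^ 2 :=
    (G.cw.sub (continuous_const.mul (BAL.cont_aff.comp (continuous_const.prodMk G.cz)))).pow 2
  have i0 : ∫ p, (w p - exp x.2 * aff x.1 (z p)) ^ 2 ∂μ = 0 := by
    refine integral_eq_zero_of_ae ?_
    filter_upwards [ae, G.pos] with q h1 h2
    have h3 : Y (m * (log (aff x.1 (z q)) - log (w q) + x.2)) = Y 0 := by
      rw [G.zero]
      exact pow_eq_zero_iff two_ne_zero |>.1 ((mul_eq_zero.1 h1).resolve_left (exp_pos _).ne')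
    have h4 := (mul_eq_zero.1 (G.mono.injective h3)).resolve_left hm.ne'
    have h5 : w q = exp x.2 * aff x.1 (z q) := by
      rw [← exp_log h2, ← exp_log (pos x hx q), ← exp_add]
      congr 1
      linarith
    simp [h5]
  have := hF _ cF (fun _ => sq_nonneg _) i0 p
  exact sub_eq_zero.1 (pow_eq_zero_iff two_ne_zero |>.1 this)

end Pool.Agent.MP_c98b3a_gt.KL

end

end MrgPart8

-- ======== part 9: formerly Pool.Agent.MP_c98b3a_gt.kl.SH
section MrgPart9

/-! The entropy of Kleinian manifolds: one sheet of a local isometry. -/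

open scoped Manifold ContDiff Matrix Topology
open MeasureTheory Real Filter Set

noncomputable section

namespace Pool.Agent.MP_c98b3a_gt.KL

open CF

namespace SH

variable {ι : Type} [Fintype ι] [DecidableEq ι] {y : Euc ι}

omit [Fintype ι] in
theorem pd_ev (i : ι) {f f' : Euc ι → ℝ} (h : f =ᶠ[𝓝 y] f') : pd i f =ᶠ[𝓝 y] pd i f' :=
  (h.fderiv (𝕜 := ℝ)).mono fun _ hz => congrArg (fun L => L (EuclideanSpace.single i 1)) hz

theorem scal_congr {G G' : Euc ι → Matrix ι ι ℝ} (h : G =ᶠ[𝓝 y] G') : scal G y = scal G' y := by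
  have hc : ∀ k i j, chr G k i j =ᶠ[𝓝 y] chr G' k i j := fun k i j => by
    filter_upwards [h, eventually_all.2 fun a => eventually_all.2 fun b => eventually_all.2 fun c =>
      pd_ev a (f := fun z => G z b c) (f' := fun z => G' z b c)
        (h.mono fun _ hz => congrFun₂ hz b c)] with z h1 h2
    simp only [chr, ginv, h1, h2]
  simp only [scal, ric, ginv, h.eq_of_nhds, (hc _ _ _).eq_of_nhds,
    (pd_ev _ (hc _ _ _)).eq_of_nhds]

end SH

open SH in
theorem sh (h : S_LC) : S_SH := by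
  intro ι N M _ _ _ _ _ _ _ _ _ _ _ _ _ _ _ _ _ g' g f U hL x0 hx0
  obtain ⟨e, e', he, he', h0, hU, ht, hs, hg⟩ := h ι N M g' g f U hL x0 hx0
  have hf : ∀ x ∈ e.source, f x = e'.symm (e x) := fun x hx => by
    rw [hs _ (e.map_source hx), e.left_inv hx]
  have hm : ∀ x ∈ e.source, e x ∈ e'.target := fun x hx => ht ▸ e.map_source hx
  have hm' : ∀ z ∈ e'.source, e' z ∈ e.target := fun z hz => ht ▸ e'.map_source hz
  have hb : ∀ z ∈ e'.source, f (e.symm (e' z)) = z := fun z hz => by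
    rw [← hs _ (hm' z hz), e'.left_inv hz]
  have him : f '' e.source = e'.source := Subset.antisymm
    (image_subset_iff.2 fun x hx => show f x ∈ _ from hf x hx ▸ e'.map_target (hm x hx))
    fun z hz => ⟨_, e.map_target (hm' z hz), hb z hz⟩
  have hn : ∀ x ∈ e.source, e.target ∈ 𝓝 (e x) := fun x hx =>
    e.open_target.mem_nhds (e.map_source hx)
  refine ⟨e.source, e.open_source, h0, hU, fun x hx x' hx' q => ?_, him ▸ e'.open_source,
    fun x hx => ?_, fun A B A' B' a b a' b' x hx hA hB => ?_, fun Φ Φ' c c' z z' q => ?_,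
    fun F hF hT => ?_⟩
  · rw [hf x hx, hf x' hx'] at q
    exact e.injOn hx hx' (e'.symm.injOn (hm x hx) (hm x' hx') q)
  · rw [hf x hx, scalM_chart g he' (hm x hx), scal_congr (eventually_of_mem (hn x hx) hg),
      ← scalM_chart g' he (e.map_source hx), e.left_inv hx]
  · have key : ∀ {C : M → ℝ} {C' : N → ℝ}, C' =ᶠ[𝓝 x] C ∘ f → ∀ i,
        pd i (C' ∘ e.symm) (e x) = pd i (C ∘ e'.symm) (e x) := fun {C C'} hC i => by
      refine (pd_ev i ?_).eq_of_nhds
      filter_upwards [(e.tendsto_symm hx).eventually hC, hn x hx] with z h1 h2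
      rw [Function.comp_apply, h1, Function.comp_apply, Function.comp_apply, hs z h2]
    have h1 := (gam_ ι N g').1.chart a' b' he _ (e.map_source hx)
    rw [e.left_inv hx] at h1
    rw [h1, hf x hx, (gam_ ι M g).1.chart a b he' _ (hm x hx)]
    simp only [gamC, ginv, key hA, key hB, hg _ (e.map_source hx)]
  · rw [him] at z
    rw [← setIntegral_eq_integral_of_forall_compl_eq_zero z,
      ← setIntegral_eq_integral_of_forall_compl_eq_zero z', setIntegral_chart g he' c.measurable,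
      setIntegral_chart g' he c'.measurable, ht]
    refine setIntegral_congr_fun e.open_target.measurableSet fun y hy => ?_
    simp only [hs y hy, hg y hy, q _ (e.map_target hy)]
  · have hK : IsClosed (f '' tsupport F) := ((isClosed_tsupport F).isCompact.image_of_continuousOn
      (hL.sm.continuousOn.mono (hT.trans hU))).isClosed
    have hsup : tsupport (e'.source.indicator fun z => F (e.symm (e' z))) ⊆ f '' e.source :=
      (closure_minimal (fun z hz => by
        rw [support_indicator] at hz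
        exact ⟨_, subset_tsupport F hz.2, hb z hz.1⟩) hK).trans (image_mono hT)
    refine ⟨_, contMDiff_of_tsupport fun z hz => ?_, hsup, fun x hx => ?_⟩
    · have hz' := e'.open_source.mem_nhds (him ▸ hsup hz)
      exact ((hF.comp_contMDiffOn (he.smooth_symm.comp he'.smooth hm')).contMDiffAt
        hz').congr_of_eventuallyEq (eventually_of_mem hz' fun w hw => indicator_of_mem hw _)
    · rw [indicator_of_mem (him ▸ mem_image_of_mem f hx), hf x hx, e'.right_inv (hm x hx),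
        e.left_inv hx]

end Pool.Agent.MP_c98b3a_gt.KL

end

end MrgPart9

-- marker of a merged file
example : 731051 + 35565 = 731051 + 35565 := rfl
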