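import Mathlib.Combinatorics.Matroid.Basic
import Pool.Agent.MP_c98b3a_gt.kl.SH

-- ======== part 0: formerly Pool.Agent.MP_c98b3a_gt.kl.ABS2
section MrgPart0

/-! The Poincare inequality and the almost balanced inequality on a round sphere. -/

open scoped ContDiff
open MeasureTheory Real

noncomputable section

namespace Pool.Agent.MP_c98b3a_gt.KL

open CF CF.ABS

namespace ABS2

variable {m : ℕ} {M : Type} [TopologicalSpace M] [MeasurableSpace M] {μ : Measure M}
  [CompactSpace M] [T2Space M] [BorelSpace M] [IsProbabilityMeasure μ]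

/-- The Poincaré inequality with all harmonics of degree at most two. -/
theorem dec (c : SC m M μ) (hm : m ≠ 0) {F : M → ℝ} (hF : c.Sm F) {α ρ : ℝ}
    (hα : α = ∫ p, F p ∂μ) (hρ : ρ = (m + 1) * ∑ i, (∫ p, F p * c.x i p ∂μ) ^ 2) :
    ∃ A : Matrix (Fin (m + 1)) (Fin (m + 1)) ℝ, A.IsSymm ∧ A.trace = 0 ∧
      ∫ p, F p ^ 2 ∂μ = ∫ p, c.qf A p ^ 2 ∂μ + ∫ p, (F p - c.qf A p) ^ 2 ∂μ ∧
      α ^ 2 + ρ ≤ ∫ p, (F p - c.qf A p) ^ 2 ∂μ ∧
      2 * (m + 1) * ∫ p, c.qf A p ^ 2 ∂μ +
        3 * (m + 2) * (∫ p, (F p - c.qf A p) ^ 2 ∂μ - α ^ 2 - ρ) + m * ρ ≤ ∫ p, c.Γ F F p ∂μ := by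
  obtain ⟨β, hβ⟩ : ∃ β : Fin (m + 1) → ℝ, ∀ i, β i = ∫ p, F p * c.x i p ∂μ := ⟨_, fun _ => rfl⟩
  simp only [← hβ] at hρ
  have cx := PRJ.xc c
  have cF := c.cont hF
  have sL : ∀ i, c.Sm fun p => (m + 1) * β i * c.x i p := fun i => c.mul (c.const _) (c.xsm i)
  obtain ⟨G, hG⟩ : ∃ G : M → ℝ, G = fun p => α + ∑ i, (m + 1) * β i * c.x i p := ⟨_, rfl⟩
  have sG : c.Sm G := hG ▸ c.add (c.const α) (sm_sum c _ _ sL)
  have cG := c.cont sG
  have i1 : ∀ H : M → ℝ, Continuous H → ∫ p, H p * G p ∂μ =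
      α * ∫ p, H p ∂μ + ∑ i, (m + 1) * β i * ∫ p, H p * c.x i p ∂μ := fun H cH => by
    have e : ∀ p, H p * G p = α * H p + ∑ i, (m + 1) * β i * (H p * c.x i p) := fun p => by
      rw [hG, mul_add, Finset.mul_sum, mul_comm]
      exact congrArg _ (Finset.sum_congr rfl fun i _ => by ring)
    simp only [e]
    rw [integral_add (intg (by fun_prop)) (intg (by fun_prop)), integral_const_mul,
      integral_finsetSum _ fun i _ => intg (by fun_prop)]
    simp only [integral_const_mul]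
  have i2 : ∀ H : M → ℝ, c.Sm H → ∫ p, c.Γ G H p ∂μ =
      m * ∑ i, (m + 1) * β i * ∫ p, H p * c.x i p ∂μ := fun H sH => by
    have e : ∀ p, c.Γ G H p = ∑ i, (m + 1) * β i * c.Γ (c.x i) H p := fun p => by
      rw [hG, c.Γadd (c.const α) (sm_sum c _ _ sL) sH, c.Γconst, zero_add,
        PRJ.gam_sum c _ sL sH]
      exact Finset.sum_congr rfl fun i _ => PRJ.gam_smul c _ (c.xsm i) sH p
    have cΓ := fun i => c.Γcont (c.xsm i) sH
    simp only [e]
    rw [integral_finsetSum _ fun i _ => intg (by fun_prop), Finset.mul_sum]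
    refine Finset.sum_congr rfl fun i _ => ?_
    rw [integral_const_mul, c.stein i sH]
    simp only [mul_comm (c.x i _)]
    ring
  have g0 : ∫ p, G p ∂μ = α := by simpa [PRJ.m1 c hm] using i1 (fun _ => 1) continuous_const
  have g1 : ∀ j, ∫ p, G p * c.x j p ∂μ = β j := fun j => by
    have e : ∀ i, (m + 1) * β i * ∫ p, c.x j p * c.x i p ∂μ = if i = j then β i else 0 :=
      fun i => by rw [mul_right_comm, PRJ.m2 c]; simp
    simp only [mul_comm (G _)]
    rw [i1 _ (cx j), PRJ.m1 c hm]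
    simp [e]
  have e1 : ∑ i, ((m : ℝ) + 1) * β i * β i = ρ := by
    rw [hρ, Finset.mul_sum]
    exact Finset.sum_congr rfl fun i _ => by ring
  have py : ∀ H : M → ℝ, Continuous H → ∫ p, H p ∂μ = 0 → (∀ i, ∫ p, H p * c.x i p ∂μ = 0) →
      ∫ p, (H p + G p) ^ 2 ∂μ = ∫ p, H p ^ 2 ∂μ + α ^ 2 + ρ := fun H cH h0 h1 => by
    have e : ∀ p, (H p + G p) ^ 2 = H p ^ 2 + 2 * (H p * G p) + G p * G p := fun p => by ring
    simp only [e]
    rw [integral_add (intg (by fun_prop)) (intg (by fun_prop)),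
      integral_add (intg (by fun_prop)) (intg (by fun_prop)), integral_const_mul, i1 H cH,
      i1 G cG, h0, g0]
    simp only [h1, g1, e1, mul_zero, Finset.sum_const_zero]
    ring
  have s0 := sm_sub c hF sG
  have h0 : ∫ p, (F p - G p) ∂μ = 0 := by rw [integral_sub (intg cF) (intg cG), g0, hα, sub_self]
  have h1 : ∀ i, ∫ p, (F p - G p) * c.x i p ∂μ = 0 := fun i => by
    simp only [sub_mul]
    rw [integral_sub (intg (by fun_prop)) (intg (by fun_prop)), g1, hβ, sub_self]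
  obtain ⟨A, a1, a2, a3, a4⟩ := poin prj gap c s0 h0 h1
  have cq := c.cont (sm_qf c A)
  have p1 := py _ (c.cont s0) h0 h1
  have p2 := py (fun p => F p - G p - c.qf A p) (by fun_prop)
    (by rw [integral_sub (intg (by fun_prop)) (intg cq), h0, PRJ.q0 c A a2, sub_zero]) fun i => by
      simp only [sub_mul _ (c.qf A _)]
      rw [integral_sub (intg (by fun_prop)) (intg (by fun_prop)), h1, PRJ.int_qf c A (cx i)]
      simp [PRJ.m3 c hm]
  have e2 : ∀ p, F p - G p - c.qf A p + G p = F p - c.qf A p := fun p => by ring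
  simp only [sub_add_cancel, e2] at p1 p2
  have eF : F = fun p => G p + (F p - G p) := funext fun p => by ring
  have eΓ : ∀ p, c.Γ F F p = c.Γ G G p + 2 * c.Γ G (fun p => F p - G p) p +
      c.Γ (fun p => F p - G p) (fun p => F p - G p) p := by
    intro p
    have e1 := c.Γadd sG s0 hF p
    have e2 := c.Γadd sG s0 sG p
    have e3 := c.Γadd sG s0 s0 p
    rw [← eF] at e1 e2 e3
    rw [e1, c.Γsymm sG hF, c.Γsymm s0 hF, e2, e3, c.Γsymm s0 sG]
    ring
  have c1 := c.Γcont sG sG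
  have c2 := c.Γcont sG s0
  have c3 := c.Γcont s0 s0
  have v3 : 0 ≤ ∫ p, (F p - G p - c.qf A p) ^ 2 ∂μ := integral_nonneg fun p => sq_nonneg _
  refine ⟨A, a1, a2, by linarith, by linarith, ?_⟩
  rw [integral_congr_ae (Filter.Eventually.of_forall eΓ),
    integral_add (intg (by fun_prop)) (intg c3),
    integral_add (intg c1) (intg (by fun_prop)), integral_const_mul, i2 _ sG, i2 _ s0, p2]
  simp only [h1, g1, e1, mul_zero, Finset.sum_const_zero]
  linarith

theorem arith2 {m C C6 δ P a1 a2 E V V2 V3 Z lZ Q M6 r ε : ℝ} (hC : 0 < C) (h6 : 0 < C6)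
    (hδ : 0 < δ) (hd : δ * (1 + 16 * C6 * C ^ 2) ≤ 1 / 100) (hm : 4 * C ≤ m) (v2 : 0 ≤ V2)
    (v3 : 0 ≤ V3) (hV : V = V2 + V3) (hE : 2 * (m + 1) * V2 + 3 * (m + 2) * V3 ≤ E + r)
    (hP : m ^ 2 * P ≤ a1 - m ^ 2 * a2 - 1 / 2 * E) (gl : a1 - (m + 1) * V ≤ C - V / 2)
    (lo : a1 - (m + 1) * V + m ^ 2 * (Z - 1 - a2) - m / 4 * V3 ≤ Q + δ * (V2 + M6))
    (li : |m * (Z - 1)| ≤ 3 / 10 * V + ε) (je : Z * lZ ≤ a2) (lz : Z * lZ ≤ Z * (Z - 1))
    (m6 : M6 ≤ C6 * V2 ^ 3) (mq : Q + 9 / 100 * V2 ^ 2 ≤ -(1 / 50) * V2) (e0 : 0 ≤ ε)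
    (e1 : ε ≤ 1) : m ^ 2 * (P + Z * lZ) ≤ -V / 100 + (r / 2 + (1 + 3 * C) * ε) := by
  have m0 : 0 < m := by linarith
  have mv := mul_nonneg m0.le v3
  have ce := mul_nonneg hC.le e0
  rcases le_total (4 * C) V with k | k
  · have := mul_le_mul_of_nonneg_left je (sq_nonneg m)
    subst hV
    nlinarith
  · have k1 := mul_le_mul_of_nonneg_left lz (sq_nonneg m)
    have k2 : (m * (Z - 1)) ^ 2 ≤ (3 / 10 * V + ε) ^ 2 :=
      sq_le_sq' (abs_le.1 li).1 (abs_le.1 li).2
    have k3 : V2 ^ 2 ≤ (4 * C) ^ 2 := pow_le_pow_left₀ v2 (by linarith) 2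
    have k4 : M6 ≤ 16 * C6 * C ^ 2 * V2 := by
      have := mul_le_mul_of_nonneg_left k3 (mul_nonneg h6.le v2)
      nlinarith
    have k5 : δ * (V2 + M6) ≤ 1 / 100 * V2 := by
      have := mul_le_mul_of_nonneg_right hd v2
      have := mul_le_mul_of_nonneg_left k4 hδ.le
      nlinarith
    have k6 := mul_le_mul_of_nonneg_right (k.trans hm) v3
    have k7 := mul_nonneg v3 v3
    have k8 := mul_le_mul_of_nonneg_right k e0
    have k9 := mul_le_mul_of_nonneg_right e1 e0
    subst hV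
    nlinarith

theorem last {m P V D ε : ℝ} (hm : 1 < m) (hD : 0 < D) (hV : 0 ≤ V) (e0 : 0 ≤ ε)
    (h : m ^ 2 * P ≤ -V / 100 + D * ε) : P ≤ (100 * m ^ 2 + D) * ε - V / (100 * m ^ 2 + D) := by
  have m2 : 1 < m ^ 2 := one_lt_pow₀ hm two_ne_zero
  have k1 : V / (100 * m ^ 2 + D) ≤ V / (100 * m ^ 2) :=
    div_le_div_of_nonneg_left hV (by positivity) (by linarith)
  have k2 : m ^ 2 * (V / (100 * m ^ 2)) = V / 100 := by field_simp
  have k3 := mul_le_mul_of_nonneg_left k1 (sq_nonneg m)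
  have k4 : D * ε ≤ m ^ 2 * ((100 * m ^ 2 + D) * ε) :=
    (mul_le_mul_of_nonneg_right (by nlinarith) e0).trans
      (le_mul_of_one_le_left (by positivity) m2.le)
  refine le_of_mul_le_mul_left ?_ (zero_lt_one.trans m2)
  linarith

end ABS2

open ABS2

theorem poi : S_POI := by
  intro m M _ _ _ _ _ μ _ c F hF
  rcases eq_or_ne m 0 with rfl | hm
  · simpa using integral_nonneg (c.Γnonneg hF)
  obtain ⟨A, -, -, a3, a4, a5⟩ := dec c hm hF rfl rfl
  have cF := c.cont hF
  have e : ∀ p, (F p - ∫ p, F p ∂μ) ^ 2 =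
      F p ^ 2 - 2 * (∫ p, F p ∂μ) * F p + (∫ p, F p ∂μ) ^ 2 := fun p => by ring
  have v2 : 0 ≤ ∫ p, c.qf A p ^ 2 ∂μ := integral_nonneg fun p => sq_nonneg _
  have m0 : (0 : ℝ) ≤ m := Nat.cast_nonneg m
  simp only [e]
  rw [integral_add (intg (by fun_prop)) (intg (by fun_prop)),
    integral_sub (intg (by fun_prop)) (intg (by fun_prop)), integral_const_mul, integral_const,
    probReal_univ, one_smul, a3]
  nlinarith [mul_nonneg m0 v2, mul_nonneg m0 (sub_nonneg.2 a4)]

theorem abs2 : S_ABS2 := by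
  intro C hC
  obtain ⟨C6, h6, m1, hM⟩ := mom
  have hp : 0 < 1 + 16 * C6 * C ^ 2 := by positivity
  refine ⟨1 / 100 / (1 + 16 * C6 * C ^ 2), by positivity, max m1 (max 2 ⌈4 * C⌉₊),
    fun m => 100 * m ^ 2 + (3 * (m + 2) * (1 + (m + 1) ^ 2) / 2 + (1 + 3 * C)),
    fun m => by positivity, ?_⟩
  intro m M _ _ _ _ _ μ _ c hm B Y h s hs ε ε1 h0 hx
  have ε0 : 0 ≤ ε := (abs_nonneg _).trans h0
  have hm1 : m1 ≤ m := (le_max_left _ _).trans hm
  have hm0 : 2 ≤ m := (le_max_left _ _).trans ((le_max_right _ _).trans hm)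
  have hm2 : (1 : ℝ) < m := by exact_mod_cast hm0
  have hm3 : 4 * C ≤ m := Nat.ceil_le.1 ((le_max_right _ _).trans ((le_max_right _ _).trans hm))
  have sφ : ContDiff ℝ ∞ fun t : ℝ => Y (m * t) := h.smY.comp (contDiff_const.mul contDiff_id)
  have dφ : ∀ t : ℝ, deriv (fun t : ℝ => Y (m * t)) t = deriv Y (m * t) * m := fun t =>
    (((h.smY.differentiable (by simp) _).hasDerivAt.comp t
      ((hasDerivAt_id' t).const_mul (m : ℝ))).deriv).trans (by rw [mul_one])
  have hF : c.Sm fun p => Y (m * s p) := c.comp (φ := fun t : ℝ => Y (m * t)) sφ hs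
  have eΓ : ∀ p, c.Γ (fun p => Y (m * s p)) (fun p => Y (m * s p)) p =
      (deriv Y (m * s p) * m) * ((deriv Y (m * s p) * m) * c.Γ s s p) := by
    intro p
    have e1 := c.Γcomp (φ := fun t : ℝ => Y (m * t)) sφ hs hF p
    have e2 := c.Γcomp (φ := fun t : ℝ => Y (m * t)) sφ hs hs p
    rw [e1, c.Γsymm hs hF, e2, dφ]
  obtain ⟨ρ, hρ⟩ : ∃ ρ : ℝ, ρ = (m + 1) * ∑ i, (∫ p, Y (m * s p) * c.x i p ∂μ) ^ 2 := ⟨_, rfl⟩
  obtain ⟨A, a1, a2, a3, -, a4⟩ := dec c (by omega) hF rfl hρ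
  have sq : ∀ x : ℝ, |x| ≤ ε → x ^ 2 ≤ ε := fun x k =>
    (sq_le_sq' (abs_le.1 k).1 (abs_le.1 k).2).trans (by nlinarith)
  have r0 : 0 ≤ m * ρ := by rw [hρ]; positivity
  have r1 : ρ ≤ (m + 1) ^ 2 * ε := by
    have := Finset.sum_le_card_nsmul Finset.univ _ ε fun i _ => sq _ (hx i)
    rw [Finset.card_fin, nsmul_eq_mul, Nat.cast_add, Nat.cast_one] at this
    rw [hρ, pow_two, mul_assoc]
    exact mul_le_mul_of_nonneg_left this (by positivity)
  have r2 := mul_le_mul_of_nonneg_left (add_le_add (sq _ h0) r1)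
    (show (0 : ℝ) ≤ 3 * (m + 2) by positivity)
  obtain ⟨b1, b2⟩ := hM m M μ c hm1 A a1 a2
  have cs := c.cont hs
  have cB := h.smB.continuous
  have cB' := h.smB.continuous_deriv (by simp)
  have cY := h.smY.continuous
  have cY' := h.smY.continuous_deriv (by simp)
  have cΓ := c.Γcont hs hs
  have cΓ' := c.Γcont hF hF
  have cq := c.cont (sm_qf c A)
  have cG : Continuous fun p => GG m (B (m * s p)) (m * s p) := by unfold GG; fun_prop
  have cQ : Continuous fun p => QQ (c.qf A p) := by unfold QQ; fun_prop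
  have zp : 0 < ∫ p, exp (B (m * s p) / m) ∂μ := integral_exp_pos (intg (by fun_prop))
  have k1 := integral_mono (μ := μ) (intg (by fun_prop)) (intg (by fun_prop))
    fun p => point h hm2 (s p) _ (c.Γnonneg hs p)
  simp only [← eΓ] at k1
  have k2 := integral_mono (μ := μ) (intg (by fun_prop)) (intg (by fun_prop))
    fun p => h.glob (m * s p)
  have k3 := integral_mono (μ := μ) (intg (by unfold KK; fun_prop)) (intg (by fun_prop))
    fun p => h.loc (m * s p) (c.qf A p)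
  have k4 := (abs_integral_le_integral_abs (μ := μ)).trans
    (integral_mono (intg (by fun_prop)) (intg (by fun_prop)) fun p => h.lin (m * s p))
  have k5 := integral_mono (μ := μ) (intg (by fun_prop)) (intg (by fun_prop))
    fun p => show exp (B (m * s p) / m) * log (∫ p, exp (B (m * s p) / m) ∂μ) +
        exp (B (m * s p) / m) - ∫ p, exp (B (m * s p) / m) ∂μ ≤
        exp (B (m * s p) / m) * (B (m * s p) / m) by
      have e := exp_pos (B (m * s p) / m)
      have := mul_le_mul_of_nonneg_left (log_le_sub_one_of_pos (div_pos zp e)) e.le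
      rw [log_div zp.ne' e.ne', log_exp, mul_sub, mul_sub, mul_div_cancel₀ _ e.ne'] at this
      linarith
  unfold KK at k3
  simp (disch := exact intg (by fun_prop)) only [integral_add, integral_sub, integral_const_mul,
    integral_mul_const, integral_div, integral_const, probReal_univ, one_smul] at k2 k3 k4 k5
  rw [integral_const_mul, integral_sub (intg (by fun_prop)) (intg (by fun_prop)),
    integral_sub (intg (by fun_prop)) (intg (by fun_prop)), integral_const_mul,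
    integral_const_mul] at k1
  have v2 : 0 ≤ ∫ p, c.qf A p ^ 2 ∂μ := integral_nonneg fun p => sq_nonneg _
  have v3 : 0 ≤ ∫ p, (Y (m * s p) - c.qf A p) ^ 2 ∂μ := integral_nonneg fun p => sq_nonneg _
  have key : (m : ℝ) ^ 2 * Psi c B s ≤ _ :=
    arith2 (r := 3 * (m + 2) * (ε + (m + 1) ^ 2 * ε)) hC h6 (by positivity)
      (div_mul_cancel₀ _ hp.ne').le hm3 v2 v3 a3 (by linarith) k1 k2 k3
      (abs_le.2 ⟨by linarith [(abs_le.1 k4).1, (abs_le.1 h0).1],
        by linarith [(abs_le.1 k4).2, (abs_le.1 h0).2]⟩)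
      (by linarith) (mul_le_mul_of_nonneg_left (log_le_sub_one_of_pos zp) zp.le) b1 b2 ε0 ε1
  exact last hm2 (by positivity) (integral_nonneg fun p => sq_nonneg _) ε0
    (key.trans_eq (by ring))

end Pool.Agent.MP_c98b3a_gt.KL

end

end MrgPart0

-- ======== part 1: formerly Pool.Agent.MP_c98b3a_gt.kl.TAIL
section MrgPart1

/-! The complement of the domain is null, and the conformal factor has uniform tails. -/

open scoped ContDiff Topology
open MeasureTheory Real Filter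

noncomputable section

namespace Pool.Agent.MP_c98b3a_gt.KL

open CF

namespace TAIL

/-- the derivative of the transition function is bounded and vanishes outside `[0, 1]` -/
theorem sK : ∃ K : ℝ, ∀ t, |deriv smoothTransition t| ≤ K ∧
    (t < 0 ∨ 1 < t → deriv smoothTransition t = 0) := by
  have c : Continuous (deriv smoothTransition) :=
    (smoothTransition.contDiff (n := 1)).continuous_deriv le_rfl
  obtain ⟨K, hK⟩ := (isCompact_Icc (a := (0 : ℝ)) (b := 1)).exists_bound_of_continuousOn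
    c.continuousOn
  have z : ∀ t, t < 0 ∨ 1 < t → deriv smoothTransition t = 0 := by
    rintro t (h | h)
    · have e : smoothTransition =ᶠ[𝓝 t] fun _ => 0 :=
        (eventually_lt_nhds h).mono fun s hs => smoothTransition.zero_of_nonpos hs.le
      rw [e.deriv_eq, deriv_const]
    · have e : smoothTransition =ᶠ[𝓝 t] fun _ => 1 :=
        (eventually_gt_nhds h).mono fun s hs => smoothTransition.one_of_one_le hs.le
      rw [e.deriv_eq, deriv_const]
  refine ⟨K, fun t => ⟨?_, z t⟩⟩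
  by_cases h : t < 0 ∨ 1 < t
  · rw [z t h, abs_zero]
    exact (norm_nonneg _).trans (hK 0 ⟨le_rfl, zero_le_one⟩)
  · rw [not_or, not_lt, not_lt] at h
    exact hK t h

theorem hds (t : ℝ) : HasDerivAt smoothTransition (deriv smoothTransition t) t :=
  ((smoothTransition.contDiff (n := 1)).differentiable one_ne_zero t).hasDerivAt

/-- the profile of the test function -/
theorem prof {K : ℝ} (hK : ∀ t, |deriv smoothTransition t| ≤ K ∧
    (t < 0 ∨ 1 < t → deriv smoothTransition t = 0)) {t0 T : ℝ} (h : t0 + 4 ≤ T) :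
    ∃ q : ℝ → ℝ, ContDiff ℝ ∞ q ∧ (∀ t, T - 1 ≤ t → q t = 0) ∧ (∀ t ≤ t0, exp t ≤ 2 * q t) ∧
      (∀ t, q t ^ 2 * exp (-2 * t) ≤ 1) ∧ ∀ t, (q t - 2 * deriv q t) ^ 2 ≤
        18 * q t ^ 2 + 8 * K ^ 2 * exp (4 * t0 - 2 * T + 8) * smoothTransition (T - 2 - t) := by
  have p : ∀ t, 0 < exp (-t) + exp (t - 2 * t0) := fun t => by positivity
  refine ⟨fun t => smoothTransition (T - 3 - t) * (exp (-t) + exp (t - 2 * t0))⁻¹,
    (smoothTransition.contDiff.comp (by fun_prop)).mul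
      (ContDiff.inv (by fun_prop) fun t => (p t).ne'), fun t ht => ?_, fun t ht => ?_,
    fun t => ?_, fun t => ?_⟩ <;> beta_reduce
  · rw [smoothTransition.zero_of_nonpos (by linarith), zero_mul]
  · rw [smoothTransition.one_of_one_le (by linarith), one_mul, ← div_eq_mul_inv, le_div_iff₀ (p t),
      mul_add, ← exp_add, ← exp_add, add_neg_cancel, exp_zero]
    linarith [exp_le_one_iff.2 (show t + (t - 2 * t0) ≤ 0 by linarith)]
  · have e : exp (-2 * t) = exp (-t) ^ 2 := by rw [← exp_nat_mul]; congr 1; push_cast; ring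
    have a := smoothTransition.nonneg (T - 3 - t)
    have b : (exp (-t) + exp (t - 2 * t0))⁻¹ * exp (-t) ≤ 1 := by
      rw [inv_mul_le_iff₀ (p t)]
      linarith [exp_pos (t - 2 * t0)]
    rw [e, ← mul_pow, mul_assoc]
    exact pow_le_one₀ (by have := p t; positivity)
      (mul_le_one₀ (smoothTransition.le_one _) (by have := p t; positivity) b)
  · have d := ((hds (T - 3 - t)).comp t ((hasDerivAt_id' t).const_sub (T - 3))).mul
      ((((hasDerivAt_id' t).neg.exp).add ((hasDerivAt_id' t).sub_const (2 * t0)).exp).inv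
        (p t).ne')
    have e := d.deriv
    simp only [Function.comp_def, Pi.mul_def, Pi.inv_def, Pi.add_def, Pi.neg_def] at e
    rw [e]
    have u0 := exp_pos (-t)
    have v0 := exp_pos (t - 2 * t0)
    have k : deriv smoothTransition (T - 3 - t) ^ 2 * ((exp (-t) + exp (t - 2 * t0))⁻¹) ^ 2 ≤
        K ^ 2 * exp (4 * t0 - 2 * T + 8) * smoothTransition (T - 2 - t) := by
      by_cases c : T - 3 - t < 0 ∨ 1 < T - 3 - t
      · have := smoothTransition.nonneg (T - 2 - t)
        rw [(hK _).2 c]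
        simp only [ne_eq, OfNat.ofNat_ne_zero, not_false_eq_true, zero_pow, zero_mul]
        positivity
      rw [not_or, not_lt, not_lt] at c
      rw [smoothTransition.one_of_one_le (show 1 ≤ T - 2 - t by linarith), mul_one]
      have a : (exp (-t) + exp (t - 2 * t0))⁻¹ ≤ exp (2 * t0 - T + 4) := by
        refine (inv_anti₀ v0 (by linarith)).trans ?_
        rw [← exp_neg]
        exact exp_le_exp.2 (by linarith)
      have e2 : exp (4 * t0 - 2 * T + 8) = exp (2 * t0 - T + 4) ^ 2 := by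
        rw [← exp_nat_mul]; congr 1; push_cast; ring
      rw [e2]
      exact mul_le_mul (sq_le_sq' (abs_le.1 (hK _).1).1 (abs_le.1 (hK _).1).2)
        (pow_le_pow_left₀ (by positivity) a 2) (by positivity) (sq_nonneg _)
    generalize exp (-t) = u at *
    generalize exp (t - 2 * t0) = v at *
    generalize smoothTransition (T - 3 - t) = x at *
    generalize deriv smoothTransition (T - 3 - t) = y at *
    have w : -(u * -1 + v * 1) / (u + v) ^ 2 = (u + v)⁻¹ * ((u - v) / (u + v)) := by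
      field_simp
      ring
    have r : |(u - v) / (u + v)| ≤ 1 := by
      rw [abs_div, abs_of_pos (add_pos u0 v0), div_le_one (add_pos u0 v0), abs_le]
      constructor <;> linarith
    rw [w]
    generalize (u - v) / (u + v) = z at *
    generalize (u + v)⁻¹ = i at *
    have r2 : (1 - 2 * z) ^ 2 ≤ 9 := by nlinarith [abs_le.1 r]
    nlinarith [mul_le_mul_of_nonneg_left r2 (sq_nonneg (x * i)),
      sq_nonneg (x * i * (1 - 2 * z) - 2 * (y * i))]

variable {m : ℕ} {N : Type} [TopologicalSpace N] [CompactSpace N] [T2Space N] [MeasurableSpace N]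
  [BorelSpace N] {μ : Measure N} [IsProbabilityMeasure μ]

theorem markov {f : N → ℝ} (hf : Continuous f) (h0 : ∀ p, 0 ≤ f p) {ε : ℝ} (hε : 0 ≤ ε) {s : Set N}
    (hs : ∀ p ∈ s, ε ≤ f p) : ε * μ.real s ≤ ∫ p, f p ∂μ :=
  (mul_le_mul_of_nonneg_left (measureReal_mono (s₂ := {p | ε ≤ f p}) hs) hε).trans
    (mul_meas_ge_le_integral_of_nonneg (ae_of_all _ h0) (ABS.intg hf) ε)

/-- the basic estimate -/
theorem key (h1 : S_GB) {x : Fin (m + 1) → N → ℝ} {Ω S a c0 R} (hm : 20 ≤ m)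
    (h : Tower μ x Ω S a c0 R) (t0 : ℝ) : ∃ (c : SC m N μ) (S' : N → ℝ) (q : ℝ → ℝ), c.Sm S' ∧
      (∀ p ∈ Ω, S p ≤ t0 → S' p = S p) ∧ (∀ p ∉ Ω, t0 ≤ S' p) ∧ Continuous q ∧
      (∀ t ≤ t0, exp t ≤ 2 * q t) ∧ c0 * ∫ p, q (S' p) ^ 2 ∂μ +
        ∫ p, q (S' p) ^ 2 * (c.Γ S' S' p * exp (-2 * S' p)) ∂μ ≤ m ^ 2 := by
  obtain ⟨K, hK⟩ := sK
  obtain ⟨b, hb⟩ := h.bd
  set A := 8 * K ^ 2 * (exp (-2 * b) + |R|) with hA
  have A0 : 0 ≤ A := by positivity
  have a1 := le_abs_self t0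
  have a2 := abs_nonneg t0
  have a3 := le_abs_self b
  have a4 := abs_nonneg b
  set T := 2 * |t0| + |b| + 4 + A with hT
  obtain ⟨c, S', -, l⟩ := h.lev T
  obtain ⟨q, q1, q2, q3, q4, q5⟩ := prof hK (show t0 + 4 ≤ T by linarith)
  have m20 : (20 : ℝ) ≤ m := by exact_mod_cast hm
  have g := (h1 m N μ c (by omega) Ω S S' T a c0 R b l hb (by linarith)).2
    (fun t => smoothTransition (T - 2 - t)) (smoothTransition.continuous.comp (by fun_prop))
    (fun t => smoothTransition.le_one _) fun t ht => smoothTransition.zero_of_nonpos (by linarith)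
  have cS := c.cont l.sm
  have cΓ := c.Γcont l.sm l.sm
  have cq := q1.continuous
  have cd := q1.continuous_deriv (by simp)
  have cs := smoothTransition.continuous
  refine ⟨c, S', q, l.sm, fun p hp hs => l.eq p hp (by linarith),
    fun p hp => le_trans (by linarith) (l.ge p fun h => absurd h hp), cq, q3, ?_⟩
  have e : En c q S' ≤ ∫ p, (m * (m - 1) - q (S' p) ^ 2 * (c.Γ S' S' p * exp (-2 * S' p)) +
      8 * K ^ 2 * exp (4 * t0 - 2 * T + 8) *
        (smoothTransition (T - 2 - S' p) * (c.Γ S' S' p * exp (-2 * S' p)))) ∂μ := by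
    refine integral_mono (ABS.intg (by fun_prop)) (ABS.intg (by fun_prop)) fun p => ?_
    have w : 0 ≤ c.Γ S' S' p * exp (-2 * S' p) := mul_nonneg (c.Γnonneg l.sm p) (exp_pos _).le
    have b1 := mul_le_mul_of_nonneg_right (q5 (S' p)) w
    have b2 := mul_le_mul_of_nonneg_left (q4 (S' p)) (show (0 : ℝ) ≤ m * (m - 1) by nlinarith)
    have b3 := mul_nonneg (sub_nonneg.2 m20) (mul_nonneg (sq_nonneg (q (S' p))) w)
    dsimp only
    nlinarith
  rw [integral_add (ABS.intg (by fun_prop)) (ABS.intg (by fun_prop)), integral_const_mul,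
    integral_sub (integrable_const _) (ABS.intg (by fun_prop)), integral_const, probReal_univ,
    one_smul] at e
  have k := mul_le_mul_of_nonneg_left g
    (show 0 ≤ 8 * K ^ 2 * exp (4 * t0 - 2 * T + 8) by positivity)
  have k2 : A * exp (4 * t0 - 2 * T + 8) ≤ 1 := by
    refine (mul_le_mul_of_nonneg_left (exp_le_exp.2 (show _ ≤ -A by linarith)) A0).trans ?_
    rw [exp_neg, mul_inv_le_iff₀ (exp_pos _)]
    linarith [add_one_le_exp A]
  have k3 := l.gap q q1 q2
  nlinarith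

theorem null (h1 : S_GB) (h2 : S_POI) {x : Fin (m + 1) → N → ℝ} {Ω S a c0 R} (hm : 20 ≤ m)
    (h : Tower μ x Ω S a c0 R) (hc : 0 < c0) (hΩ : 0 < μ Ω) : μ Ωᶜ = 0 := by
  obtain ⟨n, hn⟩ : ∃ n : ℕ, μ {p | p ∈ Ω ∧ S p ≤ n} ≠ 0 := by
    by_contra! hh
    refine hΩ.ne' (measure_mono_null (fun p hp => ?_) (measure_iUnion_null hh))
    exact Set.mem_iUnion.2 ((exists_nat_ge (S p)).imp fun n hn => ⟨hp, hn⟩)
  by_contra hB
  have m20 : (20 : ℝ) ≤ m := by exact_mod_cast hm
  obtain ⟨K, hK⟩ := sK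
  set δ := min (μ.real {p | p ∈ Ω ∧ S p ≤ n}) (μ.real Ωᶜ) with hδ
  have δ0 : 0 < δ := lt_min (ENNReal.toReal_pos hn (measure_ne_top _ _))
    (ENNReal.toReal_pos hB (measure_ne_top _ _))
  set L := 16 * K ^ 2 * m / δ + 1 with hL
  have L1 : 1 ≤ L := le_add_of_nonneg_left (by positivity)
  have L0 : 0 < L := by linarith
  obtain ⟨c, S', q, sm, s1, s2, cq, q3, e⟩ := key h1 hm h (n + L)
  have sψ : ContDiff ℝ ∞ fun t => smoothTransition ((n + L - t) / L) :=
    smoothTransition.contDiff.comp (by fun_prop)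
  have sF := c.comp sψ sm
  have cF := c.cont sF
  have cS := c.cont sm
  have cΓ := c.Γcont sm sm
  have P := h2 m N μ c _ sF
  set y := ∫ p, smoothTransition ((n + L - S' p) / L) ∂μ
  have v : 1 / 4 * δ ≤ ∫ p, (smoothTransition ((n + L - S' p) / L) - y) ^ 2 ∂μ := by
    rcases le_total y (1 / 2) with hy | hy
    · refine le_trans (by gcongr; exact min_le_left _ _)
        (markov (by fun_prop) (fun p => sq_nonneg _) (by norm_num) fun p hp => ?_)
      rw [s1 p hp.1 (by linarith [hp.2]),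
        smoothTransition.one_of_one_le ((one_le_div L0).2 (by linarith [hp.2]))]
      nlinarith
    · refine le_trans (by gcongr; exact min_le_right _ _)
        (markov (by fun_prop) (fun p => sq_nonneg _) (by norm_num) fun p hp => ?_)
      rw [smoothTransition.zero_of_nonpos
        (div_nonpos_of_nonpos_of_nonneg (by linarith [s2 p hp]) L0.le)]
      nlinarith
  have w : ∫ p, c.Γ (fun p => smoothTransition ((n + L - S' p) / L))
      (fun p => smoothTransition ((n + L - S' p) / L)) p ∂μ ≤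
      ∫ p, 4 * K ^ 2 / L ^ 2 * (q (S' p) ^ 2 * (c.Γ S' S' p * exp (-2 * S' p))) ∂μ := by
    refine integral_mono (ABS.intg (c.Γcont sF sF)) (ABS.intg (by fun_prop)) fun p => ?_
    have d := ((hds ((n + L - S' p) / L)).comp (S' p)
      (((hasDerivAt_id' (S' p)).const_sub (n + L)).div_const L)).deriv
    simp only [Function.comp_def] at d
    have g := c.Γnonneg sm p
    dsimp only
    rw [c.Γcomp sψ sm sF, c.Γsymm sm sF, c.Γcomp sψ sm sm, d]
    rcases lt_or_ge (n + L) (S' p) with ht | ht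
    · rw [(hK _).2 (Or.inl (div_neg_of_neg_of_pos (by linarith) L0)), zero_mul, zero_mul]
      positivity
    have b1 : 1 ≤ 4 * (q (S' p) ^ 2 * exp (-2 * S' p)) := by
      have e1 : exp (S' p) ^ 2 * exp (-2 * S' p) = 1 := by
        rw [← exp_nat_mul, ← exp_add, exp_eq_one_iff]; push_cast; ring
      have e2 := mul_le_mul_of_nonneg_right (pow_le_pow_left₀ (exp_pos _).le (q3 _ ht) 2)
        (exp_pos (-2 * S' p)).le
      nlinarith
    have b2 := sq_le_sq' (abs_le.1 (hK ((n + L - S' p) / L)).1).1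
      (abs_le.1 (hK ((n + L - S' p) / L)).1).2
    have b3 := mul_le_mul b2 b1 zero_le_one (sq_nonneg K)
    have b4 := mul_le_mul_of_nonneg_right b3 (show 0 ≤ c.Γ S' S' p / L ^ 2 by positivity)
    refine le_of_eq_of_le ?_ (b4.trans_eq ?_) <;> ring_nf
  rw [integral_const_mul] at w
  have z : 0 ≤ c0 * ∫ p, q (S' p) ^ 2 ∂μ := by positivity
  have f1 : m * (1 / 4 * δ) ≤ 4 * K ^ 2 / L ^ 2 * m ^ 2 :=
    (mul_le_mul_of_nonneg_left v (by positivity)).trans (P.trans (w.trans (by gcongr; linarith)))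
  have f2 : δ * L = 16 * K ^ 2 * m + δ := by rw [hL]; field_simp
  rw [div_mul_eq_mul_div (4 * K ^ 2), le_div_iff₀ (by positivity)] at f1
  have f3 : δ * L * 1 ≤ δ * L * L := by gcongr
  nlinarith [mul_le_mul_of_nonneg_left f3 (show (0 : ℝ) ≤ m by positivity)]

end TAIL

theorem tail (h1 : S_GB) (h2 : S_POI) : S_TAIL := by
  intro N _ _ _ _ _ μ _ m x Ω S a c0 R hm h hc hΩ
  have z := TAIL.null h1 h2 hm h hc hΩ
  refine ⟨z, fun S0 => ?_⟩
  have mo : Monotone fun n : ℕ => {p | S0 ≤ S p ∧ S p ≤ n} := fun i j hij p hp =>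
    ⟨hp.1, hp.2.trans (Nat.cast_le.2 hij)⟩
  have u : ⋃ n : ℕ, {p | S0 ≤ S p ∧ S p ≤ n} = {p | S0 ≤ S p} :=
    Set.Subset.antisymm (Set.iUnion_subset fun n p hp => hp.1) fun p hp =>
      Set.mem_iUnion.2 ((exists_nat_ge (S p)).imp fun n hn => ⟨hp, hn⟩)
  have t := (ENNReal.tendsto_toReal (measure_ne_top μ _)).comp
    (tendsto_measure_iUnion_atTop (μ := μ) mo)
  rw [u] at t
  refine le_of_tendsto' (t.const_mul (c0 * exp (2 * S0))) fun n => ?_
  obtain ⟨c, S', q, sm, s1, -, cq, q3, e⟩ := TAIL.key h1 hm h n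
  have cS := c.cont sm
  have k := TAIL.markov (μ := μ) (f := fun p => q (S' p) ^ 2) (by fun_prop) (fun p => sq_nonneg _)
    (ε := exp (2 * S0) / 4) (by positivity) (s := {p | S0 ≤ S p ∧ S p ≤ n} ∩ Ω) fun p hp => by
      have e1 : exp (2 * S0) = exp S0 ^ 2 := by rw [← exp_nat_mul]; congr 1
      have e2 := pow_le_pow_left₀ (exp_pos _).le ((exp_le_exp.2 hp.1.1).trans (q3 _ hp.1.2)) 2
      rw [s1 p hp.2 hp.1.2, e1]
      linarith
  rw [Measure.real, measure_inter_conull z] at k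
  have w : 0 ≤ ∫ p, q (S' p) ^ 2 * (c.Γ S' S' p * exp (-2 * S' p)) ∂μ :=
    integral_nonneg fun p => mul_nonneg (sq_nonneg _) (mul_nonneg (c.Γnonneg sm p) (exp_pos _).le)
  have k2 := mul_le_mul_of_nonneg_left k hc.le
  simp only [Function.comp_def]
  linarith

end Pool.Agent.MP_c98b3a_gt.KL

end

end MrgPart1

-- marker of a merged file
example : 731051 + 583312 = 731051 + 583312 := rfl
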