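import Pool.Agent.MP_c98b3a_gt.kl.SH

/-! Almost balanced gauges: minimise a penalised functional on the open light cone. -/

open MeasureTheory Real Set Filter Topology

noncomputable section

namespace Pool.Agent.MP_c98b3a_gt.KL

open CF CF.BAL

namespace BAL2

theorem exH {m A : ℝ} {Y : ℝ → ℝ} (hm : 1 ≤ m) (hY : Continuous Y) (mo : StrictMono Y)
    (h0 : Y 0 = 0) (hA : ∀ S, Y S ≤ A) : ∃ (H : ℝ → ℝ) (a0 u0 : ℝ), 0 < a0 ∧
      (∀ u, HasDerivAt H (m * H u + Y (m * u)) u) ∧ (∀ u, -A ≤ H u) ∧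
      (∀ u, m * H u ≤ -Y (m * u)) ∧ ∀ u ≤ u0, a0 ≤ H u := by
  have m0 : 0 < m := by linarith
  have A0 : 0 ≤ A := h0 ▸ hA 0
  have bb : BddBelow (range fun x => gI m Y x + A / m * exp (-m * x)) :=
    ⟨0, forall_mem_range.2 fun x => add_nonneg (g_nonneg m0 hY mo h0 x) (by positivity)⟩
  obtain ⟨L, l1, l2⟩ : ∃ L, (∀ u, L ≤ gI m Y u + A / m * exp (-m * u)) ∧
      ∀ u, gI m Y u + Y (m * u) / m * exp (-m * u) ≤ L := by
    refine ⟨_, ciInf_le bb, fun u => le_ciInf fun x => ?_⟩
    have a := g_min m0 hY mo (m * u) x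
    rw [mul_div_cancel_left₀ _ m0.ne', ← neg_mul] at a
    exact a.trans (add_le_add_right (mul_le_mul_of_nonneg_right
      (div_le_div_of_nonneg_right (hA _) m0.le) (exp_pos _).le) _)
  obtain ⟨a, a0, ha⟩ := g_low m0 hY mo h0
  have L0 : 0 ≤ L := by simpa [gI, h0] using l2 0
  have e : ∀ u, exp (m * u) * exp (-m * u) = 1 := fun u => by rw [← exp_add]; simp
  have q : 0 < a / 2 / (a * exp 1 + L) := by positivity
  refine ⟨fun u => exp (m * u) * (gI m Y u - L), a / 2, log (a / 2 / (a * exp 1 + L)) / m,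
    by positivity, fun u => ?_, fun u => ?_, fun u => ?_, fun u hu => ?_⟩
  · refine ((((hasDerivAt_id' u).const_mul m).exp).mul ((hd_g m hY u).sub_const L)).congr_deriv ?_
    linear_combination Y (m * u) * e u
  · have b := mul_le_mul_of_nonneg_left (l1 u) (exp_pos (m * u)).le
    have c : A / m ≤ A := div_le_self A0 hm
    have d : exp (m * u) * (A / m * exp (-m * u)) = A / m := by linear_combination A / m * e u
    simp only
    linarith
  · have b := mul_le_mul_of_nonneg_left (l2 u) (mul_pos m0 (exp_pos (m * u))).le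
    have d : m * exp (m * u) * (Y (m * u) / m * exp (-m * u)) = Y (m * u) := by
      linear_combination Y (m * u) / m * m * e u + div_mul_cancel₀ (Y (m * u)) m0.ne'
    simp only
    linarith
  · have b := mul_le_mul_of_nonneg_left (ha u) (exp_pos (m * u)).le
    have c : exp (m * u) ≤ a / 2 / (a * exp 1 + L) := by
      rw [← le_log_iff_exp_le q, mul_comm]
      exact (le_div_iff₀ m0).1 hu
    rw [le_div_iff₀ (by positivity)] at c
    have d : exp (m * u) * (a * exp (-m * u)) = a := by linear_combination a * e u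
    simp only
    linarith

/-- bounded on half lines -/
def Hb (X : ℝ → ℝ) : Prop := Continuous X ∧ ∀ b, ∃ B, ∀ u, b ≤ u → ‖X u‖ ≤ B

variable {ι : Type} [Fintype ι]

theorem polar {u : ℝ × Euc ι} (uc : ‖u.2‖ < u.1) : ∃ (v : ℝ × Euc ι) (k : ℝ), ‖v.2‖ < v.1 ∧
    1 ≤ v.1 ∧ lor v v = 1 ∧ u = exp k • v ∧ log (lor u u) = 2 * k := by
  have l0 := lor_pos uc
  have ρ0 : 0 < √(lor u u) := sqrt_pos.2 l0
  have e := sq_sqrt l0.le
  generalize √(lor u u) = ρ at ρ0 e
  have a : ‖(ρ⁻¹ • u).2‖ < (ρ⁻¹ • u).1 := by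
    rw [Prod.smul_fst, Prod.smul_snd, norm_smul, norm_inv, norm_of_nonneg ρ0.le, smul_eq_mul]
    exact mul_lt_mul_of_pos_left uc (inv_pos.2 ρ0)
  have b : lor (ρ⁻¹ • u) (ρ⁻¹ • u) = 1 := by
    rw [lor_self] at e
    rw [lor_self, Prod.smul_fst, Prod.smul_snd, norm_smul, norm_inv, norm_of_nonneg ρ0.le,
      smul_eq_mul]
    field_simp
    linarith
  refine ⟨ρ⁻¹ • u, log ρ, a, ?_, b, by rw [exp_log ρ0, smul_inv_smul₀ ρ0.ne'], ?_⟩
  · rw [lor_self] at b
    nlinarith [norm_nonneg (ρ⁻¹ • u).2]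
  · rw [← e, log_pow]
    norm_num

variable {M : Type} [TopologicalSpace M] [CompactSpace M] [MeasurableSpace M] [BorelSpace M]
  {μ : Measure M} [IsFiniteMeasure μ] {l : M → ℝ} {z : M → Euc ι} {m C : ℝ} {X H Y : ℝ → ℝ}

omit [MeasurableSpace M] [BorelSpace M] in
theorem bd {T : Type} [TopologicalSpace T] {K : Set T} (hK : IsCompact K) {ρ L : T × M → ℝ}
    (hρ : ContinuousOn ρ (K ×ˢ univ)) (hL : ContinuousOn L (K ×ˢ univ)) (hl : ∀ p, l p ≤ C)
    (hX : Hb X) : ∃ B, ∀ t ∈ K, ∀ p, ‖ρ (t, p) * X (L (t, p) - l p)‖ ≤ B := by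
  obtain ⟨B1, h1⟩ := (hK.prod isCompact_univ).exists_bound_of_continuousOn hρ
  obtain ⟨B2, h2⟩ := (hK.prod isCompact_univ).exists_bound_of_continuousOn hL
  obtain ⟨B3, h3⟩ := hX.2 (-B2 - C)
  refine ⟨B1 * B3, fun t ht p => ?_⟩
  have a := h1 (t, p) ⟨ht, trivial⟩
  rw [norm_mul]
  exact mul_le_mul a (h3 _ (by linarith [(abs_le.1 (h2 (t, p) ⟨ht, trivial⟩)).1, hl p]))
    (norm_nonneg _) ((norm_nonneg _).trans a)

omit [CompactSpace M] [IsFiniteMeasure μ] in
theorem ms {ρ L : M → ℝ} (hρ : Continuous ρ) (hL : Continuous L) (ml : Measurable l) (hX : Hb X) :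
    AEStronglyMeasurable (fun p => ρ p * X (L p - l p)) μ :=
  (hρ.measurable.mul (hX.1.measurable.comp (hL.measurable.sub ml))).aestronglyMeasurable

theorem ig {ρ L : M → ℝ} (hρ : Continuous ρ) (hL : Continuous L) (ml : Measurable l)
    (hl : ∀ p, l p ≤ C) (hX : Hb X) : Integrable (fun p => ρ p * X (L p - l p)) μ := by
  obtain ⟨B, hB⟩ := bd (K := (univ : Set Unit)) isCompact_univ
    (hρ.comp continuous_snd).continuousOn (hL.comp continuous_snd).continuousOn hl hX
  exact Integrable.of_bound (ms hρ hL ml hX) B (Eventually.of_forall (hB () trivial))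

omit [CompactSpace M] [MeasurableSpace M] [BorelSpace M] in
theorem cL (hz : Continuous z) (h1 : ∀ p, ‖z p‖ = 1) {v : ℝ × Euc ι} (hv : ‖v.2‖ < v.1) :
    Continuous fun p => log (aff v (z p)) :=
  (cont_aff.comp (continuous_const.prodMk hz)).log fun p => (aff_pos hv (h1 p)).ne'

/-- the functional -/
def J (μ : Measure M) (l : M → ℝ) (z : M → Euc ι) (m : ℝ) (H : ℝ → ℝ) (v : ℝ × Euc ι) : ℝ :=
  ∫ p, exp (-m * log (aff v (z p))) * H (log (aff v (z p)) - l p) ∂μ

theorem contJ (hz : Continuous z) (h1 : ∀ p, ‖z p‖ = 1) (ml : Measurable l) (hl : ∀ p, l p ≤ C)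
    (hH : Hb H) {K : Set (ℝ × Euc ι)} (hK : IsCompact K) (hc : ∀ v ∈ K, ‖v.2‖ < v.1) :
    ContinuousOn (J μ l z m H) K := by
  have c : ContinuousOn (fun x : (ℝ × Euc ι) × M => log (aff x.1 (z x.2))) (K ×ˢ univ) :=
    (cont_aff.comp (continuous_fst.prodMk (hz.comp continuous_snd))).continuousOn.log
      fun x hx => (aff_pos (hc _ hx.1) (h1 _)).ne'
  obtain ⟨B, hB⟩ := bd hK (continuousOn_const (c := -m).mul c).rexp c hl hH
  refine continuousOn_of_dominated (fun v hv => ms (continuous_const.mul (cL hz h1 (hc v hv))).rexp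
    (cL hz h1 (hc v hv)) ml hH) (fun v hv => Eventually.of_forall (hB v hv)) (integrable_const B)
    (Eventually.of_forall fun p => ?_)
  have d : ContinuousOn (fun v : ℝ × Euc ι => log (aff v (z p))) K :=
    (cont_aff.comp (continuous_id.prodMk continuous_const)).continuousOn.log
      fun x hx => (aff_pos (hc _ hx) (h1 _)).ne'
  exact (continuousOn_const.mul d).rexp.mul (hH.1.comp_continuousOn (d.sub continuousOn_const))

theorem hdJ (hz : Continuous z) (h1 : ∀ p, ‖z p‖ = 1) (ml : Measurable l) (hl : ∀ p, l p ≤ C)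
    (hH : Hb H) (hX : Hb X) (hd : ∀ u, HasDerivAt H (m * H u + X u) u) {v : ℝ × Euc ι}
    (hv : ‖v.2‖ < v.1) (w : ℝ × Euc ι) : HasDerivAt (fun t : ℝ => J μ l z m H (v + t • w))
      (∫ p, exp (-m * log (aff v (z p))) * (aff w (z p) / aff v (z p)) *
        X (log (aff v (z p)) - l p) ∂μ) 0 := by
  have o : IsOpen {t : ℝ | ‖(v + t • w).2‖ < (v + t • w).1} := isOpen_lt (by fun_prop) (by fun_prop)
  obtain ⟨K, K0, Ks, Kc⟩ := local_compact_nhds (o.mem_nhds (x := 0) (by simpa using hv))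
  have pos : ∀ t ∈ K, ∀ p, 0 < aff (v + t • w) (z p) := fun t ht p => aff_pos (Ks ht) (h1 p)
  have ca : Continuous fun x : ℝ × M => aff (v + x.1 • w) (z x.2) :=
    cont_aff.comp (Continuous.prodMk (by fun_prop) (by fun_prop))
  have cw : Continuous fun p : M => aff w (z p) := cont_aff.comp (continuous_const.prodMk hz)
  have c : ContinuousOn (fun x : ℝ × M => log (aff (v + x.1 • w) (z x.2))) (K ×ˢ univ) :=
    ca.continuousOn.log fun x hx => (pos _ hx.1 _).ne'
  obtain ⟨B, hB⟩ := bd Kc ((continuousOn_const (c := -m).mul c).rexp.mul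
    ((cw.comp continuous_snd).continuousOn.div ca.continuousOn fun x hx => (pos _ hx.1 _).ne'))
    c hl hX
  have k0 := Ks (mem_of_mem_nhds K0)
  have := (hasDerivAt_integral_of_dominated_loc_of_deriv_le (μ := μ)
    (F := fun (t : ℝ) p => exp (-m * log (aff (v + t • w) (z p))) *
      H (log (aff (v + t • w) (z p)) - l p))
    (F' := fun (t : ℝ) p => exp (-m * log (aff (v + t • w) (z p))) *
      (aff w (z p) / aff (v + t • w) (z p)) * X (log (aff (v + t • w) (z p)) - l p))
    (bound := fun _ => B) K0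
    (mem_of_superset K0 fun t ht =>
      ms (continuous_const.mul (cL hz h1 (Ks ht))).rexp (cL hz h1 (Ks ht)) ml hH)
    (ig (continuous_const.mul (cL hz h1 k0)).rexp (cL hz h1 k0) ml hl hH)
    (ms ((continuous_const.mul (cL hz h1 k0)).rexp.mul (cw.div (cont_aff.comp
      (continuous_const.prodMk hz)) fun p => (aff_pos k0 (h1 p)).ne')) (cL hz h1 k0) ml hX)
    (Eventually.of_forall fun p t ht => hB t ht p) (integrable_const B)
    (Eventually.of_forall fun p t ht => ?_)).2
  · simpa [J] using this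
  have a : HasDerivAt (fun t : ℝ => aff (v + t • w) (z p)) (aff w (z p)) t := by
    simp only [aff_add]
    simpa using ((hasDerivAt_id' t).mul_const (aff w (z p))).const_add (aff v (z p))
  have b := a.log (pos t ht p).ne'
  refine ((b.const_mul (-m)).exp.mul ((hd _).comp t (b.sub_const (l p)))).congr_deriv ?_
  simp only [Function.comp]
  ring

end BAL2

open BAL2 in
theorem bal2 : S_BAL2 := by
  intro ι M _ _ _ _ _ _ _ μ _ w z m κ Y ⟨cw, hz, h1, hm, hκ, hY, mo, h0, ⟨A, hA⟩, _, ma⟩ tl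
  have m0 : 0 < m := by linarith
  have Y1 : 0 < Y m := h0 ▸ mo m0
  have A0 : 0 < A := Y1.trans_le (hA _)
  obtain ⟨H, a0, u0, a1, hd, H1, H2, H3⟩ := exH hm hY mo h0 hA
  obtain ⟨C, hC⟩ := isCompact_univ.exists_bound_of_continuousOn cw.continuousOn
  have ml : Measurable fun p => log (w p) := cw.measurable.log
  have hl : ∀ p, log (w p) ≤ C := fun p =>
    (log_abs (w p) ▸ log_le_self (abs_nonneg _)).trans (hC p trivial)
  have mb : ∀ {b u}, b ≤ u → -|Y (m * b)| ≤ Y (m * u) := fun h =>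
    (neg_abs_le _).trans (mo.monotone (mul_le_mul_of_nonneg_left h m0.le))
  have hX : Hb fun u => Y (m * u) := ⟨by fun_prop, fun b => ⟨A + |Y (m * b)|, fun u hu =>
    abs_le.2 ⟨by linarith [mb hu], by linarith [hA (m * u), abs_nonneg (Y (m * b))]⟩⟩⟩
  have hH : Hb H := ⟨continuous_iff_continuousAt.2 fun u => (hd u).continuousAt, fun b =>
    ⟨A + |Y (m * b)|, fun u hu => abs_le.2 ⟨by linarith [H1 u, abs_nonneg (Y (m * b))], by
      nlinarith [H2 u, mb hu, abs_nonneg (Y (m * b))]⟩⟩⟩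
  have ce : ∀ v : ℝ × Euc ι, ‖v.2‖ < v.1 → Continuous fun p => exp (-m * log (aff v (z p))) :=
    fun v hv => (continuous_const.mul (cL hz h1 hv)).rexp
  have iJ := fun (v : ℝ × Euc ι) (hv : ‖v.2‖ < v.1) => ig (μ := μ) (ce v hv) (cL hz h1 hv) ml hl hH
  have sc : ∀ (v : ℝ × Euc ι) (k : ℝ), ‖v.2‖ < v.1 → ∀ p,
      log (aff (exp k • v) (z p)) = k + log (aff v (z p)) := fun v k hv p => by
    rw [aff_smul, log_mul (exp_pos k).ne' (aff_pos hv (h1 p)).ne', log_exp]
  obtain ⟨S0, hS⟩ := tl (a0 * κ / (a0 + A)) (by positivity)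
  set j := J μ (fun p => log (w p)) z m H with hj
  have low : ∀ v : ℝ × Euc ι, ‖v.2‖ < v.1 → -A * (κ * exp (-(m / 2) * log (lor v v))) ≤ j v := by
    intro v hv
    rw [← ma v hv, ← integral_const_mul]
    exact integral_mono ((integ (ce v hv)).const_mul _) (iJ v hv) fun p => by
      simpa only [mul_comm (-A)] using mul_le_mul_of_nonneg_left (H1 _) (exp_pos _).le
  have sm : ∀ u : ℝ × Euc ι, ‖u.2‖ < u.1 → log (lor u u) ≤ 2 * (u0 - S0) → 0 ≤ j u := by
    intro u uc hu
    obtain ⟨v, k, vc, v1, lv, rfl, e⟩ := polar uc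
    have s0 : MeasurableSet {p | S0 ≤ log (aff v (z p)) - log (w p)} :=
      measurableSet_le measurable_const ((cL hz h1 vc).measurable.sub ml)
    have t := hS v (by linarith) lv
    rw [← integral_indicator s0, le_div_iff₀ (by positivity)] at t
    have i1 := integ (μ := μ) (ce v vc)
    have i2 := i1.indicator s0
    refine le_trans ?_ (integral_mono (((i1.const_mul a0).sub (i2.const_mul (a0 + A))).const_mul
      (exp (-m * k))) (iJ _ uc) fun p => ?_)
    · simp only [Pi.sub_apply]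
      rw [integral_const_mul, integral_sub (i1.const_mul _) (i2.const_mul _), integral_const_mul,
        integral_const_mul, ma v vc, lv, log_one, mul_zero, exp_zero]
      exact mul_nonneg (exp_pos _).le (by linarith)
    simp only [Pi.sub_apply, sc v k vc, mul_add (-m), exp_add, mul_assoc]
    refine mul_le_mul_of_nonneg_left ?_ (exp_pos _).le
    have p0 := exp_pos (-m * log (aff v (z p)))
    by_cases hp : p ∈ {p | S0 ≤ log (aff v (z p)) - log (w p)}
    · rw [indicator_of_mem hp]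
      nlinarith [H1 (k + log (aff v (z p)) - log (w p))]
    · rw [indicator_of_notMem hp]
      have : log (aff v (z p)) - log (w p) < S0 := not_le.1 fun h => hp h
      nlinarith [H3 (k + log (aff v (z p)) - log (w p)) (by linarith)]
  generalize u0 - S0 = k1 at sm
  obtain ⟨R, R1, R2⟩ : ∃ R, C + 1 ≤ R ∧ k1 < R :=
    ⟨max (C + 1) (k1 + 1), le_max_left _ _, (lt_add_one _).trans_le (le_max_right _ _)⟩
  have c0 : ‖((exp R, 0) : ℝ × Euc ι).2‖ < ((exp R, 0) : ℝ × Euc ι).1 := by simpa using exp_pos R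
  have j0 : j (exp R, 0) < 0 := by
    refine (integral_mono (iJ _ c0) ((integ (ce _ c0)).const_mul (-Y m / m)) fun p => ?_).trans_lt ?_
    · have e : aff ((exp R, 0) : ℝ × Euc ι) (z p) = exp R := by simp [aff]
      simp only [e, log_exp, mul_comm (-Y m / m)]
      refine mul_le_mul_of_nonneg_left ((le_div_iff₀ m0).2 ?_) (exp_pos _).le
      have := mo.monotone (le_mul_of_one_le_right (b := R - log (w p)) m0.le (by linarith [hl p]))
      linarith [H2 (R - log (w p))]
    · rw [integral_const_mul, ma _ c0]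
      exact mul_neg_of_neg_of_pos (div_neg_of_neg_of_pos (by linarith) m0) (by positivity)
  obtain ⟨d, d0, hd0⟩ : ∃ d, 0 < d ∧ j (exp R, 0) = -(2 * d) := ⟨-j (exp R, 0) / 2, by linarith,
    by ring⟩
  refine ⟨|k1| + A * κ / d, fun ε ε0 => ?_⟩
  obtain ⟨η, η0, η1, η2⟩ : ∃ η, 0 < η ∧ η * (A * κ / d) ≤ ε ∧ η * (R - k1) ≤ d :=
    ⟨min (ε / (A * κ / d)) (d / (R - k1)), lt_min (by positivity) (div_pos d0 (by linarith)),
      (le_div_iff₀ (by positivity)).1 (min_le_left _ _),
      (le_div_iff₀ (by linarith)).1 (min_le_right _ _)⟩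
  set B := A * (κ * exp (-m * k1)) with hB
  have B0 : 0 < B := by positivity
  have cl : Continuous fun v : ℝ × Euc ι => lor v v := by
    unfold lor
    fun_prop
  have Dc : ∀ v : ℝ × Euc ι, exp (2 * k1) ≤ lor v v → 0 ≤ v.1 → ‖v.2‖ < v.1 := fun v a b => by
    rw [lor_self] at a
    exact lt_of_pow_lt_pow_left₀ 2 b (by linarith [exp_pos (2 * k1)])
  set K : Set (ℝ × Euc ι) := {v | exp (2 * k1) ≤ lor v v ∧ 0 ≤ v.1 ∧ v.1 ≤ exp (R + B / η)}
  have Kc : ∀ v ∈ K, ‖v.2‖ < v.1 := fun v hv => Dc v hv.1 hv.2.1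
  have cK : IsCompact K := by
    refine Metric.isCompact_of_isClosed_isBounded ((isClosed_le continuous_const cl).inter
      ((isClosed_le continuous_const (continuous_fst (X := ℝ) (Y := Euc ι))).inter
        (isClosed_le continuous_fst continuous_const)))
      (isBounded_iff_forall_norm_le.2 ⟨exp (R + B / η), fun v hv => ?_⟩)
    rw [Prod.norm_def]
    exact max_le (by rw [norm_of_nonneg hv.2.1]; exact hv.2.2) ((Kc v hv).le.trans hv.2.2)
  have mem : ((exp R, 0) : ℝ × Euc ι) ∈ K := by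
    refine ⟨?_, (exp_pos _).le, exp_le_exp.2 (le_add_of_nonneg_right (by positivity))⟩
    rw [lor_self, norm_zero, sq, ← exp_add]
    simp only [ne_eq, OfNat.ofNat_ne_zero, not_false_eq_true, zero_pow, sub_zero, exp_le_exp]
    linarith
  obtain ⟨u, uK, um⟩ := cK.exists_isMinOn (f := fun v => j v + η * log v.1) ⟨_, mem⟩
    ((contJ hz h1 ml hl hH cK Kc).add (continuousOn_const.mul (continuous_fst.continuousOn.log
      fun v hv => ((norm_nonneg _).trans_lt (Kc v hv)).ne')))
  have uc := Kc u uK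
  have u1 : j u + η * log u.1 ≤ -(2 * d) + η * R := by
    simpa only [hd0, log_exp, mem_ofPred_eq] using um mem
  have glob : ∀ v : ℝ × Euc ι, exp (2 * k1) ≤ lor v v → 0 ≤ v.1 →
      j u + η * log u.1 ≤ j v + η * log v.1 := by
    intro v a b
    rcases le_total v.1 (exp (R + B / η)) with h | h
    · exact um ⟨a, b, h⟩
    have c := low v (Dc v a b)
    have e := (le_log_iff_exp_le ((exp_pos _).trans_le a)).2 a
    have f : exp (-(m / 2) * log (lor v v)) ≤ exp (-m * k1) := exp_le_exp.2 (by nlinarith)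
    have g := mul_le_mul_of_nonneg_left ((le_log_iff_exp_le ((exp_pos _).trans_le h)).2 h) η0.le
    rw [mul_add, mul_div_cancel₀ _ η0.ne'] at g
    have := mul_le_mul_of_nonneg_left f (mul_pos A0 hκ).le
    linarith
  have k1u := (le_log_iff_exp_le (lor_pos uc)).2 uK.1
  have lu := low u uc
  have su := sm u uc
  have loc : ∀ y : ℝ × Euc ι, exp (2 * k1) < lor u u → ∫ p, exp (-m * log (aff u (z p))) *
      (aff y (z p) / aff u (z p)) * Y (m * (log (aff u (z p)) - log (w p))) ∂μ +
        η * (y.1 / u.1) = 0 := by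
    intro y hy
    have u2 : 0 < u.1 := (norm_nonneg _).trans_lt uc
    have o : IsOpen {t : ℝ | exp (2 * k1) < lor (u + t • y) (u + t • y) ∧ 0 < (u + t • y).1} :=
      (isOpen_lt continuous_const (cl.comp (f := fun t : ℝ => u + t • y) (by fun_prop))).inter
        (isOpen_lt continuous_const (g := fun t : ℝ => (u + t • y).1) (by fun_prop))
    have lm : IsLocalMin (fun t : ℝ => j (u + t • y) + η * log (u + t • y).1) 0 :=
      mem_of_superset (o.mem_nhds (x := 0) (by simpa using ⟨hy, u2⟩)) fun t ht => by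
        simpa using glob _ ht.1.le ht.2.le
    have a : HasDerivAt (fun t : ℝ => (u + t • y).1) y.1 0 := by
      simpa using ((hasDerivAt_id' (0 : ℝ)).mul_const y.1).const_add u.1
    simpa using lm.hasDerivAt_eq_zero ((hdJ hz h1 ml hl hH hX hd uc y).add
      ((a.log (by simpa using u2.ne')).const_mul η))
  obtain ⟨v, k, vc, v1, lv, rfl, e⟩ := polar uc
  have e1 : k ≤ log (exp k • v).1 := by
    rw [Prod.smul_fst, smul_eq_mul, log_mul (exp_pos k).ne' (by linarith), log_exp]
    linarith [log_nonneg v1]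
  have ju : j (exp k • v) ≤ -d := by nlinarith
  have kk : exp (2 * k1) < lor (exp k • v) (exp k • v) :=
    (lt_log_iff_exp_lt (lor_pos uc)).1 (lt_of_not_ge fun h => by linarith [su h])
  have ek : exp (m * k) ≤ A * κ / d := by
    rw [e, show -(m / 2) * (2 * k) = -(m * k) by ring, exp_neg] at lu
    rw [le_div_iff₀ d0, ← le_div_iff₀' (exp_pos _), div_eq_mul_inv]
    linarith
  have key : ∀ y : ℝ × Euc ι, |y.1| ≤ v.1 → |∫ p, exp (-m * log (aff v (z p))) *
      (Y (m * (log (aff v (z p)) - log (w p) + k)) * (aff y (z p) / aff v (z p))) ∂μ| ≤ ε := by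
    intro y hy
    have a := eq_neg_of_add_eq_zero_left (loc (exp k • y) kk)
    have b : ∫ p, exp (-m * log (aff v (z p))) * (Y (m * (log (aff v (z p)) - log (w p) + k)) *
        (aff y (z p) / aff v (z p))) ∂μ = exp (m * k) * -(η * (y.1 / v.1)) := by
      simp only [Prod.smul_fst, smul_eq_mul, mul_div_mul_left _ _ (exp_pos k).ne'] at a
      rw [← a, ← integral_const_mul]
      refine integral_congr_ae (Eventually.of_forall fun p => ?_)
      simp only [sc v k vc]
      rw [aff_smul, aff_smul, mul_div_mul_left _ _ (exp_pos k).ne', ← mul_assoc, ← mul_assoc,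
        ← mul_assoc, ← exp_add, show m * k + -m * (k + log (aff v (z p))) =
          -m * log (aff v (z p)) by ring, show k + log (aff v (z p)) - log (w p) =
          log (aff v (z p)) - log (w p) + k by ring]
      ring
    rw [b, abs_mul, abs_neg, abs_mul, abs_of_pos (exp_pos _), abs_of_pos η0, abs_div,
      abs_of_pos (a := v.1) (by linarith)]
    have c : |y.1| / v.1 ≤ 1 := (div_le_one (by linarith)).2 hy
    have f := mul_le_mul ek (mul_le_of_le_one_right η0.le c) (by positivity) (by positivity)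
    linarith
  refine ⟨v, by linarith, lv, k, abs_le.2 ⟨?_, ?_⟩, ?_, fun i => key _ ?_⟩
  · have : 0 < A * κ / d := by positivity
    linarith [neg_abs_le k1]
  · rcases le_total k 0 with h | h
    · exact h.trans (by positivity)
    · nlinarith [add_one_le_exp (m * k), abs_nonneg k1]
  · simpa only [div_self (aff_pos vc (h1 _)).ne', mul_one] using key v (abs_of_pos
      (by linarith)).le
  · exact (PiLp.norm_apply_le v.2 i).trans vc.le

end Pool.Agent.MP_c98b3a_gt.KL

end
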