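import Pool.Agent.MP_c98b3a_gt.kl.SH

-- ======== part 0: formerly Pool.Agent.MP_c98b3a_gt.kl.CMP
section MrgPart0

/-! Passing to the limit in the truncation. -/

open scoped Manifold ContDiff Matrix Topology
open MeasureTheory Real Filter

noncomputable section

namespace Pool.Agent.MP_c98b3a_gt.KL

open CF

namespace CMP

theorem cdσ : ContDiff ℝ ∞ smoothTransition := smoothTransition.contDiff

theorem hdσ (x : ℝ) : HasDerivAt smoothTransition (deriv smoothTransition x) x :=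
  (cdσ.differentiable (by simp) x).hasDerivAt

theorem dσ_one {x : ℝ} (h : 1 < x) : deriv smoothTransition x = 0 := by
  have : smoothTransition =ᶠ[𝓝 x] fun _ => 1 :=
    (lt_mem_nhds h).mono fun y hy => smoothTransition.one_of_one_le hy.le
  rw [this.deriv_eq, deriv_const]

theorem dσ_zero {x : ℝ} (h : x < 0) : deriv smoothTransition x = 0 := by
  have : smoothTransition =ᶠ[𝓝 x] fun _ => 0 :=
    (gt_mem_nhds h).mono fun y hy => smoothTransition.zero_of_nonpos hy.le
  rw [this.deriv_eq, deriv_const]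

theorem dσ_bd : ∃ L, 0 ≤ L ∧ ∀ x, 0 ≤ x → x ≤ 1 → |deriv smoothTransition x| ≤ L := by
  obtain ⟨L, hL⟩ := isCompact_Icc.exists_bound_of_continuousOn
    (cdσ.continuous_deriv (by simp)).continuousOn (s := Set.Icc (0 : ℝ) 1)
  exact ⟨L, (norm_nonneg _).trans (hL 0 (by simp)), fun x h0 h1 => hL x ⟨h0, h1⟩⟩

/-- the cut-off -/
def chi (T t : ℝ) : ℝ := smoothTransition (T + 2 - t)

/-- the truncation -/
def psi (T t : ℝ) : ℝ := T + 2 - (T + 2 - t) * smoothTransition (T + 2 - t)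

/-- the density -/
def PP (m k : ℝ) (B : ℝ → ℝ) (t : ℝ) : ℝ := exp (B (m * (t + k)) / m)

/-- the test profile -/
def qq (m k : ℝ) (B : ℝ → ℝ) (T t : ℝ) : ℝ := exp (B (m * (t + k)) / m / 2) * chi T t

/-- the potential term -/
def HH (m u : ℝ) : ℝ := m / 2 * (exp (-2 * u) - 1 + 2 * u)

theorem cd_chi (T : ℝ) : ContDiff ℝ ∞ (chi T) := cdσ.comp (by fun_prop)

theorem cd_psi (T : ℝ) : ContDiff ℝ ∞ (psi T) :=
  contDiff_const.sub ((contDiff_const.sub contDiff_id).mul (cd_chi T))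

theorem chi_one {T t : ℝ} (h : t ≤ T + 1) : chi T t = 1 :=
  smoothTransition.one_of_one_le (by linarith)

theorem chi_abs (T t : ℝ) : |chi T t| ≤ 1 :=
  abs_le.2 ⟨le_trans (by norm_num) (smoothTransition.nonneg _), smoothTransition.le_one _⟩

theorem psi_eq {T t : ℝ} (h : t ≤ T + 1) : psi T t = t := by
  rw [psi, smoothTransition.one_of_one_le (by linarith)]; ring

theorem le_psi {T t b : ℝ} (h : b ≤ t) (hT : b ≤ T + 2) : b ≤ psi T t := by
  rcases le_total 0 (T + 2 - t) with h1 | h1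
  · have := mul_le_of_le_one_right h1 (smoothTransition.le_one (T + 2 - t))
    rw [psi]; linarith
  · rw [psi, smoothTransition.zero_of_nonpos h1]; linarith

theorem hd_chi (T t : ℝ) : HasDerivAt (chi T) (-deriv smoothTransition (T + 2 - t)) t := by
  exact ((hdσ (T + 2 - t)).comp t ((hasDerivAt_id t).const_sub (T + 2))).congr_deriv (by simp)

theorem d_psi (T t : ℝ) : deriv (psi T) t =
    smoothTransition (T + 2 - t) + (T + 2 - t) * deriv smoothTransition (T + 2 - t) := by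
  have := ((((hasDerivAt_id t).const_sub (T + 2)).mul (hd_chi T t)).const_sub (T + 2)).deriv
  refine Eq.trans this ?_
  simp only [chi, id]; ring

variable {m k C δ : ℝ} {B Y : ℝ → ℝ}

theorem qq_sq (T t : ℝ) : qq m k B T t ^ 2 = PP m k B t * chi T t ^ 2 := by
  rw [qq, mul_pow, ← exp_nat_mul, PP]; congr 2; push_cast; ring

theorem cd_qq (hB : ContDiff ℝ ∞ B) (T : ℝ) : ContDiff ℝ ∞ (qq m k B T) :=
  ContDiff.mul (by fun_prop) (cd_chi T)

theorem d_qq (hB : ContDiff ℝ ∞ B) (hm : m ≠ 0) (T t : ℝ) :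
    qq m k B T t - 2 * deriv (qq m k B T) t = exp (B (m * (t + k)) / m / 2) *
      ((1 - deriv B (m * (t + k))) * chi T t + 2 * deriv smoothTransition (T + 2 - t)) := by
  have h1 : HasDerivAt (fun t => B (m * (t + k))) (deriv B (m * (t + k)) * (m * 1)) t :=
    (hB.differentiable (by simp) _).hasDerivAt.comp t (((hasDerivAt_id t).add_const k).const_mul m)
  have := ((((h1.div_const m).div_const 2).exp).mul (hd_chi T t)).deriv
  rw [show deriv (qq m k B T) t = _ from this, qq]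
  field_simp
  ring

theorem win' (h : OD m C δ B Y) (hm : 1 < m) (S : ℝ) : (1 - deriv B S) ^ 2 ≤ m - 1 := by
  have h1 := le_trans (mul_nonneg (by linarith) (sq_nonneg _)) (h.win S)
  linarith [nonneg_of_mul_nonneg_left h1 (exp_pos _)]

/-- comparison of the gradient terms -/
theorem grad (h : OD m C δ B Y) (hm : 1 < m) (k : ℝ) : ∃ K, 0 ≤ K ∧ ∀ θ T, 0 ≤ θ →
    (∀ t, T ≤ t → PP m k B t ≤ θ) → ∀ t,
    ((qq m k B T t - 2 * deriv (qq m k B T) t) ^ 2 - (m - 1) * qq m k B T t ^ 2) *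
        exp (-2 * (t + k)) ≤
      -(PP m k B (psi T t) * ((m - 1 - (1 - deriv B (m * (psi T t + k))) ^ 2) *
        exp (-2 * (psi T t + k)) * deriv (psi T) t ^ 2)) +
      K * θ * (smoothTransition (T + 3 - t) * exp (-2 * t)) := by
  obtain ⟨L, L0, hL⟩ := dσ_bd
  have m1 : 0 ≤ m - 1 := by linarith
  refine ⟨(2 * (m - 1) + 8 * L ^ 2 + (m - 1) * (1 + L) ^ 2) * exp (-2 * k), by positivity,
    fun θ T θ0 hθ t => ?_⟩
  have e0 : exp (B (m * (t + k)) / m / 2) ^ 2 = PP m k B t := by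
    rw [← exp_nat_mul, PP]; congr 1; push_cast; ring
  have s0 := smoothTransition.nonneg (T + 3 - t)
  rw [d_qq h.smB (by linarith), qq_sq, mul_pow, e0, d_psi]
  rcases lt_or_ge t (T + 1) with h1 | h1
  · rw [chi_one h1.le, psi_eq h1.le, dσ_one (by linarith),
      smoothTransition.one_of_one_le (x := T + 2 - t) (by linarith)]
    exact le_add_of_le_of_nonneg (le_of_eq (by ring)) (by positivity)
  rcases lt_or_ge (T + 2) t with h2 | h2
  · rw [chi, dσ_zero (by linarith), smoothTransition.zero_of_nonpos (x := T + 2 - t) (by linarith)]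
    exact le_add_of_le_of_nonneg (le_of_eq (by ring)) (by positivity)
  rw [smoothTransition.one_of_one_le (x := T + 3 - t) (by linarith)]
  have a1 := hL (T + 2 - t) (by linarith) (by linarith)
  have a2 := chi_abs T t
  have a3 : |smoothTransition (T + 2 - t) + (T + 2 - t) * deriv smoothTransition (T + 2 - t)| ≤
      1 + L := by
    refine (abs_add_le _ _).trans (add_le_add a2 ?_)
    rw [abs_mul, abs_of_nonneg (by linarith)]
    exact (mul_le_of_le_one_left (abs_nonneg _) (by linarith)).trans a1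
  generalize smoothTransition (T + 2 - t) + _ * _ = d at a3 ⊢
  generalize deriv smoothTransition (T + 2 - t) = d' at a1 ⊢
  have b1 : d' ^ 2 ≤ L ^ 2 := sq_le_sq.2 (by rwa [abs_of_nonneg L0])
  have b2 : chi T t ^ 2 ≤ 1 := (sq_le_one_iff_abs_le_one _).2 a2
  have b3 : d ^ 2 ≤ (1 + L) ^ 2 := sq_le_sq.2 (by rwa [abs_of_nonneg (a := 1 + L) (by linarith)])
  have b4 : ((1 - deriv B (m * (t + k))) * chi T t + 2 * d') ^ 2 ≤ 2 * (m - 1) + 8 * L ^ 2 := by
    have : ((1 - deriv B (m * (t + k))) * chi T t) ^ 2 ≤ (m - 1) * 1 := by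
      rw [mul_pow]; gcongr; exact win' h hm _
    nlinarith [sq_nonneg ((1 - deriv B (m * (t + k))) * chi T t - 2 * d')]
  have c1 : t ≤ psi T t := le_psi le_rfl h2
  have p1 : 0 < PP m k B t := exp_pos _
  have p2 : 0 < PP m k B (psi T t) := exp_pos _
  have e1 : exp (-2 * (t + k)) = exp (-2 * k) * exp (-2 * t) := by rw [← exp_add]; ring_nf
  have c2 : PP m k B (psi T t) * ((m - 1 - (1 - deriv B (m * (psi T t + k))) ^ 2) *
      exp (-2 * (psi T t + k)) * d ^ 2) ≤ θ * ((m - 1) * exp (-2 * (t + k)) * (1 + L) ^ 2) := by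
    have := win' h hm (m * (psi T t + k))
    have : 0 ≤ m - 1 - (1 - deriv B (m * (psi T t + k))) ^ 2 := by linarith
    refine mul_le_mul (hθ _ (by linarith)) (mul_le_mul (mul_le_mul (sub_le_self _ (sq_nonneg _))
      (exp_le_exp.2 (by linarith)) (exp_pos _).le m1) b3 (sq_nonneg _) (by positivity))
      (by positivity) θ0
  have c3 : (PP m k B t * ((1 - deriv B (m * (t + k))) * chi T t + 2 * d') ^ 2 -
      (m - 1) * (PP m k B t * chi T t ^ 2)) * exp (-2 * (t + k)) ≤
      θ * (2 * (m - 1) + 8 * L ^ 2) * exp (-2 * (t + k)) := by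
    refine mul_le_mul_of_nonneg_right (sub_le_iff_le_add.2
      (le_add_of_le_of_nonneg ?_ (by positivity))) (exp_pos _).le
    gcongr
    exact hθ _ (by linarith)
  rw [e1] at c2 c3 ⊢
  linarith

/-- bounds on half lines -/
theorem bds (h : OD m C δ B Y) (hm : 1 < m) (k b : ℝ) : ∃ M, ∀ t, b ≤ t →
    |Y (m * (t + k))| ≤ M ∧ Y (m * (t + k)) ^ 2 ≤ M ∧ PP m k B t ≤ M ∧
      |PP m k B t * HH m (t + k)| ≤ M ∧ ∀ z, 0 ≤ z → z ≤ PP m k B t → |z * log z| ≤ M := by
  obtain ⟨A, hA⟩ := h.bdd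
  obtain ⟨M1, h1⟩ : ∃ M1, ∀ t, b ≤ t → |Y (m * (t + k))| ≤ M1 :=
    ⟨max |Y (m * (b + k))| |A|, fun t ht => abs_le_max_abs_abs
      (h.mono.monotone (by gcongr)) (hA _)⟩
  have h2 : ∀ t, b ≤ t → Y (m * (t + k)) ^ 2 ≤ M1 ^ 2 := fun t ht =>
    sq_le_sq.2 ((h1 t ht).trans (le_abs_self _))
  have h3 : ∀ t, b ≤ t → PP m k B t ≤ 1 + |M1| + M1 ^ 2 := fun t ht => by
    have a1 := (abs_le.1 (h.lin (m * (t + k)))).2
    have a2 := (abs_le.1 ((h1 t ht).trans (le_abs_self _))).2
    have a3 := h2 t ht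
    by_contra hc
    have a4 : 0 < PP m k B t - 1 - |M1| - M1 ^ 2 := by linarith [not_le.1 hc]
    have a5 : PP m k B t - 1 ≤ m * (PP m k B t - 1) :=
      le_mul_of_one_le_left (by linarith [abs_nonneg M1, sq_nonneg M1]) hm.le
    rw [PP] at a4 a5
    linarith [sq_nonneg M1]
  obtain ⟨M3, h4⟩ := isCompact_Icc.exists_bound_of_continuousOn
    continuous_mul_log.continuousOn (s := Set.Icc (0 : ℝ) (1 + |M1| + M1 ^ 2))
  refine ⟨max (max (max M1 (M1 ^ 2)) (1 + |M1| + M1 ^ 2)) (max (C + (m + 1) * M1 ^ 2) M3),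
    fun t ht => ⟨(h1 t ht).trans (by simp), (h2 t ht).trans (by simp), (h3 t ht).trans (by simp),
      le_trans ?_ (le_max_of_le_right (le_max_left _ _)), fun z z0 z1 =>
      (h4 z ⟨z0, z1.trans (h3 t ht)⟩).trans (by simp)⟩⟩
  have a0 : 0 ≤ PP m k B t * HH m (t + k) := mul_nonneg (exp_pos _).le
    (mul_nonneg (by linarith) (by linarith [add_one_le_exp (-2 * (t + k))]))
  have a1 : GG m (B (m * (t + k))) (m * (t + k)) = m ^ 2 * (PP m k B t * HH m (t + k)) := by
    have : m ≠ 0 := by linarith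
    rw [GG, PP, HH, show -2 * (m * (t + k)) / m = -2 * (t + k) by field_simp]
    field_simp
  have a2 := h.glob (m * (t + k))
  have a3 : (m + 1) * Y (m * (t + k)) ^ 2 ≤ (m + 1) * M1 ^ 2 :=
    mul_le_mul_of_nonneg_left (h2 t ht) (by linarith)
  have a4 := le_mul_of_one_le_left a0 (one_le_pow₀ hm.le (n := 2))
  rw [abs_of_nonneg a0]
  linarith [sq_nonneg (Y (m * (t + k)))]

theorem small (h : OD m C δ B Y) (hm : 1 < m) (k : ℝ) {θ : ℝ} (hθ : 0 < θ) :
    ∃ T, ∀ t, T ≤ t → PP m k B t ≤ θ := by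
  obtain ⟨M, hM⟩ := bds h hm k 0
  refine ⟨max 0 (2 * |M| / θ + 1 - k), fun t ht => ?_⟩
  have a1 := (le_abs_self _).trans ((hM t ((le_max_left _ _).trans ht)).2.2.2.1.trans (le_abs_self _))
  have a2 : 2 * |M| / θ + 1 ≤ t + k := by linarith [le_max_right 0 (2 * |M| / θ + 1 - k)]
  have a3 : 0 ≤ 2 * |M| / θ := by positivity
  have a4 : 1 / 2 * (2 * |M| / θ + 1) ≤ HH m (t + k) := by
    exact mul_le_mul (by linarith) (by linarith [exp_pos (-2 * (t + k))]) (by linarith)
      (by linarith)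
  by_contra hc
  have a5 : θ * (1 / 2 * (2 * |M| / θ + 1)) ≤ PP m k B t * HH m (t + k) := by
    gcongr
    · exact (exp_pos _).le
    · exact (not_le.1 hc).le
  have a6 : θ * (1 / 2 * (2 * |M| / θ + 1)) = |M| + θ / 2 := by field_simp
  linarith

/-- the entropy function -/
def nl (z : ℝ) : ℝ := z * log z

theorem c_nl : Continuous nl := continuous_mul_log

variable {n : ℕ} {N : Type} [TopologicalSpace N] [CompactSpace N] [T2Space N] [MeasurableSpace N]
  [BorelSpace N] {μ : Measure N} [IsProbabilityMeasure μ]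

theorem seven {f1 f2 f3 f4 f5 f6 f7 : N → ℝ} (c1 : Continuous f1) (c2 : Continuous f2)
    (c3 : Continuous f3) (c4 : Continuous f4) (c5 : Continuous f5) (c6 : Continuous f6)
    (c7 : Continuous f7) {α β γ : ℝ}
    (h : ∀ p, α * f1 p + f2 p - β * f3 p ≤ f4 p + f5 p - f6 p + γ * f7 p) :
    α * ∫ p, f1 p ∂μ + ∫ p, f2 p ∂μ - β * ∫ p, f3 p ∂μ ≤
      ∫ p, f4 p ∂μ + ∫ p, f5 p ∂μ - ∫ p, f6 p ∂μ + γ * ∫ p, f7 p ∂μ := by
  rw [← integral_const_mul, ← integral_const_mul, ← integral_const_mul, ← integral_add,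
    ← integral_sub, ← integral_add, ← integral_sub, ← integral_add]
  · exact integral_mono (ABS.intg (by fun_prop)) (ABS.intg (by fun_prop)) h
  all_goals exact ABS.intg (by fun_prop)

/-- the comparison at one level -/
theorem level (c : SC n N μ) {Ω : Set N} {S S' : N → ℝ} {T a c0 R D : ℝ}
    (L : Lev c Ω S S' T a c0 R) (hB : ContDiff ℝ ∞ B) (hm : (1 : ℝ) < n) {q ψ η : ℝ → ℝ}
    (hq : ContDiff ℝ ∞ q) (hψ : ContDiff ℝ ∞ ψ) (hη : Continuous η)
    (h0 : ∀ t, T - 1 ≤ t → q t = 0)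
    (hg : ∀ t, ((q t - 2 * deriv q t) ^ 2 - (n - 1) * q t ^ 2) * exp (-2 * (t + k)) ≤
      -(PP n k B (ψ t) * ((n - 1 - (1 - deriv B (n * (ψ t + k))) ^ 2) *
        exp (-2 * (ψ t + k)) * deriv ψ t ^ 2)) + D * (η t * exp (-2 * t))) :
    a * ∫ p, q (S' p) ^ 2 ∂μ ≤ Psi c B (fun p => ψ (S' p) + k) +
      (∫ p, (q (S' p) ^ 2 * HH n (S' p + k) - nl (q (S' p) ^ 2)) ∂μ -
        ∫ p, (PP n k B (ψ (S' p)) * HH n (ψ (S' p) + k) - nl (PP n k B (ψ (S' p)))) ∂μ) +
      (nl (∫ p, q (S' p) ^ 2 ∂μ) - nl (∫ p, PP n k B (ψ (S' p)) ∂μ)) +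
      D / (2 * (n - 1)) * ∫ p, η (S' p) * (c.Γ S' S' p * exp (-2 * S' p)) ∂μ := by
  have e := L.ent q hq h0 k _ rfl
  have hs : ContDiff ℝ ∞ fun t => ψ t + k := hψ.add contDiff_const
  have hΓ : ∀ p, c.Γ (fun p => ψ (S' p) + k) (fun p => ψ (S' p) + k) p =
      deriv ψ (S' p) ^ 2 * c.Γ S' S' p := fun p => by
    rw [c.Γcomp hs L.sm (c.comp hs L.sm), c.Γsymm L.sm (c.comp hs L.sm), c.Γcomp hs L.sm L.sm,
      deriv_add_const]
    ring
  have k1 := c.cont L.sm
  have k2 := c.Γcont L.sm L.sm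
  have k3 := hq.continuous
  have k4 := hq.continuous_deriv (by simp)
  have k5 := hψ.continuous
  have k6 := hψ.continuous_deriv (by simp)
  have k7 := hB.continuous
  have k8 := hB.continuous_deriv (by simp)
  have k9 := c_nl
  have m1 : (0 : ℝ) < n - 1 := by linarith
  simp only [En, mul_sub (q _ ^ 2), ← nl.eq_1] at e
  simp only [Psi, hΓ, ← nl.eq_1, HH, PP] at hg ⊢
  have t1 : ∀ a b c d : ℝ, a + b - d + c = a + b + c - d := fun _ _ _ _ => by ring
  have t2 : ∀ a b c d e f : ℝ, a + c - d + f + e = a + b + (c - d) + (e - b) + f :=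
    fun _ _ _ _ _ _ => by ring
  refine e.trans ?_
  rw [← t1, ← t2]
  refine add_le_add_left (seven (by fun_prop) (by fun_prop) (by fun_prop) (by fun_prop)
    (by fun_prop) (by fun_prop) (by fun_prop) fun p => ?_) _
  have g1 := mul_le_mul_of_nonneg_right (hg (S' p))
    (_root_.div_nonneg (c.Γnonneg L.sm p) (by linarith : (0 : ℝ) ≤ 2 * (n - 1)))
  have e1 : exp (-2 * (S' p + k)) = exp (-2 * k) * exp (-2 * S' p) := by rw [← exp_add]; ring_nf
  rw [e1] at g1 ⊢
  rw [nl, nl, log_exp]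
  have e2 : exp (-2 * k) / (2 * (n - 1)) * (n * (n - 1) * q (S' p) ^ 2 * exp (-2 * S' p)) =
      n / 2 * q (S' p) ^ 2 * (exp (-2 * k) * exp (-2 * S' p)) := by field_simp
  simp only [div_eq_mul_inv] at g1 e2 ⊢
  linarith

omit [CompactSpace N] [T2Space N] in
/-- dominated convergence along the levels -/
theorem lim {Ω : Set N} {S : N → ℝ} {S' : ℕ → N → ℝ} {b M : ℝ} (hΩ : μ Ωᶜ = 0)
    (cS : ∀ j, Continuous (S' j)) (hb : ∀ j p, b ≤ S' j p)
    (he : ∀ j : ℕ, ∀ p ∈ Ω, S p ≤ b + j + 1 → S' j p = S p) {F : ℕ → ℝ → ℝ} {G : ℝ → ℝ}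
    (cF : ∀ j, Continuous (F j)) (hF : ∀ (j : ℕ) t, t ≤ b + j + 1 → F j t = G t)
    (hM : ∀ j t, b ≤ t → |F j t| ≤ M) {w : N → ℝ} (cw : Continuous w) (hw : ∀ p, |w p| ≤ 1) :
    Tendsto (fun j => ∫ p, F j (S' j p) * w p ∂μ) atTop (𝓝 (∫ p, G (S p) * w p ∂μ)) := by
  refine tendsto_integral_of_dominated_convergence (fun _ => M)
    (fun j => (((cF j).comp (cS j)).mul cw).aestronglyMeasurable) (integrable_const _)
    (fun j => ae_of_all _ fun p => ?_) ?_
  · rw [norm_eq_abs, abs_mul]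
    exact (mul_le_of_le_one_right (abs_nonneg _) (hw p)).trans (hM j _ (hb j p))
  · refine (show ∀ᵐ p ∂μ, p ∈ Ω from hΩ).mono fun p hp => tendsto_const_nhds.congr' ?_
    filter_upwards [tendsto_natCast_atTop_atTop.eventually_ge_atTop (S p - b)] with j hj
    rw [he j p hp (by linarith), hF j _ (by linarith)]

end CMP

open CMP in
theorem cmp (h : S_GB) : S_CMP := by
  intro N _ _ _ _ _ μ _ m x Ω S a c0 R C δ B Y K k ε h2 hT hΩ hO hK hA e1 e2 e3
  have hm : (1 : ℝ) < m := by exact_mod_cast h2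
  obtain ⟨b, hb⟩ := hT.bd
  choose c S' hx L using fun j : ℕ => hT.lev (b + j + 5)
  have j0 : ∀ j : ℕ, (0 : ℝ) ≤ j := fun j => j.cast_nonneg
  have G := fun j => h m N μ (c j) h2 Ω S (S' j) _ a c0 R b (L j) hb (by linarith [j0 j])
  obtain ⟨M, hM⟩ := bds hO hm k b
  have cS := fun j => (c j).cont (L j).sm
  have he : ∀ j : ℕ, ∀ p ∈ Ω, S p ≤ b + j + 1 → S' j p = S p :=
    fun j p hp h1 => (L j).eq p hp (by linarith)
  have l1 : ∀ {F : ℕ → ℝ → ℝ} {G : ℝ → ℝ} {M : ℝ}, (∀ j, Continuous (F j)) →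
      (∀ (j : ℕ) t, t ≤ b + j + 1 → F j t = G t) → (∀ j t, b ≤ t → |F j t| ≤ M) →
      Tendsto (fun j => ∫ p, F j (S' j p) ∂μ) atTop (𝓝 (∫ p, G (S p) ∂μ)) := fun cF hF hM => by
    simpa using lim hΩ cS (fun j => (G j).1) he cF hF hM (w := fun _ => 1) continuous_const
      (by simp)
  have hψ : ∀ (j : ℕ) t, b ≤ t → b ≤ psi (b + j) t := fun j t ht => le_psi ht (by linarith [j0 j])
  have k1 := fun T => (cd_psi T).continuous
  have k2 := hO.smY.continuous
  have k3 : Continuous (PP m k B) := by have := hO.smB.continuous; unfold PP; fun_prop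
  have k4 := fun T => (cd_qq (m := m) (k := k) hO.smB T).continuous
  have k5 : Continuous (HH m) := by unfold HH; fun_prop
  have p0 : ∀ t, 0 ≤ PP m k B t := fun t => (exp_pos _).le
  have q1 : ∀ T t, qq m k B T t ^ 2 ≤ PP m k B t := fun T t => by
    rw [qq_sq]
    exact mul_le_of_le_one_right (p0 t) ((sq_le_one_iff_abs_le_one _).2 (chi_abs T t))
  have cY : ∀ j : ℕ, Continuous fun t => Y (m * (psi (b + j) t + k)) := fun j =>
    k2.comp (continuous_const.mul ((k1 _).add continuous_const))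
  have y0 := l1 (G := fun t => Y (m * (t + k))) cY (fun j t ht => by simp only [psi_eq ht])
    fun j t ht => (hM _ (hψ j t ht)).1
  have y1 := fun i => lim hΩ cS (fun j => (G j).1) he (G := fun t => Y (m * (t + k))) cY
    (fun j t ht => by simp only [psi_eq ht]) (fun j t ht => (hM _ (hψ j t ht)).1) (w := x i)
    (hx 0 ▸ (c 0).cont ((c 0).xsm i)) fun p => (sq_le_one_iff_abs_le_one _).1 <| by
      rw [← (c 0).xsq p, hx 0]
      exact Finset.single_le_sum (f := fun i => x i p ^ 2) (fun _ _ => sq_nonneg _)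
        (Finset.mem_univ i)
  have y2 := l1 (G := fun t => Y (m * (t + k)) ^ 2)
    (F := fun j t => Y (m * (psi (b + j) t + k)) ^ 2) (fun j => (cY j).pow 2)
    (fun j t ht => by simp only [psi_eq ht])
    fun j t ht => (abs_of_nonneg (sq_nonneg _)).trans_le (hM _ (hψ j t ht)).2.1
  have z1 := l1 (G := PP m k B) (F := fun j t => PP m k B (psi (b + j) t))
    (fun j => k3.comp (k1 _)) (fun j t ht => by simp only [psi_eq ht])
    fun j t ht => (abs_of_nonneg (p0 _)).trans_le (hM _ (hψ j t ht)).2.2.1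
  have z2 := l1 (G := PP m k B) (F := fun j t => qq m k B (b + j) t ^ 2)
    (fun j => (k4 _).pow 2) (fun j t ht => by simp only [qq_sq, chi_one ht, one_pow, mul_one])
    fun j t ht => (abs_of_nonneg (sq_nonneg _)).trans_le ((q1 _ _).trans (hM _ ht).2.2.1)
  have a1 := l1 (G := fun t => PP m k B t * HH m (t + k) - nl (PP m k B t)) (M := M + M)
    (F := fun j t => qq m k B (b + j) t ^ 2 * HH m (t + k) - nl (qq m k B (b + j) t ^ 2))
    (fun j => (((k4 _).pow 2).mul (k5.comp (continuous_add_const k))).sub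
      (c_nl.comp ((k4 _).pow 2)))
    (fun j t ht => by simp only [qq_sq, chi_one ht, one_pow, mul_one])
    fun j t ht => (abs_sub _ _).trans (add_le_add (by
      rw [qq_sq, mul_right_comm, abs_mul, abs_pow]
      exact (mul_le_of_le_one_right (abs_nonneg _)
        (pow_le_one₀ (abs_nonneg _) (chi_abs _ _))).trans (hM _ ht).2.2.2.1)
      ((hM _ ht).2.2.2.2 _ (sq_nonneg _) (q1 _ _)))
  have a2 := l1 (G := fun t => PP m k B t * HH m (t + k) - nl (PP m k B t)) (M := M + M)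
    (F := fun j t => PP m k B (psi (b + j) t) * HH m (psi (b + j) t + k) -
      nl (PP m k B (psi (b + j) t)))
    (fun j => ((k3.mul (k5.comp (continuous_add_const k))).sub (c_nl.comp k3)).comp (k1 _))
    (fun j t ht => by simp only [psi_eq ht])
    fun j t ht => (abs_sub _ _).trans (add_le_add (hM _ (hψ j t ht)).2.2.2.1
      ((hM _ (hψ j t ht)).2.2.2.2 _ (p0 _) le_rfl))
  constructor
  · obtain ⟨K1, K0, hg⟩ := grad hO hm k
    have m1 : (0 : ℝ) < m - 1 := by linarith
    have W0 : 0 < K1 / (2 * (m - 1)) * (exp (-2 * b) + |R|) + 1 := by positivity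
    refine le_of_forall_pos_le_add fun η η0 => ?_
    have θ0 := div_pos η0 W0
    generalize hθ : η / (K1 / (2 * (m - 1)) * (exp (-2 * b) + |R|) + 1) = θ at θ0
    obtain ⟨T0, hT0⟩ := small hO hm k θ0
    have u := ((((y2.div_const K).const_sub (K * ε)).add (a1.sub a2)).add
      (((c_nl.tendsto _).comp z2).sub ((c_nl.tendsto _).comp z1))).add_const η
    simp only [sub_self, add_zero] at u
    refine le_of_tendsto_of_tendsto (z2.const_mul a) u ?_
    filter_upwards [tendsto_natCast_atTop_atTop.eventually_ge_atTop (T0 - b),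
      y0.abs.eventually (gt_mem_nhds e2),
      eventually_all.2 fun i => (y1 i).abs.eventually (gt_mem_nhds (e3 i))] with j j1 j2 j3
    have cη : Continuous fun t => smoothTransition (b + j + 3 - t) :=
      smoothTransition.continuous.comp (by fun_prop)
    have v1 := level (c j) (L j) hO.smB hm (cd_qq hO.smB (b + j)) (cd_psi (b + j)) cη
      (fun t ht => by rw [qq, chi, smoothTransition.zero_of_nonpos (by linarith), mul_zero])
      (hg θ (b + j) θ0.le fun t ht => hT0 t (by linarith))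
    have v2 := hA (c j) _ ((c j).comp ((cd_psi (b + j)).add (contDiff_const (c := k))) (L j).sm)
      ε e1 j2.le fun i => by rw [hx j]; exact (j3 i).le
    have v3 := mul_le_mul_of_nonneg_left ((G j).2 _ cη (fun _ => smoothTransition.le_one _)
      fun t ht => smoothTransition.zero_of_nonpos (by linarith))
      (by positivity : 0 ≤ K1 * θ / (2 * (m - 1)))
    have v4 : K1 * θ / (2 * (m - 1)) * (exp (-2 * b) + |R|) + θ = η := by
      rw [(div_eq_iff W0.ne').1 hθ]; ring
    simp only [Function.comp]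
    linarith [v1, v2, v3, v4]
  · have u := le_of_tendsto_of_tendsto' ((y0.const_add (m : ℝ)).sub (y2.const_mul (3 / 10)))
      (z1.const_mul (m : ℝ)) fun j => by
        have c1 : Continuous fun p => Y (m * (psi (b + j) (S' j p) + k)) := (cY j).comp (cS j)
        have c2 : Continuous fun p => PP m k B (psi (b + j) (S' j p)) :=
          (k3.comp (k1 _)).comp (cS j)
        have := seven (μ := μ) (f1 := fun _ => 1) (f5 := fun _ => 0) (f4 := fun _ => 0)
          (f6 := fun _ => 0) continuous_const c1 (c1.pow 2) continuous_const continuous_const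
          continuous_const c2 (α := m) (β := 3 / 10) (γ := m) fun p => by
            have := (abs_le.1 (hO.lin (m * (psi (b + j) (S' j p) + k)))).1
            simp only [PP, Pi.pow_apply]
            linarith
        simpa using this
    have := (abs_lt.1 e2).1
    simp only [PP] at u
    linarith

end Pool.Agent.MP_c98b3a_gt.KL

end

end MrgPart0

-- ======== part 1: formerly Pool.Agent.MP_c98b3a_gt.kl.FIN
section MrgPart1

/-! The entropy of Kleinian manifolds: assembly. -/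

open scoped Manifold ContDiff Matrix Topology
open MeasureTheory Real

noncomputable section

namespace Pool.Agent.MP_c98b3a_gt.KL

open CF

theorem fin (h1 : S_CONF) (hA : S_ABS2) (hC : S_CMP) (hT : S_TAIL) (hW : S_TOW) (hB : S_BAL2)
    (hR : S_RIG) (hI : S_INJ) : ∃ m0 : ℕ, ∀ m ≥ m0, ∀ (M : Type) [TopologicalSpace M] [T2Space M]
    [CompactSpace M] [ConnectedSpace M] [ChartedSpace (Euc (Fin m)) M]
    [IsManifold 𝓘(ℝ, Euc (Fin m)) ∞ M] [MeasurableSpace M] [BorelSpace M]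
    (g : Metrics 𝓘(ℝ, Euc (Fin m)) M) (w : Sphere m → ℝ) (f : Sphere m → M),
    Kleinian g incl w f → entNu g ≤ (log (theta m) : ℝ) ∧ (entNu g = (log (theta m) : ℝ) →
      Function.Bijective f ∧ ∃ (a : ℝ) (b : Euc (Fin (m + 1))), ‖b‖ < a ∧
        ∀ x, w x = a - inner ℝ b (incl x)) := by
  obtain ⟨C, hC0, hO⟩ := one_all
  obtain ⟨δ, hδ, m1, K, hK, hA⟩ := hA C hC0
  obtain ⟨m2, hO⟩ := hO δ hδ
  refine ⟨max m1 (max ⌈m2⌉₊ 20), fun m hm M _ _ _ _ _ _ _ _ g w f hk => ?_⟩
  have a1 : m1 ≤ m := (le_max_left _ _).trans hm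
  have a2 : 20 ≤ m := ((le_max_right _ _).trans (le_max_right _ _)).trans hm
  have a3 : m2 ≤ m := (Nat.ceil_le).1 (((le_max_left _ _).trans (le_max_right _ _)).trans hm)
  have a4 : (20 : ℝ) ≤ m := by exact_mod_cast a2
  have a5 : 2 ≤ m := by omega
  have : Nonempty (Fin m) := ⟨⟨0, by omega⟩⟩
  have hv := volS_pos m
  have hKm := hK m
  obtain ⟨B, Y, od⟩ := hO m a3
  obtain ⟨g0, h0⟩ := h1 m (fun _ => 0) contMDiff_const
  have := finite_vol g0
  have mass := (geo_all m g0 _ a5 h0).1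
  simp only [zero_add] at mass
  have cw : Continuous w := by
    obtain ⟨L, hL⟩ := hk.lipschitz
    refine (LipschitzWith.of_dist_le_mul (K := ⟨max L 0, le_max_right _ _⟩) fun x y => ?_).continuous
    rw [Real.dist_eq, Subtype.dist_eq, dist_eq_norm]
    exact (hL x y).trans (mul_le_mul_of_nonneg_right (le_max_left _ _) (norm_nonneg _))
  have key : ∀ a : ℝ, log (theta m) ≤ a → (a : EReal) ≤ entNu g →
      Gau (vol g0) w (fun p : Sph m => (p : Euc (Fin (m + 1)))) m (volS m) Y ∧ ∃ k0, ∀ ε > (0 : ℝ),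
        a - log (theta m) ≤ ε ∧ ∃ v : ℝ × Euc (Fin (m + 1)), 0 < v.1 ∧ lor v v = 1 ∧ ∃ k : ℝ,
          |k| ≤ k0 ∧ ∫ p : Sph m, exp (-m * log (aff v p)) *
            Y (m * (log (aff v p) - log (w p) + k)) ^ 2 ∂vol g0 ≤ ε := fun a ha ha' => by
    obtain ⟨c0, hc, R, tw⟩ := hW m M g w f g0 a5 hk h0 a ha'
    have gau : Gau (vol g0) w (fun p : Sph m => (p : Euc (Fin (m + 1)))) m (volS m) Y := by
      obtain ⟨μ, _, -, b2, b3, b4⟩ := tw (1, 0) one_pos (by simp [lor])
      exact ⟨cw, continuous_subtype_val, fun p => norm_eq_of_mem_sphere p, by linarith, hv,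
        od.smY.continuous, od.mono, od.zero, od.bdd, b2 (hT _ μ m _ _ _ _ _ _ a2 b4 hc b3).1, mass⟩
    obtain ⟨k0, bal⟩ := hB _ _ _ _ _ _ _ _ gau fun θ hθ => by
      refine ⟨log (volS m * (4 * m ^ 2) / (c0 * θ)) / 2, fun v v1 v2 => ?_⟩
      obtain ⟨μ, _, b1, -, b3, b4⟩ := tw v v1 v2
      have b5 := (hT _ μ m _ _ _ _ _ _ a2 b4 hc b3).2 (log (volS m * (4 * m ^ 2) / (c0 * θ)) / 2)
      have ms := measurableSet_le (measurable_const
        (a := log (volS m * (4 * m ^ 2) / (c0 * θ)) / 2)) b4.mS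
      have b6 : ∀ A : Set (Sph m), MeasurableSet A →
          ∫ p in A, exp (-m * log (aff v p)) ∂vol g0 = volS m * μ.real A := fun A hA => by
        rw [← integral_indicator_one hA, b1, ← integral_indicator hA]
        exact integral_congr_ae (.of_forall fun p => by by_cases h : p ∈ A <;> simp [h])
      rw [mul_div_cancel₀ _ two_ne_zero, exp_log (by positivity)] at b5
      rw [b6 _ ms]
      have : (0 : ℝ) < m := by linarith
      generalize μ.real _ = r at b5 ⊢
      field_simp at b5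
      exact b5
    refine ⟨gau, k0, fun ε hε => ?_⟩
    obtain ⟨e, e0, e1, e2, e3, e4⟩ : ∃ e > (0 : ℝ), e ≤ 1 ∧ K m ^ 2 * e ≤ 1 ∧ 2 * K m * e ≤ ε ∧
        volS m * K m ^ 2 * e ≤ ε := by
      have t : ∀ c : ℝ, ∀ d > (0 : ℝ), ∀ᶠ e in 𝓝[>] (0 : ℝ), c * e ≤ d := fun c d hd =>
        nhdsWithin_le_nhds (((continuous_const_mul c).tendsto' 0 0 (mul_zero c)).eventually
          (ge_mem_nhds hd))
      obtain ⟨e, e0, e1, e2, e3, e4⟩ := ((eventually_mem_nhdsWithin (a := (0 : ℝ))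
        (s := Set.Ioi 0)).and ((t 1 1 one_pos).and ((t (K m ^ 2) 1 one_pos).and
          ((t (2 * K m) ε hε).and (t (volS m * K m ^ 2) ε hε))))).exists
      exact ⟨e, e0, by linarith, e2, e3, e4⟩
    obtain ⟨v, v1, v2, k, hk0, c1, c2⟩ := bal (volS m * (e / 2)) (by positivity)
    obtain ⟨μ, _, b1, -, b3, b4⟩ := tw v v1 v2
    simp only [← b1, abs_mul, abs_of_pos hv, mul_le_mul_iff_right₀ hv] at c1 c2
    obtain ⟨d1, d2⟩ := hC _ μ m _ _ _ _ _ _ C δ B Y (K m) k e a5 b4
      (hT _ μ m _ _ _ _ _ _ a2 b4 hc b3).1 od hKm (fun c => hA m _ μ c a1 B Y od) e1 (by linarith)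
      fun i => by linarith [c2 i]
    have z0 : 0 ≤ ∫ p : Sph m, exp (B (m * (log (aff v p) - log (w p) + k)) / m) ∂μ :=
      integral_nonneg fun p => (exp_pos _).le
    have y0 : 0 ≤ ∫ p : Sph m, Y (m * (log (aff v p) - log (w p) + k)) ^ 2 ∂μ :=
      integral_nonneg fun p => sq_nonneg _
    have y1 := (div_le_iff₀ hKm).1 (sub_nonneg.1 ((mul_nonneg (sub_nonneg.2 ha) z0).trans d1))
    refine ⟨?_, v, v1, v2, k, hk0, ?_⟩
    · have z1 : 1 / 2 ≤ ∫ p : Sph m, exp (B (m * (log (aff v p) - log (w p) + k)) / m) ∂μ :=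
        le_of_mul_le_mul_left (a := (m : ℝ)) (by nlinarith) (by linarith)
      nlinarith [mul_le_mul_of_nonneg_left z1 (sub_nonneg.2 ha), _root_.div_nonneg y0 hKm.le]
    · rw [← b1]
      nlinarith [mul_le_mul_of_nonneg_left y1 hv.le]
  refine ⟨not_lt.1 fun h => ?_, fun h => ?_⟩
  · obtain ⟨a, b1, b2⟩ := EReal.lt_iff_exists_real_btwn.1 h
    have b3 := EReal.coe_lt_coe_iff.1 b1
    obtain ⟨-, k0, b⟩ := key a b3.le b2.le
    linarith [(b ((a - log (theta m)) / 2) (by linarith)).1]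
  · obtain ⟨gau, k0, b⟩ := key _ le_rfl h.ge
    obtain ⟨v, v1, v2, k, e⟩ := hR _ _ _ _ _ _ _ _ gau hk.lipschitz (gam_ _ _ g0).2 k0
      fun ε hε => (b ε hε).2
    refine ⟨hI m M g w f g0 a5 hk h0 v v1 v2 k e h.ge inferInstance, exp k * v.1, exp k • v.2, ?_,
      fun x => ?_⟩
    · rw [norm_smul, Real.norm_of_nonneg (exp_pos k).le]
      exact mul_lt_mul_of_pos_left (frame _ v v1 v2).1 (exp_pos k)
    · rw [e, aff, inner_smul_left]
      simp [mul_sub, incl]

end Pool.Agent.MP_c98b3a_gt.KL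

end

end MrgPart1

-- ======== part 2: formerly Pool.Agent.MP_c98b3a_gt.kl.RB
section MrgPart2

/-! Good gauges of a Lipschitz factor are bounded. -/

open scoped Manifold ContDiff Matrix Topology
open MeasureTheory Real

noncomputable section

namespace Pool.Agent.MP_c98b3a_gt.KL

open CF

namespace RB

variable {ι : Type} [Fintype ι]

theorem lt_of_unit {v : ℝ × Euc ι} (h0 : 0 < v.1) (h1 : lor v v = 1) : ‖v.2‖ < v.1 := by
  rw [BAL.lor_self] at h1
  exact lt_of_pow_lt_pow_left₀ 2 h0.le (by linarith)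

/-- the chordal distance is bounded by the two affine functions -/
theorem chord {v : ℝ × Euc ι} (h0 : 0 < v.1) (h1 : lor v v = 1) {z z' : Euc ι} (hz : ‖z‖ = 1)
    (hz' : ‖z'‖ = 1) : ‖z - z'‖ ^ 2 ≤ 4 * aff v z * aff v z' := by
  have hv := lt_of_unit h0 h1
  have pA := BAL.aff_pos hv hz
  have pB := BAL.aff_pos hv hz'
  rw [BAL.lor_self] at h1
  have sA : inner ℝ v.2 z = v.1 - aff v z := by rw [aff]; ring
  have sB : inner ℝ v.2 z' = v.1 - aff v z' := by rw [aff]; ring
  generalize aff v z = A at *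
  generalize aff v z' = B at *
  have zz : inner ℝ z z = (1 : ℝ) := by rw [real_inner_self_eq_norm_sq, hz]; norm_num
  have zz' : inner ℝ z' z' = (1 : ℝ) := by rw [real_inner_self_eq_norm_sq, hz']; norm_num
  have bb : inner ℝ v.2 v.2 = v.1 ^ 2 - 1 := by rw [real_inner_self_eq_norm_sq]; linarith
  have cs := real_inner_mul_inner_self_le v.2 (B • z + A • z' - (2 * A * B) • v.2)
  have nn := real_inner_self_nonneg (x := B • z + A • z' - (2 * A * B) • v.2)
  simp only [inner_sub_left, inner_sub_right, inner_add_left, inner_add_right,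
    real_inner_smul_left, real_inner_smul_right, real_inner_comm v.2 z, real_inner_comm v.2 z',
    real_inner_comm z z', zz, zz', bb, sA, sB] at cs nn
  rw [norm_sub_sq_real, hz, hz']
  have ha : 0 ≤ v.1 ^ 2 - 1 := by linarith [sq_nonneg ‖v.2‖]
  by_contra hc
  have h2 : 0 < 1 - inner ℝ z z' - 2 * A * B := by linarith
  have h3 : 0 < A * B * (1 - inner ℝ z z' - 2 * A * B) := by positivity
  linarith [mul_nonneg ha h3.le]

/-- comparison of two good points -/
theorem comp {a a' w w' d K β : ℝ} (ha : 0 < a) (ha' : 0 < a') (hβ : 0 < β) (h1 : a ≤ β * w)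
    (h2 : w' ≤ β * a') (h3 : |w - w'| ≤ K * d) (h4 : d ^ 2 ≤ 4 * a * a') :
    a ≤ 2 * β ^ 2 * (1 + 2 * K ^ 2) * a' := by
  have e1 : β * (K * d) ≤ a / 2 + 2 * β ^ 2 * K ^ 2 * a' := by
    refine (le_abs_self _).trans (abs_le_of_sq_le_sq ?_ (by positivity))
    nlinarith [mul_le_mul_of_nonneg_left h4 (sq_nonneg (β * K)),
      sq_nonneg (a / 2 - 2 * β ^ 2 * K ^ 2 * a')]
  have e2 := mul_le_mul_of_nonneg_left ((le_abs_self _).trans h3) hβ.le
  have e3 := mul_le_mul_of_nonneg_left h2 hβ.le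
  linarith

/-- the numerical conclusion -/
theorem num {m κ D : ℝ} (hm : 1 ≤ m) (hκ : 0 < κ) (hD : 1 ≤ D) : ∃ θ > (0 : ℝ), ∃ σ > (0 : ℝ),
    ∀ a c : ℝ, 0 < a → 0 < c →
      exp (-m * log 2) * κ ≤ κ * exp (-(m / 2) * log (1 + 2 * c * a + c ^ 2)) + θ →
      κ * exp (-(m / 2) * log (1 + 2 * (σ * c) * a + (σ * c) ^ 2)) ≤
        exp (-m * log (1 + σ / D)) * κ + θ → a ≤ 8 * σ := by
  have l2 : 0 < log 2 := log_pos one_lt_two
  have hσ : 1 ≤ 72 * D ^ 2 := by nlinarith
  have k1 : 4 * (2 + 16 * (72 * D ^ 2)) ≤ (1 + 72 * D ^ 2 / D) ^ 2 := by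
    rw [show 72 * D ^ 2 / D = 72 * D by field_simp]
    nlinarith
  have k0 : 0 < 1 + 72 * D ^ 2 / D := by positivity
  generalize 72 * D ^ 2 = σ at *
  have k2 : 2 * log 2 + log (2 + 16 * σ) ≤ 2 * log (1 + σ / D) := by
    have := log_le_log (by positivity) k1
    rwa [log_mul (by norm_num) (by positivity), log_pow, show (4 : ℝ) = 2 ^ 2 by norm_num,
      log_pow] at this
  have k3 : 2 * log 2 ≤ log (2 + 16 * σ) := by
    have := log_le_log (by norm_num : (0 : ℝ) < 2 ^ 2) (show 2 ^ 2 ≤ 2 + 16 * σ by linarith)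
    rwa [log_pow] at this
  have half : exp (-log 2) = 1 / 2 := by rw [exp_neg, exp_log two_pos, one_div]
  have pE := exp_pos (-(m / 2) * log (2 + 16 * σ))
  refine ⟨κ * (exp (-(m / 2) * log (2 + 16 * σ)) / 4), by positivity, σ, by linarith,
    fun a c ha hc hA hB => ?_⟩
  have q1 : exp (-(m / 2) * log (2 + 16 * σ)) ≤ exp (-m * log 2) :=
    exp_le_exp.2 (by nlinarith)
  have q2 : exp (-m * log 2 + -log 2) ≤ exp (-(m / 2) * log (1 + 2 * c * a + c ^ 2)) := by
    rw [exp_add, half]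
    refine le_of_mul_le_mul_left ?_ hκ
    nlinarith
  have q3 : log (1 + 2 * c * a + c ^ 2) ≤ log (2 ^ 4) := by
    have := exp_le_exp.1 q2
    rw [log_pow]
    refine le_of_mul_le_mul_left ?_ (show 0 < m / 2 by linarith)
    push_cast
    nlinarith
  have q4 : c * a ≤ 8 := by
    have := (log_le_log_iff (by positivity) (by norm_num)).1 q3
    nlinarith
  by_contra hc'
  have q5 : σ * c ≤ 1 := by nlinarith
  have q6 : log (1 + 2 * (σ * c) * a + (σ * c) ^ 2) ≤ log (2 + 16 * σ) := by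
    have : 0 < σ * c := by positivity
    exact log_le_log (by positivity) (by nlinarith)
  have q7 : exp (-(m / 2) * log (2 + 16 * σ)) ≤
      exp (-(m / 2) * log (1 + 2 * (σ * c) * a + (σ * c) ^ 2)) := exp_le_exp.2 (by nlinarith)
  have q8 : exp (-m * log (1 + σ / D)) ≤ exp (-(m / 2) * log (2 + 16 * σ) + -log 2) :=
    exp_le_exp.2 (by nlinarith)
  rw [exp_add, half] at q8
  nlinarith [mul_pos hκ pE]

theorem good {a w k k0 : ℝ} (ha : 0 < a) (hw : 0 < w) (hk : |k| ≤ k0)
    (h : |log a - log w + k| ≤ 1) : a ≤ exp (1 + |k0|) * w ∧ w ≤ exp (1 + |k0|) * a := by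
  have h1 := abs_le.1 h
  have h2 := abs_le.1 (hk.trans (le_abs_self _))
  constructor
  · rw [← exp_log ha, ← exp_log hw, ← exp_add]
    exact exp_le_exp.2 (by linarith)
  · rw [← exp_log ha, ← exp_log hw, ← exp_add]
    exact exp_le_exp.2 (by linarith)

theorem bad {Y : ℝ → ℝ} (mo : StrictMono Y) (h0 : Y 0 = 0) {m S : ℝ} (hm : 1 ≤ m)
    (h : ¬ |S| ≤ 1) : min (Y 1 ^ 2) (Y (-1) ^ 2) ≤ Y (m * S) ^ 2 := by
  have p1 : 0 < Y 1 := h0 ▸ mo one_pos
  have p2 : Y (-1) < 0 := h0 ▸ mo (by norm_num)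
  rcases lt_abs.1 (not_le.1 h) with h | h
  · have := mo.monotone (show 1 ≤ m * S by nlinarith)
    exact (min_le_left _ _).trans (by nlinarith)
  · have := mo.monotone (show m * S ≤ -1 by nlinarith)
    exact (min_le_right _ _).trans (by nlinarith)

end RB

theorem rb : S_RB := by
  intro ι M _ _ _ _ _ _ _ μ _ w z m κ Y g ⟨K, hK⟩ k0
  have hm := g.hm
  have pβ : 1 ≤ exp (1 + |k0|) := one_le_exp (by positivity)
  have gd := fun a w k ha hw hk h => RB.good (a := a) (w := w) (k := k) (k0 := k0) ha hw hk h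
  generalize exp (1 + |k0|) = β at pβ gd
  have pT : 1 ≤ 2 * β ^ 2 * (1 + 2 * K ^ 2) := by nlinarith [sq_nonneg K, sq_nonneg (β * K)]
  have cp := fun a a' w w' d ha ha' h1 h2 h3 h4 => RB.comp (a := a) (a' := a') (w := w) (w' := w')
    (d := d) (K := K) (β := β) ha ha' (by linarith) h1 h2 h3 h4
  generalize 2 * β ^ 2 * (1 + 2 * K ^ 2) = T at pT cp
  obtain ⟨θ, pθ, σ, pσ, hn⟩ := RB.num hm g.hκ (one_le_pow₀ (n := 2) pT)
  have py : 0 < min (Y 1 ^ 2) (Y (-1) ^ 2) :=
    lt_min (pow_pos (g.zero ▸ g.mono one_pos) 2)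
      (sq_pos_of_neg (g.zero ▸ g.mono (by norm_num)))
  have bd := fun S h => RB.bad g.mono g.zero hm (S := S) h
  generalize min (Y 1 ^ 2) (Y (-1) ^ 2) = y at py bd
  refine ⟨θ * y, by positivity, 8 * σ, fun v h0 h1 k hk hε => ?_⟩
  have hv := RB.lt_of_unit h0 h1
  have pa : ∀ p, 0 < aff v (z p) := fun p => BAL.aff_pos hv (g.nz p)
  have ca : Continuous fun p => aff v (z p) := BAL.cont_aff.comp (continuous_const.prodMk g.cz)
  have ms : ∀ c, 0 ≤ c → ∫ p, exp (-m * log (aff v (z p) + c)) ∂μ =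
      κ * exp (-(m / 2) * log (1 + 2 * c * v.1 + c ^ 2)) := fun c hc => by
    have := g.mass (v.1 + c, v.2) (by simp only; linarith)
    rw [BAL.lor_self] at this h1
    simp only [aff] at this ⊢
    rw [show 1 + 2 * c * v.1 + c ^ 2 = (v.1 + c) ^ 2 - ‖v.2‖ ^ 2 by linarith, ← this]
    refine integral_congr_ae (ae_of_all _ fun p => ?_)
    simp only
    rw [add_sub_right_comm]
  have m0 : ∫ p, exp (-m * log (aff v (z p))) ∂μ = κ := by simpa using ms 0 le_rfl
  have ie : ∀ c, 0 ≤ c → Integrable (fun p => exp (-m * log (aff v (z p) + c))) μ := fun c hc =>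
    BAL.integ (continuous_exp.comp (continuous_const.mul ((ca.add continuous_const).log
      fun p => (add_pos_of_pos_of_nonneg (pa p) hc).ne')))
  have i0 : Integrable (fun p => exp (-m * log (aff v (z p)))) μ := by simpa using ie 0 le_rfl
  have cmp : ∀ p p', 0 < w p → 0 < w p' → |log (aff v (z p)) - log (w p) + k| ≤ 1 →
      |log (aff v (z p')) - log (w p') + k| ≤ 1 → aff v (z p) ≤ T * aff v (z p') :=
    fun p p' a a' b b' => cp _ _ _ _ _ (pa p) (pa p') (gd _ _ _ (pa p) a hk b).1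
      (gd _ _ _ (pa p') a' hk b').2 (hK p p') (RB.chord h0 h1 (g.nz p) (g.nz p'))
  obtain ⟨c, pc, hc⟩ : ∃ c > (0 : ℝ), ∀ p, 0 < w p → |log (aff v (z p)) - log (w p) + k| ≤ 1 →
      c ≤ aff v (z p) ∧ aff v (z p) ≤ T ^ 2 * c := by
    by_cases h : ∃ p, 0 < w p ∧ |log (aff v (z p)) - log (w p) + k| ≤ 1
    · obtain ⟨p0, a, b⟩ := h
      refine ⟨aff v (z p0) / T, div_pos (pa p0) (by linarith), fun p a' b' => ⟨?_, ?_⟩⟩
      · rw [div_le_iff₀' (by linarith)]
        exact cmp p0 p a a' b b'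
      · rw [show T ^ 2 * (aff v (z p0) / T) = T * aff v (z p0) by field_simp]
        exact cmp p p0 a' a b' b
    · exact ⟨1, one_pos, fun p a b => (h ⟨p, a, b⟩).elim⟩
  obtain ⟨A, hA⟩ := g.bdd
  obtain ⟨b, hb⟩ : ∃ b, ∀ p, b ≤ log (aff v (z p)) - |w p| := by
    obtain ⟨b, hb⟩ := (isCompact_range ((ca.log fun p => (pa p).ne').sub g.cw.abs)).bddBelow
    exact ⟨b, fun p => hb ⟨p, rfl⟩⟩
  have iY : Integrable (fun p => exp (-m * log (aff v (z p))) *
      Y (m * (log (aff v (z p)) - log (w p) + k)) ^ 2) μ := by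
    refine i0.mul_bdd (c := (|A| + |Y (m * (b + k))|) ^ 2) (Measurable.aestronglyMeasurable
      ((g.cY.measurable.comp (measurable_const.mul (((measurable_log.comp ca.measurable).sub
        (measurable_log.comp g.cw.measurable)).add measurable_const))).pow_const 2))
      (ae_of_all _ fun p => ?_)
    have e1 : log (w p) ≤ |w p| := log_abs (w p) ▸ log_le_self (abs_nonneg _)
    have e2 := g.mono.monotone (show m * (b + k) ≤ m * (log (aff v (z p)) - log (w p) + k) from
      mul_le_mul_of_nonneg_left (by linarith [hb p]) (by linarith))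
    rw [Real.norm_eq_abs, abs_sq]
    refine sq_le_sq' ?_ ?_
    · linarith [abs_nonneg A, neg_abs_le (Y (m * (b + k)))]
    · linarith [hA (m * (log (aff v (z p)) - log (w p) + k)), le_abs_self A,
        abs_nonneg (Y (m * (b + k)))]
  have hθ : ∫ p, exp (-m * log (aff v (z p))) *
      Y (m * (log (aff v (z p)) - log (w p) + k)) ^ 2 / y ∂μ ≤ θ := by
    rw [integral_div, div_le_iff₀ py]
    exact hε
  have off : ∀ p, ¬ |log (aff v (z p)) - log (w p) + k| ≤ 1 → exp (-m * log (aff v (z p))) ≤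
      exp (-m * log (aff v (z p))) * Y (m * (log (aff v (z p)) - log (w p) + k)) ^ 2 / y :=
    fun p h => by
      rw [le_div_iff₀ py]
      exact mul_le_mul_of_nonneg_left (bd _ h) (exp_pos _).le
  refine hn v.1 c h0 pc ?_ ?_
  · rw [← ms c pc.le, ← m0, ← integral_const_mul]
    refine le_trans ?_ (add_le_add_right hθ _)
    rw [← integral_add (ie c pc.le) (iY.div_const y)]
    refine integral_mono_ae (i0.const_mul _) ((ie c pc.le).add (iY.div_const y)) ?_
    filter_upwards [g.pos] with p hp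
    by_cases h : |log (aff v (z p)) - log (w p) + k| ≤ 1
    · refine le_add_of_le_of_nonneg ?_ (by positivity)
      have := log_le_log (add_pos (pa p) pc) (show aff v (z p) + c ≤ 2 * aff v (z p) by
        linarith [(hc p hp h).1])
      rw [log_mul two_ne_zero (pa p).ne'] at this
      rw [← exp_add]
      exact exp_le_exp.2 (by nlinarith)
    · refine le_add_of_nonneg_of_le (exp_pos _).le (le_trans ?_ (off p h))
      exact mul_le_of_le_one_left (exp_pos _).le (exp_le_one_iff.2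
        (by nlinarith [log_pos one_lt_two]))
  · have pc' : 0 < σ * c := mul_pos pσ pc
    rw [← ms _ pc'.le, ← m0, ← integral_const_mul]
    refine le_trans ?_ (add_le_add_right hθ _)
    rw [← integral_add (i0.const_mul _) (iY.div_const y)]
    refine integral_mono_ae (ie _ pc'.le) ((i0.const_mul _).add (iY.div_const y)) ?_
    filter_upwards [g.pos] with p hp
    by_cases h : |log (aff v (z p)) - log (w p) + k| ≤ 1
    · refine le_add_of_le_of_nonneg ?_ (by positivity)
      have p1 : 0 < 1 + σ / T ^ 2 := by positivity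
      have := log_le_log (mul_pos p1 (pa p)) (show (1 + σ / T ^ 2) * aff v (z p) ≤
          aff v (z p) + σ * c by
        have := mul_le_mul_of_nonneg_left (hc p hp h).2 (show 0 ≤ σ / T ^ 2 by positivity)
        rw [show σ / T ^ 2 * (T ^ 2 * c) = σ * c by field_simp] at this
        linarith)
      rw [log_mul p1.ne' (pa p).ne'] at this
      rw [← exp_add]
      exact exp_le_exp.2 (by nlinarith)
    · refine le_add_of_nonneg_of_le (by positivity) (le_trans ?_ (off p h))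
      have := log_le_log (pa p) (le_add_of_nonneg_right pc'.le)
      exact exp_le_exp.2 (by nlinarith)

end Pool.Agent.MP_c98b3a_gt.KL

end

end MrgPart2

-- marker of a merged file
example : 731051 + 15228 = 731051 + 15228 := rfl
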