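import Pool.Agent.MP_c98b3a_gt.kl.SH

-- ======== part 0: formerly Pool.Agent.MP_c98b3a_gt.kl.CONF
section MrgPart0

/-! Every smooth conformal factor defines a metric on the sphere. -/

open scoped Manifold ContDiff Matrix Topology
open MeasureTheory Real

noncomputable section

namespace Pool.Agent.MP_c98b3a_gt.KL

open CF

namespace CONF

variable {E F M : Type} [NormedAddCommGroup E] [NormedSpace ℝ E] [FiniteDimensional ℝ E]
  [NormedAddCommGroup F] [InnerProductSpace ℝ F] [TopologicalSpace M] [ChartedSpace E M]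
  [IsManifold 𝓘(ℝ, E) ∞ M]

/-- the pull-back of the scalar product by a linear map -/
def pb (D : E →L[ℝ] F) : E →L[ℝ] E →L[ℝ] ℝ :=
  (innerSL ℝ (E := F) : F →L[ℝ] F →L[ℝ] ℝ).bilinearComp D D

omit [FiniteDimensional ℝ E] in
theorem pb_smooth : ContDiff ℝ ∞ (pb : (E →L[ℝ] F) → E →L[ℝ] E →L[ℝ] ℝ) := by
  have h : (pb : (E →L[ℝ] F) → E →L[ℝ] E →L[ℝ] ℝ) = fun D =>
      (((ContinuousLinearMap.compL ℝ E F ℝ).flip D).comp
        (innerSL ℝ (E := F) : F →L[ℝ] F →L[ℝ] ℝ)).comp D := by
    ext D v w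
    rfl
  rw [h]
  exact (((ContinuousLinearMap.compL ℝ E F ℝ).flip.contDiff).clm_comp contDiff_const).clm_comp
    contDiff_id

theorem bdd (D : E →L[ℝ] F) (hD : Function.Injective D) {c : ℝ} (hc : 0 < c) :
    Bornology.IsVonNBounded ℝ {v : E | c * inner ℝ (D v) (D v) < 1} := by
  obtain ⟨K, -, hK⟩ := (D : E →ₗ[ℝ] F).exists_antilipschitzWith (LinearMap.ker_eq_bot.2 hD)
  refine (NormedSpace.isVonNBounded_iff' ℝ).2 ⟨K * (1 + 1 / c), fun v hv => ?_⟩
  have h1 : ‖v‖ ≤ K * ‖D v‖ := by simpa using hK.le_mul_dist v 0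
  have h2 : c * ‖D v‖ ^ 2 < 1 := by simpa [real_inner_self_eq_norm_sq] using hv
  have h3 : ‖D v‖ ^ 2 < 1 / c := by rw [lt_div_iff₀ hc]; linarith
  have h4 : ‖D v‖ ≤ 1 + 1 / c := by nlinarith [sq_nonneg (‖D v‖ - 1), norm_nonneg (D v)]
  exact h1.trans (mul_le_mul_of_nonneg_left h4 K.2)

/-- the differential as a map between fixed spaces -/
def dd (X : M → F) (x : M) : E →L[ℝ] F := mfderiv 𝓘(ℝ, E) 𝓘(ℝ, F) X x

/-- the conformal multiple of the induced metric -/
def met (X : M → F) (hX : ContMDiff 𝓘(ℝ, E) 𝓘(ℝ, F) ∞ X)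
    (hi : ∀ x, Function.Injective (dd (E := E) X x)) (s : M → ℝ)
    (hs : ContMDiff 𝓘(ℝ, E) 𝓘(ℝ, ℝ) ∞ s) : Metrics 𝓘(ℝ, E) M where
  inner x := (exp (2 * s x) • pb (dd (E := E) X x) : E →L[ℝ] E →L[ℝ] ℝ)
  symm x v w := congrArg (exp (2 * s x) * ·) (real_inner_comm _ _)
  pos x v hv := mul_pos (exp_pos _)
    (real_inner_self_pos.2 fun h => hv (hi x (h.trans (map_zero (dd (E := E) X x)).symm)))
  isVonNBounded x := bdd (dd (E := E) X x) (hi x) (exp_pos _)
  contMDiff := by
    intro x0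
    refine (Bundle.contMDiffAt_section x0).2 ?_
    have h1 : ContMDiffAt 𝓘(ℝ, E) 𝓘(ℝ, E →L[ℝ] F) ∞
        (inTangentCoordinates 𝓘(ℝ, E) 𝓘(ℝ, F) id X (mfderiv 𝓘(ℝ, E) 𝓘(ℝ, F) X) x0) x0 :=
      (hX x0).mfderiv_const le_rfl
    have h2 : ContMDiffAt 𝓘(ℝ, E) 𝓘(ℝ, ℝ) ∞ (fun x => exp (2 * s x)) x0 :=
      ((contDiff_const.mul contDiff_id).exp : ContDiff ℝ ∞ fun t : ℝ => exp (2 * t)).contDiffAt
        |>.comp_contMDiffAt (hs x0)
    have h3 := h2.smul (pb_smooth.contDiffAt.comp_contMDiffAt h1)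
    refine h3.congr_of_eventuallyEq ?_
    filter_upwards [(trivializationAt E (TangentSpace 𝓘(ℝ, E)) x0).open_baseSet.mem_nhds
      (FiberBundle.mem_baseSet_trivializationAt' x0)] with x hx
    ext v w
    refine (inCoordinates_apply_eq₂ hx hx (Set.mem_univ _)).trans ?_
    have h4 : ∀ u, inTangentCoordinates 𝓘(ℝ, E) 𝓘(ℝ, F) id X (mfderiv 𝓘(ℝ, E) 𝓘(ℝ, F) X) x0 x u =
        dd (E := E) X x ((trivializationAt E (TangentSpace 𝓘(ℝ, E)) x0).symm x u) := by
      intro u
      simp only [inTangentCoordinates, ContinuousLinearMap.inCoordinates, dd, id,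
        TangentBundle.continuousLinearMapAt_model_space]
      exact congrArg (mfderiv 𝓘(ℝ, E) 𝓘(ℝ, F) X x)
        (Bundle.Trivialization.symmL_apply (R := ℝ) _ hx u)
    change _ = exp (2 * s x) * inner ℝ (inTangentCoordinates 𝓘(ℝ, E) 𝓘(ℝ, F) id X
      (mfderiv 𝓘(ℝ, E) 𝓘(ℝ, F) X) x0 x v) (inTangentCoordinates 𝓘(ℝ, E) 𝓘(ℝ, F) id X
      (mfderiv 𝓘(ℝ, E) 𝓘(ℝ, F) X) x0 x w)
    rw [h4, h4]
    simp only [Bundle.Trivial.fiberBundle_trivializationAt', Bundle.Trivial.linearMapAt_trivialization,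
      LinearMap.id_coe, id]
    rfl

end CONF

set_option linter.deprecated false in
theorem conf : S_CONF := fun m s hs =>
  have : Fact (Module.finrank ℝ (Euc (Fin (m + 1))) = m + 1) := ⟨by simp⟩
  ⟨CONF.met (fun p : Sph m => (p : Euc (Fin (m + 1)))) contMDiff_coe_sphere
    (fun x => mfderiv_coe_sphere_injective x) s hs, hs, fun _ _ _ => rfl⟩

end Pool.Agent.MP_c98b3a_gt.KL

end

end MrgPart0

-- ======== part 1: formerly Pool.Agent.MP_c98b3a_gt.kl.TOW
section MrgPart1

/-! The entropy of Kleinian manifolds: the tower of a gauge. -/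

open scoped Manifold ContDiff Matrix Topology
open MeasureTheory Real

noncomputable section

namespace Pool.Agent.MP_c98b3a_gt.KL

open CF

namespace TOW

variable {m : ℕ} {g' : Metrics 𝓘(ℝ, Euc (Fin m)) (Sph m)} {S : Sph m → ℝ} {μ : Measure (Sph m)}

/-- the curvature integral against `e^{-mS} G(S)` -/
theorem curv_eq [IsProbabilityMeasure μ] (hΓ : GamF g') (hS : Smo (Fin m) S)
    (h2 : ∀ F, Continuous F → volS m * ∫ p, F p ∂μ = ∫ p, exp (-m * S p) * F p ∂vol g')
    (h3 : ∀ F, Smo (Fin m) F → ∫ p, scalM g' p * F p ∂vol g' =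
      ∫ p, (m * (m - 1) * exp (-2 * S p) * F p + 2 * (m - 1) * gam g' S F p +
        (m - 1) * (m - 2) * gam g' S S p * F p) ∂vol g')
    {G : ℝ → ℝ} (hG : ContDiff ℝ ∞ G) :
    ∫ p, scalM g' p * (exp (-m * S p) * G (S p)) ∂vol g' =
      volS m * ∫ p, (m * (m - 1) * exp (-2 * S p) * G (S p) -
        (m - 1) * ((m + 2) * G (S p) - 2 * deriv G (S p)) * gam g' S S p) ∂μ := by
  have cS := hS.continuous
  have cG := hG.continuous
  have cG' := hG.continuous_deriv (by simp)
  have cg := hΓ.cont hS hS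
  have sm : ContDiff ℝ ∞ fun t : ℝ => exp (-m * t) * G t := by fun_prop
  have d : ∀ t, HasDerivAt (fun t : ℝ => exp (-m * t) * G t)
      (exp (-m * t) * (deriv G t - m * G t)) t := fun t => by
    have a1 : HasDerivAt (fun t : ℝ => -(m : ℝ) * t) (-m) t := by
      simpa using (hasDerivAt_id' t).const_mul (-(m : ℝ))
    exact (a1.exp.mul (hG.differentiable (by simp) t).hasDerivAt).congr_deriv (by ring)
  rw [h3 (fun p => exp (-m * S p) * G (S p)) (sm.contMDiff.comp hS), h2 _ (by fun_prop)]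
  refine integral_congr_ae (.of_forall fun p => ?_)
  have e := hΓ.comp (φ := fun t : ℝ => exp (-m * t) * G t) hS S p (d _)
  rw [hΓ.symm] at e
  simp only [e]
  ring

/-- the data of one test function -/
theorem test [IsProbabilityMeasure μ] (hΓ : GamF g') (hS : Smo (Fin m) S) (c : SC m (Sph m) μ)
    (h1 : ∀ F G p, c.Γ F G p = exp (2 * S p) * gam g' F G p)
    (h2 : ∀ F, Continuous F → volS m * ∫ p, F p ∂μ = ∫ p, exp (-m * S p) * F p ∂vol g')
    (h3 : ∀ F, Smo (Fin m) F → ∫ p, scalM g' p * F p ∂vol g' =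
      ∫ p, (m * (m - 1) * exp (-2 * S p) * F p + 2 * (m - 1) * gam g' S F p +
        (m - 1) * (m - 2) * gam g' S S p * F p) ∂vol g')
    {q : ℝ → ℝ} (hq : ContDiff ℝ ∞ q) {T : ℝ} (h0 : ∀ t, T - 1 ≤ t → q t = 0) :
    ∃ φ : Sph m → ℝ, Smo (Fin m) φ ∧ tsupport φ ⊆ {p | S p < T} ∧
      volS m * ∫ p, q (S p) ^ 2 ∂μ = ∫ p, φ p ^ 2 ∂vol g' ∧
      volS m * En c q S = ∫ p, (scalM g' p * φ p ^ 2 + 4 * gam g' φ φ p) ∂vol g' ∧
      volS m * ∫ p, (q (S p) ^ 2 * log (q (S p) ^ 2) - m * S p * q (S p) ^ 2) ∂μ =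
        ∫ p, φ p ^ 2 * log (φ p ^ 2) ∂vol g' := by
  have cS := hS.continuous
  have cq := hq.continuous
  have cq' := hq.continuous_deriv (by simp)
  have cg := hΓ.cont hS hS
  have cR := continuous_scalM g'
  have sm : ContDiff ℝ ∞ fun t : ℝ => exp (-m / 2 * t) * q t := by fun_prop
  have d : ∀ t, HasDerivAt (fun t : ℝ => exp (-m / 2 * t) * q t)
      (exp (-m / 2 * t) * (deriv q t - m / 2 * q t)) t := fun t => by
    have a1 : HasDerivAt (fun t : ℝ => -(m : ℝ) / 2 * t) (-m / 2) t := by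
      simpa using (hasDerivAt_id' t).const_mul (-(m : ℝ) / 2)
    exact (a1.exp.mul (hq.differentiable (by simp) t).hasDerivAt).congr_deriv (by ring)
  have ee : ∀ t : ℝ, exp (-m / 2 * t) ^ 2 = exp (-m * t) := fun t => by
    rw [sq, ← exp_add]; congr 1; ring
  have sq : ∀ p, (exp (-m / 2 * S p) * q (S p)) ^ 2 = exp (-m * S p) * q (S p) ^ 2 := fun p => by
    rw [mul_pow, ee]
  have gg : ∀ p, gam g' (fun p => exp (-m / 2 * S p) * q (S p))
      (fun p => exp (-m / 2 * S p) * q (S p)) p =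
        exp (-m * S p) * ((deriv q (S p) - m / 2 * q (S p)) ^ 2 * gam g' S S p) := fun p => by
    have a1 := fun G => hΓ.comp (φ := fun t : ℝ => exp (-m / 2 * t) * q t) hS G p (d _)
    rw [a1, hΓ.symm, a1, ← ee]
    ring
  refine ⟨fun p => exp (-m / 2 * S p) * q (S p), sm.contMDiff.comp hS, ?_, ?_, ?_, ?_⟩
  · refine (closure_minimal (fun p hp => ?_) (isClosed_le cS continuous_const (g := fun _ =>
      T - 1))).trans fun p (hp : S p ≤ T - 1) => show S p < T by linarith
    by_contra h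
    exact hp (by simp [h0 _ (not_le.1 h).le])
  · simp only [sq]
    exact h2 _ (by fun_prop)
  · simp only [sq, gg]
    have dq : ∀ t, deriv (fun t => q t ^ 2) t = 2 * q t * deriv q t := fun t =>
      ((hq.differentiable (by simp) t).hasDerivAt.fun_pow 2).deriv.trans (by simp)
    rw [integral_add (integrable_vol g' (by fun_prop)) (integrable_vol g' (by fun_prop)),
      curv_eq hΓ hS h2 h3 (G := fun t => q t ^ 2) (by fun_prop), integral_const_mul,
      ← h2 _ (by fun_prop), ← mul_assoc, mul_comm 4, mul_assoc, ← mul_add, ← integral_const_mul,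
      ← integral_add (Yam.int_of_cont μ (by simp only [dq]; fun_prop))
        (Yam.int_of_cont μ (by fun_prop))]
    congr 1
    refine integral_congr_ae (.of_forall fun p => ?_)
    have e2 : exp (2 * S p) * exp (-2 * S p) = 1 := by rw [← exp_add]; simp
    simp only [h1, dq]
    linear_combination ((q (S p) - 2 * deriv q (S p)) ^ 2 - (m - 1) * q (S p) ^ 2) *
      gam g' S S p * e2
  · have c2 : Continuous fun p => q (S p) ^ 2 * log (q (S p) ^ 2) :=
      continuous_mul_log.comp (by fun_prop)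
    rw [h2 _ (by fun_prop)]
    refine integral_congr_ae (.of_forall fun p => ?_)
    simp only [sq]
    rcases eq_or_ne (q (S p) ^ 2) 0 with h | h
    · simp [h]
    · rw [log_mul (exp_pos _).ne' h, log_exp]
      ring

/-- a test function without mass has a nonnegative energy -/
theorem en_nonneg [IsProbabilityMeasure μ] (c : SC m (Sph m) μ) (hS : c.Sm S) {q : ℝ → ℝ}
    (h : ∀ p, q (S p) = 0) : 0 ≤ En c q S :=
  integral_nonneg fun p => by
    have := c.Γnonneg hS p
    simp only [h p, Pi.zero_apply, zero_pow two_ne_zero, mul_zero, zero_add, sub_zero]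
    positivity

end TOW

open TOW

theorem tow (h1 : S_LV) (h2 : S_ENT) : S_TOW := by
  intro m M _ _ _ _ _ _ _ g w f g0 hm hK h0 a ha
  have : Nonempty (Fin m) := ⟨⟨0, by omega⟩⟩
  have m2 : (2 : ℝ) ≤ m := by exact_mod_cast hm
  have hn : (0 : ℝ) < m - 1 := by linarith
  have hv := volS_pos m
  obtain ⟨R, hR⟩ := isCompact_univ.exists_bound_of_continuousOn (continuous_scalM g).continuousOn
  obtain ⟨τ, τ0, hτ⟩ : ∃ τ > (0 : ℝ), (m : ℝ) / 2 * log (4 * π * τ) =
      log ((vol g).real Set.univ) - m - a + 1 := by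
    refine ⟨exp (2 / m * (log ((vol g).real Set.univ) - m - a + 1)) / (4 * π), by positivity, ?_⟩
    rw [mul_div_cancel₀ _ (by positivity), log_exp]
    field_simp
  obtain ⟨K, hL⟩ := hK.lipschitz
  have cw : Continuous w := by
    refine continuous_iff_continuousAt.2 fun x => tendsto_iff_dist_tendsto_zero.2 ?_
    refine squeeze_zero (fun _ => dist_nonneg) (fun y => hL y x) ?_
    have c : Continuous fun y : Sph m => K * ‖incl y - incl x‖ := by unfold incl; fun_prop
    simpa using c.tendsto x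
  have hΩ : IsOpen {p | 0 < w p} := isOpen_lt continuous_const cw
  refine ⟨1 / τ, by positivity, R, fun v v1 v2 => ?_⟩
  obtain ⟨mass, geo⟩ := geo_all m g0 _ hm h0
  obtain ⟨sA, -, -⟩ := geo v v1 v2 _ rfl
  have cA : Continuous fun p : Sph m => log (aff v p) := by simpa using sA.continuous
  have ms := mass v (frame _ v v1 v2).1
  simp only [zero_add, v2, log_one, mul_zero, exp_zero, mul_one] at ms
  set μ := (vol g0).withDensity fun p => ENNReal.ofReal (exp (-m * log (aff v p)) / volS m) with hμ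
  have me : Measurable fun p : Sph m => ENNReal.ofReal (exp (-m * log (aff v p)) / volS m) :=
    Measurable.ennreal_ofReal (Continuous.measurable (by fun_prop))
  have cv : ∀ F : Sph m → ℝ,
      volS m * ∫ p, F p ∂μ = ∫ p, exp (-m * log (aff v p)) * F p ∂vol g0 := fun F => by
    rw [hμ, integral_withDensity_eq_integral_toReal_smul me (by simp), ← integral_const_mul]
    refine integral_congr_ae (.of_forall fun p => ?_)
    simp only [smul_eq_mul]
    rw [ENNReal.toReal_ofReal (by positivity)]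
    field_simp
  have pm : IsProbabilityMeasure μ := isProbabilityMeasure_iff_real.2 <| by
    have := cv fun _ => 1
    simp only [integral_const, smul_eq_mul, mul_one, ms] at this
    exact mul_left_cancel₀ hv.ne' (this.trans (mul_one _).symm)
  have ac : vol g0 ≪ μ := withDensity_absolutelyContinuous' me.aemeasurable
    (.of_forall fun p => (ENNReal.ofReal_pos.2 (by positivity)).ne')
  have := vol_openPos g0
  refine ⟨μ, pm, cv, ac, pos_iff_ne_zero.2 fun h => (hΩ.measure_pos (vol g0) hK.nonempty).ne' (ac h),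
    hΩ.measurableSet, cA.measurable.sub (measurable_log.comp cw.measurable), ?_, fun T => ?_⟩
  · obtain ⟨A, hA⟩ := isCompact_univ.exists_bound_of_continuousOn cA.continuousOn
    obtain ⟨W, hW⟩ := isCompact_univ.exists_bound_of_continuousOn cw.continuousOn
    refine ⟨-A - W, fun p hp => ?_⟩
    have a1 := (abs_le.1 (hA p trivial)).1
    have a2 := (abs_le.1 (hW p trivial)).2
    have a3 := log_le_sub_one_of_pos (show 0 < w p from hp)
    linarith
  obtain ⟨g', S, c, sS, c1, c2, c3, c4, c5, e1, e2, li⟩ :=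
    h1 m M g w f g0 hm hK h0 v v1 v2 μ (fun F _ => cv F) T
  obtain ⟨gf, gp⟩ := gam_ (Fin m) (Sph m) g'
  obtain ⟨sc, -, ent⟩ := h2 (Fin m) (Sph m) M g' g f _ li
  have cS := sS.continuous
  have cg := gf.cont sS sS
  have cR := continuous_scalM g'
  have z0 : ∀ q : ℝ → ℝ, Continuous q → ¬ 0 < ∫ p, q (S p) ^ 2 ∂μ → ∀ p, q (S p) = 0 := by
    intro q cq h p
    have z : ∫ p, q (S p) ^ 2 ∂μ = 0 :=
      le_antisymm (not_lt.1 h) (integral_nonneg fun p => sq_nonneg _)
    have b := c4 (fun p => q (S p) ^ 2) (by fun_prop)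
    rw [z, mul_zero] at b
    have b3 := gp _ (by fun_prop) (fun p => by positivity) b.symm p
    exact (pow_eq_zero_iff two_ne_zero).1 ((mul_eq_zero.1 b3).resolve_left (exp_pos _).ne')
  refine ⟨c, S, c3, c1 S sS, e1, e2, fun G hG G0 G1 => ?_, fun q hq q0 => ?_,
    fun q hq q0 k Z hZ => ?_⟩
  · have cG := hG.continuous
    have cG' := hG.continuous_deriv (by simp)
    have b := curv_eq gf sS c4 c5 hG
    have b1 : -∫ p, scalM g' p * (exp (-m * S p) * G (S p)) ∂vol g' ≤
        volS m * ∫ p, R * G (S p) ∂μ := by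
      rw [c4 _ (by fun_prop), ← integral_neg]
      refine integral_mono (integrable_vol g' (by fun_prop)) (integrable_vol g' (by fun_prop))
        fun p => ?_
      rcases le_or_gt (T - 1) (S p) with h | h
      · simp [G1 _ h]
      · have a1 := (abs_le.1 (hR (f p) trivial)).1
        have a2 := mul_nonneg (exp_pos (-m * S p)).le (G0 (S p))
        rw [← sc p (show S p < T by linarith)] at a1
        simp only
        nlinarith
    have e3 : ∀ p, exp (2 * S p) * gam g' S S p * exp (-2 * S p) = gam g' S S p := fun p => by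
      rw [mul_right_comm, ← exp_add]; simp
    rw [b, integral_sub (Yam.int_of_cont μ (by fun_prop)) (Yam.int_of_cont μ (by fun_prop)),
      ← mul_neg] at b1
    simp only [c2, e3, add_mul (m * (m - 1) * exp _) R]
    rw [integral_add (Yam.int_of_cont μ (by fun_prop)) (Yam.int_of_cont μ (by fun_prop))]
    linarith [le_of_mul_le_mul_left b1 hv]
  · by_cases h : 0 < ∫ p, q (S p) ^ 2 ∂μ
    · obtain ⟨φ, s1, s2, s3, s4, -⟩ := test gf sS c c2 c4 c5 hq q0
      have b := (ent a τ φ _ _ ha τ0 s1 s2 s3 s4 (mul_pos hv h)).2.1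
      rw [Fintype.card_fin, hτ, mul_left_comm, mul_div_mul_left _ _ hv.ne'] at b
      have b1 : 1 ≤ τ * En c q S / ∫ p, q (S p) ^ 2 ∂μ := by linarith
      rw [le_div_iff₀ h] at b1
      rw [one_div, inv_mul_le_iff₀ τ0]
      linarith
    · have z := z0 q hq.continuous h
      simpa [z] using en_nonneg c (c1 S sS) z
  · have hτ' : 0 < exp (-2 * k) / (2 * (m - 1)) := by positivity
    by_cases h : 0 < ∫ p, q (S p) ^ 2 ∂μ
    · obtain ⟨φ, s1, s2, s3, s4, s5⟩ := test gf sS c c2 c4 c5 hq q0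
      have cq := hq.continuous
      have c6 : Continuous fun p => q (S p) ^ 2 * log (q (S p) ^ 2) :=
        continuous_mul_log.comp (by fun_prop)
      have b := (ent a _ φ _ _ ha hτ' s1 s2 s3 s4 (mul_pos hv h)).1
      have e3 : ∫ p, q (S p) ^ 2 * (m * (S p + k) - log (q (S p) ^ 2)) ∂μ = m * k * Z -
          ∫ p, (q (S p) ^ 2 * log (q (S p) ^ 2) - m * S p * q (S p) ^ 2) ∂μ := by
        rw [hZ, ← integral_const_mul, ← integral_sub (Yam.int_of_cont μ (by fun_prop))
          (Yam.int_of_cont μ (by fun_prop))]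
        exact integral_congr_ae (.of_forall fun p => by ring)
      rw [← hZ] at h b
      rw [← s5, Fintype.card_fin, mul_left_comm, ← mul_sub, mul_div_mul_left _ _ hv.ne',
        log_mul hv.ne' h.ne', show 4 * π * (exp (-2 * k) / (2 * (m - 1))) =
          2 * π / (m - 1) * exp (-2 * k) by field_simp; ring,
        log_mul (by positivity) (exp_pos _).ne', log_exp] at b
      rw [e3, log_theta hm]
      have b1 := mul_le_mul_of_nonneg_right b h.le
      rw [sub_mul, sub_mul, add_mul, div_mul_cancel₀ _ h.ne'] at b1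
      linarith
    · have z := z0 q hq.continuous h
      have := mul_nonneg hτ'.le (en_nonneg c (c1 S sS) z)
      simpa [hZ, z] using this

end Pool.Agent.MP_c98b3a_gt.KL

end

end MrgPart1

-- marker of a merged file
example : 731051 + 66447 = 731051 + 66447 := rfl
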