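import Pool.Agent.MP_c98b3a_gt.kl.TAIL
import Pool.Agent.MP_c98b3a_gt.kl.BAL2
import Pool.Agent.MP_c98b3a_gt.kl.SH
import Pool.Agent.MP_c98b3a_gt.kl.RB
import Pool.Agent.MP_c98b3a_gt.kl.TOW

/-! The entropy of Kleinian manifolds: all rows. -/

namespace Pool.Agent.MP_c98b3a_gt.KL

theorem ent_all : S_ENT := ent (sh lc) (pu (sh lc))

theorem lv_all : S_LV := lv conf ccv

end Pool.Agent.MP_c98b3a_gt.KL
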