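import Pool.Agent.MP_c98b3a_gt.kl.Defs

/-! Moebius deck transformations. -/

namespace Pool.Agent.MP_c98b3a_gt

variable {F N M : Type} [NormedAddCommGroup F] [InnerProductSpace ℝ F]

/-- The Minkowski product on `ℝ × F`. -/
noncomputable def mink (u v : ℝ × F) : ℝ := u.1 * v.1 - inner ℝ u.2 v.2

/-- `γ` is the Moebius transformation induced by a Lorentz transformation `A`, with
`|γ'(x)| = 1 / l`; it preserves the metric `w^{-2} X^* g_euclid`, and on `{w > 0}` it has no fixed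
point and satisfies `f ∘ γ = f`. -/
structure Deck (X : N → F) (w : N → ℝ) (f : N → M) (γ : N → N) : Prop where
  moebius : ∃ A : (ℝ × F) →ₗ[ℝ] (ℝ × F), (∀ u v, mink (A u) (A v) = mink u v) ∧
    ∀ x, ∃ l : ℝ, 0 < l ∧ A (1, X x) = l • (1, X (γ x)) ∧ w x = l * w (γ x)
  deck : ∀ x, 0 < w x → f (γ x) = f x ∧ γ x ≠ x

end Pool.Agent.MP_c98b3a_gt
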