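import Mathlib.Analysis.Normed.Module.Connected
import Pool.Agent.MP_c98b3a_gt.kl.BAL2
import Pool.Agent.MP_c98b3a_gt.kl.Defs3

-- ======== part 0: formerly Pool.Agent.MP_c98b3a_gt.kl.Spec3
section MrgPart0

/-! The entropy gap of Kleinian manifolds: row statements. -/

open scoped Manifold ContDiff Matrix Topology
open MeasureTheory Real

noncomputable section

namespace Pool.Agent.MP_c98b3a_gt.KL

open CF

/-- a mountain pass in finite dimension -/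
def S_MP : Prop := ∀ (E : Type) [NormedAddCommGroup E] [NormedSpace ℝ E] [FiniteDimensional ℝ E]
  (U K0 : Set E) (Φ : E → ℝ) (Φ' : E → E →L[ℝ] ℝ) (c0 : ℝ) (v1 v2 : E), IsOpen U →
  (∀ x ∈ U, HasFDerivAt Φ (Φ' x) x) → ContinuousOn Φ' U → IsCompact {x ∈ U | Φ x ≤ c0} →
  IsPreconnected K0 → (∀ x ∈ K0, x ∈ U ∧ Φ x ≤ c0) → v1 ∈ K0 → v2 ∈ K0 →
    ∃ (K : Set E) (z : E), IsPreconnected K ∧ K ⊆ U ∧ v1 ∈ K ∧ v2 ∈ K ∧ z ∈ K ∧
      (∀ x ∈ K, Φ x ≤ Φ z) ∧ Φ z ≤ c0 ∧ (z = v1 ∨ z = v2 ∨ Φ' z = 0)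

section

variable {ι M : Type} [Fintype ι] [MeasurableSpace M] (μ : Measure M) (w : M → ℝ) (z : M → Euc ι)
  (m : ℝ)

/-- the integral of a function of the conformal factor in the gauge `v` -/
abbrev II (Φ : ℝ → ℝ) (v : ℝ × Euc ι) : ℝ := BAL2.J μ (fun p => log (w p)) z m Φ v

/-- the positive definite form attached to a unit vector -/
def NN (v d : ℝ × Euc ι) : ℝ := 2 * lor d v ^ 2 - lor d d

end

/-- the primitive of the gauge problem -/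
structure Prim (m : ℝ) (Y H : ℝ → ℝ) : Prop where
  der : ∀ u, HasDerivAt H (m * H u + Y (m * u)) u
  low : ∃ A, ∀ u, -A ≤ H u
  up : ∀ u, m * H u ≤ -Y (m * u)

/-- the gauge functional is continuously differentiable -/
def S_JC : Prop := AllG fun ι _ _ _ _ _ μ w z m Y => ∀ H, Prim m Y H →
  ∃ J' : ℝ × Euc ι → (ℝ × Euc ι) →L[ℝ] ℝ,
    (∀ v : ℝ × Euc ι, ‖v.2‖ < v.1 → HasFDerivAt (II μ w z m H) (J' v) v) ∧
    ContinuousOn J' {v | ‖v.2‖ < v.1} ∧ ∀ v y : ℝ × Euc ι, ‖v.2‖ < v.1 →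
      J' v y = ∫ p, exp (-m * log (aff v (z p))) * (aff y (z p) / aff v (z p)) *
        Y (m * (log (aff v (z p)) - log (w p))) ∂μ

/-- second moments -/
def S_MOM2 : Prop := AllG fun ι _ _ _ _ _ μ _ z m _ => ∀ v d : ℝ × Euc ι, 0 < v.1 → lor v v = 1 →
  (∀ y : Euc ι, ‖y‖ ≤ 1 → aff d y ^ 2 ≤ 2 * NN v d * aff v y ^ 2) ∧
  (NN v d ≤ 1 / 64 → ‖(v + d).2‖ < (v + d).1) ∧
  NN v d * ∫ p, exp (-m * log (aff v (z p))) ∂μ ≤
    (m + 1) * ∫ p, exp (-m * log (aff v (z p))) * (aff d (z p) / aff v (z p)) ^ 2 ∂μ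

/-- quantification over gauge problems, with a constant that depends only on the profile -/
def AllG' (P : ∀ (ι M : Type) [Fintype ι] [DecidableEq ι] [TopologicalSpace M] [MeasurableSpace M],
    Measure M → (M → ℝ) → (M → Euc ι) → ℝ → (ℝ → ℝ) → ℝ → Prop) : Prop :=
  ∀ (m κ : ℝ) (Y : ℝ → ℝ), ∃ V0 > (0 : ℝ), ∀ (ι M : Type) [Fintype ι] [DecidableEq ι]
    [TopologicalSpace M] [CompactSpace M] [T2Space M] [MeasurableSpace M] [BorelSpace M]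
    (μ : Measure M) [IsFiniteMeasure μ] (w : M → ℝ) (z : M → Euc ι), Gau μ w z m κ Y →
      P ι M μ w z m Y V0

/-- nearly round gauges are wells of the gauge functional -/
def S_WELL : Prop := AllG' fun ι _ _ _ _ _ μ w z m Y V0 => ∀ H, Prim m Y H →
  ∀ (v d : ℝ × Euc ι) (k : ℝ), 0 < v.1 → lor v v = 1 → NN v d = 1 / 64 →
    II μ w z m (fun u => Y (m * (u + k)) ^ 2) v ≤ V0 →
      II μ w z m H (exp k • v) + V0 * exp (-m * k) ≤ II μ w z m H (exp k • (v + d))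

/-- an almost balanced gauge that is far from round or almost invariant -/
def S_BAL3 : Prop := AllG' fun ι _ _ _ _ _ μ w z m Y V0 =>
  (∀ θ > (0 : ℝ), ∃ S0, ∀ v : ℝ × Euc ι, 0 < v.1 → lor v v = 1 →
    ∫ p in {p | S0 ≤ log (aff v (z p)) - log (w p)}, exp (-m * log (aff v (z p))) ∂μ ≤ θ) →
  ∀ A : (ℝ × Euc ι) →ₗ[ℝ] (ℝ × Euc ι), (∀ u v, lor (A u) (A v) = lor u v) →
    (∀ v : ℝ × Euc ι, ‖v.2‖ < v.1 → ‖(A v).2‖ < (A v).1 ∧
      ∀ Φ, Continuous Φ → II μ w z m Φ (A v) = II μ w z m Φ v) →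
  ∀ ε > (0 : ℝ), ∃ v : ℝ × Euc ι, 0 < v.1 ∧ lor v v = 1 ∧ ∃ k : ℝ,
    |∫ p, exp (-m * log (aff v (z p))) * Y (m * (log (aff v (z p)) - log (w p) + k)) ∂μ| ≤ ε ∧
    (∀ i, |∫ p, exp (-m * log (aff v (z p))) * (Y (m * (log (aff v (z p)) - log (w p) + k)) *
      (aff (fr v i) (z p) / aff v (z p))) ∂μ| ≤ ε) ∧
    (V0 ≤ II μ w z m (fun u => Y (m * (u + k)) ^ 2) v ∨
      ∀ p, |log (aff (A v) (z p)) - log (aff v (z p))| ≤ 1)

/-- the mass identity determines the measure -/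
def S_UNI : Prop := ∀ (n : ℕ) (ν ν' : Measure (Sph n)) [IsFiniteMeasure ν] [IsFiniteMeasure ν']
  (m : ℝ), 0 < m → (∀ v : ℝ × Euc (Fin (n + 1)), ‖v.2‖ < v.1 →
    ∫ p, exp (-m * log (aff v p)) ∂ν = ∫ p, exp (-m * log (aff v p)) ∂ν') → ν = ν'

/-- invariance under Moebius transformations -/
def S_INV : Prop := ∀ (n : ℕ) (ν : Measure (Sph n)) [IsFiniteMeasure ν] (w : Sph n → ℝ) (m κ : ℝ)
  (Y : ℝ → ℝ) (γ : Sph n → Sph n) (A : (ℝ × Euc (Fin (n + 1))) →ₗ[ℝ] (ℝ × Euc (Fin (n + 1)))),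
  Gau ν w (fun p => (p : Euc (Fin (n + 1)))) m κ Y → (∀ u v, lor (A u) (A v) = lor u v) →
  (∀ x : Sph n, ∃ l : ℝ, 0 < l ∧ A (1, x) = l • (1, (γ x : Euc (Fin (n + 1)))) ∧
    w x = l * w (γ x)) → ∀ v : ℝ × Euc (Fin (n + 1)), ‖v.2‖ < v.1 →
    (‖(A v).2‖ < (A v).1 ∧ ∀ Φ, Continuous Φ →
      II ν w (fun p => (p : Euc (Fin (n + 1)))) m Φ (A v) =
        II ν w (fun p => (p : Euc (Fin (n + 1)))) m Φ v) ∧
    ∀ x, 0 < w x → 0 < w (γ x) ∧
      log (aff (A v) (γ x)) - log (w (γ x)) = log (aff v x) - log (w x)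

/-- the entropy of the target with multiplicity -/
def S_ENT2 : Prop := AllP fun ι N _ _ _ _ _ _ _ _ _ _ _ g' g f U =>
  ∀ (a τ : ℝ) (φ ζ : N → ℝ) (Z E : ℝ), (a : EReal) ≤ entNu g → 0 < τ → Smo ι φ → tsupport φ ⊆ U →
    Continuous ζ → (∀ x, 0 ≤ ζ x) →
    (∀ x ∈ U, φ x ≠ 0 → ∃ x' ∈ U, x ≠ x' ∧ f x = f x' ∧ ζ x * φ x ^ 2 ≤ φ x' ^ 2) →
    Z = ∫ x, φ x ^ 2 ∂vol g' → E = ∫ x, (scalM g' x * φ x ^ 2 + 4 * gam g' φ φ x) ∂vol g' →
    0 < Z → a ≤ (τ * E - ∫ x, φ x ^ 2 * log (φ x ^ 2) ∂vol g' -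
      ∫ x, φ x ^ 2 * log (1 + ζ x) ∂vol g') / Z + log Z -
        Fintype.card ι / 2 * log (4 * π * τ) - Fintype.card ι

section

variable {m : ℕ} {N : Type} [TopologicalSpace N] [MeasurableSpace N] {μ : Measure N}

/-- the entropy inequality with multiplicity two -/
def Ent2 (c : SC m N μ) (S' : N → ℝ) (T a : ℝ) : Prop :=
  ∀ q ζ : ℝ → ℝ, ContDiff ℝ ∞ q → Continuous ζ → (∀ t, 0 ≤ ζ t) → (∀ t, T - 2 ≤ t → q t = 0) →
    (∀ t t', |t' - t| ≤ 1 → ζ t * (exp (-m * t) * q t ^ 2) ≤ exp (-m * t') * q t' ^ 2) →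
    ∀ k Z : ℝ, Z = ∫ p, q (S' p) ^ 2 ∂μ → a * Z + ∫ p, q (S' p) ^ 2 * log (1 + ζ (S' p)) ∂μ ≤
      exp (-2 * k) / (2 * (m - 1)) * En c q S' +
        ∫ p, q (S' p) ^ 2 * (m * (S' p + k) - log (q (S' p) ^ 2)) ∂μ + Z * log Z - m / 2 * Z

variable (μ) in
/-- truncations at all levels, with multiplicity two -/
def Tower2 (x : Fin (m + 1) → N → ℝ) (Ω : Set N) (S : N → ℝ) (a c0 R : ℝ) : Prop :=
  ∀ T, ∃ (c : SC m N μ) (S' : N → ℝ), c.x = x ∧ Lev c Ω S S' T a c0 R ∧ Ent2 c S' T a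

end

/-- the tower of an almost invariant gauge -/
def S_TOW2 : Prop := AllK fun m _ _ _ _ _ g w f g0 => ∀ a : ℝ, (a : EReal) ≤ entNu g →
  ∃ c0 > (0 : ℝ), ∃ R : ℝ, ∀ v : ℝ × Euc (Fin (m + 1)), 0 < v.1 → lor v v = 1 →
    ∃ (μ : Measure (Sph m)) (_ : IsProbabilityMeasure μ),
      (∀ F : Sph m → ℝ, volS m * ∫ p, F p ∂μ = ∫ p, exp (-m * log (aff v p)) * F p ∂vol g0) ∧
      vol g0 ≪ μ ∧ 0 < μ {p | 0 < w p} ∧
      Tower μ (fun i (p : Sph m) => aff (fr v i) p / aff v p) {p | 0 < w p}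
        (fun p => log (aff v p) - log (w p)) (a - log (theta m)) c0 R ∧
      ∀ γ : Sph m → Sph m, (∀ p, 0 < w p → 0 < w (γ p) ∧ f (γ p) = f p ∧ γ p ≠ p ∧
        |log (aff v (γ p)) - log (w (γ p)) - (log (aff v p) - log (w p))| ≤ 1) →
        Tower2 μ (fun i (p : Sph m) => aff (fr v i) p / aff v p) {p | 0 < w p}
          (fun p => log (aff v p) - log (w p)) (a - log (theta m)) c0 R

/-- passing to the limit with multiplicity two -/
def S_CMP2 : Prop := AllN fun N _ _ μ =>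
  ∀ (m : ℕ) (x : Fin (m + 1) → N → ℝ) Ω S a c0 R C δ B Y K k ε,
  2 ≤ m → Tower μ x Ω S a c0 R → μ Ωᶜ = 0 → OD m C δ B Y → 0 < K → (∀ c : SC m N μ, Abs2 c B Y K) →
    ε ≤ 1 → |∫ p, Y (m * (S p + k)) ∂μ| < ε → (∀ i, |∫ p, Y (m * (S p + k)) * x i p ∂μ| < ε) →
      m * ∫ p, exp (B (m * (S p + k)) / m) ∂μ ≤ m + ε + 3 / 10 * ∫ p, Y (m * (S p + k)) ^ 2 ∂μ ∧
      (Tower2 μ x Ω S a c0 R → (a + log (1 + exp (-2 * m))) * ∫ p, exp (B (m * (S p + k)) / m) ∂μ ≤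
        K * ε - (∫ p, Y (m * (S p + k)) ^ 2 ∂μ) / K)

/-- an injective developing map is a diffeomorphism -/
def S_DIF : Prop := AllK fun m M _ _ _ _ _ w f _ => (∀ y, ∃ x, 0 < w x ∧ f x = y) →
  (∀ x x', 0 < w x → 0 < w x' → f x = f x' → x = x') → (∀ x, 0 < w x) ∧
    ∃ Φ : Diffeomorph 𝓘(ℝ, Euc (Fin m)) 𝓘(ℝ, Euc (Fin m)) (Sph m) M ∞, ∀ x, Φ x = f x

end Pool.Agent.MP_c98b3a_gt.KL

end

end MrgPart0

-- ======== part 1: formerly Pool.Agent.MP_c98b3a_gt.kl.DIF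
section MrgPart1

/-! An injective developing map is a diffeomorphism. -/

open scoped Manifold ContDiff Matrix Topology
open MeasureTheory Real Set

noncomputable section

namespace Pool.Agent.MP_c98b3a_gt.KL

open CF

theorem dif (h1 : S_LV) (h2 : S_LC) (h3 : S_ENT) : S_DIF := by
  intro m M _ _ _ _ _ _ _ g w f g0 hm hK h0 su ij
  have : Nonempty (Fin m) := ⟨⟨0, by omega⟩⟩
  have v2 : lor ((1, 0) : ℝ × Euc (Fin (m + 1))) (1, 0) = 1 := by simp [lor]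
  obtain ⟨-, -, ⟨μ, hμ, -, -, -, -, c4⟩, -⟩ := (geo_all m g0 _ hm h0).2 (1, 0) one_pos v2 _ rfl
  simp only [zero_add] at c4
  have L := h1 m M g w f g0 hm hK h0 (1, 0) one_pos v2 μ c4
  choose g' S c sS _ _ _ _ _ eq ge li using L
  have a1 : ∀ p : Sph m, log (aff ((1, 0) : ℝ × Euc (Fin (m + 1))) p) = 0 := by simp [aff]
  simp only [a1, zero_sub] at eq ge
  have U : ∀ T p, S T p < T ↔ 0 < w p ∧ -log (w p) < T := fun T p => ⟨fun h => by
    obtain ⟨u1, u2⟩ := Classical.not_imp.1 fun u => not_le.2 h (ge T p u)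
    exact ⟨u1, not_le.1 u2⟩, fun h => by rw [eq T p h.1 h.2.le]; exact h.2⟩
  obtain ⟨T, hT⟩ := (isCompact_univ (X := M)).elim_directed_cover (fun T => f '' {p | S T p < T})
    (fun T => (h3 _ _ _ _ _ _ _ (li T)).2.1) (fun y _ => by
      obtain ⟨x, x0, rfl⟩ := su y
      exact mem_iUnion.2 ⟨-log (w x) + 1, x, (U _ _).2 ⟨x0, lt_add_one _⟩, rfl⟩)
    (directed_of_isDirected_le fun a b ab => image_mono fun p hp =>
      (U _ _).2 ⟨((U _ _).1 hp).1, ((U _ _).1 hp).2.trans_le ab⟩)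
  have hU : ∀ p, 0 < w p → S T p < T := fun p hp => by
    obtain ⟨x, x0, e⟩ := hT (mem_univ (f p))
    rwa [← ij x p ((U _ _).1 x0).1 hp e]
  have cw : Continuous w := by
    obtain ⟨L, hL⟩ := hK.lipschitz
    refine (LipschitzWith.of_dist_le_mul (K := ⟨max L 0, le_max_right _ _⟩) fun x y => ?_).continuous
    rw [Real.dist_eq, Subtype.dist_eq, dist_eq_norm]
    exact (hL x y).trans (mul_le_mul_of_nonneg_right (le_max_left _ _) (norm_nonneg _))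
  have : PreconnectedSpace (Sph m) := Subtype.preconnectedSpace (isPreconnected_sphere (by
    rw [← Module.finrank_eq_rank, finrank_euclideanSpace_fin]
    exact_mod_cast (show 1 < m + 1 by omega)) _ _)
  have cl : {p | 0 < w p} = {p | exp (-T) ≤ w p} := Set.ext fun p =>
    ⟨fun h => (le_log_iff_exp_le h).1 (by linarith [((U _ _).1 (hU p h)).2]),
      fun h => (exp_pos _).trans_le h⟩
  have un : {p | 0 < w p} = univ := IsClopen.eq_univ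
    ⟨cl ▸ isClosed_le continuous_const cw, isOpen_lt continuous_const cw⟩ hK.nonempty
  have pos : ∀ p, 0 < w p := fun p => (un ▸ mem_univ p : p ∈ {p | 0 < w p})
  have bj : Function.Bijective f := ⟨fun x y => ij x y (pos x) (pos y),
    fun y => (su y).imp fun x hx => hx.2⟩
  refine ⟨pos, ⟨Equiv.ofBijective f bj, contMDiffOn_univ.1 (un ▸ hK.smooth_f), fun y => ?_⟩,
    fun x => rfl⟩
  obtain ⟨x, rfl⟩ := bj.2 y
  obtain ⟨e, e', c1, c2, x1, -, t, s, -⟩ := h2 _ _ _ _ _ _ _ (li T) x (hU x (pos x))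
  have x2 := e.map_source x1
  have x3 : e'.symm (e x) = f x := by rw [s _ x2, e.left_inv x1]
  have x4 : f x ∈ e'.source := x3 ▸ e'.map_target (t ▸ x2)
  have n := e'.open_source.mem_nhds x4
  refine ((c1.smooth_symm.comp c2.smooth fun y hy => t ▸ e'.map_source hy).contMDiffAt
    n).congr_of_eventuallyEq (Filter.mem_of_superset n fun y hy => ?_)
  refine (Equiv.symm_apply_eq _).2 ?_
  rw [Equiv.ofBijective_apply, Function.comp, ← s _ (t ▸ e'.map_source hy), e'.left_inv hy]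

end Pool.Agent.MP_c98b3a_gt.KL

end

end MrgPart1

-- marker of a merged file
example : 731051 + 40301 = 731051 + 40301 := rfl
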