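import Pool.Agent.MP_c98b3a_gt.kl.All
import Pool.Agent.MP_c98b3a_gt.kl.DIF

/-! The entropy gap of Kleinian manifolds: assembly. -/

open scoped Manifold ContDiff Matrix Topology
open MeasureTheory Real

noncomputable section

namespace Pool.Agent.MP_c98b3a_gt.KL

open CF

theorem fin3 (hC : S_CMP2) (hW : S_TOW2) (hB : S_BAL3) (hI : S_INV) (hD : S_DIF) :
    ∃ m0 : ℕ, ∀ m ≥ m0, ∃ ε > (0 : ℝ), ∀ (M : Type) [TopologicalSpace M] [T2Space M]
    [CompactSpace M] [ChartedSpace (Euc (Fin m)) M] [IsManifold 𝓘(ℝ, Euc (Fin m)) ∞ M]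
    [MeasurableSpace M] [BorelSpace M] (g : Metrics 𝓘(ℝ, Euc (Fin m)) M) (w : Sphere m → ℝ)
    (f : Sphere m → M), Kleinian g incl w f → (∀ y, ∃ x, 0 < w x ∧ f x = y) →
    (∀ x x', 0 < w x → 0 < w x' → x ≠ x' → f x = f x' → ∃ γ, Deck incl w f γ ∧ γ x = x') →
    ((log (theta m) - ε : ℝ) : EReal) < entNu g → (∀ x, 0 < w x) ∧
      ∃ Φ : Diffeomorph 𝓘(ℝ, Euc (Fin m)) 𝓘(ℝ, Euc (Fin m)) (Sphere m) M ∞, ∀ x, Φ x = f x := by
  obtain ⟨C, hC0, hO⟩ := one_all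
  obtain ⟨δ, hδ, m1, K, hK, hA⟩ := abs2 C hC0
  obtain ⟨m2, hO⟩ := hO δ hδ
  refine ⟨max m1 (max ⌈m2⌉₊ 20), fun m hm => ?_⟩
  have a1 : m1 ≤ m := (le_max_left _ _).trans hm
  have a2 : 20 ≤ m := ((le_max_right _ _).trans (le_max_right _ _)).trans hm
  have a3 : m2 ≤ m := (Nat.ceil_le).1 (((le_max_left _ _).trans (le_max_right _ _)).trans hm)
  have a4 : (20 : ℝ) ≤ m := by exact_mod_cast a2
  have a5 : 2 ≤ m := by omega
  have : Nonempty (Fin m) := ⟨⟨0, by omega⟩⟩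
  have hv := volS_pos m
  have hKm := hK m
  obtain ⟨B, Y, od⟩ := hO m a3
  obtain ⟨V0, V1, hB⟩ := hB m (volS m) Y
  have l0 : 0 < log (1 + exp (-2 * m)) := log_pos (by linarith [exp_pos (-2 * (m : ℝ))])
  generalize hl : log (1 + exp (-2 * m)) = L at l0
  obtain ⟨e, e0, e1, e2, e3, e4, e5, e6⟩ : ∃ e > (0 : ℝ), e ≤ 1 ∧ K m ^ 2 * e ≤ 1 ∧
      8 * K m * e ≤ L ∧ 2 * e ≤ L ∧ K m * e ≤ 1 ∧ 4 * volS m * K m * (K m + 2) * e ≤ V0 := by
    have t : ∀ c : ℝ, ∀ d > (0 : ℝ), ∀ᶠ e in 𝓝[>] (0 : ℝ), c * e ≤ d := fun c d hd =>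
      nhdsWithin_le_nhds (((continuous_const_mul c).tendsto' 0 0 (mul_zero c)).eventually
        (ge_mem_nhds hd))
    obtain ⟨e, e0, e1, e2⟩ := ((eventually_mem_nhdsWithin (a := (0 : ℝ))
      (s := Set.Ioi 0)).and ((t 1 1 one_pos).and ((t (K m ^ 2) 1 one_pos).and
        ((t (8 * K m) L l0).and ((t 2 L l0).and ((t (K m) 1 one_pos).and
          (t (4 * volS m * K m * (K m + 2)) V0 V1))))))).exists
    exact ⟨e, e0, by linarith, e2⟩
  refine ⟨e, e0, fun M _ _ _ _ _ _ _ g w f hk su dk ha => ?_⟩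
  obtain ⟨g0, h0⟩ := conf m (fun _ => 0) contMDiff_const
  refine hD m M g w f g0 a5 hk h0 su fun x x' w1 w2 fx => by_contra fun ne => ?_
  obtain ⟨γ, ⟨⟨A, A1, A2⟩, de⟩, -⟩ := dk x x' w1 w2 ne fx
  have := finite_vol g0
  have mass := (geo_all m g0 _ a5 h0).1
  simp only [zero_add] at mass
  have cw : Continuous w := by
    obtain ⟨L, hL⟩ := hk.lipschitz
    refine (LipschitzWith.of_dist_le_mul (K := ⟨max L 0, le_max_right _ _⟩) fun x y => ?_).continuous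
    rw [Real.dist_eq, Subtype.dist_eq, dist_eq_norm]
    exact (hL x y).trans (mul_le_mul_of_nonneg_right (le_max_left _ _) (norm_nonneg _))
  obtain ⟨c0, hc, R, tw⟩ := hW m M g w f g0 a5 hk h0 _ ha.le
  have hT := tail gb poi
  have gau : Gau (vol g0) w (fun p : Sph m => (p : Euc (Fin (m + 1)))) m (volS m) Y := by
    obtain ⟨μ, _, -, b2, b3, b4, -⟩ := tw (1, 0) one_pos (by simp [lor])
    exact ⟨cw, continuous_subtype_val, fun p => norm_eq_of_mem_sphere p, by linarith, hv,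
      od.smY.continuous, od.mono, od.zero, od.bdd, b2 (hT _ μ m _ _ _ _ _ _ a2 b4 hc b3).1, mass⟩
  have iv := hI m _ w m _ Y γ A gau A1 A2
  obtain ⟨v, v1, v2, k, c1, c2, c3⟩ := hB _ _ _ _ _ gau (fun θ hθ => by
    refine ⟨log (volS m * (4 * m ^ 2) / (c0 * θ)) / 2, fun v v1 v2 => ?_⟩
    obtain ⟨μ, _, b1, -, b3, b4, -⟩ := tw v v1 v2
    have b5 := (hT _ μ m _ _ _ _ _ _ a2 b4 hc b3).2 (log (volS m * (4 * m ^ 2) / (c0 * θ)) / 2)
    have ms := measurableSet_le (measurable_const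
      (a := log (volS m * (4 * m ^ 2) / (c0 * θ)) / 2)) b4.mS
    have b6 : ∀ A : Set (Sph m), MeasurableSet A →
        ∫ p in A, exp (-m * log (aff v p)) ∂vol g0 = volS m * μ.real A := fun A hA => by
      rw [← integral_indicator_one hA, b1, ← integral_indicator hA]
      exact integral_congr_ae (.of_forall fun p => by by_cases h : p ∈ A <;> simp [h])
    rw [mul_div_cancel₀ _ two_ne_zero, exp_log (by positivity)] at b5
    rw [b6 _ ms]
    have : (0 : ℝ) < m := by linarith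
    generalize μ.real _ = r at b5 ⊢
    field_simp at b5
    exact b5) A A1 (fun v hv => (iv v hv).1) (volS m * (e / 2)) (by positivity)
  obtain ⟨μ, _, b1, -, b3, b4, b5⟩ := tw v v1 v2
  simp only [II, BAL2.J, ← b1, abs_mul, abs_of_pos hv, mul_le_mul_iff_right₀ hv] at c1 c2 c3
  have nl := (hT _ μ m _ _ _ _ _ _ a2 b4 hc b3).1
  have ab := fun c => hA m _ μ c a1 B Y od
  obtain ⟨d1, d2⟩ := cmp gb _ μ m _ _ _ _ _ _ C δ B Y (K m) k e a5 b4 nl od hKm ab e1 (by linarith)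
    fun i => by linarith [c2 i]
  obtain ⟨d3, d4⟩ := hC _ μ m _ _ _ _ _ _ C δ B Y (K m) k e a5 b4 nl od hKm ab e1 (by linarith)
    fun i => by linarith [c2 i]
  have z0 : 0 ≤ ∫ p : Sph m, exp (B (m * (log (aff v p) - log (w p) + k)) / m) ∂μ :=
    integral_nonneg fun p => (exp_pos _).le
  have y0 : 0 ≤ ∫ p : Sph m, Y (m * (log (aff v p) - log (w p) + k)) ^ 2 ∂μ :=
    integral_nonneg fun p => sq_nonneg _
  have d5 := c3.imp_right fun c => d4 (b5 γ fun p hp => by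
    obtain ⟨u1, u2⟩ := (iv v (frame _ v v1 v2).1).2 p hp
    refine ⟨u1, (de p hp).1, (de p hp).2, ?_⟩
    rw [← u2, sub_sub_sub_cancel_right, abs_sub_comm]
    exact c _)
  rw [hl] at d5
  generalize ∫ p : Sph m, exp (B (m * (log (aff v p) - log (w p) + k)) / m) ∂μ = Z at *
  generalize ∫ p : Sph m, Y (m * (log (aff v p) - log (w p) + k)) ^ 2 ∂μ = V at *
  obtain ⟨U, rfl⟩ : ∃ U, V = U * K m := ⟨V / K m, (div_mul_cancel₀ _ hKm.ne').symm⟩
  rw [mul_div_cancel_right₀ _ hKm.ne'] at d1 d5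
  have u0 : 0 ≤ U := nonneg_of_mul_nonneg_left y0 hKm
  rcases d5 with d5 | d5
  · have z1 : Z ≤ 2 + U * K m / 2 := le_of_mul_le_mul_left (a := (m : ℝ)) (by nlinarith) (by linarith)
    have z2 := mul_le_mul_of_nonneg_left z1 e0.le
    have z3 := mul_le_mul_of_nonneg_left e5 u0
    have z4 : U ≤ 2 * (K m + 2) * e := by nlinarith
    have z5 := mul_le_mul_of_nonneg_left z4 (mul_pos hv hKm).le
    nlinarith
  · have z1 := mul_le_mul_of_nonneg_right
      (show L / 2 ≤ log (theta m) - e - log (theta m) + L by linarith) z0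
    have z2 : U ≤ K m * e := by nlinarith [mul_nonneg l0.le z0]
    have z3 := mul_le_mul_of_nonneg_right z2 hKm.le
    have z4 : 1 / 2 ≤ Z := le_of_mul_le_mul_left (a := (m : ℝ)) (by nlinarith) (by linarith)
    nlinarith [mul_le_mul_of_nonneg_left z4 l0.le]

end Pool.Agent.MP_c98b3a_gt.KL

end
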