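import Mathlib.LinearAlgebra.FreeModule.PID
import Mathlib.RingTheory.Flat.TorsionFree
import Mathlib.RingTheory.SimpleRing.Principal
import Pool.Agent.MP_c98b3a_gt.kl.DIF
import Pool.Agent.MP_c98b3a_gt.kl.RB
import Pool.Agent.MP_c98b3a_gt.kl.SH

-- ======== part 0: formerly Pool.Agent.MP_c98b3a_gt.kl.CMP2
section MrgPart0

/-! Passing to the limit in the truncation, with multiplicity two. -/

open scoped Manifold ContDiff Matrix Topology
open MeasureTheory Real Filter

noncomputable section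

namespace Pool.Agent.MP_c98b3a_gt.KL

open CF CMP

namespace CMP2

variable {m k C δ : ℝ} {B Y : ℝ → ℝ}

/-- the multiplicity weight -/
def ze (m T t : ℝ) : ℝ := exp (-2 * m) * smoothTransition (T - t)

theorem ze_nonneg (m T t : ℝ) : 0 ≤ ze m T t := mul_nonneg (exp_pos _).le (smoothTransition.nonneg _)

theorem ze_le (m T t : ℝ) : ze m T t ≤ exp (-2 * m) :=
  mul_le_of_le_one_right (exp_pos _).le (smoothTransition.le_one _)

theorem c_ze (m T : ℝ) : Continuous (ze m T) :=
  continuous_const.mul (smoothTransition.continuous.comp (by fun_prop))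

theorem ze_qq (h : OD m C δ B Y) (hm : 2 ≤ m) (T t t' : ℝ) (ht : |t' - t| ≤ 1) :
    ze m T t * (exp (-m * t) * qq m k B T t ^ 2) ≤ exp (-m * t') * qq m k B T t' ^ 2 := by
  have h1 := abs_le.1 ht
  rcases le_total T t with hT | hT
  · rw [ze, smoothTransition.zero_of_nonpos (by linarith), mul_zero, zero_mul]
    positivity
  refine (mul_le_mul_of_nonneg_right (ze_le m T t) (by positivity)).trans ?_
  rw [qq_sq, qq_sq, chi_one (by linarith), chi_one (by linarith), one_pow, mul_one, mul_one, PP, PP,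
    ← exp_add, ← exp_add, ← exp_add]
  have a := convex_univ.norm_image_sub_le_of_norm_deriv_le (f := B) (C := m)
    (fun x _ => h.smB.differentiable (by simp) x) (fun x _ => by
      have b := abs_le_of_sq_le_sq' ((win' h (by linarith) x).trans
        (show m - 1 ≤ (m - 1) ^ 2 by nlinarith)) (by linarith)
      exact abs_le.2 ⟨by linarith, by linarith⟩)
    (Set.mem_univ (m * (t' + k))) (Set.mem_univ (m * (t + k)))
  rw [norm_eq_abs, norm_eq_abs, ← mul_sub, abs_mul, abs_of_nonneg (a := m) (by linarith),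
    add_sub_add_right_eq_sub, abs_sub_comm t] at a
  have b : (B (m * (t + k)) - B (m * (t' + k))) / m ≤ m := by
    rw [div_le_iff₀ (by linarith)]
    exact (le_abs_self _).trans (a.trans (mul_le_mul_of_nonneg_left
      (mul_le_of_le_one_right (by linarith) ht) (by linarith)))
  rw [sub_div] at b
  exact exp_le_exp.2 (by nlinarith)

variable {n : ℕ} {N : Type} [TopologicalSpace N] [CompactSpace N] [T2Space N] [MeasurableSpace N]
  [BorelSpace N] {μ : Measure N} [IsProbabilityMeasure μ]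

/-- the comparison at one level -/
theorem level (c : SC n N μ) {S' : N → ℝ} {X D : ℝ} (hS : c.Sm S') (hB : ContDiff ℝ ∞ B)
    (hm : (1 : ℝ) < n) {q ψ η : ℝ → ℝ} (hq : ContDiff ℝ ∞ q) (hψ : ContDiff ℝ ∞ ψ)
    (hη : Continuous η)
    (e : X ≤ exp (-2 * k) / (2 * (n - 1)) * En c q S' +
      ∫ p, q (S' p) ^ 2 * (n * (S' p + k) - log (q (S' p) ^ 2)) ∂μ +
      (∫ p, q (S' p) ^ 2 ∂μ) * log (∫ p, q (S' p) ^ 2 ∂μ) - n / 2 * ∫ p, q (S' p) ^ 2 ∂μ)
    (hg : ∀ t, ((q t - 2 * deriv q t) ^ 2 - (n - 1) * q t ^ 2) * exp (-2 * (t + k)) ≤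
      -(PP n k B (ψ t) * ((n - 1 - (1 - deriv B (n * (ψ t + k))) ^ 2) *
        exp (-2 * (ψ t + k)) * deriv ψ t ^ 2)) + D * (η t * exp (-2 * t))) :
    X ≤ Psi c B (fun p => ψ (S' p) + k) +
      (∫ p, (q (S' p) ^ 2 * HH n (S' p + k) - nl (q (S' p) ^ 2)) ∂μ -
        ∫ p, (PP n k B (ψ (S' p)) * HH n (ψ (S' p) + k) - nl (PP n k B (ψ (S' p)))) ∂μ) +
      (nl (∫ p, q (S' p) ^ 2 ∂μ) - nl (∫ p, PP n k B (ψ (S' p)) ∂μ)) +
      D / (2 * (n - 1)) * ∫ p, η (S' p) * (c.Γ S' S' p * exp (-2 * S' p)) ∂μ := by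
  have hs : ContDiff ℝ ∞ fun t => ψ t + k := hψ.add contDiff_const
  have hΓ : ∀ p, c.Γ (fun p => ψ (S' p) + k) (fun p => ψ (S' p) + k) p =
      deriv ψ (S' p) ^ 2 * c.Γ S' S' p := fun p => by
    rw [c.Γcomp hs hS (c.comp hs hS), c.Γsymm hS (c.comp hs hS), c.Γcomp hs hS hS,
      deriv_add_const]
    ring
  have k1 := c.cont hS
  have k2 := c.Γcont hS hS
  have k3 := hq.continuous
  have k4 := hq.continuous_deriv (by simp)
  have k5 := hψ.continuous
  have k6 := hψ.continuous_deriv (by simp)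
  have k7 := hB.continuous
  have k8 := hB.continuous_deriv (by simp)
  have k9 := c_nl
  have m1 : (0 : ℝ) < n - 1 := by linarith
  simp only [En, mul_sub (q _ ^ 2), ← nl.eq_1] at e
  simp only [Psi, hΓ, ← nl.eq_1, HH, PP] at hg ⊢
  have t1 : ∀ a b c d : ℝ, a + b - d + c = a + b + c - d := fun _ _ _ _ => by ring
  have t2 : ∀ a b c d e f : ℝ, a + c - d + f + e = a + b + (c - d) + (e - b) + f :=
    fun _ _ _ _ _ _ => by ring
  refine e.trans ?_
  rw [← t1, ← t2]
  refine add_le_add_left (seven (by fun_prop) (by fun_prop) (by fun_prop) (by fun_prop)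
    (by fun_prop) (by fun_prop) (by fun_prop) fun p => ?_) _
  have g1 := mul_le_mul_of_nonneg_right (hg (S' p))
    (_root_.div_nonneg (c.Γnonneg hS p) (by linarith : (0 : ℝ) ≤ 2 * (n - 1)))
  have e1 : exp (-2 * (S' p + k)) = exp (-2 * k) * exp (-2 * S' p) := by rw [← exp_add]; ring_nf
  rw [e1] at g1 ⊢
  rw [nl, nl, log_exp]
  have e2 : exp (-2 * k) / (2 * (n - 1)) * (n * (n - 1) * q (S' p) ^ 2 * exp (-2 * S' p)) =
      n / 2 * q (S' p) ^ 2 * (exp (-2 * k) * exp (-2 * S' p)) := by field_simp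
  simp only [div_eq_mul_inv] at g1 e2 ⊢
  linarith

theorem main (h : S_GB) {m : ℕ} {x : Fin (m + 1) → N → ℝ} {Ω : Set N} {S : N → ℝ}
    {a c0 R K ε b : ℝ} (h2 : 2 ≤ m) (hΩ : μ Ωᶜ = 0) (hO : OD m C δ B Y)
    (hA : ∀ c : SC m N μ, Abs2 c B Y K) (e1 : ε ≤ 1) (e2 : |∫ p, Y (m * (S p + k)) ∂μ| < ε)
    (e3 : ∀ i, |∫ p, Y (m * (S p + k)) * x i p ∂μ| < ε) (hb : ∀ p ∈ Ω, b ≤ S p)
    (c : ℕ → SC m N μ) (S' : ℕ → N → ℝ) (hx : ∀ j, (c j).x = x)
    (L : ∀ j : ℕ, Lev (c j) Ω S (S' j) (b + j + 5) a c0 R) :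
    m * ∫ p, exp (B (m * (S p + k)) / m) ∂μ ≤ m + ε + 3 / 10 * ∫ p, Y (m * (S p + k)) ^ 2 ∂μ ∧
      ((∀ j : ℕ, Ent2 (c j) (S' j) (b + j + 5) a) →
        (a + log (1 + exp (-2 * m))) * ∫ p, exp (B (m * (S p + k)) / m) ∂μ ≤
          K * ε - (∫ p, Y (m * (S p + k)) ^ 2 ∂μ) / K) := by
  have hm : (1 : ℝ) < m := by exact_mod_cast h2
  have j0 : ∀ j : ℕ, (0 : ℝ) ≤ j := fun j => j.cast_nonneg
  have G := fun j => h m N μ (c j) h2 Ω S (S' j) _ a c0 R b (L j) hb (by linarith [j0 j])
  obtain ⟨M, hM⟩ := bds hO hm k b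
  have cS := fun j => (c j).cont (L j).sm
  have he : ∀ j : ℕ, ∀ p ∈ Ω, S p ≤ b + j + 1 → S' j p = S p :=
    fun j p hp h1 => (L j).eq p hp (by linarith)
  have l1 : ∀ {F : ℕ → ℝ → ℝ} {G : ℝ → ℝ} {M : ℝ}, (∀ j, Continuous (F j)) →
      (∀ (j : ℕ) t, t ≤ b + j + 1 → F j t = G t) → (∀ j t, b ≤ t → |F j t| ≤ M) →
      Tendsto (fun j => ∫ p, F j (S' j p) ∂μ) atTop (𝓝 (∫ p, G (S p) ∂μ)) := fun cF hF hM => by
    simpa using lim hΩ cS (fun j => (G j).1) he cF hF hM (w := fun _ => 1) continuous_const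
      (by simp)
  have hψ : ∀ (j : ℕ) t, b ≤ t → b ≤ psi (b + j) t := fun j t ht => le_psi ht (by linarith [j0 j])
  have k1 := fun T => (cd_psi T).continuous
  have k2 := hO.smY.continuous
  have k3 : Continuous (PP m k B) := by have := hO.smB.continuous; unfold PP; fun_prop
  have k4 := fun T => (cd_qq (m := m) (k := k) hO.smB T).continuous
  have k5 : Continuous (HH m) := by unfold HH; fun_prop
  have p0 : ∀ t, 0 ≤ PP m k B t := fun t => (exp_pos _).le
  have q1 : ∀ T t, qq m k B T t ^ 2 ≤ PP m k B t := fun T t => by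
    rw [qq_sq]
    exact mul_le_of_le_one_right (p0 t) ((sq_le_one_iff_abs_le_one _).2 (chi_abs T t))
  have cY : ∀ j : ℕ, Continuous fun t => Y (m * (psi (b + j) t + k)) := fun j =>
    k2.comp (continuous_const.mul ((k1 _).add continuous_const))
  have y0 := l1 (G := fun t => Y (m * (t + k))) cY (fun j t ht => by simp only [psi_eq ht])
    fun j t ht => (hM _ (hψ j t ht)).1
  have y1 := fun i => lim hΩ cS (fun j => (G j).1) he (G := fun t => Y (m * (t + k))) cY
    (fun j t ht => by simp only [psi_eq ht]) (fun j t ht => (hM _ (hψ j t ht)).1) (w := x i)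
    (hx 0 ▸ (c 0).cont ((c 0).xsm i)) fun p => (sq_le_one_iff_abs_le_one _).1 <| by
      rw [← (c 0).xsq p, hx 0]
      exact Finset.single_le_sum (f := fun i => x i p ^ 2) (fun _ _ => sq_nonneg _)
        (Finset.mem_univ i)
  have y2 := l1 (G := fun t => Y (m * (t + k)) ^ 2)
    (F := fun j t => Y (m * (psi (b + j) t + k)) ^ 2) (fun j => (cY j).pow 2)
    (fun j t ht => by simp only [psi_eq ht])
    fun j t ht => (abs_of_nonneg (sq_nonneg _)).trans_le (hM _ (hψ j t ht)).2.1
  have z1 := l1 (G := PP m k B) (F := fun j t => PP m k B (psi (b + j) t))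
    (fun j => k3.comp (k1 _)) (fun j t ht => by simp only [psi_eq ht])
    fun j t ht => (abs_of_nonneg (p0 _)).trans_le (hM _ (hψ j t ht)).2.2.1
  have z2 := l1 (G := PP m k B) (F := fun j t => qq m k B (b + j) t ^ 2)
    (fun j => (k4 _).pow 2) (fun j t ht => by simp only [qq_sq, chi_one ht, one_pow, mul_one])
    fun j t ht => (abs_of_nonneg (sq_nonneg _)).trans_le ((q1 _ _).trans (hM _ ht).2.2.1)
  have a1 := l1 (G := fun t => PP m k B t * HH m (t + k) - nl (PP m k B t)) (M := M + M)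
    (F := fun j t => qq m k B (b + j) t ^ 2 * HH m (t + k) - nl (qq m k B (b + j) t ^ 2))
    (fun j => (((k4 _).pow 2).mul (k5.comp (continuous_add_const k))).sub
      (c_nl.comp ((k4 _).pow 2)))
    (fun j t ht => by simp only [qq_sq, chi_one ht, one_pow, mul_one])
    fun j t ht => (abs_sub _ _).trans (add_le_add (by
      rw [qq_sq, mul_right_comm, abs_mul, abs_pow]
      exact (mul_le_of_le_one_right (abs_nonneg _)
        (pow_le_one₀ (abs_nonneg _) (chi_abs _ _))).trans (hM _ ht).2.2.2.1)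
      ((hM _ ht).2.2.2.2 _ (sq_nonneg _) (q1 _ _)))
  have a2 := l1 (G := fun t => PP m k B t * HH m (t + k) - nl (PP m k B t)) (M := M + M)
    (F := fun j t => PP m k B (psi (b + j) t) * HH m (psi (b + j) t + k) -
      nl (PP m k B (psi (b + j) t)))
    (fun j => ((k3.mul (k5.comp (continuous_add_const k))).sub (c_nl.comp k3)).comp (k1 _))
    (fun j t ht => by simp only [psi_eq ht])
    fun j t ht => (abs_sub _ _).trans (add_le_add (hM _ (hψ j t ht)).2.2.2.1
      ((hM _ (hψ j t ht)).2.2.2.2 _ (p0 _) le_rfl))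
  constructor
  · have u := le_of_tendsto_of_tendsto' (z1.const_mul (m : ℝ))
      ((y0.const_add (m : ℝ)).add (y2.const_mul (3 / 10))) fun j => by
        have c1 : Continuous fun p => Y (m * (psi (b + j) (S' j p) + k)) := (cY j).comp (cS j)
        have c2 : Continuous fun p => PP m k B (psi (b + j) (S' j p)) :=
          (k3.comp (k1 _)).comp (cS j)
        have := seven (μ := μ) (f2 := fun _ => 0) (f3 := fun _ => 0) (f4 := fun _ => m)
          (f6 := fun _ => 0) c2 continuous_const continuous_const continuous_const c1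
          continuous_const (c1.pow 2) (α := m) (β := 0) (γ := 3 / 10) fun p => by
            have := (abs_le.1 (hO.lin (m * (psi (b + j) (S' j p) + k)))).2
            simp only [PP, Pi.pow_apply]
            linarith
        simpa using this
    have := (abs_lt.1 e2).2
    simp only [PP] at u
    linarith
  · intro E
    obtain ⟨M', hM'⟩ := bds hO hm k (b - 2)
    have z3 := lim (b := b - 2) (M := M') hΩ cS (fun j p => by linarith [(G j).1 p])
      (fun j p hp h1 => he j p hp (by linarith))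
      (G := fun t => log (1 + exp (-2 * m)) * PP m k B t)
      (F := fun j t => qq m k B (b + j) t ^ 2 * log (1 + ze m (b + j) t))
      (fun j => ((k4 _).pow 2).mul ((continuous_const.add (c_ze _ _)).log fun t =>
        (add_pos_of_pos_of_nonneg one_pos (ze_nonneg _ _ t)).ne'))
      (fun j t ht => by
        rw [qq_sq, chi_one (by linarith), ze, smoothTransition.one_of_one_le (by linarith),
          one_pow, mul_one, mul_one, mul_comm])
      (fun j t ht => by
        have u0 := ze_nonneg m (b + j) t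
        have u1 := log_le_sub_one_of_pos (add_pos_of_pos_of_nonneg one_pos u0)
        have u2 := (ze_le m (b + j) t).trans (exp_le_one_iff.2 (by linarith))
        rw [abs_of_nonneg (mul_nonneg (sq_nonneg _) (log_nonneg (by linarith)))]
        exact (mul_le_of_le_one_right (sq_nonneg _) (by linarith)).trans
          ((q1 _ _).trans (hM' t ht).2.2.1))
      (w := fun _ => 1) continuous_const (by simp)
    simp only [mul_one, integral_const_mul] at z3
    obtain ⟨K1, K0, hg⟩ := grad hO hm k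
    have m1 : (0 : ℝ) < m - 1 := by linarith
    have W0 : 0 < K1 / (2 * (m - 1)) * (exp (-2 * b) + |R|) + 1 := by positivity
    refine le_of_forall_pos_le_add fun η η0 => ?_
    have θ0 := div_pos η0 W0
    generalize hθ : η / (K1 / (2 * (m - 1)) * (exp (-2 * b) + |R|) + 1) = θ at θ0
    obtain ⟨T0, hT0⟩ := small hO hm k θ0
    have u := ((((y2.div_const K).const_sub (K * ε)).add (a1.sub a2)).add
      (((c_nl.tendsto _).comp z2).sub ((c_nl.tendsto _).comp z1))).add_const η
    simp only [sub_self, add_zero] at u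
    rw [add_mul]
    refine le_of_tendsto_of_tendsto ((z2.const_mul a).add z3) u ?_
    filter_upwards [tendsto_natCast_atTop_atTop.eventually_ge_atTop (T0 - b),
      y0.abs.eventually (gt_mem_nhds e2),
      eventually_all.2 fun i => (y1 i).abs.eventually (gt_mem_nhds (e3 i))] with j j1 j2 j3
    have cη : Continuous fun t => smoothTransition (b + j + 3 - t) :=
      smoothTransition.continuous.comp (by fun_prop)
    have v1 := level (c j) (L j).sm hO.smB hm (cd_qq hO.smB (b + j)) (cd_psi (b + j)) cη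
      (E j _ _ (cd_qq hO.smB (b + j)) (c_ze m (b + j)) (ze_nonneg _ _)
        (fun t ht => by rw [qq, chi, smoothTransition.zero_of_nonpos (by linarith), mul_zero])
        (ze_qq hO (by exact_mod_cast h2) _) k _ rfl)
      (hg θ (b + j) θ0.le fun t ht => hT0 t (by linarith))
    have v2 := hA (c j) _ ((c j).comp ((cd_psi (b + j)).add (contDiff_const (c := k))) (L j).sm)
      ε e1 j2.le fun i => by rw [hx j]; exact (j3 i).le
    have v3 := mul_le_mul_of_nonneg_left ((G j).2 _ cη (fun _ => smoothTransition.le_one _)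
      fun t ht => smoothTransition.zero_of_nonpos (by linarith))
      (by positivity : 0 ≤ K1 * θ / (2 * (m - 1)))
    have v4 : K1 * θ / (2 * (m - 1)) * (exp (-2 * b) + |R|) + θ = η := by
      rw [(div_eq_iff W0.ne').1 hθ]; ring
    simp only [Function.comp]
    linarith [v1, v2, v3, v4]

end CMP2

theorem cmp2 (h : S_GB) : S_CMP2 := by
  intro N _ _ _ _ _ μ _ m x Ω S a c0 R C δ B Y K k ε h2 hT hΩ hO _ hA e1 e2 e3
  obtain ⟨b, hb⟩ := hT.bd
  refine ⟨?_, fun h3 => ?_⟩
  · choose c S' hx L using fun j : ℕ => hT.lev (b + j + 5)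
    exact (CMP2.main h h2 hΩ hO hA e1 e2 e3 hb c S' hx L).1
  · choose c S' hx L E using fun j : ℕ => h3 (b + j + 5)
    exact (CMP2.main h h2 hΩ hO hA e1 e2 e3 hb c S' hx L).2 E

end Pool.Agent.MP_c98b3a_gt.KL

end

end MrgPart0

-- ======== part 1: formerly Pool.Agent.MP_c98b3a_gt.kl.ENT2
section MrgPart1

/-! The entropy of the target tested on the source, with multiplicity two. -/

open scoped Manifold ContDiff Matrix Topology
open MeasureTheory Real Filter

noncomputable section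

namespace Pool.Agent.MP_c98b3a_gt.KL

open CF

theorem ent2 (h1 : S_SH) (h2 : S_PU) : S_ENT2 := by
  intro ι N M _ _ _ _ _ _ _ _ _ _ _ _ _ _ _ _ _ g' g f U hL a τ φ ζ Z E ha hτ hφ hU cζ ζ0 hζ hZ
    hE Z0
  have sc : ∀ x ∈ U, scalM g' x = scalM g (f x) := fun x hx => by
    obtain ⟨V, -, hV, -, -, -, h, -⟩ := h1 ι N M g' g f U hL x hx
    exact h x hV
  obtain ⟨P, sP, P0, P1, P2, PI, PG⟩ := h2 ι N M g' g f U hL φ hφ hU
  have hN : Nonempty N := by
    by_contra h
    rw [not_nonempty_iff] at h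
    rw [hZ, integral_of_isEmpty] at Z0
    exact lt_irrefl _ Z0
  have hM : Nonempty M := hN.map f
  have := finite_vol g
  have := finite_vol g'
  have cP := sP.continuous
  have cφ := hφ.continuous
  have cR := continuous_scalM g'
  have cg := (gamF g').cont hφ hφ
  have out : ∀ x, x ∉ U → φ x = 0 := fun x hx => image_eq_zero_of_notMem_tsupport fun h => hx (hU h)
  have eZ : ∫ y, P y ∂vol g = Z := by simpa [hZ] using (PI (fun _ => 1) continuous_const).2
  have eE : ∫ y, scalM g y * P y ∂vol g + 4 * ∫ x, gam g' φ φ x ∂vol g' = E := by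
    rw [(PI _ (continuous_scalM g)).2, hE, integral_add (integrable_vol g' (by fun_prop))
      (integrable_vol g' (by fun_prop)), integral_const_mul]
    congr 1
    refine integral_congr_ae (.of_forall fun x => ?_)
    by_cases hx : x ∈ U
    · simp only [sc x hx]
    · simp [out x hx]
  have co := fun l hl hL => ENT.core g sP P0 ha hτ Z0 eZ rfl PG (l := l) hl hL
  rw [eE] at co
  have lo : ∀ l : N → ℝ, Continuous l →
      (∀ d, 0 < d → ∀ x, l x ≤ log (P (f x) + d) * φ x ^ 2) →
      a ≤ (τ * E - ∫ x, l x ∂vol g') / Z + log Z -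
        Fintype.card ι / 2 * log (4 * π * τ) - Fintype.card ι := fun l cl hl => by
    have c0 : Continuous fun d : ℝ => ∫ x, l x ∂vol g' + d * log d * (vol g).real Set.univ :=
      continuous_const.add (continuous_mul_log.mul continuous_const)
    have := co _ c0 fun d hd => ENT.low g cP P0 hd (by
      obtain ⟨q1, q2⟩ := PI (fun y => log (P y + d))
        ((cP.add continuous_const).log fun y => (add_pos_of_nonneg_of_pos (P0 y) hd).ne')
      rw [q2]
      exact integral_mono (integrable_vol g' cl) (integrable_vol g' q1) (hl d hd))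
    simpa using this
  have c1 : Continuous fun x => φ x ^ 2 * log (φ x ^ 2) := continuous_mul_log.comp (cφ.pow 2)
  have c2 : Continuous fun x => φ x ^ 2 * log (1 + ζ x) :=
    (cφ.pow 2).mul ((continuous_const.add cζ).log fun x => by
      have := ζ0 x
      simp only [Pi.add_apply]
      positivity)
  have b := lo (fun x => φ x ^ 2 * log (φ x ^ 2) + φ x ^ 2 * log (1 + ζ x)) (c1.add c2)
    fun d hd x => by
      by_cases h : φ x = 0
      · simp [h]
      · have hx : x ∈ U := by_contra fun hx => h (out x hx)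
        obtain ⟨x', hx', n1, n2, n3⟩ := hζ x hx h
        have z0 := ζ0 x
        have q := P2 x hx x' hx' n1 n2
        rw [← mul_add, ← log_mul (by positivity) (by positivity), mul_comm]
        exact mul_le_mul_of_nonneg_right (log_le_log (by positivity) (by linarith)) (sq_nonneg _)
  rw [integral_add (integrable_vol g' c1) (integrable_vol g' c2), ← sub_sub] at b
  exact b

end Pool.Agent.MP_c98b3a_gt.KL

end

end MrgPart1

-- ======== part 2: formerly Pool.Agent.MP_c98b3a_gt.kl.INV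
section MrgPart2

/-! Invariance of the gauge functionals under Moebius transformations. -/

open MeasureTheory Real

noncomputable section

namespace Pool.Agent.MP_c98b3a_gt.KL

open CF CF.BAL

namespace INV

variable {ι : Type} [Fintype ι]

theorem cone {u : ℝ × Euc ι} {z : Euc ι} (hz : ‖z‖ = 1) (h1 : 0 < lor u u) (h2 : 0 < aff u z) :
    ‖u.2‖ < u.1 := by
  have a := abs_real_inner_le_norm u.2 z
  rw [hz, mul_one] at a
  rw [lor_self] at h1
  rw [aff] at h2
  by_contra hn
  nlinarith [(abs_le.1 a).1, norm_nonneg u.2]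

theorem surj {A : (ℝ × Euc ι) →ₗ[ℝ] (ℝ × Euc ι)} (hA : ∀ u v, lor (A u) (A v) = lor u v) :
    Function.Surjective A := by
  refine LinearMap.injective_iff_surjective.1 ((injective_iff_map_eq_zero A).2 fun d hd => ?_)
  have h := hA (d.1, -d.2) d
  rw [hd] at h
  simp only [lor, Prod.fst_zero, Prod.snd_zero, mul_zero, inner_zero_right, sub_zero,
    inner_neg_left, real_inner_self_eq_norm_sq] at h
  have h1 : d.1 = 0 := by nlinarith [sq_nonneg ‖d.2‖]
  have h2 : ‖d.2‖ = 0 := by nlinarith [norm_nonneg d.2]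
  exact Prod.ext h1 (norm_eq_zero.1 h2)

end INV

open INV in
theorem inv (h : S_UNI) : S_INV := by
  intro n ν _ w m κ Y γ A hG hA hγ
  choose l l0 hl hw using hγ
  have nz : ∀ p : Sph n, ‖(p : Euc (Fin (n + 1)))‖ = 1 := hG.nz
  have x0 : Sph n := ⟨EuclideanSpace.single 0 1, by simp⟩
  have key : ∀ u (x : Sph n), aff u x = l x * aff (A u) (γ x) := fun u x => by
    have := hA u (1, x)
    rw [hl] at this
    simp only [lor, Prod.smul_fst, Prod.smul_snd, smul_eq_mul, mul_one,
      real_inner_smul_right] at this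
    simp only [aff]
    linarith
  have cA : ∀ v : ℝ × Euc (Fin (n + 1)), ‖v.2‖ < v.1 → ‖(A v).2‖ < (A v).1 := fun v hv => by
    refine cone (nz (γ x0)) (by rw [hA]; exact lor_pos hv) ?_
    have := aff_pos hv (nz x0)
    rw [key] at this
    exact (mul_pos_iff_of_pos_left (l0 x0)).1 this
  have lg : ∀ v : ℝ × Euc (Fin (n + 1)), ‖v.2‖ < v.1 → ∀ x : Sph n,
      log (aff v x) = log (l x) + log (aff (A v) (γ x)) := fun v hv x => by
    rw [key, log_mul (l0 x).ne' (aff_pos (cA v hv) (nz _)).ne']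
  have ex : ∀ v : ℝ × Euc (Fin (n + 1)), ‖v.2‖ < v.1 → ∀ x : Sph n,
      exp (-m * log (l x)) * exp (-m * log (aff (A v) (γ x))) = exp (-m * log (aff v x)) :=
    fun v hv x => by rw [← exp_add, lg v hv, mul_add]
  have last : ∀ v : ℝ × Euc (Fin (n + 1)), ‖v.2‖ < v.1 → ∀ x, 0 < w x → 0 < w (γ x) ∧
      log (aff (A v) (γ x)) - log (w (γ x)) = log (aff v x) - log (w x) := fun v hv x hx => by
    have a : 0 < w (γ x) := by
      rw [hw] at hx
      exact (mul_pos_iff_of_pos_left (l0 x)).1 hx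
    refine ⟨a, ?_⟩
    rw [lg v hv, hw x, log_mul (l0 x).ne' a.ne']
    ring
  have c1 : Continuous fun x : Sph n => A (1, x) :=
    A.continuous_of_finiteDimensional.comp (continuous_const.prodMk continuous_subtype_val)
  have cl : Continuous l := c1.fst.congr fun x => by rw [hl]; simp
  have cγ : Continuous γ := continuous_induced_rng.2 <|
    ((cl.inv₀ fun x => (l0 x).ne').smul c1.snd).congr fun x => by
      show (l x)⁻¹ • (A (1, x)).2 = γ x
      rw [hl, Prod.smul_snd, inv_smul_smul₀ (l0 x).ne']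
  have cd : Continuous fun x => exp (-m * log (l x)) :=
    (continuous_const.mul (cl.log fun x => (l0 x).ne')).rexp
  have fin : IsFiniteMeasure (ν.withDensity fun x => ENNReal.ofReal (exp (-m * log (l x)))) :=
    isFiniteMeasure_withDensity_ofReal
      (cd.integrable_of_hasCompactSupport (HasCompactSupport.of_compactSpace _)).2
  have form : ∀ F : Sph n → ℝ, Measurable F →
      ∫ p, F p ∂(ν.withDensity fun x => ENNReal.ofReal (exp (-m * log (l x)))).map γ =
        ∫ x, exp (-m * log (l x)) * F (γ x) ∂ν := fun F hF => by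
    rw [integral_map cγ.aemeasurable hF.aestronglyMeasurable,
      integral_withDensity_eq_integral_toReal_smul cd.measurable.ennreal_ofReal
        (Filter.Eventually.of_forall fun _ => ENNReal.ofReal_lt_top)]
    simp only [ENNReal.toReal_ofReal (exp_pos _).le, smul_eq_mul]
  have mL : ∀ v : ℝ × Euc (Fin (n + 1)), ‖v.2‖ < v.1 →
      Continuous fun p : Sph n => log (aff v p) := fun v hv => BAL2.cL hG.cz nz hv
  have mE : ∀ v : ℝ × Euc (Fin (n + 1)), ‖v.2‖ < v.1 →
      Measurable fun p : Sph n => exp (-m * log (aff v p)) :=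
    fun v hv => (continuous_const.mul (mL v hv)).rexp.measurable
  have eq := h n ν ((ν.withDensity fun x => ENNReal.ofReal (exp (-m * log (l x)))).map γ) m
    (by linarith [hG.hm]) fun u hu => by
      obtain ⟨v, rfl⟩ := surj hA u
      have hv : ‖v.2‖ < v.1 := cone (nz x0) (by rw [← hA]; exact lor_pos hu)
        (by rw [key]; exact mul_pos (l0 x0) (aff_pos hu (nz _)))
      rw [form _ (mE _ hu), hG.mass _ hu, hA, ← hG.mass v hv]
      simp only [ex v hv]
  refine fun v hv => ⟨⟨cA v hv, fun Φ hΦ => ?_⟩, last v hv⟩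
  have := form (fun p => exp (-m * log (aff (A v) p)) * Φ (log (aff (A v) p) - log (w p)))
    ((mE _ (cA v hv)).mul
      (hΦ.measurable.comp ((mL _ (cA v hv)).measurable.sub hG.cw.measurable.log)))
  rw [← eq] at this
  refine this.trans (integral_congr_ae (hG.pos.mono fun x hx => ?_))
  simp only
  rw [← mul_assoc, ex v hv, (last v hv x hx).2]

end Pool.Agent.MP_c98b3a_gt.KL

end

end MrgPart2

-- ======== part 3: formerly Pool.Agent.MP_c98b3a_gt.kl.JC
section MrgPart3

/-! The gauge functional is continuously differentiable on the open light cone. -/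

open MeasureTheory Real Set Filter Topology

noncomputable section

namespace Pool.Agent.MP_c98b3a_gt.KL

open CF CF.BAL BAL2

namespace JC

variable {ι : Type} [Fintype ι]

/-- the product with the null vector over `y`, as a linear map -/
def af (y : Euc ι) : (ℝ × Euc ι) →L[ℝ] ℝ :=
  ContinuousLinearMap.fst ℝ ℝ (Euc ι) - (innerSL ℝ y).comp (ContinuousLinearMap.snd ℝ ℝ (Euc ι))

theorem af_apply (y : Euc ι) (v : ℝ × Euc ι) : af y v = aff v y := by
  simp [af, aff, real_inner_comm]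

theorem af_cont : Continuous (af : Euc ι → (ℝ × Euc ι) →L[ℝ] ℝ) :=
  continuous_const.sub ((innerSL ℝ).continuous.clm_comp continuous_const)

variable {M : Type} [TopologicalSpace M] [CompactSpace M] [MeasurableSpace M] [BorelSpace M]
  {μ : Measure M} [IsFiniteMeasure μ] {l : M → ℝ} {z : M → Euc ι} {m C : ℝ} {X H : ℝ → ℝ}

/-- the derivative of the integrand -/
def F' (l : M → ℝ) (z : M → Euc ι) (m : ℝ) (X : ℝ → ℝ) (v : ℝ × Euc ι) (p : M) :
    (ℝ × Euc ι) →L[ℝ] ℝ :=
  (exp (-m * log (aff v (z p))) / aff v (z p) * X (log (aff v (z p)) - l p)) • af (z p)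

omit [MeasurableSpace M] [BorelSpace M] in
theorem bd' (hz : Continuous z) (h1 : ∀ p, ‖z p‖ = 1) (hl : ∀ p, l p ≤ C) (hX : Hb X)
    {K : Set (ℝ × Euc ι)} (hK : IsCompact K) (hc : ∀ v ∈ K, ‖v.2‖ < v.1) :
    ∃ B, ∀ v ∈ K, ∀ p, ‖F' l z m X v p‖ ≤ B := by
  have ca : Continuous fun x : (ℝ × Euc ι) × M => aff x.1 (z x.2) :=
    cont_aff.comp (continuous_fst.prodMk (hz.comp continuous_snd))
  have pos : ∀ x ∈ K ×ˢ (univ : Set M), aff x.1 (z x.2) ≠ 0 := fun x hx =>
    (aff_pos (hc _ hx.1) (h1 _)).ne'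
  have c := ca.continuousOn.log pos
  obtain ⟨B, hB⟩ := bd hK ((continuousOn_const (c := -m).mul c).rexp.div ca.continuousOn pos) c hl hX
  obtain ⟨D, hD⟩ := isCompact_univ.exists_bound_of_continuousOn (af_cont.comp hz).continuousOn
  refine ⟨B * D, fun v hv p => ?_⟩
  rw [F', norm_smul]
  exact mul_le_mul (hB v hv p) (hD p trivial) (norm_nonneg _) ((norm_nonneg _).trans (hB v hv p))

omit [CompactSpace M] [IsFiniteMeasure μ] in
theorem ms' (hz : Continuous z) (h1 : ∀ p, ‖z p‖ = 1) (ml : Measurable l) (hX : Hb X)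
    {v : ℝ × Euc ι} (hv : ‖v.2‖ < v.1) : AEStronglyMeasurable (F' l z m X v) μ :=
  (ms ((continuous_const.mul (cL hz h1 hv)).rexp.div
    (cont_aff.comp (continuous_const.prodMk hz)) fun p => (aff_pos hv (h1 p)).ne')
    (cL hz h1 hv) ml hX).smul (af_cont.comp hz).aestronglyMeasurable

omit [TopologicalSpace M] [CompactSpace M] [MeasurableSpace M] [BorelSpace M] in
theorem hd' (h1 : ∀ p, ‖z p‖ = 1) (hd : ∀ u, HasDerivAt H (m * H u + X u) u) {v : ℝ × Euc ι}
    (hv : ‖v.2‖ < v.1) (p : M) : HasFDerivAt (fun v : ℝ × Euc ι =>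
      exp (-m * log (aff v (z p))) * H (log (aff v (z p)) - l p)) (F' l z m X v p) v := by
  have a0 := (aff_pos hv (h1 p)).ne'
  have d1 := hasDerivAt_log a0
  have d2 : HasDerivAt (fun t => exp (-m * log t) * H (log t - l p))
      (exp (-m * log (aff v (z p))) / aff v (z p) * X (log (aff v (z p)) - l p)) (aff v (z p)) := by
    refine ((d1.const_mul (-m)).exp.mul
      ((hd (log (aff v (z p)) - l p)).comp (aff v (z p)) (h := fun t => log t - l p)
        (d1.sub_const (l p)))).congr_deriv ?_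
    simp only [Function.comp]
    field_simp
    ring
  have d3 : HasFDerivAt (fun v : ℝ × Euc ι => aff v (z p)) (af (z p)) v := by
    simpa only [← af_apply] using (af (z p)).hasFDerivAt
  exact d2.comp_hasFDerivAt v d3

end JC

open JC

theorem jc : S_JC := by
  intro ι M _ _ _ _ _ _ _ μ _ w z m κ Y ⟨cw, hz, h1, hm, hκ, hY, mo, h0, ⟨A, hA⟩, _, _⟩ H
    ⟨hd, ⟨A', H1⟩, H2⟩
  have m0 : 0 < m := by linarith
  have A0 : 0 ≤ A := h0 ▸ hA 0
  obtain ⟨C, hC⟩ := isCompact_univ.exists_bound_of_continuousOn cw.continuousOn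
  have ml : Measurable fun p => log (w p) := cw.measurable.log
  have hl : ∀ p, log (w p) ≤ C := fun p =>
    (log_abs (w p) ▸ log_le_self (abs_nonneg _)).trans (hC p trivial)
  have mb : ∀ {b u}, b ≤ u → -|Y (m * b)| ≤ Y (m * u) := fun h =>
    (neg_abs_le _).trans (mo.monotone (mul_le_mul_of_nonneg_left h m0.le))
  have hX : Hb fun u => Y (m * u) := ⟨by fun_prop, fun b => ⟨A + |Y (m * b)|, fun u hu =>
    abs_le.2 ⟨by linarith [mb hu], by linarith [hA (m * u), abs_nonneg (Y (m * b))]⟩⟩⟩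
  have hH : Hb H := ⟨continuous_iff_continuousAt.2 fun u => (hd u).continuousAt, fun b =>
    ⟨|A'| + |Y (m * b)|, fun u hu => abs_le.2
      ⟨by linarith [H1 u, abs_nonneg (Y (m * b)), le_abs_self A'], by
        nlinarith [H2 u, mb hu, abs_nonneg (Y (m * b)), abs_nonneg A']⟩⟩⟩
  have o : IsOpen {v : ℝ × Euc ι | ‖v.2‖ < v.1} := isOpen_lt (by fun_prop) (by fun_prop)
  refine ⟨fun v => ∫ p, F' (fun p => log (w p)) z m (fun u => Y (m * u)) v p ∂μ,
    fun v hv => ?_, fun v hv => ?_, fun v y hv => ?_⟩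
  · obtain ⟨K, K0, Ks, Kc⟩ := local_compact_nhds (o.mem_nhds hv)
    obtain ⟨B, hB⟩ := bd' (m := m) hz h1 hl hX Kc Ks
    exact hasFDerivAt_integral_of_dominated_of_fderiv_le K0
      (mem_of_superset K0 fun u hu =>
        ms (continuous_const.mul (cL hz h1 (Ks hu))).rexp (cL hz h1 (Ks hu)) ml hH)
      (ig (continuous_const.mul (cL hz h1 hv)).rexp (cL hz h1 hv) ml hl hH) (ms' hz h1 ml hX hv)
      (Eventually.of_forall fun p u hu => hB u hu p) (integrable_const B)
      (Eventually.of_forall fun p u hu => hd' (l := fun p => log (w p)) h1 hd (Ks hu) p)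
  · obtain ⟨K, K0, Ks, Kc⟩ := local_compact_nhds (o.mem_nhds hv)
    obtain ⟨B, hB⟩ := bd' (m := m) hz h1 hl hX Kc Ks
    refine (continuousAt_of_dominated (μ := μ) (bound := fun _ => B)
      (F := F' (fun p => log (w p)) z m fun u => Y (m * u))
      (mem_of_superset K0 fun u hu => ms' hz h1 ml hX (Ks hu))
      (mem_of_superset K0 fun u hu => ae_of_all μ (hB u hu)) (integrable_const B)
      (Eventually.of_forall fun p => ?_)).continuousWithinAt
    have a0 := (aff_pos hv (h1 p)).ne'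
    have ca : ContinuousAt (fun v : ℝ × Euc ι => aff v (z p)) v :=
      (cont_aff.comp (continuous_id.prodMk continuous_const)).continuousAt
    have c := ca.log a0
    exact (((continuousAt_const.mul c).rexp.div ca a0).mul
      (hX.1.continuousAt.comp (c.sub continuousAt_const))).smul continuousAt_const
  · obtain ⟨B, hB⟩ := bd' (m := m) hz h1 hl hX (isCompact_singleton (x := v))
      fun u hu => mem_singleton_iff.1 hu ▸ hv
    rw [ContinuousLinearMap.integral_apply
      (Integrable.of_bound (ms' hz h1 ml hX hv) B (Eventually.of_forall (hB v rfl)))]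
    refine integral_congr_ae (Eventually.of_forall fun p => ?_)
    simp only [F', smul_apply, af_apply, smul_eq_mul]
    ring

end Pool.Agent.MP_c98b3a_gt.KL

end

end MrgPart3

-- ======== part 4: formerly Pool.Agent.MP_c98b3a_gt.kl.MOM2
section MrgPart4

/-! Second moments from the mass identity. -/

open scoped Topology
open MeasureTheory Real Set Filter

noncomputable section

namespace Pool.Agent.MP_c98b3a_gt.KL

open CF

namespace MOM2

variable {ι : Type} [Fintype ι] {v : ℝ × Euc ι}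

/-- the reversed Cauchy-Schwarz inequality -/
theorem rcs (h0 : 0 < v.1) (h1 : lor v v = 1) (u : ℝ × Euc ι) : lor u u ≤ lor u v ^ 2 := by
  have bb : inner ℝ v.2 v.2 = v.1 ^ 2 - 1 := by rw [lor] at h1; linarith
  have cs := real_inner_mul_inner_self_le v.2 (u.2 - lor u v • v.2)
  have nn := real_inner_self_nonneg (x := u.2 - lor u v • v.2)
  simp only [inner_sub_left, inner_sub_right, real_inner_smul_left, real_inner_smul_right,
    real_inner_comm u.2 v.2, bb, lor] at cs nn ⊢
  refine le_of_mul_le_mul_left ?_ (pow_pos h0 2)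
  linarith

theorem aff_pos' (hv : ‖v.2‖ < v.1) {y : Euc ι} (hy : ‖y‖ ≤ 1) : 0 < aff v y := by
  have := real_inner_le_norm v.2 y
  rw [aff]
  linarith [mul_le_of_le_one_right (norm_nonneg v.2) hy]

theorem one (h0 : 0 < v.1) (h1 : lor v v = 1) (d : ℝ × Euc ι) {y : Euc ι} (hy : ‖y‖ ≤ 1) :
    aff d y ^ 2 ≤ 2 * NN v d * aff v y ^ 2 := by
  have yy : inner ℝ y y ≤ (1 : ℝ) := by
    rw [real_inner_self_eq_norm_sq]
    exact pow_le_one₀ (norm_nonneg _) hy
  have := discrim_le_zero (a := 2 * aff v y ^ 2) (b := -2 * aff d y) (c := NN v d) fun t => by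
    have a := rcs h0 h1 (d.1 + t, d.2 + t • y)
    simp only [lor, inner_add_left, inner_add_right, real_inner_smul_left, real_inner_smul_right,
      real_inner_comm d.2 y, real_inner_comm v.2 y] at a
    simp only [NN, lor, aff]
    linarith [sq_nonneg (d.1 * v.1 - inner ℝ d.2 v.2 - t * (v.1 - inner ℝ v.2 y)),
      mul_le_mul_of_nonneg_left yy (mul_self_nonneg t)]
  rw [discrim] at this
  linarith

theorem two (h0 : 0 < v.1) (h1 : lor v v = 1) (d : ℝ × Euc ι) (h : NN v d ≤ 1 / 64) :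
    ‖(v + d).2‖ < (v + d).1 := by
  have hy : ‖‖(v + d).2‖⁻¹ • (v + d).2‖ ≤ 1 := by
    rw [norm_smul, norm_inv, norm_norm]
    exact inv_mul_le_one
  have a := one h0 h1 d hy
  have b := aff_pos' (RB.lt_of_unit h0 h1) hy
  have c := BAL.aff_add v d 1 (‖(v + d).2‖⁻¹ • (v + d).2)
  rw [one_smul, one_mul, aff, real_inner_smul_right, real_inner_self_eq_norm_sq, sq,
    ← mul_assoc, inv_mul_mul_self] at c
  have e := mul_le_mul_of_nonneg_right h (sq_nonneg (aff v (‖(v + d).2‖⁻¹ • (v + d).2)))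
  have f := abs_lt_of_sq_lt_sq' (show aff d (‖(v + d).2‖⁻¹ • (v + d).2) ^ 2 <
    aff v (‖(v + d).2‖⁻¹ • (v + d).2) ^ 2 by linarith [pow_pos b 2]) b.le
  linarith [f.1]

variable {M : Type} [TopologicalSpace M] [CompactSpace M] [MeasurableSpace M] [BorelSpace M]
  {μ : Measure M} [IsFiniteMeasure μ]

theorem hd {A D W : M → ℝ} (hA : Continuous A) (hD : Continuous D) (hW : Continuous W) (n : ℝ)
    {K : Set ℝ} (Kc : IsCompact K) (pos : ∀ t ∈ K, ∀ p, 0 < A p + t * D p) {t : ℝ} (K0 : K ∈ 𝓝 t) :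
    HasDerivAt (fun t : ℝ => ∫ p, W p * exp (-n * log (A p + t * D p)) ∂μ)
      (∫ p, W p * (-n * D p) * exp (-(n + 1) * log (A p + t * D p)) ∂μ) t := by
  have c : ∀ (n : ℝ) {W : M → ℝ}, Continuous W → ∀ t ∈ K,
      Continuous fun p => W p * exp (-n * log (A p + t * D p)) := fun n W hW t ht =>
    hW.mul (continuous_const.mul ((hA.add (continuous_const.mul hD)).log
      fun p => (pos t ht p).ne')).rexp
  have cW : Continuous fun p => W p * (-n * D p) := by fun_prop
  have cF : ContinuousOn (fun x : ℝ × M => W x.2 * (-n * D x.2) *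
      exp (-(n + 1) * log (A x.2 + x.1 * D x.2))) (K ×ˢ univ) :=
    (cW.comp continuous_snd).continuousOn.mul (continuousOn_const.mul
      (ContinuousOn.log (by fun_prop) fun x hx => (pos _ hx.1 _).ne')).rexp
  obtain ⟨C, hC⟩ := (Kc.prod isCompact_univ).exists_bound_of_continuousOn cF
  have t0 := mem_of_mem_nhds K0
  refine (hasDerivAt_integral_of_dominated_loc_of_deriv_le (μ := μ)
    (F := fun (t : ℝ) p => W p * exp (-n * log (A p + t * D p)))
    (F' := fun (t : ℝ) p => W p * (-n * D p) * exp (-(n + 1) * log (A p + t * D p)))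
    (bound := fun _ => C) K0 (mem_of_superset K0 fun t ht => (c n hW t ht).aestronglyMeasurable)
    (BAL.integ (c n hW t t0)) (c _ cW t t0).aestronglyMeasurable
    (Eventually.of_forall fun p t ht => hC (t, p) ⟨ht, trivial⟩) (integrable_const C)
    (Eventually.of_forall fun p t ht => ?_)).2
  have a : HasDerivAt (fun t : ℝ => A p + t * D p) (D p) t := by
    simpa using ((hasDerivAt_id' t).mul_const (D p)).const_add (A p)
  refine (((a.log (pos t ht p).ne').const_mul (-n)).exp.const_mul (W p)).congr_deriv ?_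
  rw [neg_add, add_mul, exp_add, neg_one_mul, exp_neg (log _), exp_log (pos t ht p)]
  ring

end MOM2

open MOM2 in
theorem mom2 : S_MOM2 := by
  intro ι M _ _ _ _ _ _ _ μ _ w z m κ Y g v d h0 h1
  refine ⟨fun y hy => one h0 h1 d hy, two h0 h1 d, ?_⟩
  have hv := RB.lt_of_unit h0 h1
  have hm := g.hm
  have o : IsOpen {t : ℝ | ‖(v + t • d).2‖ < (v + t • d).1} := isOpen_lt (by fun_prop) (by fun_prop)
  obtain ⟨K, K0, Ks, Kc⟩ := local_compact_nhds (o.mem_nhds (x := 0) (by simpa using hv))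
  have pos : ∀ t ∈ K, ∀ p, 0 < aff v (z p) + t * aff d (z p) := fun t ht p =>
    BAL.aff_add v d t (z p) ▸ BAL.aff_pos (Ks ht) (g.nz p)
  have ca : ∀ v : ℝ × Euc ι, Continuous fun p => aff v (z p) := fun v =>
    BAL.cont_aff.comp (continuous_const.prodMk g.cz)
  have eQ : ∀ t : ℝ, lor (v + t • d) (v + t • d) = 1 + 2 * lor d v * t + lor d d * t ^ 2 :=
    fun t => by
      rw [← h1]
      simp only [lor, Prod.fst_add, Prod.snd_add, Prod.smul_fst, Prod.smul_snd, inner_add_left,
        inner_add_right, real_inner_smul_left, real_inner_smul_right, smul_eq_mul,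
        real_inner_comm d.2 v.2]
      ring
  have hQ : ∀ t : ℝ, HasDerivAt (fun t : ℝ => 1 + 2 * lor d v * t + lor d d * t ^ 2)
      (2 * lor d v + 2 * lor d d * t) t := fun t =>
    ((((hasDerivAt_id' t).const_mul (2 * lor d v)).const_add 1).fun_add
      ((hasDerivAt_pow 2 t).const_mul (lor d d))).congr_deriv (by simp; ring)
  have e1 : (fun t : ℝ => ∫ p, 1 * (-m * aff d (z p)) *
      exp (-(m + 1) * log (aff v (z p) + t * aff d (z p))) ∂μ) =ᶠ[𝓝 0] fun t =>
      κ * (exp (-(m / 2) * log (1 + 2 * lor d v * t + lor d d * t ^ 2)) * (-(m / 2) *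
        ((2 * lor d v + 2 * lor d d * t) / (1 + 2 * lor d v * t + lor d d * t ^ 2)))) := by
    filter_upwards [eventually_mem_nhds_iff.2 K0] with t ht
    have a := hd (μ := μ) (ca v) (ca d) (continuous_const (y := (1 : ℝ))) m Kc pos ht
    have b := (((hQ t).log (eQ t ▸ BAL.lor_pos (Ks (mem_of_mem_nhds ht))).ne').const_mul
      (-(m / 2))).exp.const_mul κ
    refine a.unique (b.congr_of_eventuallyEq ?_)
    filter_upwards [ht] with s hs
    simp only [one_mul, ← BAL.aff_add, ← eQ]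
    exact g.mass _ (Ks hs)
  have q0 : 1 + 2 * lor d v * 0 + lor d d * 0 ^ 2 ≠ 0 := by simp
  have a := hd (μ := μ) (ca v) (ca d) (W := fun p => 1 * (-m * aff d (z p)))
    (continuous_const.mul (continuous_const.mul (ca d))) (m + 1) Kc pos K0
  have b := (((((hQ 0).log q0).const_mul (-(m / 2))).exp).fun_mul
    ((((((hasDerivAt_id' (0 : ℝ)).const_mul (2 * lor d d)).const_add (2 * lor d v)).fun_div
      (hQ 0) q0)).const_mul (-(m / 2)))).const_mul κ
  have c := a.unique (b.congr_of_eventuallyEq e1)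
  have e2 : ∫ p, 1 * (-m * aff d (z p)) * (-(m + 1) * aff d (z p)) *
      exp (-(m + 1 + 1) * log (aff v (z p) + 0 * aff d (z p))) ∂μ = m * ((m + 1) *
      ∫ p, exp (-m * log (aff v (z p))) * (aff d (z p) / aff v (z p)) ^ 2 ∂μ) := by
    rw [← integral_const_mul, ← integral_const_mul]
    refine integral_congr_ae (ae_of_all _ fun p => ?_)
    have pa := BAL.aff_pos hv (g.nz p)
    simp only [zero_mul, add_zero, neg_add, add_mul, exp_add, neg_one_mul, exp_neg (log _),
      exp_log pa]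
    ring
  have m0 := g.mass v hv
  rw [h1, log_one, mul_zero, exp_zero, mul_one] at m0
  rw [e2] at c
  rw [m0, NN]
  refine le_of_mul_le_mul_left ?_ (show 0 < m by linarith)
  rw [c]
  simp only [mul_zero, add_zero, ne_eq, OfNat.ofNat_ne_zero, not_false_eq_true, zero_pow, log_one,
    exp_zero, div_one, one_mul, mul_one, one_pow]
  nlinarith [mul_nonneg g.hκ.le (sq_nonneg (m * lor d v))]

end Pool.Agent.MP_c98b3a_gt.KL

end

end MrgPart4

-- ======== part 5: formerly Pool.Agent.MP_c98b3a_gt.kl.MP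
section MrgPart5

/-! A mountain pass in finite dimension. -/

open scoped Topology
open Set Filter

noncomputable section

namespace Pool.Agent.MP_c98b3a_gt.KL

namespace MP

variable {E : Type} [NormedAddCommGroup E] [NormedSpace ℝ E]

omit [NormedSpace ℝ E] in
theorem cpt {U : Set E} {Φ : E → ℝ} {c0 c : ℝ} (hΦ : ContinuousOn Φ U)
    (hc : IsCompact {x ∈ U | Φ x ≤ c0}) (h : c ≤ c0) : IsCompact {x ∈ U | Φ x ≤ c} := by
  have h1 : IsClosed ({x ∈ U | Φ x ≤ c0} ∩ Φ ⁻¹' Iic c) :=
    (hΦ.mono fun x hx => hx.1).preimage_isClosed_of_isClosed hc.isClosed isClosed_Iic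
  have h2 : {x ∈ U | Φ x ≤ c} = {x ∈ U | Φ x ≤ c0} ∩ Φ ⁻¹' Iic c := by
    ext x
    exact ⟨fun hx => ⟨⟨hx.1, hx.2.trans h⟩, hx.2⟩, fun hx => ⟨hx.1.1, hx.2⟩⟩
  rw [h2]
  exact hc.of_isClosed_subset h1 inter_subset_left

omit [NormedSpace ℝ E] in
/-- two points of a compact set lie in a compact preconnected subset or are separated -/
theorem split {L : Set E} (hL : IsCompact L) {v1 v2 : E} (h1 : v1 ∈ L) (h2 : v2 ∈ L) :
    (∃ K ⊆ L, IsCompact K ∧ IsPreconnected K ∧ v1 ∈ K ∧ v2 ∈ K) ∨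
      ∃ O1 O2 : Set E, IsOpen O1 ∧ IsOpen O2 ∧ Disjoint O1 O2 ∧ L ⊆ O1 ∪ O2 ∧ v1 ∈ O1 ∧
        v2 ∈ O2 := by
  have : CompactSpace L := isCompact_iff_compactSpace.1 hL
  by_cases h : (⟨v2, h2⟩ : L) ∈ connectedComponent (⟨v1, h1⟩ : L)
  · left
    refine ⟨Subtype.val '' connectedComponent (⟨v1, h1⟩ : L), ?_, ?_, ?_, ?_, ?_⟩
    · rintro _ ⟨y, -, rfl⟩
      exact y.2
    · exact isClosed_connectedComponent.isCompact.image continuous_subtype_val
    · exact isPreconnected_connectedComponent.image _ continuous_subtype_val.continuousOn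
    · exact ⟨_, mem_connectedComponent, rfl⟩
    · exact ⟨_, h, rfl⟩
  · right
    rw [connectedComponent_eq_iInter_isClopen, mem_iInter] at h
    push Not at h
    obtain ⟨⟨Z, hZ, hv1⟩, hv2⟩ := h
    have hA : IsCompact (Subtype.val '' Z) := hZ.1.isCompact.image continuous_subtype_val
    have hB : IsCompact (Subtype.val '' Zᶜ) := hZ.compl.1.isCompact.image continuous_subtype_val
    have hd : Disjoint (Subtype.val '' Z) (Subtype.val '' Zᶜ) :=
      disjoint_image_of_injective Subtype.val_injective disjoint_compl_right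
    obtain ⟨O1, O2, o1, o2, s1, s2, hO⟩ := SeparatedNhds.of_isCompact_isCompact hA hB hd
    refine ⟨O1, O2, o1, o2, hO, fun x hx => ?_, s1 ⟨_, hv1, rfl⟩, s2 ⟨_, hv2, rfl⟩⟩
    by_cases hx' : (⟨x, hx⟩ : L) ∈ Z
    · exact Or.inl (s1 ⟨_, hx', rfl⟩)
    · exact Or.inr (s2 ⟨_, hx', rfl⟩)

/-- a small step against a field of ascent lowers the maximum -/
theorem step {U K : Set E} {Φ : E → ℝ} {Φ' : E → E →L[ℝ] ℝ} {W : E → E} {c : ℝ} (hU : IsOpen U)
    (hd : ∀ x ∈ U, HasFDerivAt Φ (Φ' x) x) (hc : ContinuousOn Φ' U) (hW : ContinuousOn W U)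
    (hK : IsCompact K) (hKU : K ⊆ U) (hle : ∀ x ∈ K, Φ x ≤ c)
    (hpos : ∀ x ∈ K, Φ x = c → 0 < Φ' x (W x)) :
    ∃ t : ℝ, ∀ x ∈ K, x - t • W x ∈ U ∧ Φ (x - t • W x) < c := by
  have key : ∀ᶠ t in 𝓝 (0 : ℝ), ∀ x ∈ K,
      0 < t → Φ x ≤ c → x - t • W x ∈ U ∧ Φ (x - t • W x) < c := by
    refine hK.eventually_forall_of_forall_eventually fun y hy => ?_
    have hyU : U ∈ 𝓝 y := hU.mem_nhds (hKU hy)
    have hWy : ContinuousAt W y := hW.continuousAt hyU
    have hW2 : ContinuousAt (fun z : ℝ × E => W z.2) (0, y) :=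
      ContinuousAt.comp (f := fun z : ℝ × E => z.2) hWy continuousAt_snd
    have hT : Tendsto (fun z : ℝ × E => z.2 - z.1 • W z.2) (𝓝 (0, y)) (𝓝 y) := by
      have : ContinuousAt (fun z : ℝ × E => z.2 - z.1 • W z.2) (0, y) :=
        continuousAt_snd.sub (continuousAt_fst.smul hW2)
      simpa using this.tendsto
    have e1 : ∀ᶠ z : ℝ × E in 𝓝 (0, y), z.2 - z.1 • W z.2 ∈ U := hT hyU
    rcases (hle y hy).lt_or_eq with hlt | heq
    · have e2 : ∀ᶠ z : ℝ × E in 𝓝 (0, y), Φ (z.2 - z.1 • W z.2) < c :=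
        ((hd y (hKU hy)).continuousAt.tendsto.comp hT).eventually_lt_const hlt
      filter_upwards [e1, e2] with z z1 z2 _ _ using ⟨z1, z2⟩
    · have hs : HasStrictFDerivAt Φ (Φ' y) y :=
        hasStrictFDerivAt_of_hasFDerivAt_of_continuousAt
          (by filter_upwards [hyU] with x hx using hd x hx) (hc.continuousAt hyU)
      have ha := hpos y hy heq
      set ε := Φ' y (W y) / (‖W y‖ + 1) with hε
      have hn : 0 < ‖W y‖ + 1 := by positivity
      have hε0 : 0 < ε := div_pos ha hn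
      have hT2 : Tendsto (fun z : ℝ × E => (z.2 - z.1 • W z.2, z.2)) (𝓝 (0, y)) (𝓝 (y, y)) :=
        hT.prodMk_nhds continuousAt_snd.tendsto
      have e2 := hT2.eventually ((hasStrictFDerivAt_iff_isLittleO.1 hs).bound hε0)
      have e3 : ∀ᶠ z : ℝ × E in 𝓝 (0, y), 0 < Φ' y (W z.2) - ε * ‖W z.2‖ := by
        have hcont : ContinuousAt (fun z : ℝ × E => Φ' y (W z.2) - ε * ‖W z.2‖) (0, y) :=
          ((Φ' y).continuous.continuousAt.comp hW2).sub (continuousAt_const.mul hW2.norm)
        refine hcont.tendsto.eventually_const_lt ?_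
        have : ε * (‖W y‖ + 1) = Φ' y (W y) := div_mul_cancel₀ _ hn.ne'
        show 0 < Φ' y (W y) - ε * ‖W y‖
        linarith
      filter_upwards [e1, e2, e3] with z z1 z2 z3 ht hz
      refine ⟨z1, ?_⟩
      have h5 : z.2 - z.1 • W z.2 - z.2 = (-z.1) • W z.2 := by
        rw [neg_smul]
        abel
      simp only [h5, map_smul, norm_smul, smul_eq_mul, Real.norm_eq_abs, abs_neg,
        abs_of_pos ht] at z2
      have h6 := (abs_le.1 z2).2
      nlinarith [mul_pos ht z3]
  obtain ⟨t, ht, ht0⟩ := ((key.filter_mono nhdsWithin_le_nhds).and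
    (self_mem_nhdsWithin (a := (0 : ℝ)) (s := Ioi 0))).exists
  exact ⟨t, fun x hx => ht x hx ht0 (hle x hx)⟩

/-- a continuous field of ascent -/
theorem asc [FiniteDimensional ℝ E] {U : Set E} {Φ' : E → E →L[ℝ] ℝ} (hc : ContinuousOn Φ' U) :
    ∃ g : E → E, ContinuousOn g U ∧ ∀ x, Φ' x ≠ 0 → 0 < Φ' x (g x) := by
  let b := Module.finBasis ℝ E
  refine ⟨fun x => ∑ i, Φ' x (b i) • b i, ?_, fun x hx => ?_⟩
  · exact continuousOn_finsetSum _ fun i _ =>
      (hc.clm_apply continuousOn_const).smul continuousOn_const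
  · simp only [map_sum, map_smul, smul_eq_mul]
    by_contra hneg
    refine hx (ContinuousLinearMap.coe_injective (b.ext fun i => ?_))
    have h0 := (Finset.sum_eq_zero_iff_of_nonneg fun j _ => mul_self_nonneg (Φ' x (b j))).1
      (le_antisymm (not_lt.1 hneg) (Finset.sum_nonneg fun j _ => mul_self_nonneg _)) i
        (Finset.mem_univ i)
    simpa using h0

end MP

theorem mp : S_MP := by
  intro E _ _ _ U K0 Φ Φ' c0 v1 v2 hU hd hc hcpt hK0 hK0U h1 h2
  have hΦ : ContinuousOn Φ U := fun x hx => (hd x hx).continuousAt.continuousWithinAt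
  set S : Set ℝ := {c | c ≤ c0 ∧ ∃ K : Set E, IsPreconnected K ∧ (∀ x ∈ K, x ∈ U ∧ Φ x ≤ c) ∧
    v1 ∈ K ∧ v2 ∈ K} with hS
  have hne : S.Nonempty := ⟨c0, le_rfl, K0, hK0, hK0U, h1, h2⟩
  have l1 : ∀ c ∈ S, Φ v1 ≤ c := fun c ⟨_, K, _, hK, k1, _⟩ => (hK v1 k1).2
  have l2 : ∀ c ∈ S, Φ v2 ≤ c := fun c ⟨_, K, _, hK, _, k2⟩ => (hK v2 k2).2
  have hbd : BddBelow S := ⟨Φ v1, l1⟩
  have m1 : Φ v1 ≤ sInf S := le_csInf hne l1
  have m2 : Φ v2 ≤ sInf S := le_csInf hne l2
  have hc0 : sInf S ≤ c0 := csInf_le hbd ⟨le_rfl, K0, hK0, hK0U, h1, h2⟩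
  rcases MP.split (MP.cpt hΦ hcpt hc0) ⟨(hK0U v1 h1).1, m1⟩ ⟨(hK0U v2 h2).1, m2⟩ with
    ⟨K, hKL, hK, hKc, k1, k2⟩ | ⟨O1, O2, o1, o2, hO, hL, k1, k2⟩
  · have hKU : K ⊆ U := fun x hx => (hKL hx).1
    have hle : ∀ x ∈ K, Φ x ≤ sInf S := fun x hx => (hKL hx).2
    rcases m1.eq_or_lt with e1 | e1
    · exact ⟨K, v1, hKc, hKU, k1, k2, k1, fun x hx => e1 ▸ hle x hx, m1.trans hc0, Or.inl rfl⟩
    rcases m2.eq_or_lt with e2 | e2
    · exact ⟨K, v2, hKc, hKU, k1, k2, k2, fun x hx => e2 ▸ hle x hx, m2.trans hc0,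
        Or.inr (Or.inl rfl)⟩
    by_cases hz : ∃ z ∈ K, Φ z = sInf S ∧ Φ' z = 0
    · obtain ⟨z, hz, e, e'⟩ := hz
      exact ⟨K, z, hKc, hKU, k1, k2, hz, fun x hx => e ▸ hle x hx, e ▸ hc0, Or.inr (Or.inr e')⟩
    exfalso
    push Not at hz
    obtain ⟨g, hg, hgp⟩ := MP.asc hc
    have hW : ContinuousOn (fun x => max 0 (Φ x - max (Φ v1) (Φ v2)) • g x) U :=
      (continuousOn_const.sup (hΦ.sub continuousOn_const)).smul hg
    obtain ⟨t, ht⟩ := MP.step hU hd hc hW hK hKU hle fun x hx e => by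
      rw [map_smul, smul_eq_mul]
      refine mul_pos (lt_max_of_lt_right ?_) (hgp x (hz x hx e))
      rw [e]
      exact sub_pos.2 (max_lt e1 e2)
    have hh : ContinuousOn (fun x => x - t • (max 0 (Φ x - max (Φ v1) (Φ v2)) • g x)) K :=
      continuousOn_id.sub (continuousOn_const.smul (hW.mono hKU))
    have hsub : (fun x => x - t • (max 0 (Φ x - max (Φ v1) (Φ v2)) • g x)) '' K ⊆ U := by
      rintro _ ⟨x, hx, rfl⟩
      exact (ht x hx).1
    obtain ⟨_, ⟨y, hy, rfl⟩, hmax⟩ :=
      (hK.image_of_continuousOn hh).exists_isMaxOn ⟨_, v1, k1, rfl⟩ (hΦ.mono hsub)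
    have hlt := (ht y hy).2
    refine absurd (csInf_le hbd ⟨hlt.le.trans hc0, _, hKc.image _ hh,
      fun x hx => ⟨hsub hx, hmax hx⟩, ⟨v1, k1, ?_⟩, ⟨v2, k2, ?_⟩⟩) (not_le.2 hlt)
    · simp
    · simp
  · exfalso
    have hex : ∃ c ∈ S, {x ∈ U | Φ x ≤ c} ⊆ O1 ∪ O2 := by
      have hD : IsCompact ({x ∈ U | Φ x ≤ c0} \ (O1 ∪ O2)) := hcpt.diff (o1.union o2)
      rcases ({x ∈ U | Φ x ≤ c0} \ (O1 ∪ O2)).eq_empty_or_nonempty with he | hne'
      · exact ⟨c0, ⟨le_rfl, K0, hK0, hK0U, h1, h2⟩, sdiff_eq_empty.1 he⟩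
      · obtain ⟨y, hy, hmin⟩ := hD.exists_isMinOn hne' (hΦ.mono fun x hx => hx.1.1)
        have hy' : sInf S < Φ y := not_le.1 fun h => hy.2 (hL ⟨hy.1.1, h⟩)
        obtain ⟨c, hcS, hcy⟩ := exists_lt_of_csInf_lt hne hy'
        refine ⟨c, hcS, fun x hx => by_contra fun hx' => ?_⟩
        have h3 : Φ y ≤ Φ x := hmin ⟨⟨hx.1, hx.2.trans hcS.1⟩, hx'⟩
        linarith [hx.2]
    obtain ⟨c, ⟨_, K, hK, hKU, k1', k2'⟩, hsub⟩ := hex
    rcases hK.subset_or_subset o1 o2 hO (fun x hx => hsub (hKU x hx)) with h | h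
    · exact disjoint_left.1 hO (h k2') k2
    · exact disjoint_left.1 hO k1 (h k1')

end Pool.Agent.MP_c98b3a_gt.KL

end

end MrgPart5

-- ======== part 6: formerly Pool.Agent.MP_c98b3a_gt.kl.UNI
section MrgPart6

/-! The mass identity determines the measure on the sphere. -/

open MeasureTheory Real Set Filter Topology

noncomputable section

namespace Pool.Agent.MP_c98b3a_gt.KL

open CF CF.BAL

namespace UNI

variable {n : ℕ}

theorem pos {v : ℝ × Euc (Fin (n + 1))} (hv : ‖v.2‖ < v.1) (p : Sph n) : 0 < aff v p :=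
  aff_pos hv (mem_sphere_zero_iff_norm.1 p.2)

theorem ca (y : ℝ × Euc (Fin (n + 1))) : Continuous fun p : Sph n => aff y p :=
  cont_aff.comp (continuous_const.prodMk continuous_subtype_val)

theorem ig (ν : Measure (Sph n)) [IsFiniteMeasure ν] {g : Sph n → ℝ} (hg : Continuous g) :
    Integrable g ν := hg.integrable_of_hasCompactSupport (HasCompactSupport.of_compactSpace g)

theorem ce {v : ℝ × Euc (Fin (n + 1))} (hv : ‖v.2‖ < v.1) (a : ℝ) :
    Continuous fun p : Sph n => exp (-a * log (aff v p)) :=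
  (continuous_const.mul ((ca v).log fun p => (pos hv p).ne')).rexp

theorem hd (ν : Measure (Sph n)) [IsFiniteMeasure ν] (a : ℝ) {g : Sph n → ℝ} (hg : Continuous g)
    {v : ℝ × Euc (Fin (n + 1))} (hv : ‖v.2‖ < v.1) (y : ℝ × Euc (Fin (n + 1))) :
    (∀ᶠ t : ℝ in 𝓝 0, ‖(v + t • y).2‖ < (v + t • y).1) ∧
    HasDerivAt (fun t : ℝ => ∫ p, exp (-a * log (aff (v + t • y) p)) * g p ∂ν)
      (-a * ∫ p, exp (-(a + 1) * log (aff v p)) * (aff y p * g p) ∂ν) 0 := by
  have h0 : ∀ᶠ t : ℝ in 𝓝 0, ‖(v + t • y).2‖ < (v + t • y).1 :=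
    ContinuousAt.eventually_lt (by fun_prop) (by fun_prop) (by simpa using hv)
  refine ⟨h0, ?_⟩
  obtain ⟨s, hs, hs', hc⟩ := local_compact_nhds h0
  have cF : ContinuousOn (fun x : ℝ × Sph n => -a * (exp (-(a + 1) * log (aff (v + x.1 • y) x.2)) *
      (aff y x.2 * g x.2))) (s ×ˢ univ) := by
    have c1 : Continuous fun x : ℝ × Sph n => aff (v + x.1 • y) x.2 :=
      cont_aff.comp (Continuous.prodMk (by fun_prop) (by fun_prop))
    exact continuousOn_const.mul ((continuousOn_const.mul (c1.continuousOn.log fun x hx =>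
      (pos (hs' hx.1) x.2).ne')).rexp.mul (((ca y).mul hg).comp continuous_snd).continuousOn)
  obtain ⟨C, hC⟩ := (hc.prod isCompact_univ).exists_bound_of_continuousOn cF
  have key := (hasDerivAt_integral_of_dominated_loc_of_deriv_le (μ := ν) (bound := fun _ => C)
    (F := fun (t : ℝ) (p : Sph n) => exp (-a * log (aff (v + t • y) p)) * g p)
    (F' := fun (t : ℝ) (p : Sph n) => -a * (exp (-(a + 1) * log (aff (v + t • y) p)) *
      (aff y p * g p))) hs
    (h0.mono fun t ht => ((ce ht a).mul hg).aestronglyMeasurable)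
    (ig ν ((ce h0.self_of_nhds a).mul hg))
    (continuous_const.mul ((ce h0.self_of_nhds _).mul ((ca y).mul hg))).aestronglyMeasurable
    (ae_of_all _ fun p t ht => hC (t, p) ⟨ht, trivial⟩) (integrable_const C)
    (ae_of_all _ fun p t ht => ?_)).2
  · simpa only [zero_smul, add_zero, integral_const_mul] using key
  have p0 := pos (hs' ht) p
  have d1 : HasDerivAt (fun t : ℝ => aff (v + t • y) p) (aff y p) t := by
    simp only [aff_add]
    simpa using ((hasDerivAt_id' t).mul_const (aff y p)).const_add (aff v p)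
  refine ((((d1.log p0.ne').const_mul (-a)).exp).mul_const (g p)).congr_deriv ?_
  have e : exp (-(a + 1) * log (aff (v + t • y) p)) =
      exp (-a * log (aff (v + t • y) p)) / aff (v + t • y) p := by
    rw [show -(a + 1) * log (aff (v + t • y) p) =
      -a * log (aff (v + t • y) p) - log (aff (v + t • y) p) by ring, exp_sub, exp_log p0]
  rw [e]
  ring

/-- the affine functions on the sphere -/
def af (y : ℝ × Euc (Fin (n + 1))) : C(Sph n, ℝ) := ⟨fun p => aff y p, ca y⟩

theorem cI (ν : Measure (Sph n)) [IsFiniteMeasure ν] :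
    Continuous fun g : C(Sph n, ℝ) => ∫ p, g p ∂ν := by
  refine (LipschitzWith.of_dist_le_mul (K := ⟨ν.real univ, measureReal_nonneg⟩)
    fun g h => ?_).continuous
  rw [dist_eq_norm, ← integral_sub (ig ν g.continuous) (ig ν h.continuous), mul_comm]
  exact norm_integral_le_of_norm_le_const (ae_of_all _ fun p => by
    rw [← dist_eq_norm]; exact ContinuousMap.dist_apply_le_dist p)

theorem sep : (Algebra.adjoin ℝ (range (af (n := n)))).SeparatesPoints := fun x y hxy => by
  refine ⟨_, ⟨af (0, (x : Euc (Fin (n + 1))) - y), Algebra.subset_adjoin ⟨_, rfl⟩, rfl⟩, fun h => ?_⟩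
  have h1 : (0 : ℝ) - inner ℝ ((x : Euc (Fin (n + 1))) - y) (x : Euc (Fin (n + 1))) =
      0 - inner ℝ ((x : Euc (Fin (n + 1))) - y) (y : Euc (Fin (n + 1))) := h
  have h2 : inner ℝ ((x : Euc (Fin (n + 1))) - y) ((x : Euc (Fin (n + 1))) - y) = (0 : ℝ) := by
    rw [inner_sub_right]
    linarith
  exact hxy (Subtype.ext (sub_eq_zero.1 (inner_self_eq_zero.1 h2)))

end UNI

open UNI in
theorem uni : S_UNI := by
  intro n ν ν' _ _ m hm h
  have h1 : ∀ g ∈ Submonoid.closure (range (af (n := n))), ∃ a > (0 : ℝ),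
      ∀ v : ℝ × Euc (Fin (n + 1)), ‖v.2‖ < v.1 → ∫ p, exp (-a * log (aff v p)) * g p ∂ν =
        ∫ p, exp (-a * log (aff v p)) * g p ∂ν' := by
    intro g hg
    induction hg using Submonoid.closure_induction_left with
    | one => exact ⟨m, hm, by simpa using h⟩
    | mul_left x hx g _ ih =>
      obtain ⟨a, a0, ih⟩ := ih
      obtain ⟨y, rfl⟩ := hx
      refine ⟨a + 1, by linarith, fun v hv => ?_⟩
      obtain ⟨e, d1⟩ := hd ν a g.continuous hv y
      have d2 := (hd ν' a g.continuous hv y).2.congr_of_eventuallyEq (e.mono fun t ht => ih _ ht)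
      exact mul_left_cancel₀ (neg_ne_zero.2 a0.ne') (d1.unique d2)
  have h2 : ∀ g ∈ Submodule.span ℝ (Submonoid.closure (range (af (n := n))) : Set C(Sph n, ℝ)),
      ∫ p, g p ∂ν = ∫ p, g p ∂ν' := by
    intro g hg
    induction hg using Submodule.span_induction with
    | mem g hg =>
      obtain ⟨a, -, e⟩ := h1 g hg
      simpa [aff] using e (1, 0) (by simp)
    | zero => simp
    | add f g _ _ a b =>
      simp only [ContinuousMap.add_apply]
      rw [integral_add (ig ν f.continuous) (ig ν g.continuous),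
        integral_add (ig ν' f.continuous) (ig ν' g.continuous), a, b]
    | smul c f _ a =>
      simp only [ContinuousMap.smul_apply, smul_eq_mul, integral_const_mul, a]
  refine ext_of_forall_integral_eq_of_IsFiniteMeasure fun f => ?_
  have h3 := ContinuousMap.continuousMap_mem_subalgebra_closure_of_separatesPoints _ sep
    f.toContinuousMap
  exact closure_minimal (t := {g : C(Sph n, ℝ) | ∫ p, g p ∂ν = ∫ p, g p ∂ν'})
    (fun g hg => h2 g (Algebra.adjoin_eq_span ℝ (range (af (n := n))) ▸ hg))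
    (isClosed_eq (cI ν) (cI ν')) h3

end Pool.Agent.MP_c98b3a_gt.KL

end

end MrgPart6

-- marker of a merged file
example : 731051 + 766731 = 731051 + 766731 := rfl
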