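import Pool.Agent.MP_c98b3a_gt.kl.DIF

/-! Nearly round gauges are wells of the gauge functional. -/

open MeasureTheory Real Set Filter Topology

noncomputable section

namespace Pool.Agent.MP_c98b3a_gt.KL

open CF CF.BAL BAL2

namespace WELL

theorem pt {m : ℝ} {Y : ℝ → ℝ} (hm : 1 ≤ m) (mo : StrictMono Y) (h0 : Y 0 = 0) :
    ∃ s > (0 : ℝ), ∃ C ≥ (0 : ℝ), ∀ H : ℝ → ℝ, (∀ u, HasDerivAt H (m * H u + Y (m * u)) u) →
      ∀ u t, |t| ≤ 1 / 4 → 256 * (m + 1) * s * t ^ 2 - 2 * s - C * Y (m * u) ^ 2 ≤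
        exp (-m * log (1 + t)) * H (u + log (1 + t)) - H u := by
  have m0 : 0 < m := by linarith
  obtain ⟨η, η0, η1⟩ : ∃ η > (0 : ℝ), 100 * (m + 1) * η = 1 :=
    ⟨1 / (100 * (m + 1)), by positivity, by field_simp⟩
  obtain ⟨y, y0, y1, y2⟩ : ∃ y > (0 : ℝ), y ≤ Y (m * η) ∧ Y (m * -η) ≤ -y :=
    ⟨min (Y (m * η)) (-Y (m * -η)), lt_min (h0 ▸ mo (by positivity))
      (neg_pos.2 (h0 ▸ mo (by nlinarith))), min_le_left _ _, le_neg.1 (min_le_right _ _)⟩
  have E0 := exp_pos m
  have E1 := exp_pos (-m)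
  obtain ⟨s, s0, s1⟩ : ∃ s > (0 : ℝ), 16 * (m + 1) * s = η * (exp (-m) * y) :=
    ⟨η * (exp (-m) * y) / (16 * (m + 1)), by positivity, by field_simp⟩
  refine ⟨s, s0, 16 * (m + 1) * s / y ^ 2 + exp m ^ 2 / (4 * s), by positivity,
    fun H hd u t ht => ?_⟩
  have d : ∀ x, HasDerivAt (fun x => exp (-m * x) * H (u + x)) (exp (-m * x) * Y (m * (u + x))) x :=
    fun x => ((((hasDerivAt_id' x).const_mul (-m)).exp).mul
      ((hd _).comp x ((hasDerivAt_id' x).const_add u))).congr_deriv (by simp only [Function.comp]; ring)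
  have dd : Differentiable ℝ fun x => exp (-m * x) * H (u + x) := fun x => (d x).differentiableAt
  have lo : ∀ a b L, a ≤ b → (∀ x ∈ Icc a b, L ≤ exp (-m * x) * Y (m * (u + x))) →
      L * (b - a) ≤ exp (-m * b) * H (u + b) - exp (-m * a) * H (u + a) := fun a b L ab h =>
    (convex_Icc a b).mul_sub_le_image_sub_of_le_deriv dd.continuous.continuousOn
      dd.differentiableOn (fun x hx => (d x).deriv ▸ h x (interior_subset hx)) a
      (left_mem_Icc.2 ab) b (right_mem_Icc.2 ab) ab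
  have up : ∀ a b L, a ≤ b → (∀ x ∈ Icc a b, exp (-m * x) * Y (m * (u + x)) ≤ L) →
      exp (-m * b) * H (u + b) - exp (-m * a) * H (u + a) ≤ L * (b - a) := fun a b L ab h =>
    (convex_Icc a b).image_sub_le_mul_sub_of_deriv_le dd.continuous.continuousOn
      dd.differentiableOn (fun x hx => (d x).deriv ▸ h x (interior_subset hx)) a
      (left_mem_Icc.2 ab) b (right_mem_Icc.2 ab) ab
  have e1 : ∀ x, -1 ≤ x → exp (-m * x) ≤ exp m := fun x h => exp_le_exp.2 (by nlinarith)
  have e2 : ∀ x, x ≤ 1 → exp (-m) ≤ exp (-m * x) := fun x h => exp_le_exp.2 (by nlinarith)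
  have ym : ∀ a b, a ≤ b → Y (m * a) ≤ Y (m * b) := fun a b h =>
    mo.monotone (mul_le_mul_of_nonneg_left h m0.le)
  have ab := abs_nonneg (Y (m * u))
  have A : ∀ x, |x| ≤ 1 → -(exp m * |Y (m * u)|) ≤ exp (-m * x) * H (u + x) - H u := fun x hx => by
    obtain ⟨x1, x2⟩ := abs_le.1 hx
    have p := mul_nonneg E0.le ab
    rcases le_total 0 x with h | h
    · have := lo 0 x (-(exp m * |Y (m * u)|)) h fun z hz => by
        nlinarith [mul_le_mul_of_nonneg_left ((neg_abs_le _).trans (ym u (u + z)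
          (by linarith [hz.1]))) (exp_pos (-m * z)).le, e1 z (by linarith [hz.1])]
      simp only [mul_zero, exp_zero, one_mul, add_zero, sub_zero] at this
      nlinarith
    · have := up x 0 (exp m * |Y (m * u)|) h fun z hz => by
        nlinarith [mul_le_mul_of_nonneg_left ((ym (u + z) u (by linarith [hz.2])).trans
          (le_abs_self _)) (exp_pos (-m * z)).le, e1 z (by linarith [hz.1])]
      simp only [mul_zero, exp_zero, one_mul, add_zero] at this
      nlinarith
  obtain ⟨t1, t2⟩ := abs_le.1 ht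
  have x1 : log (1 + t) ≤ t := by linarith [log_le_sub_one_of_pos (show 0 < 1 + t by linarith)]
  have x2 : t / (1 + t) ≤ log (1 + t) := by
    have := one_sub_inv_le_log_of_pos (show 0 < 1 + t by linarith)
    rwa [show 1 - (1 + t)⁻¹ = t / (1 + t) by
      have : 1 + t ≠ 0 := by linarith
      field_simp; ring] at this
  rw [div_le_iff₀ (by linarith)] at x2
  generalize log (1 + t) = x at x1 x2
  have x3 : |x| ≤ 1 := abs_le.2 ⟨by nlinarith, by linarith⟩
  have q : exp m * |Y (m * u)| ≤ s + exp m ^ 2 / (4 * s) * Y (m * u) ^ 2 := by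
    rw [← sq_abs (Y _), ← sub_nonneg, show s + exp m ^ 2 / (4 * s) * |Y (m * u)| ^ 2 -
      exp m * |Y (m * u)| = (2 * s - exp m * |Y (m * u)|) ^ 2 / (4 * s) by field_simp; ring]
    positivity
  have p1 : 0 ≤ 16 * (m + 1) * s / y ^ 2 * Y (m * u) ^ 2 := by positivity
  have p2 : 256 * (m + 1) * s * t ^ 2 ≤ 16 * (m + 1) * s := by
    nlinarith [mul_le_mul_of_nonneg_left (show t ^ 2 ≤ 1 / 16 by nlinarith)
      (show 0 ≤ (m + 1) * s by positivity)]
  have η2 : η ≤ 1 / 200 := by nlinarith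
  have p3 := mul_pos E1 y0
  rw [add_mul]
  rcases le_total |x| (3 * η) with h | h
  · obtain ⟨h1, h2⟩ := abs_le.1 h
    have h3 : t ^ 2 ≤ (6 * η) ^ 2 := sq_le_sq' (by linarith) (by nlinarith)
    have h4 : 256 * (m + 1) * t ^ 2 ≤ 1 := by nlinarith
    nlinarith [A x x3]
  rcases le_total η |u| with k | k
  · have k1 : y ^ 2 ≤ Y (m * u) ^ 2 := by
      rcases le_abs'.1 k with k | k
      · nlinarith [ym u (-η) k]
      · nlinarith [ym η u k]
    have k2 := mul_le_mul_of_nonneg_left k1 (show 0 ≤ 16 * (m + 1) * s / y ^ 2 by positivity)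
    rw [div_mul_cancel₀ _ (by positivity)] at k2
    linarith [A x x3]
  obtain ⟨k1, k2⟩ := abs_le.1 k
  obtain ⟨x4, x5⟩ := abs_le.1 x3
  rcases le_abs'.1 h with h | h
  · have := up x (-(2 * η)) (-(exp (-m) * y)) (by linarith) fun z hz => by
      nlinarith [mul_le_mul_of_nonneg_left ((ym (u + z) (-η) (by linarith [hz.2])).trans y2)
        (exp_pos (-m * z)).le, e2 z (by linarith [hz.2])]
    nlinarith [A (-(2 * η)) (abs_le.2 ⟨by linarith, by linarith⟩)]
  · have := lo (2 * η) x (exp (-m) * y) (by linarith) fun z hz => by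
      nlinarith [mul_le_mul_of_nonneg_left (y1.trans (ym η (u + z) (by linarith [hz.1])))
        (exp_pos (-m * z)).le, e2 z (by linarith [hz.2])]
    nlinarith [A (2 * η) (abs_le.2 ⟨by linarith, by linarith⟩)]

end WELL

theorem well (h : S_MOM2) : S_WELL := by
  intro m κ Y
  by_cases hy : 1 ≤ m ∧ 0 < κ ∧ StrictMono Y ∧ Y 0 = 0
  swap
  · exact ⟨1, one_pos, fun ι M _ _ _ _ _ _ _ μ _ w z g => (hy ⟨g.hm, g.hκ, g.mono, g.zero⟩).elim⟩
  obtain ⟨hm, hκ, mo, h0⟩ := hy
  obtain ⟨s, s0, C, C0, pt⟩ := WELL.pt hm mo h0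
  refine ⟨s * κ / (C + 1), by positivity, fun ι M _ _ _ _ _ _ _ μ _ w z g H hH v d k v1 v2 hd hV => ?_⟩
  obtain ⟨b1, b2, b3⟩ := h ι M μ w z m κ Y g v d v1 v2
  obtain ⟨cw, hz, h1, -, -, hY, -, -, ⟨A, hA⟩, -, ma⟩ := g
  obtain ⟨A', hA'⟩ := hH.low
  have m0 : 0 < m := by linarith
  have vc : ‖v.2‖ < v.1 := (frame _ v v1 v2).1
  have dc := b2 hd.le
  obtain ⟨W, hW⟩ := isCompact_univ.exists_bound_of_continuousOn cw.continuousOn
  have ml : Measurable fun p => log (w p) := cw.measurable.log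
  have hl : ∀ p, log (w p) ≤ W := fun p =>
    (log_abs (w p) ▸ log_le_self (abs_nonneg _)).trans (hW p trivial)
  have mb : ∀ {b u}, b ≤ u → |Y (m * u)| ≤ |A| + |Y (m * b)| := fun {b u} h => abs_le.2
    ⟨by linarith [neg_abs_le (Y (m * b)), mo.monotone (mul_le_mul_of_nonneg_left h m0.le),
      abs_nonneg A], by linarith [hA (m * u), le_abs_self A, abs_nonneg (Y (m * b))]⟩
  have cH : Continuous H := continuous_iff_continuousAt.2 fun u => (hH.der u).continuousAt
  have hX : Hb fun u => Y (m * (u + k)) ^ 2 := ⟨by fun_prop, fun b =>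
    ⟨(|A| + |Y (m * (b + k))|) ^ 2, fun u hu => by
      rw [norm_pow]
      exact pow_le_pow_left₀ (norm_nonneg _) (mb (by linarith)) 2⟩⟩
  have hK : Hb fun u => H (u + k) := ⟨by fun_prop, fun b =>
    ⟨|A'| + (|A| + |Y (m * (b + k))|), fun u hu => by
      have a1 := abs_le.1 (mb (show b + k ≤ u + k by linarith))
      have a2 : 0 ≤ |A| + |Y (m * (b + k))| := by positivity
      refine abs_le.2 ⟨by linarith [hA' (u + k), le_abs_self A'], ?_⟩
      rcases le_total (H (u + k)) 0 with a | a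
      · linarith [abs_nonneg A']
      · nlinarith [hH.up (u + k), abs_nonneg A']⟩⟩
  have ce : ∀ v : ℝ × Euc ι, ‖v.2‖ < v.1 → Continuous fun p => exp (-m * log (aff v (z p))) :=
    fun v hv => (continuous_const.mul (cL hz h1 hv)).rexp
  have sc : ∀ u : ℝ × Euc ι, ‖u.2‖ < u.1 → II μ w z m H (exp k • u) =
      exp (-m * k) * II μ w z m (fun u => H (u + k)) u := fun u hu => by
    rw [II, II, BAL2.J, BAL2.J, ← integral_const_mul]
    refine integral_congr_ae (.of_forall fun p => ?_)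
    simp only [aff_smul, log_mul (exp_pos k).ne' (aff_pos hu (h1 p)).ne', log_exp, mul_add, exp_add]
    rw [mul_assoc, show k + log (aff u (z p)) - log (w p) = log (aff u (z p)) - log (w p) + k by ring]
  have ct : Continuous fun p => aff d (z p) / aff v (z p) :=
    (cont_aff.comp (continuous_const.prodMk hz)).div (cont_aff.comp (continuous_const.prodMk hz))
      fun p => (aff_pos vc (h1 p)).ne'
  have i1 := integ (μ := μ) (ce v vc)
  have i2 := integ (μ := μ) ((ce v vc).mul (ct.pow 2))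
  have i3 := ig (μ := μ) (ce v vc) (cL hz h1 vc) ml hl hX
  have i4 := ig (μ := μ) (ce v vc) (cL hz h1 vc) ml hl hK
  have i5 := ig (μ := μ) (ce _ dc) (cL hz h1 dc) ml hl hK
  have key := integral_mono (((i2.const_mul (256 * (m + 1) * s)).sub (i1.const_mul (2 * s))).sub
    (i3.const_mul C)) (i5.sub i4) fun p => by
      have a0 := aff_pos vc (h1 p)
      have a1 : |aff d (z p) / aff v (z p)| ≤ 1 / 4 := by
        have := b1 _ (h1 p).le
        rw [abs_div, abs_of_pos a0, div_le_iff₀ a0]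
        exact abs_le_of_sq_le_sq' (by rw [sq_abs]; nlinarith) (by positivity) |>.2
      have a2 : log (aff (v + d) (z p)) = log (aff v (z p)) + log (1 + aff d (z p) / aff v (z p)) := by
        rw [← log_mul a0.ne' (by linarith [(abs_le.1 a1).1]), ← one_smul ℝ d, aff_add, one_smul]
        congr 1
        field_simp
      have a3 := mul_le_mul_of_nonneg_left (pt H hH.der (log (aff v (z p)) - log (w p) + k) _ a1)
        (exp_pos (-m * log (aff v (z p)))).le
      simp only [Pi.sub_apply, Pi.mul_apply, Pi.pow_apply, a2, mul_add (-m), exp_add]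
      rw [show log (aff v (z p)) + log (1 + aff d (z p) / aff v (z p)) - log (w p) + k =
        log (aff v (z p)) - log (w p) + k + log (1 + aff d (z p) / aff v (z p)) by ring]
      linarith
  rw [integral_sub' ((i2.const_mul _).sub (i1.const_mul _)) (i3.const_mul _),
    integral_sub' (i2.const_mul _) (i1.const_mul _), integral_sub' i5 i4, integral_const_mul,
    integral_const_mul, integral_const_mul] at key
  simp only [Pi.mul_apply, Pi.pow_apply] at key
  rw [ma v vc, v2, log_one, mul_zero, exp_zero, mul_one] at key b3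
  rw [sc v vc, sc _ dc, mul_comm (_ / _), ← mul_add]
  refine mul_le_mul_of_nonneg_left ?_ (exp_pos _).le
  have e : s * κ / (C + 1) * (C + 1) = s * κ := div_mul_cancel₀ _ (by positivity)
  simp only [II, BAL2.J] at hV ⊢
  rw [hd] at b3
  nlinarith [mul_le_mul_of_nonneg_left hV C0, mul_le_mul_of_nonneg_left b3 s0.le, mul_pos s0 hκ]

end Pool.Agent.MP_c98b3a_gt.KL

end
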