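import Pool.Agent.MP_c98b3a_gt.kl.TOW2
import Pool.Agent.MP_c98b3a_gt.kl.UNI
import Pool.Agent.MP_c98b3a_gt.kl.DIF
import Pool.Agent.MP_c98b3a_gt.kl.FIN3
import Pool.Agent.MP_c98b3a_gt.kl.WELL

/-! The entropy gap of Kleinian manifolds: all rows. -/

namespace Pool.Agent.MP_c98b3a_gt.KL

theorem tow2_all : S_TOW2 := tow2 lv_all ent_all (ent2 (sh lc) (pu (sh lc)))

theorem bal3_all : S_BAL3 := bal3 mp jc (well mom2) mom2

end Pool.Agent.MP_c98b3a_gt.KL
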