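import Mathlib.Combinatorics.SimpleGraph.Basic
import Pool.Agent.MP_c98b3a_gt.kl.DIF
import Pool.Agent.MP_c98b3a_gt.kl.TOW

-- ======== part 0: formerly Pool.Agent.MP_c98b3a_gt.kl.BAL3
section MrgPart0

/-! An almost balanced gauge is far from round or almost invariant: a mountain pass argument. -/

open MeasureTheory Real Set Filter Topology

noncomputable section

namespace Pool.Agent.MP_c98b3a_gt.KL

open CF CF.BAL BAL2

namespace BAL3

variable {ι : Type} [Fintype ι]

theorem cone_smul {v : ℝ × Euc ι} (hv : ‖v.2‖ < v.1) (k : ℝ) :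
    ‖(exp k • v).2‖ < (exp k • v).1 := by
  rw [Prod.smul_fst, Prod.smul_snd, norm_smul, norm_of_nonneg (exp_pos k).le, smul_eq_mul]
  exact mul_lt_mul_of_pos_left hv (exp_pos k)

theorem log_lor {v : ℝ × Euc ι} (lv : lor v v = 1) (k : ℝ) :
    log (lor (exp k • v) (exp k • v)) = 2 * k := by
  rw [lor_self] at lv
  rw [lor_self, Prod.smul_fst, Prod.smul_snd, norm_smul, norm_of_nonneg (exp_pos k).le,
    smul_eq_mul, mul_pow, mul_pow, ← mul_sub, lv, mul_one, log_pow, log_exp]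
  norm_num

theorem cont_lor : Continuous fun v : ℝ × Euc ι => lor v v := by
  unfold lor
  fun_prop

/-- the properties of the gauge functional -/
structure Fa (m Q k1 : ℝ) (j : ℝ × Euc ι → ℝ) : Prop where
  hm : 0 < m
  hQ : 0 < Q
  low : ∀ v : ℝ × Euc ι, ‖v.2‖ < v.1 → -(Q * exp (-(m / 2) * log (lor v v))) ≤ j v
  sm : ∀ v : ℝ × Euc ι, ‖v.2‖ < v.1 → log (lor v v) ≤ 2 * k1 → 0 ≤ j v
  ray : ∀ v : ℝ × Euc ι, ‖v.2‖ < v.1 → j v < 0 → ∀ t, 0 ≤ t → j (exp t • v) < 0
  far : ∃ T, ∀ v : ℝ × Euc ι, exp T ≤ v.1 - ‖v.2‖ → j v < 0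

variable {m Q k1 : ℝ} {j : ℝ × Euc ι → ℝ}

theorem Fa.ek (h : Fa m Q k1 j) {v : ℝ × Euc ι} (vc : ‖v.2‖ < v.1) (lv : lor v v = 1) {k c : ℝ}
    (c0 : 0 < c) (hj : j (exp k • v) ≤ -c) : exp (m * k) ≤ Q / c := by
  have lu := h.low _ (cone_smul vc k)
  rw [log_lor lv, show -(m / 2) * (2 * k) = -(m * k) by ring, exp_neg] at lu
  rw [le_div_iff₀ c0, ← le_div_iff₀' (exp_pos _), div_eq_mul_inv]
  linarith

theorem pen {v : ℝ × Euc ι} (hv : ‖v.2‖ < v.1) {η : ℝ} (η0 : 0 < η) : 0 ≤ η * log (1 + v.1) :=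
  mul_nonneg η0.le (log_nonneg (by linarith [norm_nonneg v.2]))

theorem Fa.cpt (h : Fa m Q k1 j) (hj : ContinuousOn j {v | ‖v.2‖ < v.1}) {η c : ℝ} (η0 : 0 < η)
    (c0 : 0 < c) : IsCompact {x ∈ {v : ℝ × Euc ι | ‖v.2‖ < v.1} | j x + η * log (1 + x.1) ≤ -c} := by
  set K : Set (ℝ × Euc ι) :=
    {v | exp (2 * k1) ≤ lor v v ∧ 0 ≤ v.1 ∧ v.1 ≤ exp (Q * exp (-m * k1) / η)}
  have Kc : ∀ v ∈ K, ‖v.2‖ < v.1 := fun v ⟨a, b, _⟩ => by
    rw [lor_self] at a
    exact lt_of_pow_lt_pow_left₀ 2 b (by linarith [exp_pos (2 * k1)])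
  have cK : IsCompact K := by
    refine Metric.isCompact_of_isClosed_isBounded ((isClosed_le continuous_const cont_lor).inter
      ((isClosed_le continuous_const (continuous_fst (X := ℝ) (Y := Euc ι))).inter
        (isClosed_le continuous_fst continuous_const)))
      (isBounded_iff_forall_norm_le.2 ⟨exp (Q * exp (-m * k1) / η), fun v hv => ?_⟩)
    rw [Prod.norm_def]
    exact max_le (by rw [norm_of_nonneg hv.2.1]; exact hv.2.2) ((Kc v hv).le.trans hv.2.2)
  have cl := ((hj.mono Kc).add (continuousOn_const (c := η).mul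
    ((continuous_const (y := (1 : ℝ)).add continuous_fst).continuousOn.log fun v hv =>
      (add_pos_of_pos_of_nonneg one_pos hv.2.1).ne'))).preimage_isClosed_of_isClosed cK.isClosed
        (isClosed_Iic (a := -c))
  convert cK.of_isClosed_subset cl inter_subset_left using 1
  ext v
  refine ⟨fun ⟨hv, h2⟩ => ⟨?_, h2⟩, fun hv => ⟨Kc v hv.1, hv.2⟩⟩
  replace hv : ‖v.2‖ < v.1 := hv
  have v0 : 0 < v.1 := (norm_nonneg _).trans_lt hv
  have a : 2 * k1 ≤ log (lor v v) := le_of_not_ge fun h3 => by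
    linarith [h.sm v hv h3, pen hv η0]
  refine ⟨(le_log_iff_exp_le (lor_pos hv)).1 a, v0.le, ?_⟩
  have b : exp (-(m / 2) * log (lor v v)) ≤ exp (-m * k1) := exp_le_exp.2 (by nlinarith [h.hm])
  rw [← log_le_iff_le_exp v0, le_div_iff₀' η0]
  have := mul_le_mul_of_nonneg_left (log_le_log v0 (le_add_of_nonneg_left zero_le_one)) η0.le
  linarith [h.low v hv, mul_le_mul_of_nonneg_left b h.hQ.le]

theorem Fa.path (h : Fa m Q k1 j) {x y : ℝ × Euc ι} (hx : ‖x.2‖ < x.1) (hy : ‖y.2‖ < y.1)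
    (jx : j x < 0) (jy : j y < 0) : ∃ K : Set (ℝ × Euc ι), IsCompact K ∧ IsPreconnected K ∧ x ∈ K ∧
      y ∈ K ∧ ∀ v ∈ K, ‖v.2‖ < v.1 ∧ j v < 0 := by
  obtain ⟨T, hT⟩ := h.far
  obtain ⟨δ, δ0, δ1, δ2⟩ : ∃ δ, 0 < δ ∧ δ ≤ x.1 - ‖x.2‖ ∧ δ ≤ y.1 - ‖y.2‖ :=
    ⟨min _ _, lt_min (sub_pos.2 hx) (sub_pos.2 hy), min_le_left _ _, min_le_right _ _⟩
  obtain ⟨L, L0, L1⟩ : ∃ L, 0 ≤ L ∧ exp T ≤ exp L * δ := ⟨max 0 (T - log δ), le_max_left _ _, by
    rw [← exp_log δ0, ← exp_add, log_exp, exp_le_exp]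
    linarith [le_max_right 0 (T - log δ)]⟩
  have c1 : ∀ v : ℝ × Euc ι, Continuous fun t : ℝ => exp t • v := fun v => by fun_prop
  have c2 : Continuous fun t : ℝ => exp L • ((1 - t) • x + t • y) := by fun_prop
  refine ⟨(fun t => exp t • x) '' Icc 0 L ∪ (fun t : ℝ => exp L • ((1 - t) • x + t • y)) '' Icc 0 1 ∪
    (fun t => exp t • y) '' Icc 0 L, ((isCompact_Icc.image (c1 x)).union
      (isCompact_Icc.image c2)).union (isCompact_Icc.image (c1 y)),
    IsPreconnected.union (exp L • y) (Or.inr ⟨1, by simp, by simp⟩) ⟨L, ⟨L0, le_rfl⟩, rfl⟩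
      (IsPreconnected.union (exp L • x) ⟨L, ⟨L0, le_rfl⟩, rfl⟩ ⟨0, by simp, by simp⟩
        (isPreconnected_Icc.image _ (c1 x).continuousOn)
        (isPreconnected_Icc.image _ c2.continuousOn))
      (isPreconnected_Icc.image _ (c1 y).continuousOn),
    Or.inl (Or.inl ⟨0, ⟨le_rfl, L0⟩, by simp⟩), Or.inr ⟨0, ⟨le_rfl, L0⟩, by simp⟩, ?_⟩
  rintro _ ((⟨t, ht, rfl⟩ | ⟨t, ⟨t0, t1⟩, rfl⟩) | ⟨t, ht, rfl⟩)
  · exact ⟨cone_smul hx t, h.ray x hx jx t ht.1⟩
  · have a : δ ≤ ((1 - t) • x + t • y).1 - ‖((1 - t) • x + t • y).2‖ := by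
      have := norm_add_le ((1 - t) • x.2) (t • y.2)
      rw [norm_smul, norm_smul, norm_of_nonneg t0, norm_of_nonneg (sub_nonneg.2 t1)] at this
      simp only [Prod.fst_add, Prod.snd_add, Prod.smul_fst, Prod.smul_snd, smul_eq_mul]
      nlinarith [mul_le_mul_of_nonneg_left δ1 (sub_nonneg.2 t1), mul_le_mul_of_nonneg_left δ2 t0]
    refine ⟨cone_smul (by linarith) L, hT _ (L1.trans ?_)⟩
    rw [Prod.smul_fst, Prod.smul_snd, norm_smul, norm_of_nonneg (exp_pos L).le, smul_eq_mul,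
      ← mul_sub]
    exact mul_le_mul_of_nonneg_left a (exp_pos L).le
  · exact ⟨cone_smul hy t, h.ray y hy jy t ht.1⟩

theorem near {a b s : ℝ} (hs : 0 < s) (ha : (a - s) ^ 2 ≤ 2 * (1 / 64) * s ^ 2)
    (hb : (b - s) ^ 2 ≤ 2 * (1 / 64) * s ^ 2) : log a - log b ≤ 1 := by
  have h1 := abs_le.1 (abs_le_of_sq_le_sq' (a := a - s) (b := s / 4) (by nlinarith)
    (by positivity) |> abs_le.2)
  have h2 := abs_le.1 (abs_le_of_sq_le_sq' (a := b - s) (b := s / 4) (by nlinarith)
    (by positivity) |> abs_le.2)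
  rw [← log_div (by linarith) (by linarith)]
  refine (log_le_sub_one_of_pos (div_pos (by linarith) (by linarith))).trans ?_
  rw [sub_le_iff_le_add, div_le_iff₀ (by linarith)]
  linarith

variable {M : Type} [TopologicalSpace M] [CompactSpace M] [MeasurableSpace M] [BorelSpace M]
  {μ : Measure M} [IsFiniteMeasure μ] {w : M → ℝ} {z : M → Euc ι} {κ : ℝ} {Y : ℝ → ℝ}

omit [TopologicalSpace M] [CompactSpace M] [MeasurableSpace M] [BorelSpace M] in
theorem sc (h1 : ∀ p, ‖z p‖ = 1) {v : ℝ × Euc ι} (k : ℝ) (hv : ‖v.2‖ < v.1) (p : M) :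
    log (aff (exp k • v) (z p)) = k + log (aff v (z p)) := by
  rw [aff_smul, log_mul (exp_pos k).ne' (aff_pos hv (h1 p)).ne', log_exp]

theorem facts (hG : Gau μ w z m κ Y) (tl : ∀ θ > (0 : ℝ), ∃ S0, ∀ v : ℝ × Euc ι, 0 < v.1 →
    lor v v = 1 → ∫ p in {p | S0 ≤ log (aff v (z p)) - log (w p)},
      exp (-m * log (aff v (z p))) ∂μ ≤ θ) :
    ∃ H Q k1, Prim m Y H ∧ Fa m Q k1 (II μ w z m H) := by
  obtain ⟨cw, hz, h1, hm, hκ, hY, mo, h0, ⟨A, hA⟩, _, ma⟩ := hG
  have m0 : 0 < m := by linarith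
  have Y1 : 0 < Y m := h0 ▸ mo m0
  have A0 : 0 < A := Y1.trans_le (hA _)
  obtain ⟨H, a0, u0, a1, hd, H1, H2, H3⟩ := exH hm hY mo h0 hA
  obtain ⟨C, hC⟩ := isCompact_univ.exists_bound_of_continuousOn cw.continuousOn
  have ml : Measurable fun p => log (w p) := cw.measurable.log
  have hl : ∀ p, log (w p) ≤ C := fun p =>
    (log_abs (w p) ▸ log_le_self (abs_nonneg _)).trans (hC p trivial)
  have mb : ∀ {b u}, b ≤ u → -|Y (m * b)| ≤ Y (m * u) := fun h =>
    (neg_abs_le _).trans (mo.monotone (mul_le_mul_of_nonneg_left h m0.le))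
  have hH : Hb H := ⟨continuous_iff_continuousAt.2 fun u => (hd u).continuousAt, fun b =>
    ⟨A + |Y (m * b)|, fun u hu => abs_le.2 ⟨by linarith [H1 u, abs_nonneg (Y (m * b))], by
      nlinarith [H2 u, mb hu, abs_nonneg (Y (m * b))]⟩⟩⟩
  have an : Antitone H := antitone_of_deriv_nonpos (fun u => (hd u).differentiableAt) fun u => by
    rw [(hd u).deriv]
    linarith [H2 u]
  have ce : ∀ v : ℝ × Euc ι, ‖v.2‖ < v.1 → Continuous fun p => exp (-m * log (aff v (z p))) :=
    fun v hv => (continuous_const.mul (cL hz h1 hv)).rexp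
  have iJ := fun (v : ℝ × Euc ι) (hv : ‖v.2‖ < v.1) => ig (μ := μ) (ce v hv) (cL hz h1 hv) ml hl hH
  obtain ⟨S0, hS⟩ := tl (a0 * κ / (a0 + A)) (by positivity)
  refine ⟨H, A * κ, u0 - S0, ⟨hd, ⟨A, H1⟩, H2⟩, m0, by positivity, fun v hv => ?_,
    fun u uc hu => ?_, fun v hv jv t t0 => ?_, C + 1, fun v hv => ?_⟩
  · rw [mul_assoc, ← neg_mul, ← ma v hv, ← integral_const_mul]
    exact integral_mono ((integ (ce v hv)).const_mul _) (iJ v hv) fun p => by
      simpa only [mul_comm (-A)] using mul_le_mul_of_nonneg_left (H1 _) (exp_pos _).le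
  · obtain ⟨v, k, vc, v1, lv, rfl, e⟩ := polar uc
    have s0 : MeasurableSet {p | S0 ≤ log (aff v (z p)) - log (w p)} :=
      measurableSet_le measurable_const ((cL hz h1 vc).measurable.sub ml)
    have t := hS v (by linarith) lv
    rw [← integral_indicator s0, le_div_iff₀ (by positivity)] at t
    have i1 := integ (μ := μ) (ce v vc)
    have i2 := i1.indicator s0
    refine le_trans ?_ (integral_mono (((i1.const_mul a0).sub (i2.const_mul (a0 + A))).const_mul
      (exp (-m * k))) (iJ _ uc) fun p => ?_)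
    · simp only [Pi.sub_apply]
      rw [integral_const_mul, integral_sub (i1.const_mul _) (i2.const_mul _), integral_const_mul,
        integral_const_mul, ma v vc, lv, log_one, mul_zero, exp_zero]
      exact mul_nonneg (exp_pos _).le (by linarith)
    simp only [Pi.sub_apply, sc h1 k vc, mul_add (-m), exp_add, mul_assoc]
    refine mul_le_mul_of_nonneg_left ?_ (exp_pos _).le
    have p0 := exp_pos (-m * log (aff v (z p)))
    by_cases hp : p ∈ {p | S0 ≤ log (aff v (z p)) - log (w p)}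
    · rw [indicator_of_mem hp]
      nlinarith [H1 (k + log (aff v (z p)) - log (w p))]
    · rw [indicator_of_notMem hp]
      have : log (aff v (z p)) - log (w p) < S0 := not_le.1 fun h => hp h
      nlinarith [H3 (k + log (aff v (z p)) - log (w p)) (by linarith)]
  · refine (integral_mono (iJ _ (cone_smul hv t)) ((iJ v hv).const_mul (exp (-m * t)))
      fun p => ?_).trans_lt ?_
    · simp only [sc h1 t hv, mul_add (-m), exp_add, mul_assoc]
      exact mul_le_mul_of_nonneg_left (mul_le_mul_of_nonneg_left (an (by linarith))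
        (exp_pos _).le) (exp_pos _).le
    · rw [integral_const_mul]
      exact mul_neg_of_pos_of_neg (exp_pos _) jv
  · have c0 : ‖v.2‖ < v.1 := by linarith [exp_pos (C + 1)]
    refine (integral_mono (iJ _ c0) ((integ (ce _ c0)).const_mul (-Y m / m)) fun p => ?_).trans_lt ?_
    · simp only [mul_comm (-Y m / m)]
      refine mul_le_mul_of_nonneg_left ((le_div_iff₀ m0).2 ?_) (exp_pos _).le
      have a := real_inner_le_norm v.2 (z p)
      rw [h1, mul_one] at a
      have b := (le_log_iff_exp_le (aff_pos c0 (h1 p))).2 (hv.trans (by rw [aff]; linarith))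
      have := mo.monotone (le_mul_of_one_le_right (b := log (aff v (z p)) - log (w p)) m0.le
        (by linarith [hl p]))
      linarith [H2 (log (aff v (z p)) - log (w p))]
    · rw [integral_const_mul, ma _ c0]
      exact mul_neg_of_neg_of_pos (div_neg_of_neg_of_pos (by linarith) m0) (by positivity)

omit [TopologicalSpace M] [CompactSpace M] [BorelSpace M] [IsFiniteMeasure μ] in
theorem key (h1 : ∀ p, ‖z p‖ = 1) {v y : ℝ × Euc ι} (vc : ‖v.2‖ < v.1) {k η ε : ℝ} (η0 : 0 < η)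
    (hε : exp (m * k) * η ≤ ε) (hy : |y.1| ≤ v.1)
    (a : ∫ p, exp (-m * log (aff (exp k • v) (z p))) * (aff (exp k • y) (z p) /
      aff (exp k • v) (z p)) * Y (m * (log (aff (exp k • v) (z p)) - log (w p))) ∂μ +
        η * ((1 + (exp k • v).1)⁻¹ * (exp k • y).1) = 0) :
    |∫ p, exp (-m * log (aff v (z p))) * (Y (m * (log (aff v (z p)) - log (w p) + k)) *
      (aff y (z p) / aff v (z p))) ∂μ| ≤ ε := by
  have v0 : 0 < v.1 := (norm_nonneg _).trans_lt vc
  have b : ∫ p, exp (-m * log (aff v (z p))) * (Y (m * (log (aff v (z p)) - log (w p) + k)) *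
      (aff y (z p) / aff v (z p))) ∂μ =
        exp (m * k) * -(η * ((1 + exp k * v.1)⁻¹ * (exp k * y.1))) := by
    simp only [Prod.smul_fst, smul_eq_mul] at a
    rw [← eq_neg_of_add_eq_zero_left a, ← integral_const_mul]
    refine integral_congr_ae (Eventually.of_forall fun p => ?_)
    simp only [sc h1 k vc]
    rw [aff_smul, aff_smul, mul_div_mul_left _ _ (exp_pos k).ne', ← mul_assoc, ← mul_assoc,
      ← mul_assoc, ← exp_add, show m * k + -m * (k + log (aff v (z p))) =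
        -m * log (aff v (z p)) by ring, show k + log (aff v (z p)) - log (w p) =
        log (aff v (z p)) - log (w p) + k by ring]
    ring
  have e0 := exp_pos k
  rw [b, abs_mul, abs_neg, abs_mul, abs_of_pos (exp_pos _), abs_of_pos η0, abs_mul, abs_mul,
    abs_of_pos e0, abs_of_pos (a := (1 + exp k * v.1)⁻¹) (by positivity)]
  refine le_trans (mul_le_mul_of_nonneg_left (mul_le_of_le_one_right η0.le ?_) (exp_pos _).le) hε
  rw [inv_mul_le_iff₀ (by positivity)]
  nlinarith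

end BAL3

open BAL3 in
theorem bal3 (h1 : S_MP) (h2 : S_JC) (h3 : S_WELL) (h4 : S_MOM2) : S_BAL3 := by
  intro m κ Y
  obtain ⟨V0, V1, hW⟩ := h3 m κ Y
  refine ⟨V0, V1, fun ι M _ _ _ _ _ _ _ μ _ w z hG tl A hA hI ε ε0 => ?_⟩
  obtain ⟨H, Q, k1, hP, hF⟩ := facts hG tl
  obtain ⟨J', hJ, cJ, eJ⟩ := h2 ι M μ w z m κ Y hG H hP
  have hM := h4 ι M μ w z m κ Y hG
  replace hW := hW ι M μ w z hG H hP
  have n1 := hG.nz
  have Q0 := hF.hQ
  have cH : Continuous H := continuous_iff_continuousAt.2 fun u => (hP.der u).continuousAt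
  have cY := hG.cY
  set j := II μ w z m H
  have o : IsOpen {v : ℝ × Euc ι | ‖v.2‖ < v.1} := isOpen_lt (by fun_prop) (by fun_prop)
  have cj : ContinuousOn j {v | ‖v.2‖ < v.1} := fun v hv => (hJ v hv).continuousAt.continuousWithinAt
  have p1 : ∀ v : ℝ × Euc ι, ‖v.2‖ < v.1 → 0 < 1 + v.1 := fun v hv => by
    linarith [norm_nonneg v.2]
  have dΦ : ∀ (η : ℝ) (v : ℝ × Euc ι), ‖v.2‖ < v.1 → HasFDerivAt (fun x => j x + η * log (1 + x.1))
      (J' v + η • (1 + v.1)⁻¹ • ContinuousLinearMap.fst ℝ ℝ (Euc ι)) v := fun η v hv =>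
    (hJ v hv).add (((hasFDerivAt_fst.const_add 1).log (p1 v hv).ne').const_mul η)
  by_contra hn
  have crit : ∀ η c : ℝ, 0 < η → 0 < c → η * (Q / c) ≤ ε → ∀ x : ℝ × Euc ι, ‖x.2‖ < x.1 →
      j x ≤ -c → J' x + η • (1 + x.1)⁻¹ • ContinuousLinearMap.fst ℝ ℝ (Euc ι) = 0 →
      ∃ (v : ℝ × Euc ι) (k : ℝ), ‖v.2‖ < v.1 ∧ lor v v = 1 ∧ x = exp k • v ∧
        II μ w z m (fun u => Y (m * (u + k)) ^ 2) v ≤ V0 ∧
        ¬ ∀ p, |log (aff (A v) (z p)) - log (aff v (z p))| ≤ 1 := by
    intro η c η0 c0 hη x xc jx h0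
    obtain ⟨v, k, vc, v1, lv, rfl, -⟩ := polar xc
    have k0 : ∀ y : ℝ × Euc ι, |y.1| ≤ v.1 → _ := fun y hy => key (μ := μ) (w := w) (Y := Y) n1 vc
      η0 (((mul_comm _ _).trans_le (mul_le_mul_of_nonneg_left (hF.ek vc lv c0 jx) η0.le)).trans hη)
      hy (by rw [← eJ _ _ xc]; exact DFunLike.congr_fun h0 (exp k • y))
    refine ⟨v, k, vc, lv, rfl, ?_⟩
    by_contra h5
    refine hn ⟨v, by linarith, lv, k, ?_, fun i => k0 _ ((PiLp.norm_apply_le v.2 i).trans vc.le),
      (not_and_or.1 h5).imp (fun h => (not_le.1 h).le) not_not.1⟩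
    simpa only [div_self (aff_pos vc (n1 _)).ne', mul_one] using k0 v (abs_of_pos
      (by linarith)).le
  have small : ∀ a b c : ℝ, 0 < a → 0 < c → ∃ η, 0 < η ∧ η * (Q / c) ≤ ε ∧ η * b ≤ c ∧ η < a :=
    fun a b c a0 c0 => by
      have t : ∀ d : ℝ, Tendsto (fun η : ℝ => η * d) (𝓝[>] 0) (𝓝 0) := fun d =>
        ((by fun_prop : Continuous fun η : ℝ => η * d).tendsto' 0 0 (zero_mul d)).mono_left
          nhdsWithin_le_nhds
      exact ((eventually_mem_nhdsWithin (a := (0 : ℝ)) (s := Ioi 0)).and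
        (((t _).eventually_le_const ε0).and (((t _).eventually_le_const c0).and
          (nhdsWithin_le_nhds (gt_mem_nhds a0))))).exists
  obtain ⟨x1, c1, j1, v, k, vc, lv, rfl, w1, ni⟩ : ∃ x : ℝ × Euc ι, ‖x.2‖ < x.1 ∧ j x < 0 ∧
      ∃ (v : ℝ × Euc ι) (k : ℝ), ‖v.2‖ < v.1 ∧ lor v v = 1 ∧ x = exp k • v ∧
        II μ w z m (fun u => Y (m * (u + k)) ^ 2) v ≤ V0 ∧
        ¬ ∀ p, |log (aff (A v) (z p)) - log (aff v (z p))| ≤ 1 := by
    obtain ⟨T, hT⟩ := hF.far
    have c0 : ‖((exp T, 0) : ℝ × Euc ι).2‖ < ((exp T, 0) : ℝ × Euc ι).1 := by simpa using exp_pos T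
    have j0 := hT (exp T, 0) (by simp)
    obtain ⟨η, η0, η1, η2, -⟩ := small 1 (log (1 + exp T)) (-j (exp T, 0) / 2) one_pos (by linarith)
    have cK := hF.cpt cj η0 (c := -j (exp T, 0) / 2) (by linarith)
    obtain ⟨u, uK, um⟩ := cK.exists_isMinOn (f := fun x => j x + η * log (1 + x.1))
      ⟨(exp T, 0), c0, by linarith⟩ fun x hx => (dΦ η x hx.1).continuousAt.continuousWithinAt
    have ju : j u ≤ -(-j (exp T, 0) / 2) := by linarith [uK.2, pen uK.1 η0]
    refine ⟨u, uK.1, by linarith, crit η _ η0 (by linarith) η1 u uK.1 ju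
      (IsLocalMin.hasFDerivAt_eq_zero (mem_of_superset (o.mem_nhds uK.1) fun x hx => ?_)
        (dΦ η u uK.1))⟩
    exact (le_total _ _).elim (fun h => um ⟨hx, h⟩) fun h => uK.2.trans h
  obtain ⟨c2, i2⟩ := hI _ c1
  obtain ⟨K0, cK, pK, m1, m2, hK⟩ := hF.path c1 c2 j1 ((i2 H cH).trans_lt j1)
  obtain ⟨x0, x1, x2⟩ := cK.exists_isMaxOn ⟨_, m1⟩ (cj.mono fun x hx => (hK x hx).1)
  obtain ⟨B, hB⟩ := cK.exists_bound_of_continuousOn (f := fun x => log (1 + x.1))
    ((continuous_const.add continuous_fst).continuousOn.log fun x hx => (p1 x (hK x hx).1).ne')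
  obtain ⟨c, c0, hc⟩ : ∃ c, 0 < c ∧ j x0 = -(2 * c) := ⟨-j x0 / 2, by linarith [(hK x0 x1).2],
    by ring⟩
  obtain ⟨η, η0, η1, η2, η3⟩ := small (V0 * (Q / c)⁻¹) B c (by positivity) c0
  obtain ⟨K, y, pk, kU, n2, n3, yK, ym, yc, hy⟩ := h1 _ _ K0 _ _ (-c) _ _ o (dΦ η)
    (cJ.add ((((continuous_const.add continuous_fst).continuousOn.inv₀ fun x hx =>
      (p1 x hx).ne').smul continuousOn_const).const_smul η)) (hF.cpt cj η0 c0) pK
    (fun x hx => ⟨(hK x hx).1, by
      have := mul_le_mul_of_nonneg_left ((le_abs_self _).trans (hB x hx)) η0.le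
      have : j x ≤ j x0 := x2 hx
      linarith⟩) m1 m2
  have jy : j y ≤ -c := by linarith [pen (kU yK) η0]
  obtain ⟨u, l, uc, lu, rfl, w2⟩ : ∃ (u : ℝ × Euc ι) (l : ℝ), ‖u.2‖ < u.1 ∧ lor u u = 1 ∧
      y = exp l • u ∧ II μ w z m (fun t => Y (m * (t + l)) ^ 2) u ≤ V0 := by
    rcases hy with rfl | rfl | hy
    · exact ⟨v, k, vc, lv, rfl, w1⟩
    · exact ⟨A v, k, (hI v vc).1, (hA v v).trans lv, map_smul A _ _,
        ((hI v vc).2 _ (by fun_prop)).trans_le w1⟩
    · obtain ⟨u, l, a, b, c, d, -⟩ := crit η c η0 c0 η1 y (kU yK) jy hy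
      exact ⟨u, l, a, b, c, d⟩
  have u0 : 0 < u.1 := (norm_nonneg _).trans_lt uc
  have ex : ∀ x : ℝ × Euc ι, exp l • (u + (exp (-l) • x - u)) = x := fun x => by
    rw [add_sub_cancel, smul_smul, ← exp_add, add_neg_cancel, exp_zero, one_smul]
  have ins : ∀ x ∈ K, NN u (exp (-l) • x - u) ≤ 1 / 64 := fun x hx => le_of_not_ge fun h => by
    obtain ⟨x', hx', e⟩ := pk.intermediate_value yK hx
      (f := fun x => NN u (exp (-l) • x - u)) (Continuous.continuousOn (by unfold NN lor; fun_prop))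
      (show (1 / 64 : ℝ) ∈ _ from ⟨by
        simp only [smul_smul, ← exp_add, neg_add_cancel, exp_zero, one_smul, sub_self]
        simp [NN, lor], h⟩)
    have a := hW u _ l u0 lu e w2
    have b := (hM u (exp (-l) • x' - u) u0 lu).1 0 (by simp)
    have f := ym x' hx'
    have g := congrArg Prod.fst (ex x')
    rw [ex] at a
    simp only at e
    rw [e] at b
    simp only [aff, inner_zero_right, sub_zero] at b
    simp only [Prod.smul_fst, Prod.fst_add, smul_eq_mul] at f g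
    generalize (exp (-l) • x' - u).1 = d at b g
    have e0 := exp_pos l
    have d1 : -(u.1 / 4) ≤ d := (abs_le_of_sq_le_sq' (by nlinarith) (by positivity)).1
    have d2 : log (1 + exp l * u.1) - log (1 + x'.1) ≤ 1 := by
      have x0 := p1 x' (kU hx')
      rw [← log_div (by positivity) x0.ne']
      refine (log_le_sub_one_of_pos (by positivity)).trans ?_
      rw [sub_le_iff_le_add, div_le_iff₀ x0, ← g]
      nlinarith [mul_le_mul_of_nonneg_left d1 e0.le, mul_pos e0 u0]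
    have d3 := mul_le_mul_of_nonneg_left (inv_anti₀ (exp_pos _) (hF.ek uc lu c0 jy)) V1.le
    rw [← exp_neg, ← neg_mul] at d3
    linarith [mul_le_mul_of_nonneg_left d2 η0.le]
  have fin : ∀ x ∈ K, ∀ p, (aff (exp (-l) • x) (z p) - aff u (z p)) ^ 2 ≤
      2 * (1 / 64) * aff u (z p) ^ 2 := fun x hx p => by
    have a := (hM u (exp (-l) • x - u) u0 lu).1 (z p) (n1 p).le
    rw [show aff (exp (-l) • x - u) (z p) = aff (exp (-l) • x) (z p) - aff u (z p) by
      simp only [aff, Prod.fst_sub, Prod.snd_sub, inner_sub_left]; ring] at a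
    nlinarith [ins x hx, sq_nonneg (aff u (z p))]
  refine ni fun p => ?_
  have a := near (aff_pos uc (n1 p)) (fin _ n2 p) (fin _ n3 p)
  have b := near (aff_pos uc (n1 p)) (fin _ n3 p) (fin _ n2 p)
  rw [sc n1 _ c1, sc n1 _ c2, map_smul, sc n1 _ vc, sc n1 _ (hI v vc).1] at a b
  exact abs_le.2 ⟨by linarith, by linarith⟩

end Pool.Agent.MP_c98b3a_gt.KL

end

end MrgPart0

-- ======== part 1: formerly Pool.Agent.MP_c98b3a_gt.kl.TOW2
section MrgPart1

/-! The tower of a gauge, with multiplicity. -/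

open scoped Manifold ContDiff Matrix Topology
open MeasureTheory Real

noncomputable section

namespace Pool.Agent.MP_c98b3a_gt.KL

open CF

namespace TOW

variable {m : ℕ} {g' : Metrics 𝓘(ℝ, Euc (Fin m)) (Sph m)} {S : Sph m → ℝ} {μ : Measure (Sph m)}

/-- the data of one test function -/
theorem test2 [IsProbabilityMeasure μ] (hΓ : GamF g') (hS : Smo (Fin m) S) (c : SC m (Sph m) μ)
    (h1 : ∀ F G p, c.Γ F G p = exp (2 * S p) * gam g' F G p)
    (h2 : ∀ F, Continuous F → volS m * ∫ p, F p ∂μ = ∫ p, exp (-m * S p) * F p ∂vol g')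
    (h3 : ∀ F, Smo (Fin m) F → ∫ p, scalM g' p * F p ∂vol g' =
      ∫ p, (m * (m - 1) * exp (-2 * S p) * F p + 2 * (m - 1) * gam g' S F p +
        (m - 1) * (m - 2) * gam g' S S p * F p) ∂vol g')
    {q : ℝ → ℝ} (hq : ContDiff ℝ ∞ q) {T : ℝ} (h0 : ∀ t, T - 1 ≤ t → q t = 0) :
    ∃ φ : Sph m → ℝ, Smo (Fin m) φ ∧ tsupport φ ⊆ {p | S p < T} ∧
      volS m * ∫ p, q (S p) ^ 2 ∂μ = ∫ p, φ p ^ 2 ∂vol g' ∧
      volS m * En c q S = ∫ p, (scalM g' p * φ p ^ 2 + 4 * gam g' φ φ p) ∂vol g' ∧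
      volS m * ∫ p, (q (S p) ^ 2 * log (q (S p) ^ 2) - m * S p * q (S p) ^ 2) ∂μ =
        ∫ p, φ p ^ 2 * log (φ p ^ 2) ∂vol g' ∧
      ∀ p, φ p ^ 2 = exp (-m * S p) * q (S p) ^ 2 := by
  have cS := hS.continuous
  have cq := hq.continuous
  have cq' := hq.continuous_deriv (by simp)
  have cg := hΓ.cont hS hS
  have cR := continuous_scalM g'
  have sm : ContDiff ℝ ∞ fun t : ℝ => exp (-m / 2 * t) * q t := by fun_prop
  have d : ∀ t, HasDerivAt (fun t : ℝ => exp (-m / 2 * t) * q t)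
      (exp (-m / 2 * t) * (deriv q t - m / 2 * q t)) t := fun t => by
    have a1 : HasDerivAt (fun t : ℝ => -(m : ℝ) / 2 * t) (-m / 2) t := by
      simpa using (hasDerivAt_id' t).const_mul (-(m : ℝ) / 2)
    exact (a1.exp.mul (hq.differentiable (by simp) t).hasDerivAt).congr_deriv (by ring)
  have ee : ∀ t : ℝ, exp (-m / 2 * t) ^ 2 = exp (-m * t) := fun t => by
    rw [sq, ← exp_add]; congr 1; ring
  have sq : ∀ p, (exp (-m / 2 * S p) * q (S p)) ^ 2 = exp (-m * S p) * q (S p) ^ 2 := fun p => by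
    rw [mul_pow, ee]
  have gg : ∀ p, gam g' (fun p => exp (-m / 2 * S p) * q (S p))
      (fun p => exp (-m / 2 * S p) * q (S p)) p =
        exp (-m * S p) * ((deriv q (S p) - m / 2 * q (S p)) ^ 2 * gam g' S S p) := fun p => by
    have a1 := fun G => hΓ.comp (φ := fun t : ℝ => exp (-m / 2 * t) * q t) hS G p (d _)
    rw [a1, hΓ.symm, a1, ← ee]
    ring
  refine ⟨fun p => exp (-m / 2 * S p) * q (S p), sm.contMDiff.comp hS, ?_, ?_, ?_, ?_, sq⟩
  · refine (closure_minimal (fun p hp => ?_) (isClosed_le cS continuous_const (g := fun _ =>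
      T - 1))).trans fun p (hp : S p ≤ T - 1) => show S p < T by linarith
    by_contra h
    exact hp (by simp [h0 _ (not_le.1 h).le])
  · simp only [sq]
    exact h2 _ (by fun_prop)
  · simp only [sq, gg]
    have dq : ∀ t, deriv (fun t => q t ^ 2) t = 2 * q t * deriv q t := fun t =>
      ((hq.differentiable (by simp) t).hasDerivAt.fun_pow 2).deriv.trans (by simp)
    rw [integral_add (integrable_vol g' (by fun_prop)) (integrable_vol g' (by fun_prop)),
      curv_eq hΓ hS h2 h3 (G := fun t => q t ^ 2) (by fun_prop), integral_const_mul,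
      ← h2 _ (by fun_prop), ← mul_assoc, mul_comm 4, mul_assoc, ← mul_add, ← integral_const_mul,
      ← integral_add (Yam.int_of_cont μ (by simp only [dq]; fun_prop))
        (Yam.int_of_cont μ (by fun_prop))]
    congr 1
    refine integral_congr_ae (.of_forall fun p => ?_)
    have e2 : exp (2 * S p) * exp (-2 * S p) = 1 := by rw [← exp_add]; simp
    simp only [h1, dq]
    linear_combination ((q (S p) - 2 * deriv q (S p)) ^ 2 - (m - 1) * q (S p) ^ 2) *
      gam g' S S p * e2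
  · have c2 : Continuous fun p => q (S p) ^ 2 * log (q (S p) ^ 2) :=
      continuous_mul_log.comp (by fun_prop)
    rw [h2 _ (by fun_prop)]
    refine integral_congr_ae (.of_forall fun p => ?_)
    simp only [sq]
    rcases eq_or_ne (q (S p) ^ 2) 0 with h | h
    · simp [h]
    · rw [log_mul (exp_pos _).ne' h, log_exp]
      ring

end TOW

open TOW in
theorem tow2 (h1 : S_LV) (h2 : S_ENT) (h3 : S_ENT2) : S_TOW2 := by
  intro m M _ _ _ _ _ _ _ g w f g0 hm hK h0 a ha
  have : Nonempty (Fin m) := ⟨⟨0, by omega⟩⟩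
  have m2 : (2 : ℝ) ≤ m := by exact_mod_cast hm
  have hn : (0 : ℝ) < m - 1 := by linarith
  have hv := volS_pos m
  obtain ⟨R, hR⟩ := isCompact_univ.exists_bound_of_continuousOn (continuous_scalM g).continuousOn
  obtain ⟨τ, τ0, hτ⟩ : ∃ τ > (0 : ℝ), (m : ℝ) / 2 * log (4 * π * τ) =
      log ((vol g).real Set.univ) - m - a + 1 := by
    refine ⟨exp (2 / m * (log ((vol g).real Set.univ) - m - a + 1)) / (4 * π), by positivity, ?_⟩
    rw [mul_div_cancel₀ _ (by positivity), log_exp]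
    field_simp
  obtain ⟨K, hL⟩ := hK.lipschitz
  have cw : Continuous w := by
    refine continuous_iff_continuousAt.2 fun x => tendsto_iff_dist_tendsto_zero.2 ?_
    refine squeeze_zero (fun _ => dist_nonneg) (fun y => hL y x) ?_
    have c : Continuous fun y : Sph m => K * ‖incl y - incl x‖ := by unfold incl; fun_prop
    simpa using c.tendsto x
  have hΩ : IsOpen {p | 0 < w p} := isOpen_lt continuous_const cw
  refine ⟨1 / τ, by positivity, R, fun v v1 v2 => ?_⟩
  obtain ⟨mass, geo⟩ := geo_all m g0 _ hm h0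
  obtain ⟨sA, -, -⟩ := geo v v1 v2 _ rfl
  have cA : Continuous fun p : Sph m => log (aff v p) := by simpa using sA.continuous
  have ms := mass v (frame _ v v1 v2).1
  simp only [zero_add, v2, log_one, mul_zero, exp_zero, mul_one] at ms
  set μ := (vol g0).withDensity fun p => ENNReal.ofReal (exp (-m * log (aff v p)) / volS m) with hμ
  have me : Measurable fun p : Sph m => ENNReal.ofReal (exp (-m * log (aff v p)) / volS m) :=
    Measurable.ennreal_ofReal (Continuous.measurable (by fun_prop))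
  have cv : ∀ F : Sph m → ℝ,
      volS m * ∫ p, F p ∂μ = ∫ p, exp (-m * log (aff v p)) * F p ∂vol g0 := fun F => by
    rw [hμ, integral_withDensity_eq_integral_toReal_smul me (by simp), ← integral_const_mul]
    refine integral_congr_ae (.of_forall fun p => ?_)
    simp only [smul_eq_mul]
    rw [ENNReal.toReal_ofReal (by positivity)]
    field_simp
  have pm : IsProbabilityMeasure μ := isProbabilityMeasure_iff_real.2 <| by
    have := cv fun _ => 1
    simp only [integral_const, smul_eq_mul, mul_one, ms] at this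
    exact mul_left_cancel₀ hv.ne' (this.trans (mul_one _).symm)
  have ac : vol g0 ≪ μ := withDensity_absolutelyContinuous' me.aemeasurable
    (.of_forall fun p => (ENNReal.ofReal_pos.2 (by positivity)).ne')
  have := vol_openPos g0
  suffices L : ∀ T, ∃ (c : SC m (Sph m) μ) (S' : Sph m → ℝ),
      c.x = (fun i (p : Sph m) => aff (fr v i) p / aff v p) ∧
      Lev c {p | 0 < w p} (fun p => log (aff v p) - log (w p)) S' T (a - log (theta m)) (1 / τ) R ∧
      ∀ γ : Sph m → Sph m, (∀ p, 0 < w p → 0 < w (γ p) ∧ f (γ p) = f p ∧ γ p ≠ p ∧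
        |log (aff v (γ p)) - log (w (γ p)) - (log (aff v p) - log (w p))| ≤ 1) →
        Ent2 c S' T (a - log (theta m)) by
    refine ⟨μ, pm, cv, ac, pos_iff_ne_zero.2 fun h =>
      (hΩ.measure_pos (vol g0) hK.nonempty).ne' (ac h), ⟨hΩ.measurableSet,
        cA.measurable.sub (measurable_log.comp cw.measurable), ?_, fun T => ?_⟩, fun γ hγ T => ?_⟩
    · obtain ⟨A, hA⟩ := isCompact_univ.exists_bound_of_continuousOn cA.continuousOn
      obtain ⟨W, hW⟩ := isCompact_univ.exists_bound_of_continuousOn cw.continuousOn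
      refine ⟨-A - W, fun p hp => ?_⟩
      have a1 := (abs_le.1 (hA p trivial)).1
      have a2 := (abs_le.1 (hW p trivial)).2
      have a3 := log_le_sub_one_of_pos (show 0 < w p from hp)
      linarith
    · obtain ⟨c, S', b1, b2, -⟩ := L T
      exact ⟨c, S', b1, b2⟩
    · obtain ⟨c, S', b1, b2, b3⟩ := L T
      exact ⟨c, S', b1, b2, b3 γ hγ⟩
  intro T
  obtain ⟨g', S, c, sS, c1, c2, c3, c4, c5, e1, e2, li⟩ :=
    h1 m M g w f g0 hm hK h0 v v1 v2 μ (fun F _ => cv F) T
  obtain ⟨gf, gp⟩ := gam_ (Fin m) (Sph m) g'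
  obtain ⟨sc, -, ent⟩ := h2 (Fin m) (Sph m) M g' g f _ li
  have cS := sS.continuous
  have cg := gf.cont sS sS
  have cR := continuous_scalM g'
  have z0 : ∀ q : ℝ → ℝ, Continuous q → ¬ 0 < ∫ p, q (S p) ^ 2 ∂μ → ∀ p, q (S p) = 0 := by
    intro q cq h p
    have z : ∫ p, q (S p) ^ 2 ∂μ = 0 :=
      le_antisymm (not_lt.1 h) (integral_nonneg fun p => sq_nonneg _)
    have b := c4 (fun p => q (S p) ^ 2) (by fun_prop)
    rw [z, mul_zero] at b
    have b3 := gp _ (by fun_prop) (fun p => by positivity) b.symm p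
    exact (pow_eq_zero_iff two_ne_zero).1 ((mul_eq_zero.1 b3).resolve_left (exp_pos _).ne')
  refine ⟨c, S, c3, ⟨c1 S sS, e1, e2, fun G hG G0 G1 => ?_, fun q hq q0 => ?_,
    fun q hq q0 k Z hZ => ?_⟩, fun γ hγ q ζ hq cζ ζ0 q0 qζ k Z hZ => ?_⟩
  · have cG := hG.continuous
    have cG' := hG.continuous_deriv (by simp)
    have b := curv_eq gf sS c4 c5 hG
    have b1 : -∫ p, scalM g' p * (exp (-m * S p) * G (S p)) ∂vol g' ≤
        volS m * ∫ p, R * G (S p) ∂μ := by
      rw [c4 _ (by fun_prop), ← integral_neg]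
      refine integral_mono (integrable_vol g' (by fun_prop)) (integrable_vol g' (by fun_prop))
        fun p => ?_
      rcases le_or_gt (T - 1) (S p) with h | h
      · simp [G1 _ h]
      · have a1 := (abs_le.1 (hR (f p) trivial)).1
        have a2 := mul_nonneg (exp_pos (-m * S p)).le (G0 (S p))
        rw [← sc p (show S p < T by linarith)] at a1
        simp only
        nlinarith
    have e3 : ∀ p, exp (2 * S p) * gam g' S S p * exp (-2 * S p) = gam g' S S p := fun p => by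
      rw [mul_right_comm, ← exp_add]; simp
    rw [b, integral_sub (Yam.int_of_cont μ (by fun_prop)) (Yam.int_of_cont μ (by fun_prop)),
      ← mul_neg] at b1
    simp only [c2, e3, add_mul (m * (m - 1) * exp _) R]
    rw [integral_add (Yam.int_of_cont μ (by fun_prop)) (Yam.int_of_cont μ (by fun_prop))]
    linarith [le_of_mul_le_mul_left b1 hv]
  · by_cases h : 0 < ∫ p, q (S p) ^ 2 ∂μ
    · obtain ⟨φ, s1, s2, s3, s4, -⟩ := test gf sS c c2 c4 c5 hq q0
      have b := (ent a τ φ _ _ ha τ0 s1 s2 s3 s4 (mul_pos hv h)).2.1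
      rw [Fintype.card_fin, hτ, mul_left_comm, mul_div_mul_left _ _ hv.ne'] at b
      have b1 : 1 ≤ τ * En c q S / ∫ p, q (S p) ^ 2 ∂μ := by linarith
      rw [le_div_iff₀ h] at b1
      rw [one_div, inv_mul_le_iff₀ τ0]
      linarith
    · have z := z0 q hq.continuous h
      simpa [z] using en_nonneg c (c1 S sS) z
  · have hτ' : 0 < exp (-2 * k) / (2 * (m - 1)) := by positivity
    by_cases h : 0 < ∫ p, q (S p) ^ 2 ∂μ
    · obtain ⟨φ, s1, s2, s3, s4, s5⟩ := test gf sS c c2 c4 c5 hq q0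
      have cq := hq.continuous
      have c6 : Continuous fun p => q (S p) ^ 2 * log (q (S p) ^ 2) :=
        continuous_mul_log.comp (by fun_prop)
      have b := (ent a _ φ _ _ ha hτ' s1 s2 s3 s4 (mul_pos hv h)).1
      have e3 : ∫ p, q (S p) ^ 2 * (m * (S p + k) - log (q (S p) ^ 2)) ∂μ = m * k * Z -
          ∫ p, (q (S p) ^ 2 * log (q (S p) ^ 2) - m * S p * q (S p) ^ 2) ∂μ := by
        rw [hZ, ← integral_const_mul, ← integral_sub (Yam.int_of_cont μ (by fun_prop))
          (Yam.int_of_cont μ (by fun_prop))]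
        exact integral_congr_ae (.of_forall fun p => by ring)
      rw [← hZ] at h b
      rw [← s5, Fintype.card_fin, mul_left_comm, ← mul_sub, mul_div_mul_left _ _ hv.ne',
        log_mul hv.ne' h.ne', show 4 * π * (exp (-2 * k) / (2 * (m - 1))) =
          2 * π / (m - 1) * exp (-2 * k) by field_simp; ring,
        log_mul (by positivity) (exp_pos _).ne', log_exp] at b
      rw [e3, log_theta hm]
      have b1 := mul_le_mul_of_nonneg_right b h.le
      rw [sub_mul, sub_mul, add_mul, div_mul_cancel₀ _ h.ne'] at b1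
      linarith
    · have z := z0 q hq.continuous h
      have := mul_nonneg hτ'.le (en_nonneg c (c1 S sS) z)
      simpa [hZ, z] using this
  · have hτ' : 0 < exp (-2 * k) / (2 * (m - 1)) := by positivity
    by_cases h : 0 < ∫ p, q (S p) ^ 2 ∂μ
    · obtain ⟨φ, s1, s2, s3, s4, s5, s6⟩ := test2 gf sS c c2 c4 c5 hq (T := T)
        fun t ht => q0 t (by linarith)
      have cq := hq.continuous
      have c6 : Continuous fun p => q (S p) ^ 2 * log (q (S p) ^ 2) :=
        continuous_mul_log.comp (by fun_prop)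
      have c7 : Continuous fun p => log (1 + ζ (S p)) :=
        (continuous_const.add (cζ.comp cS)).log fun p =>
          (add_pos_of_pos_of_nonneg one_pos (ζ0 _)).ne'
      have b := h3 (Fin m) (Sph m) M g' g f _ li a _ φ (fun p => ζ (S p)) _ _ ha hτ' s1 s2
        (cζ.comp cS) (fun p => ζ0 _) (fun x hx h => by
          have u1 : S x < T - 2 := not_le.1 fun u => h (by simpa [q0 _ u] using s6 x)
          obtain ⟨u2, u3⟩ := Classical.not_imp.1 fun u => not_le.2 hx (e2 x u)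
          obtain ⟨u4, u5, u6, u7⟩ := hγ x u2
          rw [← e1 x u2 (not_le.1 u3).le] at u7
          have u8 := (abs_le.1 u7).2
          rw [← e1 _ u4 (by linarith)] at u7 u8
          exact ⟨γ x, show S (γ x) < T by linarith, u6.symm, u5.symm, by
            rw [s6, s6]; exact qζ _ _ u7⟩) s3 s4 (mul_pos hv h)
      have s7 : volS m * ∫ p, q (S p) ^ 2 * log (1 + ζ (S p)) ∂μ =
          ∫ p, φ p ^ 2 * log (1 + ζ (S p)) ∂vol g' := by
        simp only [s6, mul_assoc]
        exact c4 _ (by fun_prop)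
      have e3 : ∫ p, q (S p) ^ 2 * (m * (S p + k) - log (q (S p) ^ 2)) ∂μ = m * k * Z -
          ∫ p, (q (S p) ^ 2 * log (q (S p) ^ 2) - m * S p * q (S p) ^ 2) ∂μ := by
        rw [hZ, ← integral_const_mul, ← integral_sub (Yam.int_of_cont μ (by fun_prop))
          (Yam.int_of_cont μ (by fun_prop))]
        exact integral_congr_ae (.of_forall fun p => by ring)
      rw [← hZ] at h b
      rw [← s5, ← s7, Fintype.card_fin, mul_left_comm, ← mul_sub, ← mul_sub, mul_div_mul_left _ _ hv.ne',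
        log_mul hv.ne' h.ne', show 4 * π * (exp (-2 * k) / (2 * (m - 1))) =
          2 * π / (m - 1) * exp (-2 * k) by field_simp; ring,
        log_mul (by positivity) (exp_pos _).ne', log_exp] at b
      rw [e3, log_theta hm]
      have b1 := mul_le_mul_of_nonneg_right b h.le
      rw [sub_mul, sub_mul, add_mul, div_mul_cancel₀ _ h.ne'] at b1
      linarith
    · have z := z0 q hq.continuous h
      have := mul_nonneg hτ'.le (en_nonneg c (c1 S sS) z)
      simpa [hZ, z] using this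

end Pool.Agent.MP_c98b3a_gt.KL

end

end MrgPart1

-- marker of a merged file
example : 731051 + 183874 = 731051 + 183874 := rfl
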